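import Pool.Agent.Helper86.CK.KerK

/-!
Packed machine for the classes with tails (MP_c75db0): ALL LAWS of the machines of depth 1 to 4.
-/

set_option autoImplicit false
set_option exponentiation.threshold 4000
noncomputable section
namespace Pool.Agent.Helper86.CK

open Pool.Agent.Helper86.C75 (Z)
open Pool.Agent.Helper86.CX hiding nb
open Pool.Agent.Helper86.CT (Alg DF Tst Up Mo N3 Pr Zp zp0 Bil LK Ps Mc Mq Qd F2 mkV msub m4 Sv Vx Rw)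
open Pool.Agent.Helper90.C75 (Vt mulT avg wtT)
open Pool.Agent.Helper90.KMO (zv cz)
open Pool.Agent.Helper90.KMT (mf0 nmf UOK nlf lf0 U1_ok U2_ok U3_ok U4_ok)
open Pool.Agent.Helper17.KPT
open Pool.Agent.Helper21.KTE (ZS SHL DZ fal SVK YLW QD RTL MX MZ SF)
open Pool.Agent.Helper21.KRN (cN1 cN2 cN3 cN4)

/-! ### products -/

section
variable {D : ℕ} {v p' γ' : Type} {lp' : p' → Vt D → P9} {lv : v → Vt D → VR} {lg' : γ' → Vt D → ℕ}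
  {Sp' : p' → List Bool → Prop} {Sv' : v → List Bool → Prop} {Sg' : γ' → List Bool → Prop}
  {B : Bil p' v γ'} {fl : (Vt D → P9) → p'}

theorem BLK {S : SL} (hS : S = SC D ∧ D ≤ 4) {M : Mu v}
    (hM : MuL D M (fun g V => lg' (B.mu (fl g) V)))
    (hB : BL D lp' lv lg' Ra Rb Rc Sp' Sv' Sg' Pool.Agent.Helper17.KPT.mu1 B) (hfl : ∀ g u, lp' (fl g) u = g u)
    (hfs : ∀ g, Sp' (fl g) (List.replicate D true)) (hs : M.s = B.sb) :
    BL D PZ.g lv GK.g Ra Rb Rc SpK Sv' SgK Pool.Agent.Helper17.KPT.mu1 (bilK hS hM) := by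
  have b0 := bl1
  refine ⟨?_, fun h _ => h, ?_, ?_, ?_, fun _ _ => trivial, ?_, fun _ => trivial, ?_,
    fun _ _ => trivial⟩
  · intro x y I J hx hy u
    exact b0.sa (x := x.g u) (y := y.g u) (I := fun _ => I u) (J := fun _ => J u)
      (fun _ => hx u) (fun _ => hy u) ()
  · intro x y I J hx hy
    show RT lv Rb (M.s x y) _
    rw [hs]
    exact hB.sb hx hy
  · intro x y l hx hy
    show Sv' (M.s x y) l
    rw [hs]
    exact hB.sbs hx hy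
  · intro x y I J hx hy u
    exact b0.sg (x := x.g u) (y := y.g u) (I := fun _ => I u) (J := fun _ => J u)
      (fun _ => hx u) (fun _ => hy u) ()
  · intro x I hx u
    exact b0.m4 (x := x.g u) (I := fun _ => I u) (fun _ => hx u) ()
  · intro x y l l' I J sx sy hx hy
    obtain rfl : l = List.replicate D true := sx
    have h1 : RT lp' Ra (fl x.g) I := fun u => by rw [hfl]; exact hx u
    exact hB.mu (hfs x.g) sy h1 hy

end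

theorem f1v (g : Vt 1 → P9) (u : Vt 1) : l1 (fl1 g) u = g u := by
  obtain ⟨u, i⟩ := u
  fin_cases i <;> rfl
theorem f2v (g : Vt 2 → P9) (u : Vt 2) : l2 (fl2 g) u = g u := by
  obtain ⟨u, i⟩ := u
  fin_cases i
  · exact f1v (fun u => g (u, 0)) u
  · exact f1v (fun u => g (u, 1)) u
  · exact f1v (fun u => g (u, 2)) u
theorem f3v (g : Vt 3 → P9) (u : Vt 3) : l3 (fl3 g) u = g u := by
  obtain ⟨u, i⟩ := u
  fin_cases i
  · exact f2v (fun u => g (u, 0)) u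
  · exact f2v (fun u => g (u, 1)) u
  · exact f2v (fun u => g (u, 2)) u
theorem f4v (g : Vt 4 → P9) (u : Vt 4) : l4 (fl4 g) u = g u := by
  obtain ⟨u, i⟩ := u
  fin_cases i
  · exact f3v (fun u => g (u, 0)) u
  · exact f3v (fun u => g (u, 1)) u
  · exact f3v (fun u => g (u, 2)) u
theorem f1s (g : Vt 1 → P9) : s1 (fl1 g) (List.replicate 1 true) := ⟨rfl, rfl, rfl⟩
theorem f2s (g : Vt 2 → P9) : s2 (fl2 g) (List.replicate 2 true) := ⟨f1s _, f1s _, f1s _⟩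
theorem f3s (g : Vt 3 → P9) : s3 (fl3 g) (List.replicate 3 true) := ⟨f2s _, f2s _, f2s _⟩
theorem f4s (g : Vt 4 → P9) : s4 (fl4 g) (List.replicate 4 true) := ⟨f3s _, f3s _, f3s _⟩

/-! ### the laws `MK` -/

section
variable {D : ℕ}

theorem CLK : CL D (lcK : PA D → Vt D → Cx) lfK := fun _ _ => rfl

theorem LLK {β γ' : Type} {mf : (ℕ → ℝ) → β → (ℕ → ℝ) → ℝ} {lg' : γ' → Vt D → ℕ} {L : LK β γ'}
    (h : LL D mf lg' L) {S : SL} (hS : S = SC D) {E : Ek β} {O : ℕ}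
    (hL : LkL D E O ⟨fun k l T R => lg' (L.lk k l T R)⟩) : LL D mf GK.g (lkK hS hL) := by
  refine ⟨fun k l T R => ?_⟩
  obtain ⟨N, n1, n2, n3⟩ := h.ex k l T R
  exact ⟨N, n1, n2, n3⟩

theorem psK_ok {S : SL} (hS : S = SC D) {ls : List ℕ} (hl : ls = shs (3 ^ D)) {u v w ca cb : ℕ}
    {x y z : GK D} (h : (psK S ls).t u v w ca cb x y z = true) (q : Vt D) :
    Pool.Agent.Helper86.CT.ps0 u v w ca cb (x.g q) (y.g q) (z.g q) = true := by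
  obtain rfl := hS
  obtain rfl := hl
  exact ps_ok x.h y.h z.h h q

end

theorem K1k_ok : Pool.Agent.Helper17.KPT.MK 1 lcK lfK (nmf 0 mf0) PZ.g l1 GK.g SpK s1 SgK K1 :=
  ⟨CLK, ZLK hM1, BLK hS1 Mu1_ok bl_1 f1v f1s rfl, LLK ll_1 hS1.1 Lk1_ok,
    fun h q => psK_ok hS1.1 rfl h q, rfl, by norm_num⟩
theorem K2k_ok : Pool.Agent.Helper17.KPT.MK 2 lcK lfK (nmf 1 (nmf 0 mf0)) PZ.g l2 GK.g SpK s2 SgK K2 :=
  ⟨CLK, ZLK hM2, BLK hS2 Mu2_ok bl_2 f2v f2s rfl, LLK ll_2 hS2.1 Lk2_ok,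
    fun h q => psK_ok hS2.1 rfl h q, rfl, by norm_num⟩
theorem K3k_ok : Pool.Agent.Helper17.KPT.MK 3 lcK lfK (nmf 2 (nmf 1 (nmf 0 mf0))) PZ.g l3 GK.g SpK s3 SgK K3 :=
  ⟨CLK, ZLK hM3, BLK hS3 Mu3_ok bl_3 f3v f3s rfl, LLK ll_3 hS3.1 Lk3_ok,
    fun h q => psK_ok hS3.1 rfl h q, rfl, by norm_num⟩
theorem K4k_ok : Pool.Agent.Helper17.KPT.MK 4 lcK lfK (nmf 3 (nmf 2 (nmf 1 (nmf 0 mf0)))) PZ.g l4 GK.g SpK s4 SgK K4 :=
  ⟨CLK, ZLK hM4, BLK hS4 Mu4_ok bl_4 f4v f4s rfl, LLK ll_4 hS4.1 Lk4_ok,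
    fun h q => psK_ok hS4.1 rfl h q, rfl, by norm_num⟩

/-! ### matrices -/

section
variable {D : ℕ} {α δ ε v : Type}

theorem MQK {lC : α → Vt D → Cx} {ld : δ → Vt D → Pool.Agent.Helper86.CT.Q2} {le : ε → Vt D → Pool.Agent.Helper86.CT.Q4}
    {lv : v → Vt D → VR} {Sa : α → List Bool → Prop} {Sd : δ → List Bool → Prop}
    {Se : ε → List Bool → Prop} {Sv' : v → List Bool → Prop} {F : F2 α α δ} {G : F2 δ δ ε}
    {B : Bil ε ε v} {H : F2 v v v} (h : QS D lC ld le lv Sa Sd Se Sv' F G B H) {C : LC}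
    (hC : C = CC D ∧ D ≤ 4) {T : Tk α} (hT : TkL D lC Sa T) {g : PA D → α}
    (hg : ∀ X : PA D, (∀ v, lC (g X) v = zC2 (X.I v)) ∧ Sa (g X) X.sh) :
    MQ D lcK lv SaK Sv' (mqK hC T g F G B H.f) := by
  obtain ⟨rfl, hD⟩ := hC
  refine ⟨?_, fun h1 h2 => h.h h1 h2, fun h1 h2 => h.hs h1 h2⟩
  intro X Y l l' hX hY
  have key : ∀ {X : Qd (PA D)} {l : List Bool}, QSh SaK X l → QSh Sa (qT (CC D) T g X) l := by
    intro X l hX
    obtain ⟨a, b, c, d, h1, h2, h3, h4, e⟩ := hX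
    have k : ∀ {X : PA D} {l : List Bool}, SaK X l → Sa (toT (CC D) T g X) l := by
      intro X l hl
      rw [← show X.sh = l from hl]
      exact (toT_ok hT hg X).2
    exact ⟨a, b, c, d, k h1, k h2, k h3, k h4, e⟩
  have e : ∀ X : Qd (PA D), qI lC (qT (CC D) T g X) = qI lcK X := by
    intro X
    funext u
    have k : ∀ X : PA D, lC (toT (CC D) T g X) u = lcK X u := fun X => (toT_ok hT hg X).1 u
    show ![2 ^ 48, zv (lC (toT (CC D) T g X.R.v) u).re, zv (lC (toT (CC D) T g X.A.v) u).re,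
      zv (lC (toT (CC D) T g X.W.v) u).re, zv (lC (toT (CC D) T g X.T.v) u).re] = _
    rw [k, k, k, k]
    rfl
  have h1 := mkV_ok h (key hX) (key hY)
  rw [e, e] at h1
  exact h1

end

theorem gt1_ok (X : PA 1) : (∀ v, l1 (gt1 X) v = zC2 (X.I v)) ∧ s1 (gt1 X) X.sh :=
  Classical.choose_spec (gh1 X.hs)
theorem gt2_ok (X : PA 2) : (∀ v, l2 (gt2 X) v = zC2 (X.I v)) ∧ s2 (gt2 X) X.sh :=
  Classical.choose_spec (gh2 X.hs)
theorem gt3_ok (X : PA 3) : (∀ v, l3 (gt3 X) v = zC2 (X.I v)) ∧ s3 (gt3 X) X.sh :=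
  Classical.choose_spec (gh3 X.hs)
theorem gt4_ok (X : PA 4) : (∀ v, l4 (gt4 X) v = zC2 (X.I v)) ∧ s4 (gt4 X) X.sh :=
  Classical.choose_spec (gh4 X.hs)

theorem Q1k_ok : MQ 1 lcK l1 SaK s1 Q1k := MQK qs_1 hC1 Tk1_ok gt1_ok
theorem Q2k_ok : MQ 2 lcK l2 SaK s2 Q2k := MQK qs_2 hC2 Tk2_ok gt2_ok
theorem Q3k_ok : MQ 3 lcK l3 SaK s3 Q3k := MQK qs_3 hC3 Tk3_ok gt3_ok
theorem Q4k_ok : MQ 4 lcK l4 SaK s4 Q4k := MQK qs_4 hC4 Tk4_ok gt4_ok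

/-! ### all laws -/

theorem SFK {D : ℕ} : SF D (SaK : PA D → List Bool → Prop) lcK := by
  intro x l h
  rw [← show x.sh = l from h]
  exact x.hs.map zC2

theorem UK1 : UOK 1 lfK (nmf 0 mf0) K1.U := UOKK hC1 Uk1_ok U1_ok.lin U1_ok.mul0
theorem UK2 : UOK 2 lfK (nmf 1 (nmf 0 mf0)) K2.U := UOKK hC2 Uk2_ok U2_ok.lin U2_ok.mul0
theorem UK3 : UOK 3 lfK (nmf 2 (nmf 1 (nmf 0 mf0))) K3.U := UOKK hC3 Uk3_ok U3_ok.lin U3_ok.mul0
theorem UK4 : UOK 4 lfK (nmf 3 (nmf 2 (nmf 1 (nmf 0 mf0)))) K4.U :=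
  UOKK hC4 Uk4_ok U4_ok.lin U4_ok.mul0

theorem MX1k : MX 1 lcK lfK (nmf 0 mf0) PZ.g l1 GK.g SaK SpK s1 SgK K1 Q1k cN1 :=
  ⟨K1k_ok, Q1k_ok, AOKK hC1, rfl, SHLK hC1, DZK hC1, SFK, Pool.Agent.Helper21.KTE.MN1, UK1, rfl,
    TLWK hC1, Pool.Agent.Helper21.KTE.CV1⟩
theorem MX2k : MX 2 lcK lfK (nmf 1 (nmf 0 mf0)) PZ.g l2 GK.g SaK SpK s2 SgK K2 Q2k cN2 :=
  ⟨K2k_ok, Q2k_ok, AOKK hC2, rfl, SHLK hC2, DZK hC2, SFK, Pool.Agent.Helper21.KTE.MN2, UK2, rfl,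
    TLWK hC2, Pool.Agent.Helper21.KTE.CV2⟩
theorem MX3k : MX 3 lcK lfK (nmf 2 (nmf 1 (nmf 0 mf0))) PZ.g l3 GK.g SaK SpK s3 SgK K3 Q3k cN3 :=
  ⟨K3k_ok, Q3k_ok, AOKK hC3, rfl, SHLK hC3, DZK hC3, SFK, Pool.Agent.Helper21.KTE.MN3, UK3, rfl,
    TLWK hC3, Pool.Agent.Helper21.KTE.CV3⟩
theorem MX4k : MX 4 lcK lfK (nmf 3 (nmf 2 (nmf 1 (nmf 0 mf0)))) PZ.g l4 GK.g SaK SpK s4 SgK K4 Q4k
    cN4 :=
  ⟨K4k_ok, Q4k_ok, AOKK hC4, rfl, SHLK hC4, DZK hC4, SFK, Pool.Agent.Helper21.KTE.MN4, UK4, rfl,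
    TLWK hC4, Pool.Agent.Helper21.KTE.CV4⟩

section
variable {D : ℕ} {α : Type} {lC : α → Vt D → Cx} {lf : α → Vt D → ℂ}

theorem fr_lf {P : Pk α} (hP : PkL D lC P) (hl : CL D lC lf) (x : α) : lfK (frT hP x) = lf x := by
  funext v
  rw [lfK_fr, hl]

theorem YLWK {P : Pk α} (hP : PkL D lC P) (hl : CL D lC lf) {j : ℕ} {y : ℕ → ℕ → α}
    (h : YLW D j lf y) : YLW D j lfK (fun a b => frT hP (y a b)) := by
  refine ⟨fun a b t ht he => ?_, fun a b v => ?_⟩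
  · rw [fr_lf hP hl]
    exact h.av a b t ht he
  · rw [fr_lf hP hl]
    exact h.im a b v

theorem QDK {P : Pk α} (hP : PkL D lC P) (hl : CL D lC lf) {Sa : α → List Bool → Prop} {j : ℕ}
    {q : Cx → Cx → Cx → α} (hs : ∀ {x l}, Sa x l → P.sh x = l) (h : QD D j lf Sa q) :
    QD D j lfK SaK (fun a c b => frT hP (q a c b)) := by
  refine ⟨fun a c b t ht => ?_, fun a c b ha hc hb v => ?_, fun a c b => ?_⟩
  · rw [fr_lf hP hl]
    exact h.av a c b t ht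
  · rw [fr_lf hP hl]
    exact h.im a c b ha hc hb v
  · obtain ⟨l, h1, h2⟩ := h.sh a c b
    exact ⟨l, hs h1, h2⟩

end

theorem RTLK {D : ℕ} (hD : D ≤ 4) : RTL D (lfK : PA D → Vt D → ℂ) rtK := by
  intro x h v
  have h' : andB x.ok (Z.rec (motive := fun _ => Bool) (fun n => Nat.beq n (nat_lit 0))
    (fun n => Nat.beq n (nat_lit 0)) x.im) = true := h
  rw [andB_iff'] at h'
  have a := x.h h'.1
  have h0 : zv x.im = 0 := by
    have h2 := h'.2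
    cases h3 : x.im with
    | p n =>
      rw [h3] at h2
      have h' : n = 0 := Nat.eq_of_beq_eq_true h2
      rw [h']; rfl
    | m n =>
      rw [h3] at h2
      have h' : n = 0 := Nat.eq_of_beq_eq_true h2
      rw [h']; rfl
  have hb : ∀ v, |2 ^ mi D v * (x.I v).2| < 2 ^ 143 := by
    intro v
    have h2 : (2 : ℤ) ^ mi D v ≤ 2 ^ 4 := pow_le_pow_right₀ (by norm_num) ((mi_le D v).trans hD)
    rw [abs_mul, abs_of_nonneg (by positivity)]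
    calc (2 : ℤ) ^ mi D v * |(x.I v).2| ≤ 2 ^ 4 * 2 ^ 60 :=
          mul_le_mul h2 (a.b v) (abs_nonneg _) (by positivity)
      _ < 2 ^ 143 := by norm_num
  have h5 : z3 D (fun v => 2 ^ mi D v * (x.I v).2) = z3 D (fun _ => 0) := by
    have e1 : z3 D (fun v => 2 ^ mi D v * (x.I v).2) = 0 := a.y.symm.trans h0
    have e2 : z3 D (fun _ => 0) = 0 := by
      have := z3_mul D 0 (fun _ => 0)
      simpa using this
    rw [e1, e2]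
  have h6 := z3_inj hb (fun _ => by rw [abs_zero]; positivity) h5 v
  have h7 : (x.I v).2 = 0 := by
    rcases mul_eq_zero.mp h6 with h | h
    · exact absurd h (by positivity)
    · exact h
  rw [lfK_eq]
  unfold cI
  rw [h7]
  simp

/-- NO TAIL -/
theorem MZ1k : MZ 0 lcK lfK (nmf 0 mf0) PZ.g l1 GK.g SaK SpK s1 SgK K1 Q1k cN1
    Pool.Agent.Helper21.KRN.rC1 S1 Pool.Agent.Helper86.CT.W1 y1k qd1k rtK :=
  ⟨MX1k, svK_ok rfl, Pool.Agent.Helper21.KTE.WX1,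
    YLWK Pk1_ok cl_1 (YLW.top Pool.Agent.Helper90.KMT.A0_ok Pool.Agent.Helper21.KTE.SHL0),
    Pool.Agent.Helper21.KTE.RC1, fun j hj => absurd hj (Nat.not_lt_zero j), RTLK (by norm_num)⟩

/-- ONE TAIL (or none) -/
theorem MZ2k : MZ 1 lcK lfK (nmf 1 (nmf 0 mf0)) PZ.g l2 GK.g SaK SpK s2 SgK K2 Q2k cN2
    Pool.Agent.Helper21.KRN.rC2 S2 Pool.Agent.Helper86.CT.W2 y2k qd2k rtK := by
  refine ⟨MX2k, svK_ok rfl, Pool.Agent.Helper21.KTE.WX2,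
    YLWK Pk2_ok cl_2 (YLW.top Pool.Agent.Helper90.KMT.A1_ok Pool.Agent.Helper21.KTE.SHL1),
    Pool.Agent.Helper21.KTE.RC2, ?_, RTLK (by norm_num)⟩
  intro j hj
  interval_cases j
  exact QDK Pk2_ok cl_2 (fun h => Pk2_s h) Pool.Agent.Helper21.KTE.QD2_0

/-- TWO TAILS -/
theorem MZ3k : MZ 2 lcK lfK (nmf 2 (nmf 1 (nmf 0 mf0))) PZ.g l3 GK.g SaK SpK s3 SgK K3 Q3k cN3
    Pool.Agent.Helper21.KRN.rC3 S3 Pool.Agent.Helper86.CT.W3 y3k qd3k rtK := by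
  refine ⟨MX3k, svK_ok rfl, Pool.Agent.Helper21.KTE.WX3,
    YLWK Pk3_ok cl_3 (YLW.top Pool.Agent.Helper90.KMT.A2_ok Pool.Agent.Helper21.KTE.SHL2),
    Pool.Agent.Helper21.KTE.RC3, ?_, RTLK (by norm_num)⟩
  intro j hj
  interval_cases j
  · exact QDK Pk3_ok cl_3 (fun h => Pk3_s h) Pool.Agent.Helper21.KTE.QD3_0
  · exact QDK Pk3_ok cl_3 (fun h => Pk3_s h) Pool.Agent.Helper21.KTE.QD3_1

/-- THREE TAILS -/
theorem MZ4k : MZ 3 lcK lfK (nmf 3 (nmf 2 (nmf 1 (nmf 0 mf0)))) PZ.g l4 GK.g SaK SpK s4 SgK K4 Q4k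
    cN4 Pool.Agent.Helper21.KRN.rC4 S4 Pool.Agent.Helper86.CT.W4 y4k qd4k rtK := by
  refine ⟨MX4k, svK_ok rfl, Pool.Agent.Helper21.KTE.WX4,
    YLWK Pk4_ok cl_4 (YLW.top Pool.Agent.Helper90.KMT.A3_ok Pool.Agent.Helper21.KTE.SHL3),
    Pool.Agent.Helper21.KTE.RC4, ?_, RTLK (by norm_num)⟩
  intro j hj
  interval_cases j
  · exact QDK Pk4_ok cl_4 (fun h => Pk4_s h) Pool.Agent.Helper21.KTE.QD4_0
  · exact QDK Pk4_ok cl_4 (fun h => Pk4_s h) Pool.Agent.Helper21.KTE.QD4_1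
  · exact QDK Pk4_ok cl_4 (fun h => Pk4_s h) Pool.Agent.Helper21.KTE.QD4_2

end Pool.Agent.Helper86.CK
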