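import Pool.Agent.Helper86.CK.KB

/-!
Packed machine (MP_c75db0), row K5: trees to packed numbers and back, tables of vertices.
-/

set_option autoImplicit false
set_option exponentiation.threshold 4000
noncomputable section
namespace Pool.Agent.Helper86.CK

open Pool.Agent.Helper86.C75 (Z)
open Pool.Agent.Helper86.CX
open Pool.Agent.Helper86.CT
open Pool.Agent.Helper90.C75 (Vt avg wtT bt sum_Vt_succ)
open Pool.Agent.Helper90.KMO (zv cz zv_p zv_m zv_add zv_mul)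
open Pool.Agent.Helper90.KMT (mf0 nmf)
open Pool.Agent.Helper17.KPT (FSh lf3 sh3 lz l1 l2 l3 l4 s0 s1 s2 s3 s4 ct)

/-! ### tools -/

theorem andB_iff' {x y : Bool} : andB x y = true ↔ x = true ∧ y = true := by
  cases x <;> cases y <;> simp [andB]

theorem pkZ_succ (D : ℕ) (F : Vt (D + 1) → ℤ) : pkZ (D + 1) F = pkZ D (fun u => F (u, 0)) +
    Wn D * (2 * pkZ D (fun u => F (u, 1)) + Wn D * pkZ D (fun u => F (u, 2))) := by
  have e1 : z3 D (fun u => 2 ^ mi (D + 1) (u, 1) * F (u, 1)) =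
      2 * z3 D (fun u => 2 ^ mi D u * F (u, 1)) := by
    rw [← z3_mul]
    congr 1
    funext u
    show 2 ^ (mi D u + 1) * F (u, 1) = _
    rw [pow_succ]
    ring
  show z3 D (fun u => 2 ^ mi (D + 1) (u, 0) * F (u, 0)) + Wn D *
    (z3 D (fun u => 2 ^ mi (D + 1) (u, 1) * F (u, 1)) + Wn D *
      z3 D (fun u => 2 ^ mi (D + 1) (u, 2) * F (u, 2))) = _
  rw [e1]
  rfl

theorem pkZ_zero (F : Vt 0 → ℤ) : pkZ 0 F = F () := by
  show 2 ^ 0 * F () = _
  rw [pow_zero, one_mul]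

theorem orL_cons (x y : Bool) (l l' : List Bool) : orL (x :: l) (y :: l') = or1 x y :: orL l l' := rfl
theorem orL_nil (l : List Bool) : orL [] l = [] := rfl
theorem orL_cons_nil (x : Bool) (l : List Bool) : orL (x :: l) [] = [] := rfl
theorem or1_eq (x y : Bool) : or1 x y = (x || y) := by cases x <;> cases y <;> rfl

theorem orL_self : ∀ l : List Bool, orL l l = l
  | [] => rfl
  | x :: l => by rw [orL_cons, orL_self l, or1_eq, Bool.or_self]

/-- weaker shapes -/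
inductive LeL : List Bool → List Bool → Prop
  | nil : LeL [] []
  | cons {x y : Bool} {l l' : List Bool} (h : x = true → y = true) (hl : LeL l l') :
      LeL (x :: l) (y :: l')

theorem LeL.fsh {A : Type} {D : ℕ} {l l' : List Bool} (h : LeL l l') {I : Vt D → A}
    (hI : FSh D l I) : FSh D l' I := by
  induction D generalizing l l' with
  | zero =>
    cases h with
    | nil => exact hI
    | cons _ _ => exact hI.elim
  | succ D ih =>
    cases h with
    | nil => exact hI.elim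
    | @cons x y l l' h hl =>
      cases y with
      | true => exact fun i => ih hl (hI.slice i)
      | false =>
        cases x with
        | true => exact absurd (h rfl) (by decide)
        | false => exact ⟨hI.1, ih hl hI.2⟩

theorem fsh_len {A : Type} {D : ℕ} {l : List Bool} {I : Vt D → A} (h : FSh D l I) :
    l.length = D := by
  induction D generalizing l with
  | zero => cases l with
    | nil => rfl
    | cons b l => exact h.elim
  | succ D ih => cases l with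
    | nil => exact h.elim
    | cons b l => rw [List.length_cons, ih (h.slice 0)]

theorem orL_len {l l' : List Bool} (h : l.length = l'.length) : (orL l l').length = l.length := by
  induction l generalizing l' with
  | nil => rfl
  | cons x l ih =>
    cases l' with
    | nil => cases h
    | cons y l' =>
      rw [orL_cons, List.length_cons, List.length_cons, ih (Nat.succ.inj h)]

theorem LeL.left {l l' : List Bool} (h : l.length = l'.length) : LeL l (orL l l') := by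
  induction l generalizing l' with
  | nil => exact LeL.nil
  | cons x l ih =>
    cases l' with
    | nil => cases h
    | cons y l' =>
      refine LeL.cons (fun hx => ?_) (ih (Nat.succ.inj h))
      rw [or1_eq, hx, Bool.true_or]

theorem LeL.right {l l' : List Bool} (h : l.length = l'.length) : LeL l' (orL l l') := by
  induction l generalizing l' with
  | nil =>
    cases l' with
    | nil => exact LeL.nil
    | cons y l' => cases h
  | cons x l ih =>
    cases l' with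
    | nil => cases h
    | cons y l' =>
      refine LeL.cons (fun hx => ?_) (ih (Nat.succ.inj h))
      rw [or1_eq, hx, Bool.or_true]

/-! ### trees to packed numbers -/

structure PkL {α : Type} (D : ℕ) (lC : α → Vt D → Cx) (P : Pk α) : Prop where
  re : ∀ x, zv (P.re x) = pkZ D (fun v => zv (lC x v).re)
  im : ∀ x, zv (P.im x) = pkZ D (fun v => zv (lC x v).im)
  ok : ∀ x, P.ok x = true → ∀ v, |zv (lC x v).re| ≤ 2 ^ 60 ∧ |zv (lC x v).im| ≤ 2 ^ 60
  sh : ∀ x, FSh D (P.sh x) (lC x)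

theorem b60_ok {z : Z} (h : b60 z = true) : |zv z| ≤ 2 ^ 60 := by
  have h1 : ab z ≤ 1152921504606846976 := Nat.le_of_ble_eq_true h
  have h2 : |zv z| = (ab z : ℤ) := by
    cases z with
    | p n => exact abs_of_nonneg (Int.natCast_nonneg n)
    | m n =>
      show |-(n : ℤ)| = (n : ℤ)
      rw [abs_neg]
      exact abs_of_nonneg (Int.natCast_nonneg n)
  rw [h2]
  have h3 : ((ab z : ℕ) : ℤ) ≤ ((1152921504606846976 : ℕ) : ℤ) := by exact_mod_cast h1
  exact h3.trans (by norm_num)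

theorem Pk0_ok : PkL 0 (lz : Cx → Vt 0 → Cx) Pk0 := by
  refine ⟨fun x => (pkZ_zero (fun v => zv (lz x v).re)).symm,
    fun x => (pkZ_zero (fun v => zv (lz x v).im)).symm, fun x h v => ?_, fun x => trivial⟩
  have h' := andB_iff'.mp h
  exact ⟨b60_ok h'.1, b60_ok h'.2⟩

theorem pkN_ok {α : Type} {D : ℕ} {g : α → Vt D → ℤ} {f : α → Z}
    (h : ∀ x, zv (f x) = pkZ D (g x)) (x : N3 α) :
    zv (pkN (CC D).W f x) = pkZ (D + 1) (fun v => g (ct x v.2) v.1) := by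
  rw [pkZ_succ]
  cases x with
  | k x =>
    show zv (Z.mul (Z.p (fd (CC D).W)) (f x)) = pkZ D (g x) + Wn D * (2 * pkZ D (g x) +
      Wn D * pkZ D (g x))
    have e : fd (CC D).W = 1 + Wn D * (2 + Wn D) := by
      rw [CC_W]
      rfl
    rw [zv_mul, zv_p, h, e]
    push_cast
    ring
  | q a c b =>
    show zv (Z.add (f a) (Z.mul (Z.p (CC D).W) (Z.add (Z.mul (Z.p 2) (f c))
      (Z.mul (Z.p (CC D).W) (f b))))) = pkZ D (g a) + Wn D * (2 * pkZ D (g c) +
      Wn D * pkZ D (g b))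
    rw [zv_add, zv_mul, zv_add, zv_mul, zv_mul, zv_p, zv_p, h, h, h, CC_W]
    push_cast
    ring

theorem PkL.step {α : Type} {D : ℕ} {lC : α → Vt D → Cx} {P : Pk α} (h : PkL D lC P) :
    PkL (D + 1) (lf3 lC) (nxPk (CC D) P) := by
  refine ⟨fun x => pkN_ok h.re x, fun x => pkN_ok h.im x, ?_, ?_⟩
  · intro x hx v
    cases x with
    | k x => exact h.ok x hx v.1
    | q a c b =>
      have h1 := andB_iff'.mp hx
      have h2 := andB_iff'.mp h1.2
      obtain ⟨u, i⟩ := v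
      fin_cases i
      · exact h.ok a h1.1 u
      · exact h.ok c h2.1 u
      · exact h.ok b h2.2 u
  · intro x
    cases x with
    | k x => exact ⟨fun u i => rfl, h.sh x⟩
    | q a c b =>
      have la := fsh_len (h.sh a)
      have lc := fsh_len (h.sh c)
      have lb := fsh_len (h.sh b)
      have lcb : (orL (P.sh c) (P.sh b)).length = D := by rw [orL_len (lc.trans lb.symm), lc]
      intro i
      fin_cases i
      · exact (LeL.left (la.trans lcb.symm)).fsh (h.sh a)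
      · exact (LeL.right (la.trans lcb.symm)).fsh ((LeL.left (lc.trans lb.symm)).fsh (h.sh c))
      · exact (LeL.right (la.trans lcb.symm)).fsh ((LeL.right (lc.trans lb.symm)).fsh (h.sh b))

theorem Pk1_ok : PkL 1 l1 Pk1 := Pk0_ok.step
theorem Pk2_ok : PkL 2 l2 Pk2 := Pk1_ok.step
theorem Pk3_ok : PkL 3 l3 Pk3 := Pk2_ok.step
theorem Pk4_ok : PkL 4 l4 Pk4 := Pk3_ok.step

theorem pks_step {α : Type} {C : LC} {P : Pk α} {S : α → List Bool → Prop}
    (h : ∀ {x l}, S x l → P.sh x = l) {x : N3 α} {l : List Bool} (hx : sh3 S x l) :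
    (nxPk C P).sh x = l := by
  cases l with
  | nil => cases x <;> exact hx.elim
  | cons b l =>
    cases x with
    | k x =>
      cases b with
      | true => exact hx.elim
      | false =>
        show false :: P.sh x = _
        rw [h hx]
    | q a c d =>
      cases b with
      | false => exact hx.elim
      | true =>
        obtain ⟨h1, h2, h3⟩ := hx
        show true :: orL (P.sh a) (orL (P.sh c) (P.sh d)) = _
        rw [h h1, h h2, h h3, orL_self, orL_self]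

/-- the shape of a tree with a shape -/
theorem Pk0_s {x : Cx} {l : List Bool} (h : s0 x l) : Pk0.sh x = l := h.symm
theorem Pk1_s {x : N3 Cx} {l : List Bool} (h : s1 x l) : Pk1.sh x = l := pks_step (fun h => Pk0_s h) h
theorem Pk2_s {x : N3 (N3 Cx)} {l : List Bool} (h : s2 x l) : Pk2.sh x = l :=
  pks_step (fun h => Pk1_s h) h
theorem Pk3_s {x : N3 (N3 (N3 Cx))} {l : List Bool} (h : s3 x l) : Pk3.sh x = l :=
  pks_step (fun h => Pk2_s h) h
theorem Pk4_s {x : N3 (N3 (N3 (N3 Cx)))} {l : List Bool} (h : s4 x l) : Pk4.sh x = l :=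
  pks_step (fun h => Pk3_s h) h

/-! ### packed numbers to trees -/

/-- canonical form -/
def zC : ℤ → Z
  | .ofNat n => Z.p n
  | .negSucc n => Z.m (n + 1)
theorem zv_zC (n : ℤ) : zv (zC n) = n := by
  cases n with
  | ofNat n => rfl
  | negSucc n =>
    show -((n + 1 : ℕ) : ℤ) = _
    exact (Int.negSucc_eq n).symm
theorem toz_zC (n v : ℕ) : toz n v = zC ((v : ℤ) - n) := by
  unfold toz
  cases h : Nat.ble n v with
  | true =>
    have h' := Nat.le_of_ble_eq_true h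
    have e : ((v : ℤ) - n) = Int.ofNat (v - n) := by
      rw [Int.ofNat_eq_natCast]
      push_cast [h']
      ring
    rw [e]
    rfl
  | false =>
    have h' : v < n := by
      by_contra hc
      rw [Nat.ble_eq_true_of_le (not_lt.mp hc)] at h
      cases h
    have e : ((v : ℤ) - n) = Int.negSucc (n - v - 1) := by
      rw [Int.negSucc_eq]
      omega
    rw [e]
    show Z.m (n - v) = Z.m (n - v - 1 + 1)
    congr 1
    omega
def zC2 (x : ℤ × ℤ) : Cx := ⟨zC x.1, zC x.2⟩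

/-- position of a digit in bits -/
def pb : (D : ℕ) → Vt D → ℕ
  | 0, _ => 0
  | D + 1, v => pb D v.1 + (v.2 : ℕ) * ww D

/-- a digit -/
theorem q3_slot {D : ℕ} {f : Vt D → ℕ} (hf : ∀ v, f v < 2 ^ 144) (x : ℕ) (v : Vt D) :
    ((q3 D f + Wn D * x) >>> pb D v) % 2 ^ 144 = f v := by
  induction D generalizing x with
  | zero =>
    show ((f () + 2 ^ 144 * x) >>> 0) % 2 ^ 144 = f ()
    rw [Nat.shiftRight_zero, Nat.add_mul_mod_self_left, Nat.mod_eq_of_lt (hf ())]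
  | succ D ih =>
    obtain ⟨u, i⟩ := v
    have e5 : Wn (D + 1) = Wn D * (Wn D * (Wn D * (Wn D * Wn D))) := by rw [Wn_succ]; ring
    have sh : ∀ a y : ℕ, a < Wn D → (a + Wn D * y) >>> ww D = y := by
      intro a y ha
      rw [Nat.shiftRight_eq_div_pow]
      show (a + Wn D * y) / Wn D = y
      rw [Nat.add_mul_div_left _ _ (Wn_pos D), Nat.div_eq_of_lt ha, zero_add]
    have h0 := q3_lt3 fun u => hf (u, 0)
    have h1 := q3_lt3 fun u => hf (u, 1)
    have e : q3 (D + 1) f + Wn (D + 1) * x = q3 D (fun u => f (u, 0)) + Wn D *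
        (q3 D (fun u => f (u, 1)) + Wn D * (q3 D (fun u => f (u, 2)) +
          Wn D * (Wn D * (Wn D * x)))) := by
      rw [q3_succ, e5]
      ring
    rw [e]
    fin_cases i
    · show ((q3 D (fun u => f (u, 0)) + Wn D * _) >>> (pb D u + 0 * ww D)) % 2 ^ 144 = f (u, 0)
      rw [zero_mul, add_zero]
      exact ih (fun u => hf (u, 0)) _ u
    · show ((q3 D (fun u => f (u, 0)) + Wn D * _) >>> (pb D u + 1 * ww D)) % 2 ^ 144 = f (u, 1)
      rw [one_mul, Nat.add_comm (pb D u), Nat.shiftRight_add, sh _ _ h0]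
      exact ih (fun u => hf (u, 1)) _ u
    · show ((q3 D (fun u => f (u, 0)) + Wn D * _) >>> (pb D u + 2 * ww D)) % 2 ^ 144 = f (u, 2)
      rw [two_mul, Nat.add_comm (pb D u), Nat.shiftRight_add, Nat.shiftRight_add, sh _ _ h0,
        sh _ _ h1]
      exact ih (fun u => hf (u, 2)) _ u

/-- `U`: the digits `2 ^ m F` plus `2 ^ 143` -/
structure TkL {α : Type} (D : ℕ) (lC : α → Vt D → Cx) (Sa : α → List Bool → Prop) (T : Tk α) :
    Prop where
  t : ∀ {l : List Bool} {I : Vt D → ℤ × ℤ} {x y : Z}, FSh D l I →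
    (∀ v, |(I v).1| ≤ 2 ^ 60 ∧ |(I v).2| ≤ 2 ^ 60) → zv x = pkZ D (fun v => (I v).1) →
    zv y = pkZ D (fun v => (I v).2) →
    (∀ v, lC (T.t l 0 0 (ofs (Nat.mul HB (CC D).o3) x) (ofs (Nat.mul HB (CC D).o3) y)) v = zC2 (I v)) ∧
      Sa (T.t l 0 0 (ofs (Nat.mul HB (CC D).o3) x) (ofs (Nat.mul HB (CC D).o3) y)) l

/-- the general position -/
structure TkG {α : Type} (D : ℕ) (lC : α → Vt D → Cx) (Sa : α → List Bool → Prop) (T : Tk α) :
    Prop where
  t : ∀ {l : List Bool} {I : Vt D → ℤ × ℤ} {m s U V : ℕ}, FSh D l I → m + D ≤ 80 →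
    (∀ v, |(I v).1| ≤ 2 ^ 60 ∧ |(I v).2| ≤ 2 ^ 60) →
    (∀ v, (U >>> (s + pb D v)) % 2 ^ 144 = (2 ^ 143 + 2 ^ (m + mi D v) * (I v).1).toNat) →
    (∀ v, (V >>> (s + pb D v)) % 2 ^ 144 = (2 ^ 143 + 2 ^ (m + mi D v) * (I v).2).toNat) →
    (∀ v, lC (T.t l m s U V) v = zC2 (I v)) ∧ Sa (T.t l m s U V) l

theorem HB_shr {m : ℕ} (hm : m ≤ 143) : HB >>> m = 2 ^ (143 - m) := by
  rw [HB_eq, Nat.shiftRight_eq_div_pow, Nat.pow_div hm (by norm_num)]

theorem B1_shr {m : ℕ} (hm : m ≤ 144) : B1 >>> m = 2 ^ (144 - m) - 1 := by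
  rw [B1_eq]
  apply Nat.eq_of_testBit_eq
  intro i
  rw [Nat.testBit_shiftRight, Nat.testBit_two_pow_sub_one, Nat.testBit_two_pow_sub_one]
  congr 1
  exact propext ⟨fun h => by omega, fun h => by omega⟩

/-- the digit `2 ^ 143 + 2 ^ m n` without its factor -/
theorem dg_val {m s U : ℕ} {n : ℤ} (hm : m ≤ 80) (hn : |n| ≤ 2 ^ 60)
    (h : (U >>> s) % 2 ^ 144 = (2 ^ 143 + 2 ^ m * n).toNat) :
    ((U >>> (s + m)) &&& (B1 >>> m)) = (2 ^ (143 - m) + n).toNat ∧ 0 ≤ 2 ^ (143 - m) + n := by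
  have hb := abs_le.mp hn
  have e143 : (2 : ℤ) ^ 143 = 2 ^ m * 2 ^ (143 - m) := by rw [← pow_add]; congr 1; omega
  have hp : (2 : ℤ) ^ 60 ≤ 2 ^ (143 - m) := pow_le_pow_right₀ (by norm_num) (by omega)
  have hc : (0 : ℤ) < 2 ^ m := by positivity
  have h0 : 0 ≤ 2 ^ (143 - m) + n := by linarith
  have e1 : (2 ^ 143 + 2 ^ m * n).toNat = 2 ^ m * (2 ^ (143 - m) + n).toNat := by
    have e : (2 : ℤ) ^ 143 + 2 ^ m * n = 2 ^ m * (2 ^ (143 - m) + n) := by rw [e143]; ring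
    rw [e]
    zify
    rw [Int.toNat_of_nonneg (mul_nonneg hc.le h0), Int.toNat_of_nonneg h0]
  refine ⟨?_, h0⟩
  rw [B1_shr (by omega), Nat.and_two_pow_sub_one_eq_mod, Nat.shiftRight_add,
    Nat.shiftRight_eq_div_pow _ m]
  have hd : (U >>> s) / 2 ^ m % 2 ^ (144 - m) = (U >>> s) % 2 ^ 144 / 2 ^ m := by
    have e3 : (2 : ℕ) ^ 144 = 2 ^ m * 2 ^ (144 - m) := by rw [← pow_add]; congr 1; omega
    rw [e3, Nat.mod_mul_right_div_self]
  rw [hd, h, e1, Nat.mul_div_cancel_left _ (by positivity)]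

theorem dg_ok {m s U : ℕ} {n : ℤ} (hm : m ≤ 80) (hn : |n| ≤ 2 ^ 60)
    (h : (U >>> s) % 2 ^ 144 = (2 ^ 143 + 2 ^ m * n).toNat) : dg m s U = zC n := by
  obtain ⟨e2, h0⟩ := dg_val hm hn h
  show toz (HB >>> m) ((U >>> (s + m)) &&& (B1 >>> m)) = _
  rw [e2, toz_zC]
  congr 1
  rw [HB_shr (by omega), Int.toNat_of_nonneg h0]
  push_cast
  ring

/-- the digits of a packed number with offset -/
theorem ofs_dig {D : ℕ} (hD : D ≤ 80) {z : Z} {F : Vt D → ℤ} (hF : ∀ v, |F v| ≤ 2 ^ 60)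
    (hz : zv z = pkZ D F) (v : Vt D) : ((ofs (Nat.mul HB (CC D).o3) z) >>> pb D v) % 2 ^ 144 =
      (2 ^ 143 + 2 ^ mi D v * F v).toNat := by
  have hbd : ∀ v : Vt D, |2 ^ mi D v * F v| < 2 ^ 143 := by
    intro v
    have h1 : (2 : ℤ) ^ mi D v ≤ 2 ^ 80 :=
      pow_le_pow_right₀ (by norm_num) ((mi_le D v).trans hD)
    rw [abs_mul, abs_of_pos (show (0 : ℤ) < 2 ^ mi D v by positivity)]
    calc 2 ^ mi D v * |F v| ≤ 2 ^ 80 * 2 ^ 60 :=
          mul_le_mul h1 (hF v) (abs_nonneg _) (by positivity)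
      _ < 2 ^ 143 := by norm_num
  have e : ofs (HB * (CC D).o3) z = q3 D (fun v => (((2 ^ 143 : ℕ) : ℤ) + 2 ^ mi D v * F v).toNat) := by
    rw [HB_eq]
    refine ofs_q3 hz fun v => ?_
    push_cast
    exact (hbd v).le
  have h3 : ((2 ^ 143 : ℕ) : ℤ) = 2 ^ 143 := by norm_num
  rw [h3] at e
  have hlt : ∀ v : Vt D, (2 ^ 143 + 2 ^ mi D v * F v).toNat < 2 ^ 144 := by
    intro v
    have h2 := abs_lt.mp (hbd v)
    have e5 : (2 : ℤ) ^ 144 = 2 ^ 143 + 2 ^ 143 := by norm_num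
    zify
    rw [Int.toNat_of_nonneg (by linarith), e5]
    linarith
  have h4 := q3_slot hlt 0 v
  rw [mul_zero, add_zero] at h4
  show ((ofs (HB * (CC D).o3) z) >>> pb D v) % 2 ^ 144 = _
  rw [e, h4]

theorem Tk0_g : TkG 0 (lz : Cx → Vt 0 → Cx) s0 Tk0 := by
  refine ⟨fun {l I m s U V} hI hm hb hU hV => ?_⟩
  cases l with
  | cons b l => exact hI.elim
  | nil =>
    refine ⟨fun v => ?_, rfl⟩
    show (⟨dg m s U, dg m s V⟩ : Cx) = zC2 (I v)
    have h1 : dg m s U = zC (I v).1 := dg_ok (by omega) (hb v).1 (hU v)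
    have h2 : dg m s V = zC (I v).2 := dg_ok (by omega) (hb v).2 (hV v)
    rw [h1, h2]
    rfl

theorem TkG.step {α : Type} {D : ℕ} {lC : α → Vt D → Cx} {Sa : α → List Bool → Prop} {T : Tk α}
    (h : TkG D lC Sa T) : TkG (D + 1) (lf3 lC) (sh3 Sa) (nxTk (CC D) T) := by
  refine ⟨fun {l I m s U V} hI hm hb hU hV => ?_⟩
  cases l with
  | nil => exact hI.elim
  | cons b l =>
    have key0 : ∀ i : Fin 3, i ≠ 1 → (∀ v, lC (T.t l m (s + (i : ℕ) * ww D) U V) v =
        zC2 (I (v, i))) ∧ Sa (T.t l m (s + (i : ℕ) * ww D) U V) l := by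
      intro i hi
      have hp : ∀ v : Vt D, s + (i : ℕ) * ww D + pb D v = s + pb (D + 1) (v, i) := fun v => by
        show _ = s + (pb D v + (i : ℕ) * ww D)
        ring
      have hq : ∀ v : Vt D, mi (D + 1) (v, i) = mi D v := fun v => by
        show mi D v + (if i = 1 then 1 else 0) = _
        rw [if_neg hi, add_zero]
      refine h.t (I := fun v => I (v, i)) (hI.slice i) (by omega) (fun v => hb (v, i))
        (fun v => ?_) (fun v => ?_)
      · rw [hp, hU, hq]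
      · rw [hp, hV, hq]
    have key1 : (∀ v, lC (T.t l (m + 1) (s + ww D) U V) v =
        zC2 (I (v, 1))) ∧ Sa (T.t l (m + 1) (s + ww D) U V) l := by
      have hp : ∀ v : Vt D, s + ww D + pb D v = s + pb (D + 1) (v, 1) := fun v => by
        show _ = s + (pb D v + 1 * ww D)
        ring
      have hq : ∀ v : Vt D, m + mi (D + 1) (v, 1) = m + 1 + mi D v := fun v => by
        show m + (mi D v + 1) = _
        ring
      refine h.t (I := fun v => I (v, 1)) (hI.slice 1) (by omega) (fun v => hb (v, 1))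
        (fun v => ?_) (fun v => ?_)
      · rw [hp, hU, hq]
      · rw [hp, hV, hq]
    have k0 := key0 0 (by decide)
    have k2 := key0 2 (by decide)
    have e0 : s + ((0 : Fin 3) : ℕ) * ww D = s := by simp
    have e2 : s + ((2 : Fin 3) : ℕ) * ww D = s + 2 * (CC D).w := by rw [CC_w]; rfl
    rw [e0] at k0
    rw [e2] at k2
    rw [← CC_w] at key1
    cases b with
    | false =>
      refine ⟨fun v => ?_, k0.2⟩
      obtain ⟨u, i⟩ := v
      show lC (T.t l m s U V) u = zC2 (I (u, i))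
      rw [k0.1 u, hI.1 u i]
    | true =>
      refine ⟨fun v => ?_, k0.2, key1.2, k2.2⟩
      obtain ⟨u, i⟩ := v
      fin_cases i
      · exact k0.1 u
      · exact key1.1 u
      · exact k2.1 u

theorem TkG.ok {α : Type} {D : ℕ} (hD : D ≤ 80) {lC : α → Vt D → Cx}
    {Sa : α → List Bool → Prop} {T : Tk α} (h : TkG D lC Sa T) : TkL D lC Sa T := by
  refine ⟨fun {l I x y} hI hb hx hy => ?_⟩
  have key : ∀ {z : Z} {F : Vt D → ℤ}, (∀ v, |F v| ≤ 2 ^ 60) → zv z = pkZ D F → ∀ v,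
      ((ofs (Nat.mul HB (CC D).o3) z) >>> (0 + pb D v)) % 2 ^ 144 =
        (2 ^ 143 + 2 ^ (0 + mi D v) * F v).toNat := by
    intro z F hF hz v
    rw [zero_add, zero_add]
    exact ofs_dig hD hF hz v
  exact h.t hI (by omega) hb (key (fun v => (hb v).1) hx) (key (fun v => (hb v).2) hy)

theorem Tk1_g : TkG 1 l1 s1 Tk1 := Tk0_g.step
theorem Tk2_g : TkG 2 l2 s2 Tk2 := Tk1_g.step
theorem Tk3_g : TkG 3 l3 s3 Tk3 := Tk2_g.step
theorem Tk4_g : TkG 4 l4 s4 Tk4 := Tk3_g.step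
theorem Tk1_ok : TkL 1 l1 s1 Tk1 := Tk1_g.ok (by norm_num)
theorem Tk2_ok : TkL 2 l2 s2 Tk2 := Tk2_g.ok (by norm_num)
theorem Tk3_ok : TkL 3 l3 s3 Tk3 := Tk3_g.ok (by norm_num)
theorem Tk4_ok : TkL 4 l4 s4 Tk4 := Tk4_g.ok (by norm_num)

theorem gh_step {α : Type} {D : ℕ} {lC : α → Vt D → Cx} {Sa : α → List Bool → Prop}
    (h : ∀ {l : List Bool} {I : Vt D → ℤ × ℤ}, FSh D l I → ∃ x, (∀ v, lC x v = zC2 (I v)) ∧ Sa x l)
    {l : List Bool} {I : Vt (D + 1) → ℤ × ℤ} (hI : FSh (D + 1) l I) :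
    ∃ x : N3 α, (∀ v, lf3 lC x v = zC2 (I v)) ∧ sh3 Sa x l := by
  cases l with
  | nil => exact hI.elim
  | cons b l =>
    obtain ⟨a, ha, ha'⟩ := h (hI.slice 0)
    cases b with
    | false =>
      refine ⟨N3.k a, fun v => ?_, ha'⟩
      obtain ⟨u, i⟩ := v
      show lC a u = zC2 (I (u, i))
      rw [ha u, hI.1 u i]
    | true =>
      obtain ⟨c, hc, hc'⟩ := h (hI.slice 1)
      obtain ⟨b, hb, hb'⟩ := h (hI.slice 2)
      refine ⟨N3.q a c b, fun v => ?_, ha', hc', hb'⟩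
      obtain ⟨u, i⟩ := v
      fin_cases i
      · exact ha u
      · exact hc u
      · exact hb u

/-- ghost trees: a tree with given leaves and shape exists -/
theorem gh0 {l : List Bool} {I : Vt 0 → ℤ × ℤ} (h : FSh 0 l I) :
    ∃ x : Cx, (∀ v, lz x v = zC2 (I v)) ∧ s0 x l := by
  cases l with
  | cons b l => exact h.elim
  | nil => exact ⟨zC2 (I ()), fun v => rfl, rfl⟩
theorem gh1 {l : List Bool} {I : Vt 1 → ℤ × ℤ} (h : FSh 1 l I) :
    ∃ x : N3 Cx, (∀ v, l1 x v = zC2 (I v)) ∧ s1 x l := gh_step (fun h => gh0 h) h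
theorem gh2 {l : List Bool} {I : Vt 2 → ℤ × ℤ} (h : FSh 2 l I) :
    ∃ x : N3 (N3 Cx), (∀ v, l2 x v = zC2 (I v)) ∧ s2 x l := gh_step (fun h => gh1 h) h
theorem gh3 {l : List Bool} {I : Vt 3 → ℤ × ℤ} (h : FSh 3 l I) :
    ∃ x : N3 (N3 (N3 Cx)), (∀ v, l3 x v = zC2 (I v)) ∧ s3 x l := gh_step (fun h => gh2 h) h
theorem gh4 {l : List Bool} {I : Vt 4 → ℤ × ℤ} (h : FSh 4 l I) :
    ∃ x : N3 (N3 (N3 (N3 Cx))), (∀ v, l4 x v = zC2 (I v)) ∧ s4 x l := gh_step (fun h => gh3 h) h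

/-! ### tables of vertices -/

/-- control values of a table of vertices, times `2 ^ D` -/
structure UkL {β : Type} (D : ℕ) (mf : (ℕ → ℝ) → β → (ℕ → ℝ) → ℝ) (U : Uk β) (E : ℕ) : Prop where
  ex : ∃ g : (ℕ → ℤ) → β → Vt D → ℤ,
    (∀ (f : ℕ → Z) (T : β), zv (Z.mul (Z.p E) (U.u f T)) = pkZ D (g (fun x => zv (f x)) T)) ∧
    (∀ (f : ℕ → Z) (b : ℕ → Bool) (T : β), U.b b T = true →
      (∀ x, b x = true → |zv (f x)| ≤ 2 ^ (60 - D)) → ∀ v, |g (fun x => zv (f x)) T v| ≤ 2 ^ 60) ∧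
    ∀ (f : ℕ → ℤ) (T : β) (t : ℕ → ℝ), avg (wtT D t) (fun v => (g f T v : ℂ)) =
      2 ^ D * (mf (fun x => (f x : ℝ)) T t : ℂ)

/-- with all bounds -/
structure UkG {β : Type} (D : ℕ) (mf : (ℕ → ℝ) → β → (ℕ → ℝ) → ℝ) (U : Uk β) (E : ℕ) : Prop where
  ex : ∃ g : (ℕ → ℤ) → β → Vt D → ℤ,
    (∀ (f : ℕ → Z) (T : β), E * zv (U.u f T) = pkZ D (g (fun x => zv (f x)) T)) ∧
    (∀ (f : ℕ → Z) (b : ℕ → Bool) (T : β) (M : ℤ), U.b b T = true →
      (∀ x, b x = true → |zv (f x)| ≤ M) → ∀ v, |g (fun x => zv (f x)) T v| ≤ 2 ^ D * M) ∧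
    ∀ (f : ℕ → ℤ) (T : β) (t : ℕ → ℝ), avg (wtT D t) (fun v => (g f T v : ℂ)) =
      2 ^ D * (mf (fun x => (f x : ℝ)) T t : ℂ)

theorem UkG.ok {β : Type} {D : ℕ} (hD : D ≤ 60) {mf : (ℕ → ℝ) → β → (ℕ → ℝ) → ℝ} {U : Uk β}
    {E : ℕ} (h : UkG D mf U E) : UkL D mf U E := by
  obtain ⟨g, h1, h2, h3⟩ := h.ex
  refine ⟨g, fun f T => ?_, fun f b T hb hf v => ?_, h3⟩
  · rw [zv_mul, zv_p]
    exact h1 f T
  · have := h2 f b T _ hb hf v
    rw [← pow_add, Nat.add_sub_cancel' hD] at this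
    exact this

theorem Uk0_g : UkG 0 mf0 Uk0 E0 := by
  refine ⟨fun f x _ => f x, fun f T => ?_, fun f b T M hb hf v => ?_, fun f T t => ?_⟩
  · rw [pkZ_zero]
    show ((1 : ℕ) : ℤ) * zv (f T) = zv (f T)
    rw [Nat.cast_one, one_mul]
  · rw [pow_zero, one_mul]
    exact hf T hb
  · have : avg (wtT 0 t) (fun _ => ((f T : ℤ) : ℂ)) = (1 : ℝ) * ((f T : ℤ) : ℂ) :=
      Fintype.sum_unique (ι := Unit) (fun _ => ((1 : ℝ) : ℂ) * ((f T : ℤ) : ℂ))
    rw [this]
    simp [mf0]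

/-- one more variable -/
def gN {β : Type} {D : ℕ} (g : (ℕ → ℤ) → β → Vt D → ℤ) (f : ℕ → ℤ) (T : Pr β) (v : Vt (D + 1)) :
    ℤ :=
  match v.2 with
  | 0 => 2 * g f T.a v.1
  | 1 => g f T.a v.1 + g f T.b v.1
  | 2 => 2 * g f T.b v.1

theorem pkZ_mul (D : ℕ) (c : ℤ) (F : Vt D → ℤ) : pkZ D (fun v => c * F v) = c * pkZ D F := by
  unfold pkZ
  rw [← z3_mul]
  congr 1
  funext v
  ring

theorem pkZ_add (D : ℕ) (F G : Vt D → ℤ) : pkZ D (fun v => F v + G v) = pkZ D F + pkZ D G := by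
  unfold pkZ
  rw [← z3_add]
  congr 1
  funext v
  ring

theorem UkG.step {β : Type} {D : ℕ} {mf : (ℕ → ℝ) → β → (ℕ → ℝ) → ℝ} {U : Uk β}
    {E : ℕ} (h : UkG D mf U E) : UkG (D + 1) (nmf D mf) (nxUk (CC D) U) (nxE1 (CC D) E) := by
  obtain ⟨g, h1, h2, h3⟩ := h.ex
  refine ⟨gN g, fun f T => ?_, fun f b T M hb hf v => ?_, fun f T t => ?_⟩
  · rw [pkZ_succ]
    show ((2 * ((CC D).W + 1) * E : ℕ) : ℤ) * zv (Z.add (U.u f T.a) (Z.mul (Z.p (CC D).W) (U.u f T.b))) =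
      pkZ D (fun u => 2 * g (fun x => zv (f x)) T.a u) + Wn D *
        (2 * pkZ D (fun u => g (fun x => zv (f x)) T.a u + g (fun x => zv (f x)) T.b u) +
          Wn D * pkZ D (fun u => 2 * g (fun x => zv (f x)) T.b u))
    rw [pkZ_mul, pkZ_mul, pkZ_add, ← h1, ← h1, zv_add, zv_mul, zv_p, CC_W]
    push_cast
    ring
  · have hb' := andB_iff'.mp hb
    have ha := h2 f b T.a M hb'.1 hf v.1
    have hbb := h2 f b T.b M hb'.2 hf v.1
    obtain ⟨u, i⟩ := v
    have e : (2 : ℤ) ^ (D + 1) * M = 2 * (2 ^ D * M) := by rw [pow_succ]; ring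
    rw [e]
    rw [abs_le] at ha hbb ⊢
    fin_cases i
    · show _ ≤ 2 * g (fun x => zv (f x)) T.a u ∧ 2 * g (fun x => zv (f x)) T.a u ≤ _
      exact ⟨by linarith [ha.1], by linarith [ha.2]⟩
    · show _ ≤ g (fun x => zv (f x)) T.a u + g (fun x => zv (f x)) T.b u ∧
        g (fun x => zv (f x)) T.a u + g (fun x => zv (f x)) T.b u ≤ _
      exact ⟨by linarith [ha.1, hbb.1], by linarith [ha.2, hbb.2]⟩
    · show _ ≤ 2 * g (fun x => zv (f x)) T.b u ∧ 2 * g (fun x => zv (f x)) T.b u ≤ _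
      exact ⟨by linarith [hbb.1], by linarith [hbb.2]⟩
  · have e : avg (wtT (D + 1) t) (fun v => (gN g f T v : ℂ)) =
        2 * (1 - (t D : ℂ)) * avg (wtT D t) (fun v => (g f T.a v : ℂ)) +
          2 * (t D : ℂ) * avg (wtT D t) (fun v => (g f T.b v : ℂ)) := by
      unfold avg
      rw [sum_Vt_succ, Finset.mul_sum, Finset.mul_sum, ← Finset.sum_add_distrib]
      refine Finset.sum_congr rfl fun u _ => ?_
      rw [Fin.sum_univ_three]
      show ((wtT D t u * (1 - t D) ^ 2 : ℝ) : ℂ) * ((2 * g f T.a u : ℤ) : ℂ) +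
        ((wtT D t u * (2 * t D * (1 - t D)) : ℝ) : ℂ) * ((g f T.a u + g f T.b u : ℤ) : ℂ) +
        ((wtT D t u * (t D) ^ 2 : ℝ) : ℂ) * ((2 * g f T.b u : ℤ) : ℂ) = _
      push_cast
      ring
    rw [e, h3, h3]
    show _ = 2 ^ (D + 1) * (((1 - t D) * mf (fun x => (f x : ℝ)) T.a t +
      t D * mf (fun x => (f x : ℝ)) T.b t : ℝ) : ℂ)
    push_cast
    ring

theorem Uk1_g : UkG 1 (nmf 0 mf0) Uk1 E1 := Uk0_g.step
theorem Uk2_g : UkG 2 (nmf 1 (nmf 0 mf0)) Uk2 E2 := Uk1_g.step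
theorem Uk3_g : UkG 3 (nmf 2 (nmf 1 (nmf 0 mf0))) Uk3 E3 := Uk2_g.step
theorem Uk4_g : UkG 4 (nmf 3 (nmf 2 (nmf 1 (nmf 0 mf0)))) Uk4 E4 := Uk3_g.step
theorem Uk1_ok : UkL 1 (nmf 0 mf0) Uk1 E1 := Uk1_g.ok (by norm_num)
theorem Uk2_ok : UkL 2 (nmf 1 (nmf 0 mf0)) Uk2 E2 := Uk2_g.ok (by norm_num)
theorem Uk3_ok : UkL 3 (nmf 2 (nmf 1 (nmf 0 mf0))) Uk3 E3 := Uk3_g.ok (by norm_num)
theorem Uk4_ok : UkL 4 (nmf 3 (nmf 2 (nmf 1 (nmf 0 mf0)))) Uk4 E4 := Uk4_g.ok (by norm_num)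

end Pool.Agent.Helper86.CK
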