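import Pool.Agent.Helper86.CK.KB

/-!
Packed machine (MP_c75db0), row K2: the reduction of a product.
-/

set_option autoImplicit false
set_option exponentiation.threshold 4000
noncomputable section
namespace Pool.Agent.Helper86.CK

open Pool.Agent.Helper86.C75 (Z)
open Pool.Agent.Helper86.CX
open Pool.Agent.Helper86.CT
open Pool.Agent.Helper90.C75 (Vt)
open Pool.Agent.Helper90.KMO (zv cz)
open Pool.Agent.Helper17.KPT (mulZ)

/-! ### indices `0, .., 4` -/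

/-- vertices with indices `0, .., 4` -/
def V5 : ℕ → Type
  | 0 => Unit
  | D + 1 => V5 D × Fin 5

def z5 : (D : ℕ) → (V5 D → ℤ) → ℤ
  | 0, H => H ()
  | D + 1, H => z5 D (fun u => H (u, 0)) + Wn D * (z5 D (fun u => H (u, 1)) + Wn D *
      (z5 D (fun u => H (u, 2)) + Wn D * (z5 D (fun u => H (u, 3)) + Wn D * z5 D (fun u => H (u, 4)))))

theorem z5_succ (D : ℕ) (H : V5 (D + 1) → ℤ) : z5 (D + 1) H = z5 D (fun u => H (u, 0)) +
    Wn D * (z5 D (fun u => H (u, 1)) + Wn D * (z5 D (fun u => H (u, 2)) + Wn D *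
      (z5 D (fun u => H (u, 3)) + Wn D * z5 D (fun u => H (u, 4))))) := rfl

theorem z5_add (D : ℕ) (f g : V5 D → ℤ) : z5 D (fun v => f v + g v) = z5 D f + z5 D g := by
  induction D with
  | zero => rfl
  | succ D ih => rw [z5_succ, z5_succ, z5_succ, ih, ih, ih, ih, ih]; ring

theorem z5_mul (D : ℕ) (c : ℤ) (f : V5 D → ℤ) : z5 D (fun v => c * f v) = c * z5 D f := by
  induction D with
  | zero => rfl
  | succ D ih => rw [z5_succ, z5_succ, ih, ih, ih, ih, ih]; ring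

/-- the digits of a product -/
def cv : (D : ℕ) → (Vt D → ℤ) → (Vt D → ℤ) → V5 D → ℤ
  | 0, F, G => fun _ => F () * G ()
  | D + 1, F, G => fun v => ![cv D (fun u => F (u, 0)) (fun u => G (u, 0)) v.1,
      2 * (cv D (fun u => F (u, 0)) (fun u => G (u, 1)) v.1 + cv D (fun u => F (u, 1)) (fun u => G (u, 0)) v.1),
      cv D (fun u => F (u, 0)) (fun u => G (u, 2)) v.1 + 4 * cv D (fun u => F (u, 1)) (fun u => G (u, 1)) v.1 +
        cv D (fun u => F (u, 2)) (fun u => G (u, 0)) v.1,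
      2 * (cv D (fun u => F (u, 1)) (fun u => G (u, 2)) v.1 + cv D (fun u => F (u, 2)) (fun u => G (u, 1)) v.1),
      cv D (fun u => F (u, 2)) (fun u => G (u, 2)) v.1] v.2

theorem pkZ_suc (D : ℕ) (F : Vt (D + 1) → ℤ) : pkZ (D + 1) F = pkZ D (fun u => F (u, 0)) +
    Wn D * (2 * pkZ D (fun u => F (u, 1)) + Wn D * pkZ D (fun u => F (u, 2))) := by
  unfold pkZ
  rw [z3_succ, ← z3_mul D 2]
  congr 3
  · congr 1
    funext u
    show 2 ^ (mi D u + 1) * _ = _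
    rw [pow_succ]
    ring

theorem pkZ_prod (D : ℕ) (F G : Vt D → ℤ) : pkZ D F * pkZ D G = z5 D (cv D F G) := by
  induction D with
  | zero =>
    show 2 ^ 0 * F () * (2 ^ 0 * G ()) = F () * G ()
    ring
  | succ D ih =>
    rw [pkZ_suc, pkZ_suc, z5_succ]
    show _ = z5 D (fun u => cv D (fun u => F (u, 0)) (fun u => G (u, 0)) u) + _ * (z5 D (fun u =>
      2 * (cv D (fun u => F (u, 0)) (fun u => G (u, 1)) u +
        cv D (fun u => F (u, 1)) (fun u => G (u, 0)) u)) + _ * (z5 D (fun u =>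
      cv D (fun u => F (u, 0)) (fun u => G (u, 2)) u +
        4 * cv D (fun u => F (u, 1)) (fun u => G (u, 1)) u +
        cv D (fun u => F (u, 2)) (fun u => G (u, 0)) u) + _ * (z5 D (fun u =>
      2 * (cv D (fun u => F (u, 1)) (fun u => G (u, 2)) u +
        cv D (fun u => F (u, 2)) (fun u => G (u, 1)) u)) + _ * z5 D (fun u =>
      cv D (fun u => F (u, 2)) (fun u => G (u, 2)) u))))
    simp only [z5_add, z5_mul]
    rw [← ih, ← ih, ← ih, ← ih, ← ih, ← ih, ← ih, ← ih, ← ih]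
    ring

/-- the reduced digits -/
def rdZ : (D : ℕ) → (V5 D → ℤ) → Vt D → ℤ
  | 0, H => fun _ => H ()
  | D + 1, H => fun v => ![4 * rdZ D (fun u => H (u, 0)) v.1,
      rdZ D (fun u => H (u, 2)) v.1 - rdZ D (fun u => H (u, 0)) v.1 - rdZ D (fun u => H (u, 4)) v.1,
      4 * rdZ D (fun u => H (u, 4)) v.1] v.2

theorem rdZ_add (D : ℕ) (f g : V5 D → ℤ) (v : Vt D) :
    rdZ D (fun u => f u + g u) v = rdZ D f v + rdZ D g v := by
  induction D with
  | zero => rfl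
  | succ D ih =>
    obtain ⟨v, i⟩ := v
    fin_cases i
    · show 4 * rdZ D (fun u => f (u, 0) + g (u, 0)) v = 4 * _ + 4 * _
      rw [ih]; ring
    · show rdZ D (fun u => f (u, 2) + g (u, 2)) v - rdZ D (fun u => f (u, 0) + g (u, 0)) v -
        rdZ D (fun u => f (u, 4) + g (u, 4)) v = (rdZ D (fun u => f (u, 2)) v -
        rdZ D (fun u => f (u, 0)) v - rdZ D (fun u => f (u, 4)) v) + (rdZ D (fun u => g (u, 2)) v -
        rdZ D (fun u => g (u, 0)) v - rdZ D (fun u => g (u, 4)) v)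
      rw [ih, ih, ih]; ring
    · show 4 * rdZ D (fun u => f (u, 4) + g (u, 4)) v = 4 * _ + 4 * _
      rw [ih]; ring

theorem rdZ_mul (D : ℕ) (c : ℤ) (f : V5 D → ℤ) (v : Vt D) :
    rdZ D (fun u => c * f u) v = c * rdZ D f v := by
  induction D with
  | zero => rfl
  | succ D ih =>
    obtain ⟨v, i⟩ := v
    fin_cases i
    · show 4 * rdZ D (fun u => c * f (u, 0)) v = c * (4 * _)
      rw [ih]; ring
    · show rdZ D (fun u => c * f (u, 2)) v - rdZ D (fun u => c * f (u, 0)) v -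
        rdZ D (fun u => c * f (u, 4)) v = c * (rdZ D (fun u => f (u, 2)) v -
        rdZ D (fun u => f (u, 0)) v - rdZ D (fun u => f (u, 4)) v)
      rw [ih, ih, ih]; ring
    · show 4 * rdZ D (fun u => c * f (u, 4)) v = c * (4 * _)
      rw [ih]; ring

theorem cv_subl (D : ℕ) (F F' G : Vt D → ℤ) (v : V5 D) :
    cv D (fun u => F u - F' u) G v = cv D F G v - cv D F' G v := by
  induction D with
  | zero => show (_ - _) * _ = _ * _ - _ * _; ring
  | succ D ih =>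
    obtain ⟨v, i⟩ := v
    fin_cases i
    · show cv D (fun u => F (u, 0) - F' (u, 0)) _ v = cv D _ _ v - cv D _ _ v
      rw [ih]
    · show 2 * (cv D (fun u => F (u, 0) - F' (u, 0)) _ v + cv D (fun u => F (u, 1) - F' (u, 1)) _ v) =
        2 * (cv D _ _ v + cv D _ _ v) - 2 * (cv D _ _ v + cv D _ _ v)
      rw [ih, ih]; ring
    · show cv D (fun u => F (u, 0) - F' (u, 0)) _ v + 4 * cv D (fun u => F (u, 1) - F' (u, 1)) _ v +
        cv D (fun u => F (u, 2) - F' (u, 2)) _ v =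
        (cv D _ _ v + 4 * cv D _ _ v + cv D _ _ v) - (cv D _ _ v + 4 * cv D _ _ v + cv D _ _ v)
      rw [ih, ih, ih]; ring
    · show 2 * (cv D (fun u => F (u, 1) - F' (u, 1)) _ v + cv D (fun u => F (u, 2) - F' (u, 2)) _ v) =
        2 * (cv D _ _ v + cv D _ _ v) - 2 * (cv D _ _ v + cv D _ _ v)
      rw [ih, ih]; ring
    · show cv D (fun u => F (u, 2) - F' (u, 2)) _ v = cv D _ _ v - cv D _ _ v
      rw [ih]

theorem cv_comm (D : ℕ) (F G : Vt D → ℤ) (v : V5 D) : cv D F G v = cv D G F v := by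
  induction D with
  | zero => exact mul_comm _ _
  | succ D ih =>
    obtain ⟨v, i⟩ := v
    fin_cases i
    · exact ih _ _ v
    · show 2 * (cv D _ _ v + cv D _ _ v) = 2 * (cv D _ _ v + cv D _ _ v)
      rw [ih (fun u => F (u, 0)), ih (fun u => F (u, 1))]; ring
    · show cv D _ _ v + 4 * cv D _ _ v + cv D _ _ v = cv D _ _ v + 4 * cv D _ _ v + cv D _ _ v
      rw [ih (fun u => F (u, 0)), ih (fun u => F (u, 1)), ih (fun u => F (u, 2))]; ring
    · show 2 * (cv D _ _ v + cv D _ _ v) = 2 * (cv D _ _ v + cv D _ _ v)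
      rw [ih (fun u => F (u, 1)), ih (fun u => F (u, 2))]; ring
    · exact ih _ _ v

theorem cv_subr (D : ℕ) (F G G' : Vt D → ℤ) (v : V5 D) :
    cv D F (fun u => G u - G' u) v = cv D F G v - cv D F G' v := by
  rw [cv_comm, cv_subl, cv_comm D G, cv_comm D G']

/-- the product of control values -/
theorem rdZ_cv (D : ℕ) (F G : Vt D → ℤ) (v : Vt D) : rdZ D (cv D F G) v =
    mulZ (fun a b : ℤ => a * b) D (List.replicate D true) F G v := by
  induction D with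
  | zero => rfl
  | succ D ih =>
    obtain ⟨v, i⟩ := v
    fin_cases i
    · show 4 * rdZ D (fun u => cv D (fun u => F (u, 0)) (fun u => G (u, 0)) u) v =
        (4 : ℤ) • mulZ _ D (List.replicate D true) (fun u => F (u, 0)) (fun u => G (u, 0)) v
      rw [← ih]; rfl
    · show rdZ D (fun u => cv D (fun u => F (u, 0)) (fun u => G (u, 2)) u +
          4 * cv D (fun u => F (u, 1)) (fun u => G (u, 1)) u +
          cv D (fun u => F (u, 2)) (fun u => G (u, 0)) u) v -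
        rdZ D (fun u => cv D (fun u => F (u, 0)) (fun u => G (u, 0)) u) v -
        rdZ D (fun u => cv D (fun u => F (u, 2)) (fun u => G (u, 2)) u) v =
        (4 : ℤ) • mulZ _ D (List.replicate D true) (fun u => F (u, 1)) (fun u => G (u, 1)) v -
        mulZ _ D (List.replicate D true) (fun u => F (u, 2) - F (u, 0))
          (fun u => G (u, 2) - G (u, 0)) v
      rw [← ih, ← ih]
      have e : cv D (fun u => F (u, 2) - F (u, 0)) (fun u => G (u, 2) - G (u, 0)) = fun u =>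
          cv D (fun u => F (u, 2)) (fun u => G (u, 2)) u +
          ((-1) * cv D (fun u => F (u, 2)) (fun u => G (u, 0)) u +
          ((-1) * cv D (fun u => F (u, 0)) (fun u => G (u, 2)) u +
          cv D (fun u => F (u, 0)) (fun u => G (u, 0)) u)) := by
        funext u
        rw [cv_subl, cv_subr, cv_subr]
        ring
      rw [e]
      simp only [rdZ_add, rdZ_mul, smul_eq_mul]
      ring
    · show 4 * rdZ D (fun u => cv D (fun u => F (u, 2)) (fun u => G (u, 2)) u) v =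
        (4 : ℤ) • mulZ _ D (List.replicate D true) (fun u => F (u, 2)) (fun u => G (u, 2)) v
      rw [← ih]; rfl

/-! ### bounds -/

theorem cv_bd {D : ℕ} {F G : Vt D → ℤ} {a b : ℤ} (ha : 0 ≤ a) (hb : 0 ≤ b) (hF : ∀ v, |F v| ≤ a)
    (hG : ∀ v, |G v| ≤ b) (v : V5 D) : |cv D F G v| ≤ 6 ^ D * (a * b) := by
  induction D with
  | zero =>
    show |F () * G ()| ≤ 6 ^ 0 * (a * b)
    rw [abs_mul, pow_zero, one_mul]
    exact mul_le_mul (hF ()) (hG ()) (abs_nonneg _) ha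
  | succ D ih =>
    have hab : 0 ≤ a * b := mul_nonneg ha hb
    have key : ∀ (i j : Fin 3) (u : V5 D), |cv D (fun u => F (u, i)) (fun u => G (u, j)) u| ≤
        6 ^ D * (a * b) := fun i j u => ih (fun v => hF (v, i)) (fun v => hG (v, j)) u
    have h0 : 0 ≤ 6 ^ D * (a * b) := by positivity
    have e : (6 : ℤ) ^ (D + 1) * (a * b) = 6 * (6 ^ D * (a * b)) := by rw [pow_succ]; ring
    rw [e]
    obtain ⟨v, i⟩ := v
    have k := fun i j => abs_le.mp (key i j v)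
    fin_cases i
    · show |cv D _ _ v| ≤ _
      have := key 0 0 v
      linarith
    · show |2 * (cv D _ _ v + cv D _ _ v)| ≤ _
      rw [abs_le]
      constructor <;> linarith [(k 0 1).1, (k 0 1).2, (k 1 0).1, (k 1 0).2]
    · show |cv D _ _ v + 4 * cv D _ _ v + cv D _ _ v| ≤ _
      rw [abs_le]
      constructor <;> linarith [(k 0 2).1, (k 0 2).2, (k 1 1).1, (k 1 1).2, (k 2 0).1, (k 2 0).2]
    · show |2 * (cv D _ _ v + cv D _ _ v)| ≤ _
      rw [abs_le]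
      constructor <;> linarith [(k 1 2).1, (k 1 2).2, (k 2 1).1, (k 2 1).2]
    · show |cv D _ _ v| ≤ _
      have := key 2 2 v
      linarith

theorem rdZ_bd {D : ℕ} {H : V5 D → ℤ} {b : ℤ} (hb : 0 ≤ b) (hH : ∀ v, |H v| ≤ b) (v : Vt D) :
    |rdZ D H v| ≤ 4 ^ D * b := by
  induction D with
  | zero =>
    show |H ()| ≤ 4 ^ 0 * b
    rw [pow_zero, one_mul]
    exact hH ()
  | succ D ih =>
    have key : ∀ (i : Fin 5) (u : Vt D), |rdZ D (fun u => H (u, i)) u| ≤ 4 ^ D * b :=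
      fun i u => ih (fun v => hH (v, i)) u
    have h0 : 0 ≤ 4 ^ D * b := by positivity
    have e : (4 : ℤ) ^ (D + 1) * b = 4 * (4 ^ D * b) := by rw [pow_succ]; ring
    rw [e]
    obtain ⟨v, i⟩ := v
    have k := fun i => abs_le.mp (key i v)
    fin_cases i
    · show |4 * rdZ D _ v| ≤ _
      rw [abs_le]
      constructor <;> linarith [(k 0).1, (k 0).2]
    · show |rdZ D _ v - rdZ D _ v - rdZ D _ v| ≤ _
      rw [abs_le]
      constructor <;> linarith [(k 0).1, (k 0).2, (k 2).1, (k 2).2, (k 4).1, (k 4).2]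
    · show |4 * rdZ D _ v| ≤ _
      rw [abs_le]
      constructor <;> linarith [(k 4).1, (k 4).2]

theorem CC_o5s (D : ℕ) : (CC (D + 1)).o5 = f5 (Wn D) * (CC D).o5 := by
  show f5 (CC D).W * (CC D).o5 = _
  rw [CC_W]

theorem f5_eq (W : ℕ) : f5 W = 1 + W * (1 + W * (1 + W * (1 + W))) := rfl

/-- all bits -/
theorem B1_o5 (D : ℕ) : (2 ^ 144 - 1) * ((CC D).o5 : ℤ) = Wn D - 1 := by
  induction D with
  | zero => show (2 ^ 144 - 1) * ((1 : ℕ) : ℤ) = ((2 ^ 144 : ℕ) : ℤ) - 1; norm_num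
  | succ D ih =>
    rw [CC_o5s, f5_eq, Wn_succ]
    push_cast
    linear_combination (1 + (Wn D : ℤ) * (1 + Wn D * (1 + Wn D * (1 + Wn D)))) * ih

theorem z5_bd {D : ℕ} {H : V5 D → ℤ} {b : ℤ} (hH : ∀ v, |H v| ≤ b) :
    |z5 D H| ≤ b * (CC D).o5 := by
  induction D with
  | zero => show |H ()| ≤ b * ((1 : ℕ) : ℤ); simpa using hH ()
  | succ D ih =>
    have k := fun i : Fin 5 => abs_le.mp (ih (fun v => hH (v, i)))
    have hW : (0 : ℤ) ≤ Wn D := Int.natCast_nonneg _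
    rw [z5_succ, CC_o5s, f5_eq, abs_le]
    push_cast
    set W : ℤ := (Wn D : ℤ)
    have h2 : 0 ≤ W ^ 2 := by positivity
    have h3 : 0 ≤ W ^ 3 := by positivity
    have h4 : 0 ≤ W ^ 4 := by positivity
    constructor
    · nlinarith [(k 0).1, mul_le_mul_of_nonneg_left (k 1).1 hW, mul_le_mul_of_nonneg_left (k 2).1 h2,
        mul_le_mul_of_nonneg_left (k 3).1 h3, mul_le_mul_of_nonneg_left (k 4).1 h4]
    · nlinarith [(k 0).2, mul_le_mul_of_nonneg_left (k 1).2 hW, mul_le_mul_of_nonneg_left (k 2).2 h2,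
        mul_le_mul_of_nonneg_left (k 3).2 h3, mul_le_mul_of_nonneg_left (k 4).2 h4]

theorem z3_bd {D : ℕ} {H : Vt D → ℤ} {b : ℤ} (hb : 0 ≤ b) (hH : ∀ v, |H v| ≤ b) :
    |z3 D H| ≤ b * (CC D).o5 := by
  induction D with
  | zero => show |H ()| ≤ b * ((1 : ℕ) : ℤ); simpa using hH ()
  | succ D ih =>
    have k := fun i : Fin 3 => abs_le.mp (ih (fun v => hH (v, i)))
    have hW : (0 : ℤ) ≤ Wn D := Int.natCast_nonneg _
    have ho : (0 : ℤ) ≤ (CC D).o5 := Int.natCast_nonneg _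
    rw [z3_succ, CC_o5s, f5_eq, abs_le]
    push_cast
    set W : ℤ := (Wn D : ℤ)
    have h2 : 0 ≤ W ^ 2 := by positivity
    have h3 : 0 ≤ W ^ 3 * (b * (CC D).o5) := by positivity
    have h4 : 0 ≤ W ^ 4 * (b * (CC D).o5) := by positivity
    constructor
    · nlinarith [(k 0).1, mul_le_mul_of_nonneg_left (k 1).1 hW, mul_le_mul_of_nonneg_left (k 2).1 h2]
    · nlinarith [(k 0).2, mul_le_mul_of_nonneg_left (k 1).2 hW, mul_le_mul_of_nonneg_left (k 2).2 h2]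

theorem q3_zero (D : ℕ) : q3 D (fun _ => 0) = 0 := by
  induction D with
  | zero => rfl
  | succ D ih => rw [q3_succ, ih]; ring

/-! ### five blocks -/

/-- five blocks -/
def bl5 (W : ℕ) (a : Fin 5 → ℕ) : ℕ := a 0 + W * (a 1 + W * (a 2 + W * (a 3 + W * a 4)))

theorem bl5_const (W m : ℕ) : f5 W * m = bl5 W (fun _ => m) := by
  rw [f5_eq]; unfold bl5; ring

theorem bl5_add (W : ℕ) (a b : Fin 5 → ℕ) : bl5 W a + bl5 W b = bl5 W (fun i => a i + b i) := by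
  unfold bl5; ring

theorem bl5_mul (W c : ℕ) (a : Fin 5 → ℕ) : c * bl5 W a = bl5 W (fun i => c * a i) := by
  unfold bl5; ring

theorem bl5_sub {W : ℕ} {a b : Fin 5 → ℕ} (h : ∀ i, b i ≤ a i) :
    bl5 W a - bl5 W b = bl5 W (fun i => a i - b i) := by
  have e : bl5 W (fun i => a i - b i) + bl5 W b = bl5 W a := by
    rw [bl5_add]
    congr 1
    funext i
    exact Nat.sub_add_cancel (h i)
  omega

theorem bl5_land {w : ℕ} {a b : Fin 5 → ℕ} (ha : ∀ i, a i < 2 ^ w) (hb : ∀ i, b i < 2 ^ w) :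
    bl5 (2 ^ w) a &&& bl5 (2 ^ w) b = bl5 (2 ^ w) (fun i => a i &&& b i) := by
  unfold bl5
  rw [land2 (ha 0) (hb 0), land2 (ha 1) (hb 1), land2 (ha 2) (hb 2), land2 (ha 3) (hb 3)]

theorem bl5_shr {W s : ℕ} {a : Fin 5 → ℕ} (h : ∀ i, 2 ^ s ∣ a i) :
    bl5 W a >>> s = bl5 W (fun i => a i >>> s) := by
  have e : bl5 W a = 2 ^ s * bl5 W (fun i => a i >>> s) := by
    rw [bl5_mul]
    congr 1
    funext i
    rw [Nat.shiftRight_eq_div_pow, Nat.mul_div_cancel' (h i)]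
  rw [e, Nat.shiftRight_eq_div_pow, Nat.mul_div_cancel_left _ (by positivity)]

theorem bl5_shl (W s : ℕ) (a : Fin 5 → ℕ) : bl5 W a <<< s = bl5 W (fun i => a i <<< s) := by
  rw [Nat.shiftLeft_eq, mul_comm, bl5_mul]
  congr 1
  funext i
  rw [Nat.shiftLeft_eq, mul_comm]

theorem bl5_lt {w : ℕ} {a : Fin 5 → ℕ} (h : ∀ i, a i < 2 ^ w) : bl5 (2 ^ w) a < 2 ^ (5 * w) := by
  have hW : 0 < 2 ^ w := by positivity
  have e : 2 ^ (5 * w) = (2 ^ w) ^ 5 := by rw [← pow_mul, mul_comm]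
  rw [e]
  unfold bl5
  generalize 2 ^ w = W at *
  have h3 : a 3 + W * a 4 < W ^ 2 := by nlinarith [h 3, h 4]
  have h2 : a 2 + W * (a 3 + W * a 4) < W ^ 3 := by nlinarith [h 2]
  have h1 : a 1 + W * (a 2 + W * (a 3 + W * a 4)) < W ^ 4 := by nlinarith [h 1]
  nlinarith [h 0]

theorem stg_eq (d : DC) (U : ℕ) : stg d U = (4 * ((U &&& d.m0) + (U &&& d.m4) >>> d.s2) +
    (U &&& d.m2) >>> d.s + d.c) - ((U &&& d.m0) <<< d.s + (U &&& d.m4) >>> d.s3) := rfl

/-- a stage without borrow, inside a block of `w` bits -/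
structure DV (w : ℕ) (d : DC) (U : ℕ) : Prop where
  u : U < 2 ^ w
  m0 : d.m0 < 2 ^ w
  m2 : d.m2 < 2 ^ w
  m4 : d.m4 < 2 ^ w
  d2 : 2 ^ d.s ∣ (U &&& d.m2)
  d4 : 2 ^ d.s2 ∣ (U &&& d.m4)
  e4 : 2 ^ d.s3 ∣ (U &&& d.m4)
  nb : (U &&& d.m0) <<< d.s + (U &&& d.m4) >>> d.s3 ≤
    4 * ((U &&& d.m0) + (U &&& d.m4) >>> d.s2) + (U &&& d.m2) >>> d.s + d.c
  r : stg d U < 2 ^ w

/-- THE LIFTING of a stage to five blocks -/
theorem stg_lift {w : ℕ} {d : DC} {U : Fin 5 → ℕ} (h : ∀ i, DV w d (U i)) :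
    stg (scD (2 ^ w) d) (bl5 (2 ^ w) U) = bl5 (2 ^ w) (fun i => stg d (U i)) ∧
      DV (5 * w) (scD (2 ^ w) d) (bl5 (2 ^ w) U) := by
  have e0 : bl5 (2 ^ w) U &&& (f5 (2 ^ w) * d.m0) = bl5 (2 ^ w) (fun i => U i &&& d.m0) := by
    rw [bl5_const, bl5_land (fun i => (h i).u) fun i => (h i).m0]
  have e2 : bl5 (2 ^ w) U &&& (f5 (2 ^ w) * d.m2) = bl5 (2 ^ w) (fun i => U i &&& d.m2) := by
    rw [bl5_const, bl5_land (fun i => (h i).u) fun i => (h i).m2]
  have e4 : bl5 (2 ^ w) U &&& (f5 (2 ^ w) * d.m4) = bl5 (2 ^ w) (fun i => U i &&& d.m4) := by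
    rw [bl5_const, bl5_land (fun i => (h i).u) fun i => (h i).m4]
  have eX : 4 * (bl5 (2 ^ w) (fun i => U i &&& d.m0) +
      (bl5 (2 ^ w) fun i => U i &&& d.m4) >>> d.s2) + (bl5 (2 ^ w) fun i => U i &&& d.m2) >>> d.s +
      f5 (2 ^ w) * d.c = bl5 (2 ^ w) (fun i => 4 * ((U i &&& d.m0) + (U i &&& d.m4) >>> d.s2) +
      (U i &&& d.m2) >>> d.s + d.c) := by
    rw [bl5_shr fun i => (h i).d4, bl5_shr fun i => (h i).d2, bl5_const, bl5_add, bl5_mul, bl5_add,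
      bl5_add]
  have eY : (bl5 (2 ^ w) fun i => U i &&& d.m0) <<< d.s +
      (bl5 (2 ^ w) fun i => U i &&& d.m4) >>> d.s3 =
      bl5 (2 ^ w) (fun i => (U i &&& d.m0) <<< d.s + (U i &&& d.m4) >>> d.s3) := by
    rw [bl5_shr fun i => (h i).e4, bl5_shl, bl5_add]
  have hs : stg (scD (2 ^ w) d) (bl5 (2 ^ w) U) = bl5 (2 ^ w) (fun i => stg d (U i)) := by
    rw [stg_eq]
    show (4 * ((bl5 (2 ^ w) U &&& (f5 (2 ^ w) * d.m0)) + (bl5 (2 ^ w) U &&& (f5 (2 ^ w) * d.m4)) >>> d.s2) +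
      (bl5 (2 ^ w) U &&& (f5 (2 ^ w) * d.m2)) >>> d.s + f5 (2 ^ w) * d.c) -
      ((bl5 (2 ^ w) U &&& (f5 (2 ^ w) * d.m0)) <<< d.s + (bl5 (2 ^ w) U &&& (f5 (2 ^ w) * d.m4)) >>> d.s3) = _
    rw [e0, e2, e4, eX, eY, bl5_sub fun i => (h i).nb]
    rfl
  have dv : ∀ {s : ℕ} {a : Fin 5 → ℕ}, (∀ i, 2 ^ s ∣ a i) → 2 ^ s ∣ bl5 (2 ^ w) a := by
    intro s a ha
    have e : bl5 (2 ^ w) a = 2 ^ s * bl5 (2 ^ w) (fun i => a i / 2 ^ s) := by
      rw [bl5_mul]
      congr 1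
      funext i
      rw [Nat.mul_div_cancel' (ha i)]
    exact ⟨_, e⟩
  refine ⟨hs, ⟨bl5_lt fun i => (h i).u, ?_, ?_, ?_, ?_, ?_, ?_, ?_, ?_⟩⟩
  · show f5 (2 ^ w) * d.m0 < _
    rw [bl5_const]; exact bl5_lt fun i => (h i).m0
  · show f5 (2 ^ w) * d.m2 < _
    rw [bl5_const]; exact bl5_lt fun i => (h i).m2
  · show f5 (2 ^ w) * d.m4 < _
    rw [bl5_const]; exact bl5_lt fun i => (h i).m4
  · show 2 ^ d.s ∣ (bl5 (2 ^ w) U &&& (f5 (2 ^ w) * d.m2))
    rw [e2]; exact dv fun i => (h i).d2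
  · show 2 ^ d.s2 ∣ (bl5 (2 ^ w) U &&& (f5 (2 ^ w) * d.m4))
    rw [e4]; exact dv fun i => (h i).d4
  · show 2 ^ d.s3 ∣ (bl5 (2 ^ w) U &&& (f5 (2 ^ w) * d.m4))
    rw [e4]; exact dv fun i => (h i).e4
  · show (bl5 (2 ^ w) U &&& (f5 (2 ^ w) * d.m0)) <<< d.s + (bl5 (2 ^ w) U &&& (f5 (2 ^ w) * d.m4)) >>> d.s3 ≤
      4 * ((bl5 (2 ^ w) U &&& (f5 (2 ^ w) * d.m0)) + (bl5 (2 ^ w) U &&& (f5 (2 ^ w) * d.m4)) >>> d.s2) +
      (bl5 (2 ^ w) U &&& (f5 (2 ^ w) * d.m2)) >>> d.s + f5 (2 ^ w) * d.c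
    rw [e0, e2, e4, eX, eY]
    unfold bl5
    have k := fun i => (h i).nb
    gcongr
    all_goals exact k _
  · rw [hs]; exact bl5_lt fun i => (h i).r

theorem mpD_e2 (f : DC → DC) (x : DC) (l : List DC) : mpD f x l = l.map f ++ [x] := by
  induction l with
  | nil => rfl
  | cons d l ih =>
    show f d :: mpD f x l = _
    rw [ih]; rfl

theorem stgs_cons (d : DC) (l : List DC) (U : ℕ) : stgs (d :: l) U = stgs l (stg d U) := rfl

theorem stgs_app (l : List DC) (x : DC) (U : ℕ) : stgs (l ++ [x]) U = stg x (stgs l U) := by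
  induction l generalizing U with
  | nil => rfl
  | cons d l ih => exact ih _

/-- all stages are without borrow -/
def VS (w : ℕ) : List DC → ℕ → Prop
  | [], _ => True
  | d :: l, U => DV w d U ∧ VS w l (stg d U)

theorem VS_app {w : ℕ} {l : List DC} {x : DC} {U : ℕ} (h : VS w l U) (hx : DV w x (stgs l U)) :
    VS w (l ++ [x]) U := by
  induction l generalizing U with
  | nil => exact ⟨hx, trivial⟩
  | cons d l ih => exact ⟨h.1, ih h.2 hx⟩

theorem stgs_lift {w : ℕ} {l : List DC} {U : Fin 5 → ℕ} (h : ∀ i, VS w l (U i)) :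
    stgs (l.map (scD (2 ^ w))) (bl5 (2 ^ w) U) = bl5 (2 ^ w) (fun i => stgs l (U i)) ∧
      VS (5 * w) (l.map (scD (2 ^ w))) (bl5 (2 ^ w) U) := by
  induction l generalizing U with
  | nil => exact ⟨rfl, trivial⟩
  | cons d l ih =>
    obtain ⟨h1, h2⟩ := stg_lift fun i => (h i).1
    obtain ⟨h3, h4⟩ := ih fun i => (h i).2
    refine ⟨?_, h2, ?_⟩
    · show stgs (l.map (scD (2 ^ w))) (stg (scD (2 ^ w) d) (bl5 (2 ^ w) U)) = _
      rw [h1, h3]
      rfl
    · show VS (5 * w) (l.map (scD (2 ^ w))) (stg (scD (2 ^ w) d) (bl5 (2 ^ w) U))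
      rw [h1]
      exact h4

/-! ### the new direction -/

theorem X_lt {D : ℕ} {X : ℕ} {x : ℤ} (hX : (X : ℤ) = HB * (CC D).o5 + x)
    (hx : |x| ≤ 2 ^ 142 * (CC D).o5) : X < Wn D := by
  have h1 := B1_o5 D
  have h2 := (abs_le.mp hx).2
  have ho : (0 : ℤ) ≤ (CC D).o5 := Int.natCast_nonneg _
  rw [HB_eq] at hX
  push_cast at hX
  zify
  have e : (2 : ℤ) ^ 144 = 2 * 2 ^ 143 := by norm_num
  have e2 : (2 : ℤ) ^ 143 = 2 * 2 ^ 142 := by norm_num
  nlinarith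

theorem nw_ok {D : ℕ} {X : Fin 5 → ℕ} {x : Fin 5 → ℤ}
    (hX : ∀ i, (X i : ℤ) = HB * (CC D).o5 + x i) (hx : ∀ i, |x i| ≤ 2 ^ 140 * (CC D).o5) :
    (stg (nwD (ww D) (Wn D) (CC D).o5 (CC D).o3) (bl5 (Wn D) X) : ℤ) =
      HB * (CC (D + 1)).o5 + (4 * x 0 + Wn D * (x 2 - x 0 - x 4 + Wn D * (4 * x 4))) ∧
      DV (5 * ww D) (nwD (ww D) (Wn D) (CC D).o5 (CC D).o3) (bl5 (Wn D) X) := by
  have ho : (0 : ℤ) ≤ (CC D).o5 := Int.natCast_nonneg _
  have hXl : ∀ i, X i < 2 ^ ww D := fun i => X_lt (hX i) ((hx i).trans (by nlinarith))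
  have hW1 : Wn D - 1 < 2 ^ ww D := by
    have := Wn_pos D
    unfold Wn at *
    omega
  have hWd : Wn D = 2 ^ ww D := rfl
  have hW4 : 4 ≤ Wn D := by
    have h1 : 2 ≤ ww D := by unfold ww; nlinarith [Nat.one_le_pow D 5 (by norm_num)]
    calc 4 = 2 ^ 2 := rfl
      _ ≤ 2 ^ ww D := Nat.pow_le_pow_right (by norm_num) h1
  have a0 : bl5 (Wn D) X &&& (Wn D - 1) = X 0 := by
    have e : Wn D - 1 = bl5 (Wn D) ![Wn D - 1, 0, 0, 0, 0] := by simp [bl5]
    rw [e, hWd, bl5_land hXl (by intro i; fin_cases i <;> simp)]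
    simp only [bl5]
    simp [land_mask (hXl 0)]
  have a2 : bl5 (Wn D) X &&& (Wn D * Wn D * (Wn D - 1)) = Wn D * Wn D * X 2 := by
    have e : Wn D * Wn D * (Wn D - 1) = bl5 (Wn D) ![0, 0, Wn D - 1, 0, 0] := by
      simp [bl5]; ring
    rw [e, hWd, bl5_land hXl (by intro i; fin_cases i <;> simp)]
    simp only [bl5]
    simp [land_mask (hXl 2)]
    ring
  have a4 : bl5 (Wn D) X &&& (Wn D * Wn D * (Wn D * Wn D) * (Wn D - 1)) =
      Wn D * Wn D * (Wn D * Wn D) * X 4 := by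
    have e : Wn D * Wn D * (Wn D * Wn D) * (Wn D - 1) = bl5 (Wn D) ![0, 0, 0, 0, Wn D - 1] := by
      simp [bl5]; ring
    rw [e, hWd, bl5_land hXl (by intro i; fin_cases i <;> simp)]
    simp only [bl5]
    simp [land_mask (hXl 4)]
    ring
  have p2 : 2 ^ (2 * ww D) = Wn D * Wn D := by rw [hWd, ← pow_add]; congr 1; ring
  have p3 : 2 ^ (3 * ww D) = Wn D * Wn D * Wn D := by rw [hWd, ← pow_add, ← pow_add]; congr 1; ring
  have p5 : 2 ^ (5 * ww D) = Wn D ^ 5 := by rw [hWd, ← pow_mul]; congr 1; ring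
  have hWp := Wn_pos D
  have s4 : (Wn D * Wn D * (Wn D * Wn D) * X 4) >>> (2 * ww D) = Wn D * Wn D * X 4 := by
    rw [Nat.shiftRight_eq_div_pow, p2, show Wn D * Wn D * (Wn D * Wn D) * X 4 =
      Wn D * Wn D * (Wn D * Wn D * X 4) by ring, Nat.mul_div_cancel_left _ (by positivity)]
  have s43 : (Wn D * Wn D * (Wn D * Wn D) * X 4) >>> (3 * ww D) = Wn D * X 4 := by
    rw [Nat.shiftRight_eq_div_pow, p3, show Wn D * Wn D * (Wn D * Wn D) * X 4 =
      Wn D * Wn D * Wn D * (Wn D * X 4) by ring, Nat.mul_div_cancel_left _ (by positivity)]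
  have s2 : (Wn D * Wn D * X 2) >>> ww D = Wn D * X 2 := by
    rw [Nat.shiftRight_eq_div_pow, ← hWd, show Wn D * Wn D * X 2 = Wn D * (Wn D * X 2) by ring,
      Nat.mul_div_cancel_left _ hWp]
  have s0 : (X 0) <<< ww D = Wn D * X 0 := by rw [Nat.shiftLeft_eq, ← hWd, mul_comm]
  set c : ℕ := HB * (CC D).o5 * ((Wn D * Wn D * Wn D * (Wn D + 1) + 2 * Wn D) -
    3 * (Wn D * Wn D + 1)) with hc
  have hcc : (c : ℤ) = HB * (CC D).o5 * ((Wn D : ℤ) ^ 4 + Wn D ^ 3 + 2 * Wn D - 3 * Wn D ^ 2 - 3) := by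
    have hle : 3 * (Wn D * Wn D + 1) ≤ Wn D * Wn D * Wn D * (Wn D + 1) + 2 * Wn D := by nlinarith
    rw [hc]
    push_cast [hle]
    ring
  set XX : ℕ := 4 * (X 0 + Wn D * Wn D * X 4) + Wn D * X 2 + c with hXX
  set YY : ℕ := Wn D * X 0 + Wn D * X 4 with hYY
  have key : (XX : ℤ) - YY = HB * (CC (D + 1)).o5 +
      (4 * x 0 + Wn D * (x 2 - x 0 - x 4 + Wn D * (4 * x 4))) := by
    rw [hXX, hYY, CC_o5s, f5_eq]
    push_cast
    rw [hcc, hX 0, hX 2, hX 4]
    ring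
  have hR : 0 ≤ (HB * (CC (D + 1)).o5 : ℤ) +
      (4 * x 0 + Wn D * (x 2 - x 0 - x 4 + Wn D * (4 * x 4))) ∧
      (HB * (CC (D + 1)).o5 : ℤ) + (4 * x 0 + Wn D * (x 2 - x 0 - x 4 + Wn D * (4 * x 4))) <
        (Wn D : ℤ) ^ 5 := by
    have h1 := B1_o5 (D + 1)
    rw [Wn_succ] at h1
    push_cast at h1
    rw [CC_o5s, f5_eq] at h1 ⊢
    push_cast at h1 ⊢
    have hHB : (HB : ℤ) = 2 ^ 143 := by rw [HB_eq]; norm_num
    rw [hHB]
    have k := fun i => abs_le.mp (hx i)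
    set W : ℤ := (Wn D : ℤ)
    set o : ℤ := ((CC D).o5 : ℤ)
    have hW0 : 0 ≤ W := Int.natCast_nonneg _
    have h2 : 0 ≤ W ^ 2 := by positivity
    have h3 : 0 ≤ W ^ 3 * o := by positivity
    have h4 : 0 ≤ W ^ 4 * o := by positivity
    have i0 : -(2 ^ 142 * o) ≤ 4 * x 0 ∧ 4 * x 0 ≤ 2 ^ 142 * o := by
      constructor <;> linarith [(k 0).1, (k 0).2]
    have i1 : -(2 ^ 142 * o) ≤ x 2 - x 0 - x 4 ∧ x 2 - x 0 - x 4 ≤ 2 ^ 142 * o := by
      constructor <;> linarith [(k 0).1, (k 0).2, (k 2).1, (k 2).2, (k 4).1, (k 4).2]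
    have i2 : -(2 ^ 142 * o) ≤ 4 * x 4 ∧ 4 * x 4 ≤ 2 ^ 142 * o := by
      constructor <;> linarith [(k 4).1, (k 4).2]
    have j1 := mul_le_mul_of_nonneg_left i1.1 hW0
    have j1' := mul_le_mul_of_nonneg_left i1.2 hW0
    have j2 := mul_le_mul_of_nonneg_left i2.1 h2
    have j2' := mul_le_mul_of_nonneg_left i2.2 h2
    have hWo : 0 ≤ W * o := by positivity
    have hW2o : 0 ≤ W ^ 2 * o := by positivity
    constructor
    · nlinarith
    · nlinarith
  have hle : YY ≤ XX := by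
    have := hR.1
    rw [← key] at this
    omega
  have hst : stg (nwD (ww D) (Wn D) (CC D).o5 (CC D).o3) (bl5 (Wn D) X) = XX - YY := by
    rw [stg_eq]
    show (4 * ((bl5 (Wn D) X &&& (Wn D - 1)) + (bl5 (Wn D) X &&& (Wn D * Wn D * (Wn D * Wn D) * (Wn D - 1))) >>> (2 * ww D)) +
      (bl5 (Wn D) X &&& (Wn D * Wn D * (Wn D - 1))) >>> ww D + c) -
      ((bl5 (Wn D) X &&& (Wn D - 1)) <<< ww D + (bl5 (Wn D) X &&& (Wn D * Wn D * (Wn D * Wn D) * (Wn D - 1))) >>> (3 * ww D)) = _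
    rw [a0, a2, a4, s4, s43, s2, s0]
  have hst' : ((XX - YY : ℕ) : ℤ) = (XX : ℤ) - YY := by push_cast [hle]; ring
  refine ⟨by rw [hst, hst', key], ⟨?_, ?_, ?_, ?_, ?_, ?_, ?_, ?_, ?_⟩⟩
  · exact bl5_lt hXl
  · show Wn D - 1 < _
    rw [p5]
    calc Wn D - 1 < Wn D := by omega
      _ ≤ Wn D ^ 5 := Nat.le_self_pow (by norm_num) _
  · show Wn D * Wn D * (Wn D - 1) < _
    rw [p5]
    calc Wn D * Wn D * (Wn D - 1) < Wn D * Wn D * Wn D := by
          apply Nat.mul_lt_mul_of_pos_left (by omega) (by positivity)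
      _ = Wn D ^ 3 := by ring
      _ ≤ Wn D ^ 5 := Nat.pow_le_pow_right hWp (by norm_num)
  · show Wn D * Wn D * (Wn D * Wn D) * (Wn D - 1) < _
    rw [p5]
    calc Wn D * Wn D * (Wn D * Wn D) * (Wn D - 1) < Wn D * Wn D * (Wn D * Wn D) * Wn D := by
          apply Nat.mul_lt_mul_of_pos_left (by omega) (by positivity)
      _ = Wn D ^ 5 := by ring
  · show 2 ^ ww D ∣ (bl5 (Wn D) X &&& (Wn D * Wn D * (Wn D - 1)))
    rw [a2, ← hWd]
    exact ⟨Wn D * X 2, by ring⟩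
  · show 2 ^ (2 * ww D) ∣ (bl5 (Wn D) X &&& (Wn D * Wn D * (Wn D * Wn D) * (Wn D - 1)))
    rw [a4, p2]
    exact ⟨Wn D * Wn D * X 4, by ring⟩
  · show 2 ^ (3 * ww D) ∣ (bl5 (Wn D) X &&& (Wn D * Wn D * (Wn D * Wn D) * (Wn D - 1)))
    rw [a4, p3]
    exact ⟨Wn D * X 4, by ring⟩
  · show (bl5 (Wn D) X &&& (Wn D - 1)) <<< ww D + (bl5 (Wn D) X &&& (Wn D * Wn D * (Wn D * Wn D) * (Wn D - 1))) >>> (3 * ww D) ≤
      4 * ((bl5 (Wn D) X &&& (Wn D - 1)) + (bl5 (Wn D) X &&& (Wn D * Wn D * (Wn D * Wn D) * (Wn D - 1))) >>> (2 * ww D)) +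
      (bl5 (Wn D) X &&& (Wn D * Wn D * (Wn D - 1))) >>> ww D + c
    rw [a0, a2, a4, s4, s43, s2, s0]
    exact hle
  · rw [hst, p5]
    zify
    rw [hst', key]
    exact hR.2

/-- THE REDUCTION -/
theorem stgs_ok {D : ℕ} {H : V5 D → ℤ} {b : ℤ} (hb : 0 ≤ b) (hH : ∀ v, |H v| ≤ b)
    (h4 : 4 ^ D * b ≤ 2 ^ 142) {U : ℕ} (hU : (U : ℤ) = HB * (CC D).o5 + z5 D H) :
    (stgs (CC D).ds U : ℤ) = HB * (CC D).o5 + z3 D (rdZ D H) ∧ VS (ww D) (CC D).ds U := by
  induction D generalizing U with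
  | zero => exact ⟨hU, trivial⟩
  | succ D ih =>
    have ho : (0 : ℤ) ≤ (CC D).o5 := Int.natCast_nonneg _
    have hHB : (HB : ℤ) = 2 ^ 143 := by rw [HB_eq]; norm_num
    have e4 : (4 : ℤ) ^ (D + 1) * b = 4 * (4 ^ D * b) := by rw [pow_succ]; ring
    rw [e4] at h4
    have hp : (0 : ℤ) ≤ 4 ^ D * b := by positivity
    have h4' : (4 : ℤ) ^ D * b ≤ 2 ^ 140 := by linarith
    have hb' : b ≤ 2 ^ 140 := by
      have : (1 : ℤ) ≤ 4 ^ D := one_le_pow₀ (by norm_num)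
      nlinarith
    have hz : ∀ i : Fin 5, |z5 D (fun u => H (u, i))| ≤ 2 ^ 140 * (CC D).o5 := fun i =>
      (z5_bd fun v => hH (v, i)).trans (mul_le_mul_of_nonneg_right hb' ho)
    set X : Fin 5 → ℕ := fun i => (HB * (CC D).o5 + z5 D (fun u => H (u, i)) : ℤ).toNat with hX
    have hXz : ∀ i, (X i : ℤ) = HB * (CC D).o5 + z5 D (fun u => H (u, i)) := by
      intro i
      refine Int.toNat_of_nonneg ?_
      have := (abs_le.mp (hz i)).1
      rw [hHB]
      nlinarith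
    have hs := fun i => ih (H := fun u => H (u, i)) (fun v => hH (v, i)) (by linarith) (hXz i)
    have hU5 : U = bl5 (Wn D) X := by
      zify
      rw [hU]
      unfold bl5
      push_cast
      rw [hXz, hXz, hXz, hXz, hXz, CC_o5s, f5_eq, z5_succ]
      push_cast
      ring
    have hds : (CC (D + 1)).ds = (CC D).ds.map (scD (Wn D)) ++
        [nwD (ww D) (Wn D) (CC D).o5 (CC D).o3] := by
      show mpD (scD (CC D).W) (nwD (CC D).w (CC D).W (CC D).o5 (CC D).o3) (CC D).ds = _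
      rw [mpD_e2, CC_W, CC_w]
    obtain ⟨l1, l2⟩ := stgs_lift fun i => (hs i).2
    have hx : ∀ i : Fin 5, |z3 D (rdZ D (fun u => H (u, i)))| ≤ 2 ^ 140 * (CC D).o5 := fun i =>
      (z3_bd (by positivity) (rdZ_bd hb fun v => hH (v, i))).trans
        (mul_le_mul_of_nonneg_right h4' ho)
    obtain ⟨n1, n2⟩ := nw_ok (fun i => (hs i).1) hx
    rw [hds, ww_succ, hU5]
    refine ⟨?_, VS_app l2 ?_⟩
    · rw [stgs_app]
      show (stg _ (stgs (List.map (scD (2 ^ ww D)) (CC D).ds) (bl5 (2 ^ ww D) X)) : ℤ) = _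
      rw [l1]
      show (stg _ (bl5 (Wn D) fun i => stgs (CC D).ds (X i)) : ℤ) = _
      rw [n1, z3_succ]
      have e0 : (fun u : Vt D => rdZ (D + 1) H (u, 0)) =
          fun u => 4 * rdZ D (fun u => H (u, 0)) u := rfl
      have e1 : (fun u : Vt D => rdZ (D + 1) H (u, 1)) = fun u => rdZ D (fun u => H (u, 2)) u -
          rdZ D (fun u => H (u, 0)) u - rdZ D (fun u => H (u, 4)) u := rfl
      have e2 : (fun u : Vt D => rdZ (D + 1) H (u, 2)) =
          fun u => 4 * rdZ D (fun u => H (u, 4)) u := rfl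
      rw [e0, e1, e2, z3_mul, z3_sub, z3_sub, z3_mul]
    · show DV (5 * ww D) _ (stgs (List.map (scD (2 ^ ww D)) (CC D).ds) (bl5 (2 ^ ww D) X))
      rw [l1]
      exact n2

/-! ### the division -/

theorem B1_shr2 (k : ℕ) (hk : k ≤ 144) : B1 >>> k = 2 ^ (144 - k) - 1 := by
  rw [B1_eq, Nat.shiftRight_eq_div_pow]
  have e : 2 ^ 144 = 2 ^ (144 - k) * 2 ^ k := by rw [← pow_add]; congr 1; omega
  have h1 : 1 ≤ 2 ^ (144 - k) := Nat.one_le_two_pow
  have h2 : 1 ≤ 2 ^ k := Nat.one_le_two_pow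
  have h3 : (2 ^ (144 - k) - 1) * 2 ^ k + 2 ^ k = 2 ^ 144 := by
    rw [e, Nat.sub_mul, one_mul]
    exact Nat.sub_add_cancel (Nat.le_mul_of_pos_left _ (by positivity))
  rw [Nat.div_eq_iff (by positivity)]
  omega

/-- masked shift of a number with offset digits -/
theorem shr_z3 {D k : ℕ} (hk : k ≤ 144) {G : Vt D → ℤ} (hG : ∀ v, |G v| ≤ 2 ^ 142) {R : ℕ}
    (hR : (R : ℤ) = HB * (CC D).o5 + z3 D G) :
    (R >>> k) &&& q3 D (fun _ => B1 >>> k) = q3 D (fun v => (2 ^ 143 + G v).toNat >>> k) := by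
  have hw : ∀ D, k ≤ ww D := fun D => by
    unfold ww; nlinarith [Nat.one_le_pow D 5 (by norm_num)]
  have hHB : (HB : ℤ) = 2 ^ 143 := by rw [HB_eq]; norm_num
  induction D generalizing R with
  | zero =>
    have e : R = (2 ^ 143 + G ()).toNat := by
      have h1 : (R : ℤ) = HB * ((1 : ℕ) : ℤ) + G () := hR
      rw [hHB] at h1
      omega
    have h3 := abs_le.mp (hG ())
    have hlt : R < 2 ^ 144 := by
      rw [e]
      have : (2 ^ 143 + G ()).toNat < (2 ^ 144 : ℤ) := by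
        rw [Int.toNat_of_nonneg (by linarith)]
        have e : (2 : ℤ) ^ 144 = 2 ^ 143 + 2 * 2 ^ 142 := by norm_num
        linarith
      exact_mod_cast this
    show (R >>> k) &&& (B1 >>> k) = (2 ^ 143 + G ()).toNat >>> k
    rw [← e, B1_shr2 k hk, land_mask]
    rw [Nat.shiftRight_eq_div_pow, Nat.div_lt_iff_lt_mul (by positivity), ← pow_add]
    convert hlt using 2
    omega
  | succ D ih =>
    have ho : (0 : ℤ) ≤ (CC D).o5 := Int.natCast_nonneg _
    have key : ∀ g : Vt D → ℤ, (∀ v, |g v| ≤ 2 ^ 142) →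
        ((HB * (CC D).o5 + z3 D g : ℤ).toNat : ℤ) = HB * (CC D).o5 + z3 D g ∧
        (HB * (CC D).o5 + z3 D g : ℤ).toNat < 2 ^ ww D := by
      intro g hg
      have hz := z3_bd (D := D) (by positivity) hg
      have h1 : ((HB * (CC D).o5 + z3 D g : ℤ).toNat : ℤ) = HB * (CC D).o5 + z3 D g := by
        refine Int.toNat_of_nonneg ?_
        have := (abs_le.mp hz).1
        rw [hHB]
        nlinarith
      exact ⟨h1, X_lt h1 hz⟩
    obtain ⟨r0, s0⟩ := key (fun u => G (u, 0)) fun v => hG (v, 0)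
    obtain ⟨r1, s1⟩ := key (fun u => G (u, 1)) fun v => hG (v, 1)
    obtain ⟨r2, s2⟩ := key (fun u => G (u, 2)) fun v => hG (v, 2)
    set R0 := (HB * (CC D).o5 + z3 D (fun u => G (u, 0)) : ℤ).toNat
    set R1 := (HB * (CC D).o5 + z3 D (fun u => G (u, 1)) : ℤ).toNat
    set R2 := (HB * (CC D).o5 + z3 D (fun u => G (u, 2)) : ℤ).toNat
    have e : R = R0 + 2 ^ ww D * (R1 + 2 ^ ww D * (R2 + 2 ^ ww D *
        (HB * (CC D).o5 + 2 ^ ww D * (HB * (CC D).o5)))) := by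
      have hW : ((2 ^ ww D : ℕ) : ℤ) = (Wn D : ℤ) := rfl
      zify
      push_cast at hW
      rw [hR, CC_o5s, f5_eq, z3_succ, r0, r1, r2, hW]
      push_cast
      ring
    have hm : q3 D (fun _ => B1 >>> k) < 2 ^ (ww D - k) := by
      refine q3_ltk hk fun _ => ?_
      rw [B1_shr2 k hk]
      have : 1 ≤ 2 ^ (144 - k) := Nat.one_le_two_pow
      omega
    have hq : q3 (D + 1) (fun _ => B1 >>> k) = q3 D (fun _ => B1 >>> k) + 2 ^ ww D *
        (q3 D (fun _ => B1 >>> k) + 2 ^ ww D * (q3 D (fun _ => B1 >>> k) + 2 ^ ww D * 0)) := by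
      rw [q3_succ]; unfold Wn; ring
    rw [e, hq, shr2 (hw D) s0 hm, shr2 (hw D) s1 hm, shr2 (hw D) s2 hm,
      ih (fun v => hG (v, 0)) r0, ih (fun v => hG (v, 1)) r1, ih (fun v => hG (v, 2)) r2,
      Nat.and_zero, q3_succ]
    unfold Wn
    ring

/-- a digit after the division -/
theorem dig_shr {k : ℕ} (hk : k ≤ 143) {x : ℤ} (hx : |x| ≤ 2 ^ 142) :
    (((2 ^ 143 + x).toNat >>> k : ℕ) : ℤ) = 2 ^ (143 - k) + x / 2 ^ k := by
  have h := abs_le.mp hx
  have h0 : (0 : ℤ) ≤ 2 ^ 143 + x := by linarith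
  rw [Nat.shiftRight_eq_div_pow, Int.natCast_div, Int.toNat_of_nonneg h0, Nat.cast_pow,
    Nat.cast_ofNat]
  have e : (2 : ℤ) ^ 143 = 2 ^ (143 - k) * 2 ^ k := by rw [← pow_add]; congr 1; omega
  rw [e, add_comm, Int.add_mul_ediv_right _ _ (by positivity), add_comm]

/-! ### the doubling -/

/-- the masks of the index `1` in the directions of a list, `c v`: how many of them contain `v` -/
inductive TcL (D : ℕ) : List DC → (Vt D → ℕ) → Prop
  | nil : TcL D [] (fun _ => 0)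
  | cons {d : DC} {l : List DC} {c : Vt D → ℕ} (p : Vt D → Bool)
      (hd : d.tc = q3 D (fun v => if p v then B1 else 0)) (hl : TcL D l c) :
      TcL D (d :: l) (fun v => c v + if p v then 1 else 0)

theorem TcL.app {D : ℕ} {l : List DC} {c : Vt D → ℕ} (h : TcL D l c) {d : DC} (p : Vt D → Bool)
    (hd : d.tc = q3 D (fun v => if p v then B1 else 0)) :
    TcL D (l ++ [d]) (fun v => c v + if p v then 1 else 0) := by
  induction h with
  | nil => simpa using TcL.cons p hd TcL.nil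
  | cons q hq hl ih =>
    have := TcL.cons q hq ih
    simp only [List.cons_append]
    convert this using 2
    ring

theorem TcL.lift {D : ℕ} {l : List DC} {c : Vt D → ℕ} (h : TcL D l c) :
    TcL (D + 1) (l.map (scD (Wn D))) (fun v => c v.1) := by
  induction h with
  | nil => exact TcL.nil
  | cons p hd hl ih =>
    refine TcL.cons (fun v : Vt (D + 1) => p v.1) ?_ ih
    show f3 (Wn D) * _ = _
    rw [hd, q3_succ]
    show (1 + Wn D * (1 + Wn D)) * _ = _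
    ring

theorem CC_ds_succ (D : ℕ) : (CC (D + 1)).ds = (CC D).ds.map (scD (Wn D)) ++
    [nwD (ww D) (Wn D) (CC D).o5 (CC D).o3] := by
  show mpD (scD (CC D).W) (nwD (CC D).w (CC D).W (CC D).o5 (CC D).o3) (CC D).ds = _
  rw [mpD_e2, CC_W, CC_w]

theorem CC_tc (D : ℕ) : TcL D (CC D).ds (mi D) := by
  induction D with
  | zero => exact TcL.nil
  | succ D ih =>
    rw [CC_ds_succ]
    have h := ih.lift.app (d := nwD (ww D) (Wn D) (CC D).o5 (CC D).o3)
      (fun v : Vt (D + 1) => decide (v.2 = 1)) ?_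
    · have e : mi (D + 1) = fun v : Vt (D + 1) => mi D v.1 + if decide (v.2 = 1) = true then 1 else 0 := by
        funext v
        show mi D v.1 + _ = _
        congr 1
        simp
      rw [e]
      exact h
    · show Wn D * (B1 * (CC D).o3) = _
      rw [cst_o3, q3_succ]
      simp [q3_zero]

theorem dbls_ok {D : ℕ} {l : List DC} {c : Vt D → ℕ} (h : TcL D l c) {f : Vt D → ℕ}
    (hf : ∀ v, 2 ^ c v * f v < 2 ^ 144) : dbls l (q3 D f) = q3 D (fun v => 2 ^ c v * f v) := by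
  induction h generalizing f with
  | nil => simp [dbls]
  | @cons d l c p hd hl ih =>
    have hf1 : ∀ v, f v < 2 ^ 144 := fun v => by
      have := hf v
      have h1 : 1 ≤ 2 ^ (c v + if p v then 1 else 0) := Nat.one_le_two_pow
      nlinarith
    have e : q3 D f + (q3 D f &&& d.tc) = q3 D (fun v => 2 ^ (if p v then 1 else 0) * f v) := by
      rw [hd, q3_land hf1 (fun v => by split <;> simp [B1_eq]), ← q3_add]
      congr 1
      funext v
      by_cases hp : p v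
      · simp only [hp, if_true]
        rw [B1_eq, land_mask (hf1 v)]
        ring
      · simp [hp]
    show dbls l (q3 D f + (q3 D f &&& d.tc)) = _
    rw [e, ih]
    · congr 1
      funext v
      rw [pow_add]; ring
    · intro v
      have := hf v
      rw [pow_add] at this
      calc _ = 2 ^ c v * 2 ^ (if p v then 1 else 0) * f v := by ring
        _ < _ := this

/-! ### the product -/

theorem two_mi (D : ℕ) {v : Vt D} {n : ℕ} (h : n < 2 ^ (144 - D)) (hD : D ≤ 144) :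
    2 ^ mi D v * n < 2 ^ 144 := by
  have h1 : 2 ^ mi D v ≤ 2 ^ D := Nat.pow_le_pow_right (by norm_num) (mi_le D v)
  have e : 2 ^ 144 = 2 ^ D * 2 ^ (144 - D) := by rw [← pow_add]; congr 1; omega
  rw [e]
  calc _ ≤ 2 ^ D * n := Nat.mul_le_mul_right _ h1
    _ < _ := Nat.mul_lt_mul_of_pos_left h (by positivity)

theorem fin_ok {D : ℕ} (hD : D ≤ 4) {G : Vt D → ℤ} (hG : ∀ v, |G v| ≤ 2 ^ 142) {U : ℕ}
    (hU : (U : ℤ) = HB * (CC D).o5 + z3 D G) :
    zv (fin (CC D) U) = pkZ D (fun v => G v / 2 ^ (48 + 2 * D)) := by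
  have hk : 48 + 2 * D ≤ 143 := by omega
  have e1 : fin (CC D) U = toz ((HB >>> (CC D).sr) * (CC D).od)
      (dbls (CC D).ds ((U >>> (CC D).sr) &&& ((B1 >>> (CC D).sr) * (CC D).o3))) := rfl
  have hd : ∀ v, (2 ^ 143 + G v).toNat >>> (48 + 2 * D) < 2 ^ (144 - D) := by
    intro v
    have h3 := abs_le.mp (hG v)
    have hlt : (2 ^ 143 + G v).toNat < 2 ^ 144 := by
      have : ((2 ^ 143 + G v).toNat : ℤ) < 2 ^ 144 := by
        rw [Int.toNat_of_nonneg (by linarith)]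
        have e : (2 : ℤ) ^ 144 = 2 ^ 143 + 2 * 2 ^ 142 := by norm_num
        linarith
      exact_mod_cast this
    rw [Nat.shiftRight_eq_div_pow, Nat.div_lt_iff_lt_mul (by positivity), ← pow_add]
    exact hlt.trans_le (Nat.pow_le_pow_right (by norm_num) (by omega))
  rw [e1, CC_sr, cst_o3, shr_z3 (by omega) hG hU,
    dbls_ok (CC_tc D) fun v => two_mi D (hd v) (by omega), zv_toz, cst_od, ← z3_cast, ← z3_cast,
    ← z3_sub]
  unfold pkZ
  congr 1
  funext v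
  rw [Nat.cast_mul, Nat.cast_mul, dig_shr hk (hG v)]
  have e2 : ((HB >>> (48 + 2 * D) : ℕ) : ℤ) = 2 ^ (143 - (48 + 2 * D)) := by
    rw [HB_eq, Nat.shiftRight_eq_div_pow, Nat.pow_div hk (by norm_num)]
    norm_cast
  rw [e2, Nat.cast_pow, Nat.cast_ofNat]
  ring

theorem rd_ok {D : ℕ} (hD : D ≤ 4) {F1 F2 G1 G2 : Vt D → ℤ} (h1 : ∀ v, |F1 v| ≤ 2 ^ 60)
    (h2 : ∀ v, |F2 v| ≤ 2 ^ 60) (h3 : ∀ v, |G1 v| ≤ 2 ^ 60) (h4 : ∀ v, |G2 v| ≤ 2 ^ 60) {z : Z}
    (hz : zv z = pkZ D F1 * pkZ D F2 + pkZ D G1 * pkZ D G2) :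
    zv (rd (CC D) z) = pkZ D (fun v => (mulZ (fun a b : ℤ => a * b) D (List.replicate D true) F1 F2 v +
      mulZ (fun a b : ℤ => a * b) D (List.replicate D true) G1 G2 v) / 2 ^ (48 + 2 * D)) ∧
    ∀ v, |(mulZ (fun a b : ℤ => a * b) D (List.replicate D true) F1 F2 v +
      mulZ (fun a b : ℤ => a * b) D (List.replicate D true) G1 G2 v) / 2 ^ (48 + 2 * D)| ≤ 2 ^ 100 := by
  set H : V5 D → ℤ := fun v => cv D F1 F2 v + cv D G1 G2 v with hH
  set b : ℤ := 6 ^ D * (2 ^ 60 * 2 ^ 60) + 6 ^ D * (2 ^ 60 * 2 ^ 60) with hb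
  have h60 : (0 : ℤ) ≤ 2 ^ 60 := by positivity
  have c1 : ∀ v, |cv D F1 F2 v| ≤ 6 ^ D * (2 ^ 60 * 2 ^ 60) := fun v =>
    cv_bd (a := 2 ^ 60) (b := 2 ^ 60) h60 h60 h1 h2 v
  have c2 : ∀ v, |cv D G1 G2 v| ≤ 6 ^ D * (2 ^ 60 * 2 ^ 60) := fun v =>
    cv_bd (a := 2 ^ 60) (b := 2 ^ 60) h60 h60 h3 h4 v
  have hHb : ∀ v, |H v| ≤ b := by
    intro v
    rw [hb]
    exact (abs_add_le (cv D F1 F2 v) (cv D G1 G2 v)).trans (add_le_add (c1 v) (c2 v))
  have hb0 : 0 ≤ b := by positivity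
  have hb4 : 4 ^ D * b ≤ 2 ^ 142 := by
    have e : 4 ^ D * b = 24 ^ D * (2 * 2 ^ 60 * 2 ^ 60) := by
      rw [hb]
      have : (24 : ℤ) ^ D = 4 ^ D * 6 ^ D := by rw [← mul_pow]; norm_num
      rw [this]; ring
    rw [e]
    have : (24 : ℤ) ^ D ≤ 24 ^ 4 := pow_le_pow_right₀ (by norm_num) hD
    calc _ ≤ (24 : ℤ) ^ 4 * (2 * 2 ^ 60 * 2 ^ 60) := mul_le_mul_of_nonneg_right this (by positivity)
      _ ≤ _ := by norm_num
  have e : ∀ v, rdZ D H v = mulZ (fun a b : ℤ => a * b) D (List.replicate D true) F1 F2 v +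
      mulZ (fun a b : ℤ => a * b) D (List.replicate D true) G1 G2 v := by
    intro v
    rw [hH, rdZ_add, rdZ_cv, rdZ_cv]
  have hr : ∀ v, |rdZ D H v| ≤ 2 ^ 142 := fun v => (rdZ_bd hb0 hHb v).trans hb4
  have hz5 : zv z = z5 D H := by
    rw [hz, hH, z5_add, pkZ_prod, pkZ_prod]
  have ho : (0 : ℤ) ≤ (CC D).o5 := Int.natCast_nonneg _
  have hHB : (HB : ℤ) = 2 ^ 143 := by rw [HB_eq]; norm_num
  have hbb : b ≤ 2 ^ 142 := by
    have : (1 : ℤ) ≤ 4 ^ D := one_le_pow₀ (by norm_num)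
    nlinarith
  have hz5b : |z5 D H| ≤ HB * (CC D).o5 := by
    refine (z5_bd hHb).trans (mul_le_mul_of_nonneg_right (hbb.trans ?_) ho)
    rw [hHB]; norm_num
  have key : ∀ U : ℕ, (U : ℤ) = HB * (CC D).o5 + z5 D H →
      zv (rd1 (CC D) U) = pkZ D (fun v => rdZ D H v / 2 ^ (48 + 2 * D)) := fun U hU =>
    fin_ok hD hr (stgs_ok hb0 hHb hb4 hU).1
  constructor
  · simp only [← e]
    cases z with
    | p n =>
      have hn : z5 D H = n := hz5.symm
      by_cases h0 : n = 0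
      · have hr0 : rd (CC D) (Z.p n) = Z.p 0 := by subst h0; rfl
        have hU : ((HB * (CC D).o5 : ℕ) : ℤ) = HB * (CC D).o5 + z5 D H := by
          rw [hn, h0]; push_cast; ring
        rw [← key _ hU]
        have hU0 : ((HB * (CC D).o5 : ℕ) : ℤ) = HB * (CC D).o5 + z5 D (fun _ => 0) := by
          have : z5 D (fun _ => 0) = 0 := by
            have := z5_mul D 0 (fun _ => 0)
            simpa using this
          rw [this]; push_cast; ring
        have h5 := fin_ok (D := D) hD (G := rdZ D (fun _ => 0)) (U := stgs (CC D).ds (HB * (CC D).o5))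
          (fun v => (rdZ_bd (b := 0) le_rfl (fun _ => by simp) v).trans (by positivity))
          (stgs_ok (b := 0) le_rfl (fun _ => by simp) (by norm_num) hU0).1
        have h6 : rd1 (CC D) (HB * (CC D).o5) = fin (CC D) (stgs (CC D).ds (HB * (CC D).o5)) := rfl
        rw [h6, h5, hr0]
        have h7 : ∀ v, rdZ D (fun _ => 0) v = 0 := fun v => by
          have := rdZ_mul D 0 (fun _ => 0) v
          simpa using this
        simp only [h7, Int.zero_ediv]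
        unfold pkZ
        simp only [mul_zero]
        have := z3_mul D 0 (fun _ => 0)
        simp only [mul_zero, zero_mul] at this
        rw [this]; rfl
      · have hr1 : rd (CC D) (Z.p n) = rd1 (CC D) (HB * (CC D).o5 + n) := by
          obtain ⟨m, rfl⟩ := Nat.exists_eq_succ_of_ne_zero h0
          rfl
        rw [hr1]
        apply key
        rw [hn]; push_cast; ring
    | m n =>
      have hn : z5 D H = -(n : ℤ) := hz5.symm
      have hr1 : rd (CC D) (Z.m n) = rd1 (CC D) (HB * (CC D).o5 - n) := rfl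
      rw [hr1]
      apply key
      have : n ≤ HB * (CC D).o5 := by
        rw [hn, abs_neg, Nat.abs_cast] at hz5b
        exact_mod_cast hz5b
      rw [Nat.cast_sub this, hn]; push_cast; ring
  · intro v
    rw [← e]
    have h5 := abs_le.mp (hr v)
    have h6 : (2 : ℤ) ^ 48 ≤ 2 ^ (48 + 2 * D) := pow_le_pow_right₀ (by norm_num) (by omega)
    have h7 : (0 : ℤ) < 2 ^ (48 + 2 * D) := by positivity
    rw [abs_le]
    constructor
    · rw [Int.le_ediv_iff_mul_le h7]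
      have : (2 : ℤ) ^ 142 ≤ 2 ^ 100 * 2 ^ 48 := by norm_num
      nlinarith
    · have : rdZ D H v / 2 ^ (48 + 2 * D) < 2 ^ 100 := by
        rw [Int.ediv_lt_iff_lt_mul h7]
        have : (2 : ℤ) ^ 142 < 2 ^ 100 * 2 ^ 48 := by norm_num
        nlinarith
      exact this.le

end Pool.Agent.Helper86.CK
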