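import Pool.Agent.Helper86.CK.KB

/-!
Packed machine (MP_c75db0), row K3: small digits, nonnegative digits.
-/

set_option autoImplicit false
set_option exponentiation.threshold 4000
noncomputable section
namespace Pool.Agent.Helper86.CK

open Pool.Agent.Helper86.C75 (Z)
open Pool.Agent.Helper86.CX
open Pool.Agent.Helper86.CT
open Pool.Agent.Helper90.C75 (Vt)
open Pool.Agent.Helper90.KMO (zv cz)

/-- a number inside a mask of packed digits is packed -/
theorem mask_dec {D : ℕ} {G : Vt D → ℕ} (hG : ∀ v, G v < 2 ^ 144) {L : ℕ}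
    (h : L &&& q3 D G = L) : ∃ g : Vt D → ℕ, L = q3 D g ∧ ∀ v, g v ≤ G v := by
  induction D generalizing L with
  | zero =>
    refine ⟨fun _ => L, rfl, fun v => ?_⟩
    have h1 : L &&& G () = L := h
    have h2 : L ≤ G () := by
      rw [← h1]
      exact Nat.and_le_right
    exact h2
  | succ D ih =>
    have hW : 0 < Wn D := Wn_pos D
    have hG0 := q3_lt3 fun u => hG (u, 0)
    have hG1 := q3_lt3 fun u => hG (u, 1)
    obtain ⟨l0, l', hl, hl0⟩ : ∃ l0 l', L = l0 + Wn D * l' ∧ l0 < Wn D :=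
      ⟨L % Wn D, L / Wn D, (Nat.mod_add_div L (Wn D)).symm, Nat.mod_lt _ hW⟩
    obtain ⟨l1, l2, hl', hl1⟩ : ∃ l1 l2, l' = l1 + Wn D * l2 ∧ l1 < Wn D :=
      ⟨l' % Wn D, l' / Wn D, (Nat.mod_add_div l' (Wn D)).symm, Nat.mod_lt _ hW⟩
    have split : ∀ {a b x y : ℕ}, a < Wn D → b < Wn D →
        (a + Wn D * x) &&& (b + Wn D * y) = a + Wn D * x → a &&& b = a ∧ x &&& y = x := by
      intro a b x y ha hb hh
      have e : (a + Wn D * x) &&& (b + Wn D * y) = (a &&& b) + Wn D * (x &&& y) :=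
        land2 ha hb x y
      rw [e] at hh
      have hab : a &&& b < Wn D := Nat.lt_of_le_of_lt Nat.and_le_left ha
      have e0 : a &&& b = a := by
        have := congrArg (· % Wn D) hh
        simpa [Nat.add_mul_mod_self_left, Nat.mod_eq_of_lt, ha, hab] using this
      rw [e0] at hh
      exact ⟨e0, Nat.eq_of_mul_eq_mul_left hW (Nat.add_left_cancel hh)⟩
    rw [q3_succ, hl] at h
    obtain ⟨h0, h'⟩ := split hl0 hG0 h
    rw [hl'] at h'
    obtain ⟨h1, h2⟩ := split hl1 hG1 h'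
    obtain ⟨g0, e0, k0⟩ := ih (fun u => hG (u, 0)) h0
    obtain ⟨g1, e1, k1⟩ := ih (fun u => hG (u, 1)) h1
    obtain ⟨g2, e2, k2⟩ := ih (fun u => hG (u, 2)) h2
    refine ⟨fun v => if v.2 = 0 then g0 v.1 else if v.2 = 1 then g1 v.1 else g2 v.1, ?_, ?_⟩
    · rw [q3_succ, hl, hl', e0, e1, e2]
      rfl
    · rintro ⟨u, i⟩
      fin_cases i
      · exact k0 u
      · exact k1 u
      · exact k2 u

/-- THE TEST OF SMALL DIGITS (hint: `V = ofs (2^60 od + W) z`, `V = land V (q3 (2^(61+m) - 1)) + W`, so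
`z + 2^60 od` has digits `< 2^(61+m)`; uniqueness `z3_inj`) -/
theorem sm_ok {D : ℕ} (hD : D ≤ 4) {z : Z} {J : Vt D → ℤ} (hz : zv z = pkZ D J)
    (hJ : ∀ v, |J v| ≤ 2 ^ 100) (h : sm (CC D) z = true) : ∀ v, |J v| ≤ 2 ^ 60 := by
  have hmi : ∀ v : Vt D, 2 ^ mi D v ≤ 16 := fun v => by
    calc 2 ^ mi D v ≤ 2 ^ 4 := Nat.pow_le_pow_right (by norm_num) ((mi_le D v).trans hD)
      _ = 16 := by norm_num
  have hmi1 : ∀ v : Vt D, 1 ≤ 2 ^ mi D v := fun v => Nat.one_le_two_pow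
  have hmiZ : ∀ v : Vt D, (2 : ℤ) ^ mi D v ≤ 16 := fun v => by exact_mod_cast hmi v
  have hmiZ1 : ∀ v : Vt D, (1 : ℤ) ≤ 2 ^ mi D v := fun v => by exact_mod_cast hmi1 v
  -- the masks
  have hM : 2305843009213693952 * (CC D).od - (CC D).o3 =
      q3 D (fun v => 2305843009213693952 * 2 ^ mi D v - 1) := by
    rw [cst_od, CC_o3, q3_sub]
    intro v
    have := hmi1 v
    omega
  have hGb : ∀ v : Vt D, 2305843009213693952 * 2 ^ mi D v - 1 < 2 ^ 144 := fun v => by
    have := hmi v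
    have h2 : 2305843009213693952 * 2 ^ mi D v - 1 ≤ 2305843009213693952 * 16 := by omega
    exact h2.trans_lt (by norm_num)
  -- the bound of `zv z`
  have hF : ∀ v : Vt D, |2 ^ mi D v * J v| ≤ ((2 ^ 143 : ℕ) : ℤ) := fun v => by
    rw [abs_mul, abs_of_nonneg (by positivity : (0 : ℤ) ≤ 2 ^ mi D v)]
    have h1 := hmiZ v
    have h2 := hJ v
    have h0 : (0 : ℤ) ≤ |J v| := abs_nonneg _
    calc 2 ^ mi D v * |J v| ≤ 16 * 2 ^ 100 := by
          apply mul_le_mul h1 h2 h0 (by norm_num)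
      _ ≤ ((2 ^ 143 : ℕ) : ℤ) := by norm_num
  have hzb : -(q3 D (fun _ => 2 ^ 143) : ℤ) ≤ zv z := by
    have e : (q3 D (fun v => (((2 ^ 143 : ℕ) : ℤ) + 2 ^ mi D v * J v).toNat) : ℤ) =
        q3 D (fun _ => 2 ^ 143) + zv z := by
      rw [← z3_cast, ← z3_cast, hz, pkZ, ← z3_add]
      congr 1
      funext v
      rw [Int.toNat_of_nonneg]
      have := abs_le.mp (hF v)
      linarith
    have := Int.natCast_nonneg (q3 D (fun v => (((2 ^ 143 : ℕ) : ℤ) + 2 ^ mi D v * J v).toNat))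
    linarith
  have hzW : -((1152921504606846976 * (CC D).od + (CC D).W : ℕ) : ℤ) ≤ zv z := by
    have h1 : q3 D (fun _ => 2 ^ 143) < Wn D := q3_lt3 fun _ => by norm_num
    have h2 : (q3 D (fun _ => 2 ^ 143) : ℤ) < Wn D := by exact_mod_cast h1
    rw [CC_W]
    push_cast
    have h3 : (0 : ℤ) ≤ 1152921504606846976 * ((CC D).od : ℤ) := by positivity
    linarith
  set V := ofs (1152921504606846976 * (CC D).od + (CC D).W) z with hV
  have hVe : (V : ℤ) = (1152921504606846976 * (CC D).od + (CC D).W : ℕ) + zv z := ofs_eq hzW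
  have ht : V = (V &&& (2305843009213693952 * (CC D).od - (CC D).o3)) + (CC D).W :=
    Nat.eq_of_beq_eq_true h
  rw [hM] at ht
  set M := q3 D (fun v => 2305843009213693952 * 2 ^ mi D v - 1) with hMd
  have hMW : M < Wn D := q3_lt3 hGb
  set L := V &&& M with hL
  have hLM : L ≤ M := Nat.and_le_right
  have hLW : L < Wn D := hLM.trans_lt hMW
  have hLL : L &&& M = L := by
    rw [hL, Nat.and_assoc, Nat.and_self]
  obtain ⟨g, hg, hgb⟩ := mask_dec hGb hLL
  have hVL : (1152921504606846976 * (CC D).od : ℤ) + zv z = (L : ℤ) := by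
    have : (V : ℤ) = (L : ℤ) + ((CC D).W : ℤ) := by exact_mod_cast ht
    rw [hVe] at this
    push_cast at this
    linarith
  have e3 : z3 D (fun v => 2 ^ mi D v * (1152921504606846976 + J v)) = z3 D (fun v => (g v : ℤ)) := by
    rw [z3_cast, ← hg, ← hVL, hz, pkZ]
    have e4 : ((1152921504606846976 * (CC D).od : ℕ) : ℤ) =
        z3 D (fun v => ((1152921504606846976 * 2 ^ mi D v : ℕ) : ℤ)) := by
      rw [cst_od, z3_cast]
    have e5 : (1152921504606846976 * ((CC D).od : ℤ)) =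
        ((1152921504606846976 * (CC D).od : ℕ) : ℤ) := by push_cast; ring
    rw [e5, e4, ← z3_add]
    congr 1
    funext v
    push_cast
    ring
  have hgZ : ∀ v, (g v : ℤ) ≤ 2305843009213693952 * 2 ^ mi D v - 1 := fun v => by
    have h1 := hgb v
    have h2 := hmi1 v
    have h3 : g v + 1 ≤ 2305843009213693952 * 2 ^ mi D v := by omega
    have h4 : ((g v : ℤ)) + 1 ≤ 2305843009213693952 * 2 ^ mi D v := by exact_mod_cast h3
    linarith
  have hdig := z3_inj (D := D) (f := fun v => 2 ^ mi D v * (1152921504606846976 + J v))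
    (g := fun v => (g v : ℤ)) (fun v => by
      show |2 ^ mi D v * (1152921504606846976 + J v)| < 2 ^ 143
      rw [abs_mul, abs_of_nonneg (by positivity : (0 : ℤ) ≤ 2 ^ mi D v)]
      have h1 := hmiZ v
      have h2 : |1152921504606846976 + J v| ≤ 1152921504606846976 + 2 ^ 100 :=
        (abs_add_le _ _).trans (add_le_add (by norm_num) (hJ v))
      calc 2 ^ mi D v * |1152921504606846976 + J v|
          ≤ 16 * (1152921504606846976 + 2 ^ 100) :=
            mul_le_mul h1 h2 (abs_nonneg _) (by norm_num)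
        _ < 2 ^ 143 := by norm_num)
    (fun v => by
      show |(g v : ℤ)| < 2 ^ 143
      rw [abs_of_nonneg (by positivity)]
      have h1 := hgZ v
      have h2 := hmiZ v
      linarith) e3
  intro v
  have h1 : 2 ^ mi D v * (1152921504606846976 + J v) = (g v : ℤ) := hdig v
  have h2 := hgZ v
  have h3 := hmiZ1 v
  have h4 : (0 : ℤ) ≤ (g v : ℤ) := by positivity
  have hpos : (0 : ℤ) < 2 ^ mi D v := by linarith
  have h5 : (0 : ℤ) ≤ 1152921504606846976 + J v := by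
    by_contra hc
    simp only [not_le, not_lt] at hc
    have : 2 ^ mi D v * (1152921504606846976 + J v) < 0 := mul_neg_of_pos_of_neg hpos hc
    linarith
  have h6 : 1152921504606846976 + J v < 2305843009213693952 := by
    by_contra hc
    simp only [not_le, not_lt] at hc
    have : 2 ^ mi D v * 2305843009213693952 ≤ 2 ^ mi D v * (1152921504606846976 + J v) :=
      mul_le_mul_of_nonneg_left hc hpos.le
    linarith
  rw [abs_le]
  constructor <;> linarith

/-- THE TEST OF NONNEGATIVE DIGITS (used for `Im x - Im u - m`) -/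
theorem ts_ok {D : ℕ} (hD : D ≤ 4) {z : Z} {J : Vt D → ℤ} {m : ℕ} (hz : zv z = pkZ D J)
    (hJ : ∀ v, |J v| ≤ 2 ^ 62) (hm : m ≤ 2 ^ 60)
    (h : ts1 (CC D) (Nat.sub (ofs (Nat.mul HB (CC D).o3) z) (Nat.mul m (CC D).od)) = true) :
    ∀ v, (m : ℤ) ≤ J v := by
  have hmi : ∀ v : Vt D, 2 ^ mi D v ≤ 16 := fun v => by
    calc 2 ^ mi D v ≤ 2 ^ 4 := Nat.pow_le_pow_right (by norm_num) ((mi_le D v).trans hD)
      _ = 16 := by norm_num
  have hmi1 : ∀ v : Vt D, 1 ≤ 2 ^ mi D v := fun v => Nat.one_le_two_pow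
  have hmiZ : ∀ v : Vt D, (2 : ℤ) ^ mi D v ≤ 16 := fun v => by exact_mod_cast hmi v
  have hmiZ1 : ∀ v : Vt D, (1 : ℤ) ≤ 2 ^ mi D v := fun v => by exact_mod_cast hmi1 v
  have hF : ∀ v : Vt D, |2 ^ mi D v * J v| ≤ 16 * 2 ^ 62 := fun v => by
    rw [abs_mul, abs_of_nonneg (by positivity : (0 : ℤ) ≤ 2 ^ mi D v)]
    exact mul_le_mul (hmiZ v) (hJ v) (abs_nonneg _) (by norm_num)
  have hF' : ∀ v : Vt D, |2 ^ mi D v * J v| ≤ ((HB : ℕ) : ℤ) := fun v => by
    rw [HB_eq]
    exact (hF v).trans (by norm_num)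
  have e1 : ofs (HB * (CC D).o3) z = q3 D (fun v => ((HB : ℤ) + 2 ^ mi D v * J v).toNat) :=
    ofs_q3 hz hF'
  have hnn : ∀ v : Vt D, (((HB : ℤ) + 2 ^ mi D v * J v).toNat : ℤ) =
      (HB : ℤ) + 2 ^ mi D v * J v := fun v => by
    rw [Int.toNat_of_nonneg]
    have := abs_le.mp (hF' v)
    linarith
  have hHB : (HB : ℤ) = 2 ^ 143 := by rw [HB_eq]; norm_num
  have hsub : ∀ v : Vt D, m * 2 ^ mi D v ≤ ((HB : ℤ) + 2 ^ mi D v * J v).toNat := fun v => by
    zify
    rw [hnn v, hHB]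
    have h1 := (abs_le.mp (hF v)).1
    have h2 : (m : ℤ) * 2 ^ mi D v ≤ 2 ^ 60 * 16 := by
      have h3 : (m : ℤ) ≤ 2 ^ 60 := by exact_mod_cast hm
      exact mul_le_mul h3 (hmiZ v) (by positivity) (by norm_num)
    linarith
  have e2 : Nat.sub (ofs (Nat.mul HB (CC D).o3) z) (Nat.mul m (CC D).od) =
      q3 D (fun v => ((HB : ℤ) + 2 ^ mi D v * J v).toNat - m * 2 ^ mi D v) := by
    rw [q3_sub hsub]
    show ofs (HB * (CC D).o3) z - m * (CC D).od = _
    rw [e1, cst_od]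
  rw [e2] at h
  have hlt : ∀ v : Vt D, ((HB : ℤ) + 2 ^ mi D v * J v).toNat - m * 2 ^ mi D v < 2 ^ 144 :=
    fun v => by
      refine (Nat.sub_le _ _).trans_lt ?_
      zify
      rw [hnn v, hHB]
      have h1 := (abs_le.mp (hF v)).2
      linarith
  have h3 : (q3 D (fun v => ((HB : ℤ) + 2 ^ mi D v * J v).toNat - m * 2 ^ mi D v) >>> 143) &&&
      (CC D).o3 = (CC D).o3 := Nat.eq_of_beq_eq_true h
  rw [CC_o3, q3_shr (by norm_num) hlt (fun v => by norm_num)] at h3
  have h4 := q3_inj (fun v => by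
      show (((HB : ℤ) + 2 ^ mi D v * J v).toNat - m * 2 ^ mi D v) >>> 143 &&& 1 < 2 ^ 144
      exact (Nat.and_le_right).trans_lt (by norm_num)) (fun v => by
      show 1 < 2 ^ 144
      norm_num) h3
  intro v
  have h5 : (((HB : ℤ) + 2 ^ mi D v * J v).toNat - m * 2 ^ mi D v) >>> 143 &&& 1 = 1 := h4 v
  have h6 : 2 ^ 143 ≤ ((HB : ℤ) + 2 ^ mi D v * J v).toNat - m * 2 ^ mi D v := by
    by_contra hc
    simp only [not_le, not_lt] at hc
    have : (((HB : ℤ) + 2 ^ mi D v * J v).toNat - m * 2 ^ mi D v) >>> 143 = 0 := by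
      rw [Nat.shiftRight_eq_div_pow]
      exact Nat.div_eq_of_lt hc
    rw [this] at h5
    simp at h5
  have h7 : (2 : ℤ) ^ 143 ≤ (HB : ℤ) + 2 ^ mi D v * J v - m * 2 ^ mi D v := by
    have h8 : ((2 ^ 143 : ℕ) : ℤ) ≤
        ((((HB : ℤ) + 2 ^ mi D v * J v).toNat - m * 2 ^ mi D v : ℕ) : ℤ) := by exact_mod_cast h6
    rw [Nat.cast_sub (hsub v), hnn v] at h8
    push_cast at h8
    exact h8
  rw [hHB] at h7
  have h9 : (0 : ℤ) ≤ 2 ^ mi D v * (J v - m) := by linarith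
  have hpos : (0 : ℤ) < 2 ^ mi D v := by
    have := hmiZ1 v
    linarith
  by_contra hc
  simp only [not_le, not_lt] at hc
  have : 2 ^ mi D v * (J v - m) < 0 := mul_neg_of_pos_of_neg hpos (by linarith)
  linarith

end Pool.Agent.Helper86.CK
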