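import Pool.Agent.Helper86.CK.KB

/-!
Packed machine (MP_c75db0), row K4: sizes.
-/

set_option autoImplicit false
set_option exponentiation.threshold 4000
noncomputable section
namespace Pool.Agent.Helper86.CK

open Pool.Agent.Helper86.C75 (Z)
open Pool.Agent.Helper86.CX
open Pool.Agent.Helper86.CT
open Pool.Agent.Helper90.C75 (Vt)
open Pool.Agent.Helper90.KMO (zv cz)
open Pool.Agent.Helper90.KMT (DL)
open Pool.Agent.Helper17.KPT (FSh)
open Pool.Agent.Helper21.KTE (ZS)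

/-- coefficients of the control values `(a, c, b)` in the basis: `(2 c, b - a, a + b - 2 c)` in every
direction. The transformed digits `trs (CC D).ds (ofs (HB o3) z)` are `2 ^ 143 + (tz D J v)` when the
digits of `z` are `2 ^ m J` (note: `2 ^ m J` is `J` resp. `2 J`). -/
def tz : (D : ℕ) → (Vt D → ℤ) → Vt D → ℤ
  | 0, J => J
  | D + 1, J => fun v => if v.2 = 0 then tz D (fun u => 2 * J (u, 1)) v.1
      else if v.2 = 1 then tz D (fun u => J (u, 2) - J (u, 0)) v.1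
      else tz D (fun u => J (u, 0) + J (u, 2) - 2 * J (u, 1)) v.1

/-! ### the transformation of the digits -/

/-- `(a, 2 c, b)` to `(2 c, b - a, a + b - 2 c)` in every direction -/
def td : (D : ℕ) → (Vt D → ℤ) → Vt D → ℤ
  | 0, x => x
  | D + 1, x => fun v => ![td D (fun u => x (u, 1)) v.1, td D (fun u => x (u, 2)) v.1 -
      td D (fun u => x (u, 0)) v.1, td D (fun u => x (u, 0)) v.1 + td D (fun u => x (u, 2)) v.1 -
      td D (fun u => x (u, 1)) v.1] v.2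

theorem td_add (D : ℕ) (x y : Vt D → ℤ) (v : Vt D) :
    td D (fun u => x u + y u) v = td D x v + td D y v := by
  induction D with
  | zero => rfl
  | succ D ih =>
    obtain ⟨v, i⟩ := v
    fin_cases i
    · show td D (fun u => x (u, 1) + y (u, 1)) v = td D _ v + td D _ v
      rw [ih]
    · show td D (fun u => x (u, 2) + y (u, 2)) v - td D (fun u => x (u, 0) + y (u, 0)) v =
        (td D _ v - td D _ v) + (td D _ v - td D _ v)
      rw [ih, ih]; ring
    · show td D (fun u => x (u, 0) + y (u, 0)) v + td D (fun u => x (u, 2) + y (u, 2)) v -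
        td D (fun u => x (u, 1) + y (u, 1)) v =
        (td D _ v + td D _ v - td D _ v) + (td D _ v + td D _ v - td D _ v)
      rw [ih, ih, ih]; ring

theorem td_mul (D : ℕ) (c : ℤ) (x : Vt D → ℤ) (v : Vt D) :
    td D (fun u => c * x u) v = c * td D x v := by
  induction D with
  | zero => rfl
  | succ D ih =>
    obtain ⟨v, i⟩ := v
    fin_cases i
    · show td D (fun u => c * x (u, 1)) v = c * td D _ v
      rw [ih]
    · show td D (fun u => c * x (u, 2)) v - td D (fun u => c * x (u, 0)) v =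
        c * (td D _ v - td D _ v)
      rw [ih, ih]; ring
    · show td D (fun u => c * x (u, 0)) v + td D (fun u => c * x (u, 2)) v -
        td D (fun u => c * x (u, 1)) v = c * (td D _ v + td D _ v - td D _ v)
      rw [ih, ih, ih]; ring

theorem td_sub (D : ℕ) (x y : Vt D → ℤ) (v : Vt D) :
    td D (fun u => x u - y u) v = td D x v - td D y v := by
  have e : (fun u => x u - y u) = fun u => x u + (-1) * y u := by funext u; ring
  rw [e, td_add, td_mul]; ring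

theorem td_tz (D : ℕ) (J : Vt D → ℤ) (v : Vt D) : td D (fun u => 2 ^ mi D u * J u) v = tz D J v := by
  induction D with
  | zero => show 2 ^ 0 * J v = J v; ring
  | succ D ih =>
    obtain ⟨v, i⟩ := v
    have e0 : ∀ u : Vt D, (2 : ℤ) ^ mi (D + 1) (u, 0) = 2 ^ mi D u := fun u => rfl
    have e1 : ∀ u : Vt D, (2 : ℤ) ^ mi (D + 1) (u, 1) = 2 * 2 ^ mi D u := fun u => by
      show (2 : ℤ) ^ (mi D u + 1) = _
      rw [pow_succ]; ring
    have e2 : ∀ u : Vt D, (2 : ℤ) ^ mi (D + 1) (u, 2) = 2 ^ mi D u := fun u => rfl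
    have f1 : (fun u : Vt D => 2 ^ mi (D + 1) (u, 1) * J (u, 1)) =
        fun u => 2 * (2 ^ mi D u * J (u, 1)) := by
      funext u
      rw [e1]; ring
    have g1 : td D (fun u : Vt D => 2 ^ mi (D + 1) (u, 1) * J (u, 1)) v =
        tz D (fun u => 2 * J (u, 1)) v := by
      rw [f1, ← ih]
      congr 1
      funext u
      ring
    fin_cases i
    · exact g1
    · show td D (fun u => 2 ^ mi D u * J (u, 2)) v - td D (fun u => 2 ^ mi D u * J (u, 0)) v =
        tz D (fun u => J (u, 2) - J (u, 0)) v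
      rw [← td_sub, ← ih]
      congr 1
      funext u
      ring
    · show td D (fun u => 2 ^ mi D u * J (u, 0)) v + td D (fun u => 2 ^ mi D u * J (u, 2)) v -
        td D (fun u => 2 ^ mi (D + 1) (u, 1) * J (u, 1)) v =
        tz D (fun u => J (u, 0) + J (u, 2) - 2 * J (u, 1)) v
      rw [f1, ← td_add, ← td_sub, ← ih]
      congr 1
      funext u
      ring

theorem td_bd {D : ℕ} {x : Vt D → ℤ} {b : ℤ} (h : ∀ v, |x v| ≤ b) (v : Vt D) :
    |td D x v| ≤ 3 ^ D * b := by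
  induction D with
  | zero => show |x v| ≤ 3 ^ 0 * b; rw [pow_zero, one_mul]; exact h v
  | succ D ih =>
    have k := fun i => ih (x := fun u => x (u, i)) (fun u => h (u, i))
    obtain ⟨v, i⟩ := v
    have a0 := abs_le.1 (k 0 v)
    have a1 := abs_le.1 (k 1 v)
    have a2 := abs_le.1 (k 2 v)
    have e : (3 : ℤ) ^ (D + 1) * b = 3 * (3 ^ D * b) := by rw [pow_succ]; ring
    have b0 : 0 ≤ (3 : ℤ) ^ D * b := (abs_nonneg _).trans (k 0 v)
    rw [e]
    fin_cases i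
    · show |td D (fun u => x (u, 1)) v| ≤ _
      rw [abs_le]; constructor <;> linarith [a1.1, a1.2]
    · show |td D (fun u => x (u, 2)) v - td D (fun u => x (u, 0)) v| ≤ _
      rw [abs_le]; constructor <;> linarith [a0.1, a0.2, a2.1, a2.2]
    · show |td D (fun u => x (u, 0)) v + td D (fun u => x (u, 2)) v -
        td D (fun u => x (u, 1)) v| ≤ _
      rw [abs_le]; constructor <;> linarith [a0.1, a0.2, a1.1, a1.2, a2.1, a2.2]

/-! ### three blocks -/

def bl3 (W : ℕ) (a : Fin 3 → ℕ) : ℕ := a 0 + W * (a 1 + W * a 2)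

theorem bl3_const (W m : ℕ) : f3 W * m = bl3 W (fun _ => m) := by
  show (1 + W * (1 + W)) * m = _
  unfold bl3; ring

theorem bl3_add (W : ℕ) (a b : Fin 3 → ℕ) : bl3 W a + bl3 W b = bl3 W (fun i => a i + b i) := by
  unfold bl3; ring

theorem bl3_mul (W c : ℕ) (a : Fin 3 → ℕ) : c * bl3 W a = bl3 W (fun i => c * a i) := by
  unfold bl3; ring

theorem bl3_mono {W : ℕ} {a b : Fin 3 → ℕ} (h : ∀ i, b i ≤ a i) : bl3 W b ≤ bl3 W a := by
  unfold bl3
  exact add_le_add (h 0) (Nat.mul_le_mul_left _ (add_le_add (h 1) (Nat.mul_le_mul_left _ (h 2))))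

theorem bl3_sub {W : ℕ} {a b : Fin 3 → ℕ} (h : ∀ i, b i ≤ a i) :
    bl3 W a - bl3 W b = bl3 W (fun i => a i - b i) := by
  have e : bl3 W (fun i => a i - b i) + bl3 W b = bl3 W a := by
    rw [bl3_add]
    congr 1
    funext i
    exact Nat.sub_add_cancel (h i)
  omega

theorem bl3_land {w : ℕ} {a b : Fin 3 → ℕ} (ha : ∀ i, a i < 2 ^ w) (hb : ∀ i, b i < 2 ^ w) :
    bl3 (2 ^ w) a &&& bl3 (2 ^ w) b = bl3 (2 ^ w) (fun i => a i &&& b i) := by
  unfold bl3
  rw [land2 (ha 0) (hb 0), land2 (ha 1) (hb 1)]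

theorem bl3_shr {W s : ℕ} {a : Fin 3 → ℕ} (h : ∀ i, 2 ^ s ∣ a i) :
    bl3 W a >>> s = bl3 W (fun i => a i >>> s) := by
  have e : bl3 W a = 2 ^ s * bl3 W (fun i => a i >>> s) := by
    rw [bl3_mul]
    congr 1
    funext i
    rw [Nat.shiftRight_eq_div_pow, Nat.mul_div_cancel' (h i)]
  rw [e, Nat.shiftRight_eq_div_pow, Nat.mul_div_cancel_left _ (by positivity)]

theorem bl3_shl (W s : ℕ) (a : Fin 3 → ℕ) : bl3 W a <<< s = bl3 W (fun i => a i <<< s) := by
  rw [Nat.shiftLeft_eq, mul_comm, bl3_mul]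
  congr 1
  funext i
  rw [Nat.shiftLeft_eq, mul_comm]

theorem bl3_lt {w : ℕ} {a : Fin 3 → ℕ} (h : ∀ i, a i < 2 ^ w) : bl3 (2 ^ w) a < 2 ^ (5 * w) := by
  have hW : 0 < 2 ^ w := by positivity
  have e : 2 ^ (5 * w) = (2 ^ w) ^ 5 := by rw [← pow_mul, mul_comm]
  rw [e]
  unfold bl3
  generalize 2 ^ w = W at *
  have h1 : a 1 + W * a 2 < W ^ 2 := by nlinarith [h 1, h 2]
  have h2 : a 0 + W * (a 1 + W * a 2) < W ^ 3 := by nlinarith [h 0]
  exact h2.trans_le (Nat.pow_le_pow_right hW (by norm_num))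

theorem q3_bl3 (D : ℕ) (f : Vt (D + 1) → ℕ) :
    q3 (D + 1) f = bl3 (Wn D) (fun i => q3 D (fun u => f (u, i))) := rfl

theorem tr_eq (d : DC) (U : ℕ) : tr d U = (((U &&& d.tc) >>> d.s + (U &&& d.tb) >>> d.s) +
    (U &&& d.ta) <<< d.s2 + (U &&& d.tb) + d.k) - ((U &&& d.ta) + (U &&& d.tc)) <<< d.s := rfl

/-- a stage without borrow, inside a block of `w` bits -/
structure TV (w : ℕ) (d : DC) (U : ℕ) : Prop where
  u : U < 2 ^ w
  ta : d.ta < 2 ^ w
  tc : d.tc < 2 ^ w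
  tb : d.tb < 2 ^ w
  dc : 2 ^ d.s ∣ (U &&& d.tc)
  db : 2 ^ d.s ∣ (U &&& d.tb)
  nb : ((U &&& d.ta) + (U &&& d.tc)) <<< d.s ≤ ((U &&& d.tc) >>> d.s + (U &&& d.tb) >>> d.s) +
    (U &&& d.ta) <<< d.s2 + (U &&& d.tb) + d.k
  r : tr d U < 2 ^ w

/-- THE LIFTING of a stage to three blocks -/
theorem tr_lift {w : ℕ} {d : DC} {U : Fin 3 → ℕ} (h : ∀ i, TV w d (U i)) :
    tr (scD (2 ^ w) d) (bl3 (2 ^ w) U) = bl3 (2 ^ w) (fun i => tr d (U i)) ∧
      TV (5 * w) (scD (2 ^ w) d) (bl3 (2 ^ w) U) := by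
  have ea : bl3 (2 ^ w) U &&& (f3 (2 ^ w) * d.ta) = bl3 (2 ^ w) (fun i => U i &&& d.ta) := by
    rw [bl3_const, bl3_land (fun i => (h i).u) fun i => (h i).ta]
  have ec : bl3 (2 ^ w) U &&& (f3 (2 ^ w) * d.tc) = bl3 (2 ^ w) (fun i => U i &&& d.tc) := by
    rw [bl3_const, bl3_land (fun i => (h i).u) fun i => (h i).tc]
  have eb : bl3 (2 ^ w) U &&& (f3 (2 ^ w) * d.tb) = bl3 (2 ^ w) (fun i => U i &&& d.tb) := by
    rw [bl3_const, bl3_land (fun i => (h i).u) fun i => (h i).tb]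
  have eX : (bl3 (2 ^ w) (fun i => U i &&& d.tc) >>> d.s +
      bl3 (2 ^ w) (fun i => U i &&& d.tb) >>> d.s) +
      bl3 (2 ^ w) (fun i => U i &&& d.ta) <<< d.s2 + bl3 (2 ^ w) (fun i => U i &&& d.tb) +
      f3 (2 ^ w) * d.k = bl3 (2 ^ w) (fun i => ((U i &&& d.tc) >>> d.s + (U i &&& d.tb) >>> d.s) +
        (U i &&& d.ta) <<< d.s2 + (U i &&& d.tb) + d.k) := by
    rw [bl3_shr fun i => (h i).dc, bl3_shr fun i => (h i).db, bl3_shl, bl3_const, bl3_add, bl3_add,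
      bl3_add, bl3_add]
  have eY : (bl3 (2 ^ w) (fun i => U i &&& d.ta) + bl3 (2 ^ w) (fun i => U i &&& d.tc)) <<< d.s =
      bl3 (2 ^ w) (fun i => ((U i &&& d.ta) + (U i &&& d.tc)) <<< d.s) := by
    rw [bl3_add, bl3_shl]
  have e : tr (scD (2 ^ w) d) (bl3 (2 ^ w) U) = bl3 (2 ^ w) (fun i => tr d (U i)) := by
    show ((bl3 (2 ^ w) U &&& (f3 (2 ^ w) * d.tc)) >>> d.s +
      (bl3 (2 ^ w) U &&& (f3 (2 ^ w) * d.tb)) >>> d.s) +
      (bl3 (2 ^ w) U &&& (f3 (2 ^ w) * d.ta)) <<< d.s2 + (bl3 (2 ^ w) U &&& (f3 (2 ^ w) * d.tb)) +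
      f3 (2 ^ w) * d.k - ((bl3 (2 ^ w) U &&& (f3 (2 ^ w) * d.ta)) +
        (bl3 (2 ^ w) U &&& (f3 (2 ^ w) * d.tc))) <<< d.s = _
    rw [ea, ec, eb, eX, eY, bl3_sub fun i => (h i).nb]
    rfl
  refine ⟨e, bl3_lt fun i => (h i).u, ?_, ?_, ?_, ?_, ?_, ?_, ?_⟩
  · show f3 (2 ^ w) * d.ta < _
    rw [bl3_const]
    exact bl3_lt fun i => (h i).ta
  · show f3 (2 ^ w) * d.tc < _
    rw [bl3_const]
    exact bl3_lt fun i => (h i).tc
  · show f3 (2 ^ w) * d.tb < _
    rw [bl3_const]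
    exact bl3_lt fun i => (h i).tb
  · show 2 ^ d.s ∣ bl3 (2 ^ w) U &&& (f3 (2 ^ w) * d.tc)
    rw [ec]
    exact dvd_add (h 0).dc (dvd_mul_of_dvd_right (dvd_add (h 1).dc
      (dvd_mul_of_dvd_right (h 2).dc _)) _)
  · show 2 ^ d.s ∣ bl3 (2 ^ w) U &&& (f3 (2 ^ w) * d.tb)
    rw [eb]
    exact dvd_add (h 0).db (dvd_mul_of_dvd_right (dvd_add (h 1).db
      (dvd_mul_of_dvd_right (h 2).db _)) _)
  · show ((bl3 (2 ^ w) U &&& (f3 (2 ^ w) * d.ta)) +
        (bl3 (2 ^ w) U &&& (f3 (2 ^ w) * d.tc))) <<< d.s ≤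
      ((bl3 (2 ^ w) U &&& (f3 (2 ^ w) * d.tc)) >>> d.s +
      (bl3 (2 ^ w) U &&& (f3 (2 ^ w) * d.tb)) >>> d.s) +
      (bl3 (2 ^ w) U &&& (f3 (2 ^ w) * d.ta)) <<< d.s2 + (bl3 (2 ^ w) U &&& (f3 (2 ^ w) * d.tb)) +
      f3 (2 ^ w) * d.k
    rw [ea, ec, eb, eX, eY]
    exact bl3_mono fun i => (h i).nb
  · rw [e]
    exact bl3_lt fun i => (h i).r

/-- all stages -/
def TVs (w : ℕ) : List DC → ℕ → Prop
  | [], U => U < 2 ^ w
  | d :: l, U => TV w d U ∧ TVs w l (tr d U)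

theorem trs_cons (d : DC) (l : List DC) (U : ℕ) : trs (d :: l) U = trs l (tr d U) := rfl

theorem trs_append (l : List DC) (x : DC) (U : ℕ) : trs (l ++ [x]) U = tr x (trs l U) := by
  induction l generalizing U with
  | nil => rfl
  | cons d l ih => rw [List.cons_append, trs_cons, ih, trs_cons]

theorem TVs.append {w : ℕ} {l : List DC} {x : DC} {U : ℕ} (h : TVs w l U)
    (hx : TV w x (trs l U)) : TVs w (l ++ [x]) U := by
  induction l generalizing U with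
  | nil => exact ⟨hx, hx.r⟩
  | cons d l ih => exact ⟨h.1, ih h.2 hx⟩

theorem trs_lift {w : ℕ} {l : List DC} {U : Fin 3 → ℕ} (h : ∀ i, TVs w l (U i)) :
    trs (l.map (scD (2 ^ w))) (bl3 (2 ^ w) U) = bl3 (2 ^ w) (fun i => trs l (U i)) ∧
      TVs (5 * w) (l.map (scD (2 ^ w))) (bl3 (2 ^ w) U) := by
  induction l generalizing U with
  | nil => exact ⟨rfl, bl3_lt h⟩
  | cons d l ih =>
    obtain ⟨e, hv⟩ := tr_lift fun i => (h i).1
    obtain ⟨e', hv'⟩ := ih fun i => (h i).2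
    rw [List.map_cons]
    refine ⟨?_, hv, ?_⟩
    · rw [trs_cons, e, e']
      rfl
    · rw [e]
      exact hv'

theorem mpD_eq (f : DC → DC) (x : DC) (l : List DC) : mpD f x l = l.map f ++ [x] := by
  induction l with
  | nil => rfl
  | cons d l ih =>
    show f d :: mpD f x l = _
    rw [ih]
    rfl

theorem CC_ds (D : ℕ) : (CC (D + 1)).ds = (CC D).ds.map (scD (Wn D)) ++
    [nwD (ww D) (Wn D) (CC D).o5 (CC D).o3] := by
  show mpD (scD (CC D).W) (nwD (CC D).w (CC D).W (CC D).o5 (CC D).o3) (CC D).ds = _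
  rw [mpD_eq, CC_w, CC_W]

/-- the digit with offset -/
def of (x : ℤ) : ℕ := (((2 ^ 143 : ℕ) : ℤ) + x).toNat

theorem of_z {x : ℤ} (h : |x| ≤ 2 ^ 143) : ((of x : ℕ) : ℤ) = 2 ^ 143 + x := by
  have := (abs_le.1 h).1
  unfold of
  rw [Int.toNat_of_nonneg (by push_cast; linarith)]
  push_cast
  ring

theorem of_lt {x : ℤ} (h : |x| < 2 ^ 143) : of x < 2 ^ 144 := by
  have h1 := of_z h.le
  have h2 := (abs_lt.1 h).2
  have h3 : ((of x : ℕ) : ℤ) < 2 ^ 144 := by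
    rw [h1]
    have : (2 : ℤ) ^ 144 = 2 ^ 143 + 2 ^ 143 := by norm_num
    rw [this]
    linarith
  exact_mod_cast h3

theorem shr_W (D a : ℕ) : (Wn D * a) >>> ww D = a := by
  unfold Wn
  rw [Nat.shiftRight_eq_div_pow, Nat.mul_div_cancel_left _ (by positivity)]

/-- the new direction -/
theorem nw_tr {D : ℕ} {y : Fin 3 → Vt D → ℤ} {b : ℤ} (hy : ∀ i v, |y i v| ≤ b)
    (hb : 3 * b < 2 ^ 143) :
    TV (ww (D + 1)) (nwD (ww D) (Wn D) (CC D).o5 (CC D).o3)
        (bl3 (Wn D) (fun i => q3 D (fun v => of (y i v)))) ∧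
      tr (nwD (ww D) (Wn D) (CC D).o5 (CC D).o3) (bl3 (Wn D) (fun i => q3 D (fun v => of (y i v)))) =
        bl3 (Wn D) ![q3 D (fun v => of (y 1 v)), q3 D (fun v => of (y 2 v - y 0 v)),
          q3 D (fun v => of (y 0 v + y 2 v - y 1 v))] := by
  have y1 : ∀ i v, |y i v| < 2 ^ 143 := fun i v => by
    have h := hy i v
    have h0 := abs_nonneg (y i v)
    linarith
  have y2 : ∀ v, |y 2 v - y 0 v| < 2 ^ 143 := fun v => by
    have h0 := abs_le.1 (hy 0 v)
    have h2 := abs_le.1 (hy 2 v)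
    rw [abs_lt]; constructor <;> linarith [h0.1, h0.2, h2.1, h2.2]
  have y3 : ∀ v, |y 0 v + y 2 v - y 1 v| < 2 ^ 143 := fun v => by
    have h0 := abs_le.1 (hy 0 v)
    have h1 := abs_le.1 (hy 1 v)
    have h2 := abs_le.1 (hy 2 v)
    rw [abs_lt]; constructor <;> linarith [h0.1, h0.2, h1.1, h1.2, h2.1, h2.2]
  set V : Fin 3 → ℕ := fun i => q3 D (fun v => of (y i v)) with hV
  set Q1 := q3 D (fun v => of (y 2 v - y 0 v)) with hQ1
  set Q2 := q3 D (fun v => of (y 0 v + y 2 v - y 1 v)) with hQ2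
  have hVl : ∀ i, V i < 2 ^ ww D := fun i => q3_lt3 fun v => of_lt (y1 i v)
  have hQ1l : Q1 < 2 ^ ww D := q3_lt3 fun v => of_lt (y2 v)
  have hQ2l : Q2 < 2 ^ ww D := q3_lt3 fun v => of_lt (y3 v)
  have ht : B1 * (CC D).o3 = q3 D (fun _ => 2 ^ 144 - 1) := by rw [cst_o3, B1_eq]
  have htl : B1 * (CC D).o3 < 2 ^ ww D := by
    rw [ht]
    exact q3_lt3 fun _ => by norm_num
  have hm : ∀ i, V i &&& (B1 * (CC D).o3) = V i := fun i => by
    rw [ht, hV]
    show q3 D _ &&& q3 D _ = q3 D _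
    rw [q3_land (fun v => of_lt (y1 i v)) fun _ => by norm_num]
    congr 1
    funext v
    exact land_mask (of_lt (y1 i v))
  have k1 : Q1 + V 0 = V 2 + HB * (CC D).o3 := by
    rw [cst_o3, hQ1, hV, HB_eq]
    show q3 D _ + q3 D _ = q3 D _ + q3 D _
    rw [← q3_add, ← q3_add]
    congr 1
    funext v
    have a1 := of_z (y2 v).le
    have a2 := of_z (y1 0 v).le
    have a3 := of_z (y1 2 v).le
    have a4 : ((of (y 2 v - y 0 v) + of (y 0 v) : ℕ) : ℤ) = ((of (y 2 v) + 2 ^ 143 : ℕ) : ℤ) := by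
      push_cast
      rw [a1, a2, a3]
      ring
    exact_mod_cast a4
  have k2 : Q2 + V 1 = V 0 + V 2 := by
    rw [hQ2, hV]
    show q3 D _ + q3 D _ = q3 D _ + q3 D _
    rw [← q3_add, ← q3_add]
    congr 1
    funext v
    have a1 := of_z (y3 v).le
    have a2 := of_z (y1 0 v).le
    have a3 := of_z (y1 2 v).le
    have a5 := of_z (y1 1 v).le
    have a4 : ((of (y 0 v + y 2 v - y 1 v) + of (y 1 v) : ℕ) : ℤ) =
        ((of (y 0 v) + of (y 2 v) : ℕ) : ℤ) := by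
      push_cast
      rw [a1, a2, a3, a5]
      ring
    exact_mod_cast a4
  have W1 : Wn D = 2 ^ ww D := rfl
  have mk : ∀ a c : Fin 3 → ℕ, (∀ i, a i < 2 ^ ww D) → (∀ i, c i < 2 ^ ww D) →
      bl3 (Wn D) a &&& bl3 (Wn D) c = bl3 (Wn D) (fun i => a i &&& c i) := fun a c ha hc => by
    rw [W1]; exact bl3_land ha hc
  have z0 : (0 : ℕ) < 2 ^ ww D := by positivity
  have f3l : ∀ a c e : ℕ, a < 2 ^ ww D → c < 2 ^ ww D → e < 2 ^ ww D →
      ∀ i, (![a, c, e] : Fin 3 → ℕ) i < 2 ^ ww D := by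
    intro a c e ha hc he i
    fin_cases i
    · exact ha
    · exact hc
    · exact he
  have ea : bl3 (Wn D) V &&& (B1 * (CC D).o3) = V 0 := by
    have e : B1 * (CC D).o3 = bl3 (Wn D) ![B1 * (CC D).o3, 0, 0] := by
      show _ = B1 * (CC D).o3 + Wn D * (0 + Wn D * 0)
      ring
    rw [e, mk V _ hVl (f3l _ _ _ htl z0 z0)]
    show (V 0 &&& (B1 * (CC D).o3)) + Wn D * ((V 1 &&& 0) + Wn D * (V 2 &&& 0)) = V 0
    rw [hm, Nat.and_zero, Nat.and_zero]
    ring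
  have ec : bl3 (Wn D) V &&& (Wn D * (B1 * (CC D).o3)) = Wn D * V 1 := by
    have e : Wn D * (B1 * (CC D).o3) = bl3 (Wn D) ![0, B1 * (CC D).o3, 0] := by
      show _ = 0 + Wn D * (B1 * (CC D).o3 + Wn D * 0)
      ring
    rw [e, mk V _ hVl (f3l _ _ _ z0 htl z0)]
    show (V 0 &&& 0) + Wn D * ((V 1 &&& (B1 * (CC D).o3)) + Wn D * (V 2 &&& 0)) = _
    rw [hm, Nat.and_zero, Nat.and_zero]
    ring
  have eb : bl3 (Wn D) V &&& (Wn D * Wn D * (B1 * (CC D).o3)) = Wn D * (Wn D * V 2) := by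
    have e : Wn D * Wn D * (B1 * (CC D).o3) = bl3 (Wn D) ![0, 0, B1 * (CC D).o3] := by
      show _ = 0 + Wn D * (0 + Wn D * (B1 * (CC D).o3))
      ring
    rw [e, mk V _ hVl (f3l _ _ _ z0 z0 htl)]
    show (V 0 &&& 0) + Wn D * ((V 1 &&& 0) + Wn D * (V 2 &&& (B1 * (CC D).o3))) = _
    rw [hm, Nat.and_zero, Nat.and_zero]
    ring
  have s2 : V 0 <<< (2 * ww D) = Wn D * (Wn D * V 0) := by
    rw [Nat.shiftLeft_eq, W1]
    rw [show 2 * ww D = ww D + ww D by ring, pow_add]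
    ring
  have s1 : (V 0 + Wn D * V 1) <<< ww D = Wn D * (V 0 + Wn D * V 1) := by
    rw [Nat.shiftLeft_eq, ← W1]
    ring
  have big : (V 1 + Wn D * V 2) + Wn D * (Wn D * V 0) + Wn D * (Wn D * V 2) +
      Wn D * (HB * (CC D).o3) = bl3 (Wn D) ![V 1, Q1, Q2] + Wn D * (V 0 + Wn D * V 1) := by
    show _ = V 1 + Wn D * (Q1 + Wn D * Q2) + Wn D * (V 0 + Wn D * V 1)
    zify at k1 k2 ⊢
    linear_combination -(Wn D : ℤ) * k1 - (Wn D : ℤ) ^ 2 * k2
  have e : tr (nwD (ww D) (Wn D) (CC D).o5 (CC D).o3) (bl3 (Wn D) V) =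
      bl3 (Wn D) ![V 1, Q1, Q2] := by
    show ((bl3 (Wn D) V &&& (Wn D * (B1 * (CC D).o3))) >>> ww D +
      (bl3 (Wn D) V &&& (Wn D * Wn D * (B1 * (CC D).o3))) >>> ww D) +
      (bl3 (Wn D) V &&& (B1 * (CC D).o3)) <<< (2 * ww D) +
      (bl3 (Wn D) V &&& (Wn D * Wn D * (B1 * (CC D).o3))) + Wn D * (HB * (CC D).o3) -
      ((bl3 (Wn D) V &&& (B1 * (CC D).o3)) + (bl3 (Wn D) V &&& (Wn D * (B1 * (CC D).o3)))) <<< ww D
        = _
    rw [ea, ec, eb, shr_W, shr_W, s2, s1, big, Nat.add_sub_cancel]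
  have hw5 : 2 ^ ww D ≤ 2 ^ ww (D + 1) := by
    rw [ww_succ]
    exact Nat.pow_le_pow_right (by norm_num) (by omega)
  refine ⟨⟨?_, ?_, ?_, ?_, ?_, ?_, ?_, ?_⟩, e⟩
  · rw [ww_succ, W1]
    exact bl3_lt hVl
  · exact htl.trans_le hw5
  · show Wn D * (B1 * (CC D).o3) < _
    have e2 : Wn D * (B1 * (CC D).o3) = bl3 (2 ^ ww D) ![0, B1 * (CC D).o3, 0] := by
      show _ = 0 + Wn D * (B1 * (CC D).o3 + Wn D * 0)
      ring
    rw [ww_succ, e2]
    exact bl3_lt (f3l _ _ _ z0 htl z0)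
  · show Wn D * Wn D * (B1 * (CC D).o3) < _
    have e2 : Wn D * Wn D * (B1 * (CC D).o3) = bl3 (2 ^ ww D) ![0, 0, B1 * (CC D).o3] := by
      show _ = 0 + Wn D * (0 + Wn D * (B1 * (CC D).o3))
      ring
    rw [ww_succ, e2]
    exact bl3_lt (f3l _ _ _ z0 z0 htl)
  · show 2 ^ ww D ∣ bl3 (Wn D) V &&& (Wn D * (B1 * (CC D).o3))
    rw [ec]
    exact Dvd.intro _ rfl
  · show 2 ^ ww D ∣ bl3 (Wn D) V &&& (Wn D * Wn D * (B1 * (CC D).o3))
    rw [eb]
    exact Dvd.intro _ rfl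
  · show ((bl3 (Wn D) V &&& (B1 * (CC D).o3)) + (bl3 (Wn D) V &&& (Wn D * (B1 * (CC D).o3))))
        <<< ww D ≤ ((bl3 (Wn D) V &&& (Wn D * (B1 * (CC D).o3))) >>> ww D +
      (bl3 (Wn D) V &&& (Wn D * Wn D * (B1 * (CC D).o3))) >>> ww D) +
      (bl3 (Wn D) V &&& (B1 * (CC D).o3)) <<< (2 * ww D) +
      (bl3 (Wn D) V &&& (Wn D * Wn D * (B1 * (CC D).o3))) + Wn D * (HB * (CC D).o3)
    rw [ea, ec, eb, shr_W, shr_W, s2, s1, big]
    exact Nat.le_add_left _ _
  · rw [e, ww_succ]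
    exact bl3_lt (f3l _ _ _ (hVl 1) hQ1l hQ2l)

/-- THE TRANSFORMATION of all directions -/
theorem trs_ok {D : ℕ} {x : Vt D → ℤ} {b : ℤ} (b0 : 0 ≤ b) (hx : ∀ v, |x v| ≤ b)
    (hb : 3 ^ D * b < 2 ^ 143) :
    TVs (ww D) (CC D).ds (q3 D (fun v => of (x v))) ∧
      trs (CC D).ds (q3 D (fun v => of (x v))) = q3 D (fun v => of (td D x v)) := by
  induction D with
  | zero =>
    have h0 : |x ()| < 2 ^ 143 := by
      have := hx ()
      rw [pow_zero, one_mul] at hb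
      linarith
    exact ⟨of_lt h0, rfl⟩
  | succ D ih =>
    have h3 : (0 : ℤ) < 3 ^ D := by positivity
    have e3 : (3 : ℤ) ^ (D + 1) * b = 3 * (3 ^ D * b) := by rw [pow_succ]; ring
    rw [e3] at hb
    have b1 : 0 ≤ (3 : ℤ) ^ D * b := mul_nonneg h3.le b0
    have k := fun i => ih (x := fun u => x (u, i)) (fun u => hx (u, i)) (by linarith)
    obtain ⟨e, hv⟩ := trs_lift (w := ww D) fun i => (k i).1
    have e' : trs ((CC D).ds.map (scD (Wn D))) (q3 (D + 1) (fun v => of (x v))) =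
        bl3 (Wn D) (fun i => q3 D (fun v => of (td D (fun u => x (u, i)) v))) := by
      rw [q3_bl3]
      refine e.trans ?_
      show bl3 (Wn D) _ = _
      congr 1
      funext i
      exact (k i).2
    obtain ⟨n1, n2⟩ := nw_tr (D := D) (y := fun i => td D (fun u => x (u, i))) (b := 3 ^ D * b)
      (fun i v => td_bd (fun u => hx (u, i)) v) hb
    rw [CC_ds]
    constructor
    · refine TVs.append ?_ ?_
      · rw [ww_succ, q3_bl3]
        exact hv
      · rw [e']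
        exact n1
    · rw [trs_append, e', n2]
      rfl

/-! ### absolute values -/

theorem hb4 {D : ℕ} (hD : D ≤ 4) : (3 : ℤ) ^ D * (2 ^ D * 2 ^ 60) < 2 ^ 143 := by
  interval_cases D <;> norm_num

/-- the digits of a packed number -/
theorem dg_le {D : ℕ} {J : Vt D → ℤ} (hJ : ∀ v, |J v| ≤ 2 ^ 60) (v : Vt D) :
    |2 ^ mi D v * J v| ≤ 2 ^ D * 2 ^ 60 := by
  rw [abs_mul, abs_of_nonneg (by positivity)]
  exact mul_le_mul (pow_le_pow_right₀ (by norm_num) (mi_le D v)) (hJ v) (abs_nonneg _)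
    (by positivity)

theorem tz_bd {D : ℕ} {J : Vt D → ℤ} (hJ : ∀ v, |J v| ≤ 2 ^ 60) (v : Vt D) :
    |tz D J v| ≤ 3 ^ D * (2 ^ D * 2 ^ 60) := by
  rw [← td_tz]
  exact td_bd (dg_le hJ) v

theorem ofs_of {D : ℕ} (hD : D ≤ 4) {z : Z} {J : Vt D → ℤ} (hz : zv z = pkZ D J)
    (hJ : ∀ v, |J v| ≤ 2 ^ 60) : ofs (HB * (CC D).o3) z = q3 D (fun v => of (2 ^ mi D v * J v)) := by
  rw [HB_eq]
  refine ofs_q3 (n := 2 ^ 143) hz fun v => ?_
  refine (dg_le hJ v).trans ?_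
  push_cast
  interval_cases D <;> norm_num

/-- THE TRANSFORMED DIGITS -/
theorem trs_tz {D : ℕ} (hD : D ≤ 4) {z : Z} {J : Vt D → ℤ} (hz : zv z = pkZ D J)
    (hJ : ∀ v, |J v| ≤ 2 ^ 60) :
    trs (CC D).ds (ofs (HB * (CC D).o3) z) = q3 D (fun v => of (tz D J v)) := by
  rw [ofs_of hD hz hJ, (trs_ok (by positivity) (dg_le hJ) (hb4 hD)).2]
  congr 1
  funext v
  rw [td_tz]

/-- the sign -/
def sg (x : ℤ) : ℕ := (of x >>> 143) &&& 1

theorem sg_eq {x : ℤ} (h : |x| < 2 ^ 143) : sg x = if 0 ≤ x then 1 else 0 := by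
  have h1 := of_z h.le
  have h2 := abs_lt.1 h
  unfold sg
  rw [Nat.shiftRight_eq_div_pow, Nat.and_one_is_mod]
  split
  · rename_i hx
    have a1 : 2 ^ 143 ≤ of x := by
      have : (2 ^ 143 : ℤ) ≤ ((of x : ℕ) : ℤ) := by rw [h1]; linarith
      exact_mod_cast this
    have a2 := of_lt h
    have a3 : of x / 2 ^ 143 = 1 := by
      apply Nat.div_eq_of_lt_le
      · rw [one_mul]; exact a1
      · have : (1 + 1) * 2 ^ 143 = 2 ^ 144 := by norm_num
        rw [this]; exact a2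
    rw [a3]
  · rename_i hx
    have a1 : of x < 2 ^ 143 := by
      have : ((of x : ℕ) : ℤ) < (2 ^ 143 : ℤ) := by rw [h1]; linarith
      exact_mod_cast this
    rw [Nat.div_eq_of_lt a1]

theorem num1 (B n : ℕ) : (B + n + B) - ((B + n - (B + n)) + 2 * B * 1) = n := by omega
theorem num2 {B f n : ℕ} (h : f + n = B) : (0 + B) - ((f - 0) + 2 * B * 0) = n := by omega
theorem num3 {B f : ℕ} (h : B ≤ f) : (f - f) + 2 * B * 1 ≤ f + B := by omega
theorem num4 {B f : ℕ} (h : f ≤ B) : (f - 0) + 2 * B * 0 ≤ 0 + B := by omega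
theorem p144 : (2 : ℕ) ^ 144 = 2 * 2 ^ 143 := by rw [← pow_succ']

theorem abT_ok' {D : ℕ} {x : Vt D → ℤ} (hx : ∀ v, |x v| < 2 ^ 143) :
    ab1 (CC D) (q3 D (fun v => of (x v))) = q3 D (fun v => (x v).natAbs) := by
  have ho : ∀ v, of (x v) < 2 ^ 144 := fun v => of_lt (hx v)
  have e1 : (q3 D (fun v => of (x v)) >>> 143) &&& (CC D).o3 = q3 D (fun v => sg (x v)) := by
    rw [CC_o3]
    exact q3_shr (by norm_num) ho fun v => by norm_num
  have e2 : q3 D (fun v => sg (x v)) <<< 144 = q3 D (fun v => 2 ^ 144 * sg (x v)) := by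
    rw [Nat.shiftLeft_eq, mul_comm, q3_mul]
  have e3 : q3 D (fun v => 2 ^ 144 * sg (x v)) - q3 D (fun v => sg (x v)) =
      q3 D (fun v => (2 ^ 144 - 1) * sg (x v)) := by
    rw [← q3_sub fun v => ?_]
    · refine congrArg (q3 D) (funext fun v => ?_)
      rw [Nat.sub_mul, one_mul]
    · exact Nat.le_mul_of_pos_left _ (by positivity)
  have e4 : q3 D (fun v => of (x v)) &&& q3 D (fun v => (2 ^ 144 - 1) * sg (x v)) =
      q3 D (fun v => if 0 ≤ x v then of (x v) else 0) := by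
    rw [q3_land ho fun v => ?_]
    · refine congrArg (q3 D) (funext fun v => ?_)
      rw [sg_eq (hx v)]
      split
      · rw [mul_one]; exact land_mask (ho v)
      · rw [mul_zero, Nat.and_zero]
    · rw [sg_eq (hx v)]
      split <;> norm_num
  show (_ + HB * (CC D).o3) - ((_ - _) + _) = _
  show ((q3 D (fun v => of (x v)) &&& ((((q3 D (fun v => of (x v)) >>> 143) &&& (CC D).o3) <<< 144) -
      ((q3 D (fun v => of (x v)) >>> 143) &&& (CC D).o3))) + HB * (CC D).o3) -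
    ((q3 D (fun v => of (x v)) - (q3 D (fun v => of (x v)) &&&
      ((((q3 D (fun v => of (x v)) >>> 143) &&& (CC D).o3) <<< 144) -
      ((q3 D (fun v => of (x v)) >>> 143) &&& (CC D).o3)))) +
      (((q3 D (fun v => of (x v)) >>> 143) &&& (CC D).o3) <<< 144)) = _
  rw [e1, e2, e3, e4, HB_eq, cst_o3, ← q3_add, ← q3_sub fun v => ?_, ← q3_add, ← q3_sub fun v => ?_]
  · refine congrArg (q3 D) (funext fun v => ?_)
    have h1 := of_z (hx v).le
    have h2 := abs_lt.1 (hx v)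
    rw [sg_eq (hx v)]
    split
    · rename_i h0
      have a1 : ((of (x v) : ℕ) : ℤ) = 2 ^ 143 + ((x v).natAbs : ℤ) := by
        rw [h1, Int.natCast_natAbs, abs_of_nonneg h0]
      have a2 : of (x v) = 2 ^ 143 + (x v).natAbs := by exact_mod_cast a1
      rw [a2, p144]
      exact num1 _ _
    · rename_i h0
      have a1 : ((of (x v) : ℕ) : ℤ) + ((x v).natAbs : ℤ) = 2 ^ 143 := by
        rw [h1, Int.natCast_natAbs, abs_of_neg (not_le.1 h0)]
        ring
      have a2 : of (x v) + (x v).natAbs = 2 ^ 143 := by exact_mod_cast a1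
      rw [p144]
      exact num2 a2
  · rw [sg_eq (hx v)]
    have h1 := of_z (hx v).le
    have h2 := abs_lt.1 (hx v)
    split
    · rename_i h0
      have a1 : ((2 ^ 143 : ℕ) : ℤ) ≤ ((of (x v) : ℕ) : ℤ) := by rw [h1]; push_cast; linarith
      have a2 : 2 ^ 143 ≤ of (x v) := by exact_mod_cast a1
      rw [p144]
      exact num3 a2
    · rename_i h0
      have a1 : ((of (x v) : ℕ) : ℤ) ≤ ((2 ^ 143 : ℕ) : ℤ) := by rw [h1]; push_cast; linarith
      have a2 : of (x v) ≤ 2 ^ 143 := by exact_mod_cast a1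
      rw [p144]
      exact num4 a2
  · show (if 0 ≤ x v then of (x v) else 0) ≤ of (x v)
    split
    · exact le_rfl
    · exact Nat.zero_le _

/-- absolute values of the transformed digits -/
theorem abT_ok {D : ℕ} (hD : D ≤ 4) {z : Z} {J : Vt D → ℤ} (hz : zv z = pkZ D J)
    (hJ : ∀ v, |J v| ≤ 2 ^ 60) : abT (CC D) z = q3 D (fun v => (tz D J v).natAbs) := by
  show ab1 (CC D) (trs (CC D).ds (ofs (HB * (CC D).o3) z)) = _
  rw [trs_tz hD hz hJ, abT_ok' fun v => (tz_bd hJ v).trans_lt (hb4 hD)]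

/-! ### square roots -/

theorem nc_ge (a b : ℕ) : Real.sqrt ((a : ℝ) ^ 2 + (b : ℝ) ^ 2) ≤ nc a b := by
  have ha : (0 : ℝ) ≤ a := Nat.cast_nonneg a
  have hb : (0 : ℝ) ≤ b := Nat.cast_nonneg b
  have h1 : a + b + (a + (b - a)) ≤ 2 * nc a b := by
    show a + b + (a + (b - a)) ≤ 2 * ((a + b + (a + (b - a)) + 1) / 2)
    omega
  have h2 : (a : ℝ) + b + max (a : ℝ) b ≤ 2 * nc a b := by
    have e : a + (b - a) = max a b := by omega
    rw [e] at h1
    have : ((a + b + max a b : ℕ) : ℝ) ≤ ((2 * nc a b : ℕ) : ℝ) := by exact_mod_cast h1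
    push_cast at this
    exact this
  have h3 : Real.sqrt ((a : ℝ) ^ 2 + (b : ℝ) ^ 2) ≤ ((a : ℝ) + b + max (a : ℝ) b) / 2 := by
    rw [Real.sqrt_le_left (by positivity)]
    rcases le_total (a : ℝ) b with h | h
    · rw [max_eq_right h]
      nlinarith [mul_nonneg ha hb, mul_nonneg ha (sub_nonneg.2 h)]
    · rw [max_eq_left h]
      nlinarith [mul_nonneg ha hb, mul_nonneg hb (sub_nonneg.2 h)]
  linarith

theorem sq2_ok (a b : ℕ) : Real.sqrt ((a : ℝ) ^ 2 + (b : ℝ) ^ 2) ≤ sq2 a b := by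
  have h0 := nc_ge a b
  show _ ≤ ((nc a b - (nc a b - ((a * a + b * b) / nc a b + 1)) / 2 : ℕ) : ℝ)
  set c := nc a b with hc
  set q := (a * a + b * b) / c with hq
  rcases Nat.eq_zero_or_pos c with h | h
  · rw [h] at h0 ⊢
    simpa using h0
  rcases Nat.lt_or_ge c (q + 1) with h1 | h1
  · have : c - (q + 1) = 0 := by omega
    rw [this]
    simpa using h0
  · have h2 : c + q + 1 ≤ 2 * (c - (c - (q + 1)) / 2) := by omega
    have h3 : (c : ℝ) + q + 1 ≤ 2 * ((c - (c - (q + 1)) / 2 : ℕ) : ℝ) := by exact_mod_cast h2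
    have h4 : a * a + b * b < c * (q + 1) := by
      rw [hq]
      exact Nat.lt_mul_div_succ _ h
    have h5 : (a : ℝ) ^ 2 + (b : ℝ) ^ 2 ≤ c * (q + 1) := by
      have : ((a * a + b * b : ℕ) : ℝ) < ((c * (q + 1) : ℕ) : ℝ) := by exact_mod_cast h4
      push_cast at this
      nlinarith
    have h6 : Real.sqrt ((a : ℝ) ^ 2 + (b : ℝ) ^ 2) ≤ ((c : ℝ) + (q + 1)) / 2 := by
      rw [Real.sqrt_le_left (by positivity)]
      refine h5.trans ?_
      nlinarith [sq_nonneg ((c : ℝ) - (q + 1))]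
    linarith

theorem sq2_zero : sq2 0 0 = 0 := by decide

theorem cd_ge (D S : ℕ) : (S : ℝ) ≤ 2 ^ D * (cd D S : ℝ) := by
  have h : cd D S = (S + (2 ^ D - 1)) / 2 ^ D := Nat.shiftRight_eq_div_pow _ _
  have h0 : 0 < 2 ^ D := by positivity
  have h1 : S + (2 ^ D - 1) < 2 ^ D * ((S + (2 ^ D - 1)) / 2 ^ D + 1) := Nat.lt_mul_div_succ _ h0
  have h2 : S ≤ 2 ^ D * cd D S := by
    rw [h]
    have : 2 ^ D * ((S + (2 ^ D - 1)) / 2 ^ D + 1) =
      2 ^ D * ((S + (2 ^ D - 1)) / 2 ^ D) + 2 ^ D := by ring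
    omega
  exact_mod_cast h2

theorem cd_zero (D : ℕ) : cd D 0 = 0 := by
  show (0 + (2 ^ D - 1)) >>> D = 0
  have h0 : 0 < 2 ^ D := by positivity
  rw [Nat.shiftRight_eq_div_pow, Nat.div_eq_of_lt (by omega)]

theorem nrm_le {k a b : ℕ} {x y : ℤ} (hx : 2 ^ k * |x| ≤ a) (hy : 2 ^ k * |y| ≤ b) :
    2 ^ k * ‖(x : ℂ) + (y : ℂ) * Complex.I‖ ≤ sq2 a b := by
  have e : ‖(x : ℂ) + (y : ℂ) * Complex.I‖ = Real.sqrt ((x : ℝ) ^ 2 + (y : ℝ) ^ 2) := by
    have h := Complex.norm_add_mul_I (x : ℝ) (y : ℝ)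
    push_cast at h
    exact h
  have h1 : (2 : ℝ) ^ k * |(x : ℝ)| ≤ a := by exact_mod_cast hx
  have h2 : (2 : ℝ) ^ k * |(y : ℝ)| ≤ b := by exact_mod_cast hy
  refine le_trans ?_ (sq2_ok a b)
  rw [e]
  apply Real.le_sqrt_of_sq_le
  rw [mul_pow, Real.sq_sqrt (by positivity)]
  have p : (0 : ℝ) < 2 ^ k := by positivity
  have g1 := mul_self_le_mul_self (mul_nonneg p.le (abs_nonneg (x : ℝ))) h1
  have g2 := mul_self_le_mul_self (mul_nonneg p.le (abs_nonneg (y : ℝ))) h2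
  have s1 : |(x : ℝ)| * |(x : ℝ)| = x ^ 2 := by rw [abs_mul_abs_self]; ring
  have s2 : |(y : ℝ)| * |(y : ℝ)| = y ^ 2 := by rw [abs_mul_abs_self]; ring
  nlinarith [g1, g2, s1, s2]

theorem nrm_cd {k a b : ℕ} {x y : ℤ} (hx : 2 ^ k * |x| ≤ a) (hy : 2 ^ k * |y| ≤ b) :
    ‖(x : ℂ) + (y : ℂ) * Complex.I‖ ≤ cd k (sq2 a b) := by
  have h := (nrm_le hx hy).trans (cd_ge k (sq2 a b))
  exact le_of_mul_le_mul_left h (by positivity)

/-! ### sums of the digits -/

def sV : (D : ℕ) → (Vt D → ℕ) → ℕ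
  | 0, f => f ()
  | D + 1, f => sV D (fun u => f (u, 0)) + sV D (fun u => f (u, 1)) + sV D (fun u => f (u, 2))

theorem sV_le {D : ℕ} {f : Vt D → ℕ} {M : ℕ} (h : ∀ v, f v ≤ M) : sV D f ≤ 3 ^ D * M := by
  induction D with
  | zero => rw [pow_zero, one_mul]; exact h ()
  | succ D ih =>
    have h0 := ih (f := fun u => f (u, 0)) fun u => h (u, 0)
    have h1 := ih (f := fun u => f (u, 1)) fun u => h (u, 1)
    have h2 := ih (f := fun u => f (u, 2)) fun u => h (u, 2)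
    show sV D _ + sV D _ + sV D _ ≤ _
    have e : 3 ^ (D + 1) * M = 3 ^ D * M + 3 ^ D * M + 3 ^ D * M := by ring
    rw [e]
    exact add_le_add (add_le_add h0 h1) h2

theorem Wn_mod (D : ℕ) : Wn D ≡ 1 [MOD B1] := by
  induction D with
  | zero => show 2 ^ 144 ≡ 1 [MOD B1]; decide
  | succ D ih =>
    rw [Wn_succ]
    have := ih.pow 5
    rwa [one_pow] at this

theorem bl3_mod (D : ℕ) (a : Fin 3 → ℕ) : bl3 (Wn D) a ≡ a 0 + a 1 + a 2 [MOD B1] := by
  have h2 : Wn D * a 2 ≡ a 2 [MOD B1] := by simpa using (Wn_mod D).mul_right (a 2)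
  have h1 : Wn D * (a 1 + Wn D * a 2) ≡ a 1 + a 2 [MOD B1] := by
    have h3 := (Wn_mod D).mul_right (a 1 + Wn D * a 2)
    rw [one_mul] at h3
    exact h3.trans (h2.add_left _)
  have := h1.add_left (a 0)
  rw [← add_assoc] at this
  exact this

theorem q3_mod (D : ℕ) (f : Vt D → ℕ) : q3 D f ≡ sV D f [MOD B1] := by
  induction D with
  | zero => exact Nat.ModEq.refl _
  | succ D ih =>
    rw [q3_bl3]
    refine (bl3_mod D _).trans ?_
    exact ((ih _).add (ih _)).add (ih _)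

theorem sd_of {x y : ℕ} (h : x ≡ y [MOD B1]) (hy : y < B1) : sd x = y := by
  show x % B1 = y
  rw [h, Nat.mod_eq_of_lt hy]

/-! ### bounds of the values -/

theorem T_two {a b c : ℤ} (i : Fin 3) : 2 * |(![a, c, b] : Fin 3 → ℤ) i| ≤
    |2 * c| + |b - a| + |a + b - 2 * c| := by
  have h1 := abs_nonneg (2 * c)
  have h2 := abs_nonneg (b - a)
  have h3 := abs_nonneg (a + b - 2 * c)
  have e : ∀ x : ℤ, 2 * |x| = |2 * x| := fun x => by rw [abs_mul]; norm_num
  rw [e]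
  fin_cases i
  · show |2 * a| ≤ _
    have : 2 * a = 2 * c - (b - a) + (a + b - 2 * c) := by ring
    rw [this]
    have h4 := abs_sub (2 * c) (b - a)
    have h5 := abs_add_le (2 * c - (b - a)) (a + b - 2 * c)
    linarith
  · show |2 * c| ≤ _
    linarith
  · show |2 * b| ≤ _
    have : 2 * b = 2 * c + (b - a) + (a + b - 2 * c) := by ring
    rw [this]
    exact (abs_add_le _ _).trans (add_le_add (abs_add_le _ _) le_rfl)

theorem val_le (D : ℕ) (F : Vt D → ℤ) (v : Vt D) :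
    2 ^ D * |F v| ≤ (sV D (fun u => (tz D F u).natAbs) : ℤ) := by
  induction D with
  | zero =>
    show 2 ^ 0 * |F v| ≤ (((F ()).natAbs : ℕ) : ℤ)
    rw [Int.natCast_natAbs, pow_zero, one_mul]
    exact le_rfl
  | succ D ih =>
    obtain ⟨v, i⟩ := v
    have h0 := ih (fun u => 2 * F (u, 1)) v
    have h1 := ih (fun u => F (u, 2) - F (u, 0)) v
    have h2 := ih (fun u => F (u, 0) + F (u, 2) - 2 * F (u, 1)) v
    have h3 := T_two (a := F (v, 0)) (b := F (v, 2)) (c := F (v, 1)) i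
    have e : (![F (v, 0), F (v, 1), F (v, 2)] : Fin 3 → ℤ) i = F (v, i) := by
      fin_cases i <;> rfl
    rw [e] at h3
    have p : (0 : ℤ) < 2 ^ D := by positivity
    have h4 := mul_le_mul_of_nonneg_left h3 p.le
    have e2 : (sV (D + 1) (fun u => (tz (D + 1) F u).natAbs) : ℤ) =
        (sV D (fun u => (tz D (fun u => 2 * F (u, 1)) u).natAbs) : ℤ) +
        sV D (fun u => (tz D (fun u => F (u, 2) - F (u, 0)) u).natAbs) +
        sV D (fun u => (tz D (fun u => F (u, 0) + F (u, 2) - 2 * F (u, 1)) u).natAbs) := rfl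
    rw [e2]
    have e3 : (2 : ℤ) ^ (D + 1) * |F (v, i)| = 2 ^ D * (2 * |F (v, i)|) := by ring
    rw [e3]
    linarith

/-! ### differences -/

/-- `2 ^ k` times the differences, outermost direction first -/
def DI : (D : ℕ) → ℕ → (Vt D → ℤ) → List (ℕ × ℕ) → Prop
  | 0, _, _, _ => True
  | _ + 1, _, _, [] => False
  | D + 1, k, F, p :: l => (∀ v : Vt D, 2 ^ k * |F (v, 2) - F (v, 0)| ≤ p.1) ∧
      (∀ v : Vt D, 2 ^ k * |F (v, 0) + F (v, 2) - 2 * F (v, 1)| ≤ p.2) ∧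
      ∀ i : Fin 3, DI D k (fun v => F (v, i)) l

/-- sum of three lists -/
def ad3 : List (ℕ × ℕ) → List (ℕ × ℕ) → List (ℕ × ℕ) → List (ℕ × ℕ)
  | a :: l, b :: m, c :: n => (a.1 + b.1 + c.1, a.2 + b.2 + c.2) :: ad3 l m n
  | _, _, _ => []

theorem abs_c {c x : ℤ} (h : |c| ≤ 1) : |c * x| ≤ |x| := by
  rw [abs_mul]
  calc |c| * |x| ≤ 1 * |x| := mul_le_mul_of_nonneg_right h (abs_nonneg _)
    _ = |x| := one_mul _

theorem comb_le {k : ℕ} {x y0 y1 y2 c0 c1 c2 : ℤ} {a0 a1 a2 : ℕ} (h : 2 * x = c0 * y0 + c1 * y1 +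
    c2 * y2) (k0 : |c0| ≤ 1) (k1 : |c1| ≤ 1) (k2 : |c2| ≤ 1) (h0 : 2 ^ k * |y0| ≤ a0)
    (h1 : 2 ^ k * |y1| ≤ a1) (h2 : 2 ^ k * |y2| ≤ a2) :
    2 ^ (k + 1) * |x| ≤ ((a0 + a1 + a2 : ℕ) : ℤ) := by
  have e : 2 * |x| = |2 * x| := by rw [abs_mul]; norm_num
  have h3 : |2 * x| ≤ |y0| + |y1| + |y2| := by
    rw [h]
    refine (abs_add_le _ _).trans (add_le_add ((abs_add_le _ _).trans (add_le_add ?_ ?_)) ?_)
    · exact abs_c k0
    · exact abs_c k1
    · exact abs_c k2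
  have p : (0 : ℤ) < 2 ^ k := by positivity
  have h4 := mul_le_mul_of_nonneg_left h3 p.le
  have e2 : (2 : ℤ) ^ (k + 1) * |x| = 2 ^ k * |2 * x| := by rw [← e]; ring
  rw [e2]
  push_cast
  linarith

theorem DI.comb {D k : ℕ} {F T0 T1 T2 : Vt D → ℤ} {c0 c1 c2 : ℤ} (k0 : |c0| ≤ 1) (k1 : |c1| ≤ 1)
    (k2 : |c2| ≤ 1) (h : ∀ v, 2 * F v = c0 * T0 v + c1 * T1 v + c2 * T2 v)
    {l0 l1 l2 : List (ℕ × ℕ)} (h0 : DI D k T0 l0) (h1 : DI D k T1 l1) (h2 : DI D k T2 l2) :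
    DI D (k + 1) F (ad3 l0 l1 l2) := by
  induction D generalizing l0 l1 l2 with
  | zero => trivial
  | succ D ih =>
    cases l0 with
    | nil => exact h0.elim
    | cons p0 l0 =>
      cases l1 with
      | nil => exact h1.elim
      | cons p1 l1 =>
        cases l2 with
        | nil => exact h2.elim
        | cons p2 l2 =>
          refine ⟨fun v => ?_, fun v => ?_, fun i => ?_⟩
          · exact comb_le (by linear_combination h (v, 2) - h (v, 0)) k0 k1 k2 (h0.1 v) (h1.1 v)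
              (h2.1 v)
          · exact comb_le (by linear_combination h (v, 0) + h (v, 2) - 2 * h (v, 1)) k0 k1 k2
              (h0.2.1 v) (h1.2.1 v) (h2.2.1 v)
          · exact ih (fun v => h (v, i)) (h0.2.2 i) (h1.2.2 i) (h2.2.2 i)

/-- sums of the digits with index `1`, `2` in a direction -/
def lst : (D : ℕ) → (Vt D → ℕ) → List (ℕ × ℕ)
  | 0, _ => []
  | D + 1, f => (sV D (fun u => f (u, 1)), sV D (fun u => f (u, 2))) ::
      ad3 (lst D (fun u => f (u, 0))) (lst D (fun u => f (u, 1))) (lst D (fun u => f (u, 2)))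

/-- all differences -/
theorem DI.of_tz (D : ℕ) (F : Vt D → ℤ) : DI D (D - 1) F (lst D (fun u => (tz D F u).natAbs)) := by
  induction D with
  | zero => trivial
  | succ D ih =>
    refine ⟨fun v => ?_, fun v => ?_, fun i => ?_⟩
    · exact val_le D (fun u => F (u, 2) - F (u, 0)) v
    · exact val_le D (fun u => F (u, 0) + F (u, 2) - 2 * F (u, 1)) v
    · cases D with
      | zero => trivial
      | succ D =>
        have h0 := ih (fun u => 2 * F (u, 1))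
        have h1 := ih (fun u => F (u, 2) - F (u, 0))
        have h2 := ih (fun u => F (u, 0) + F (u, 2) - 2 * F (u, 1))
        fin_cases i
        · exact DI.comb (c0 := 1) (c1 := -1) (c2 := 1) (by norm_num) (by norm_num) (by norm_num)
            (fun v => by show 2 * F (v, 0) = _; ring) h0 h1 h2
        · exact DI.comb (c0 := 1) (c1 := 0) (c2 := 0) (by norm_num) (by norm_num) (by norm_num)
            (fun v => by show 2 * F (v, 1) = _; ring) h0 h1 h2
        · exact DI.comb (c0 := 1) (c1 := 1) (c2 := 1) (by norm_num) (by norm_num) (by norm_num)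
            (fun v => by show 2 * F (v, 2) = _; ring) h0 h1 h2

/-- the list of the bounds -/
def dfl (k : ℕ) : List (ℕ × ℕ) → List (ℕ × ℕ) → List DF
  | p :: l, q :: m => ⟨cd k (sq2 p.1 q.1), cd (k + 1) (sq2 p.2 q.2)⟩ :: dfl k l m
  | _, _ => []

theorem DL_of {D k : ℕ} {F G : Vt D → ℤ} {l m : List (ℕ × ℕ)} (hF : DI D k F l)
    (hG : DI D k G m) : DL D (fun v => (F v : ℂ) + (G v : ℂ) * Complex.I)
      ((dfl k l m).map Pool.Agent.Helper90.KMT.rl) := by
  induction D generalizing l m with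
  | zero => trivial
  | succ D ih =>
    cases l with
    | nil => exact hF.elim
    | cons p l =>
      cases m with
      | nil => exact hG.elim
      | cons q m =>
        refine ⟨fun v => ?_, fun v => ?_, fun i => ih (hF.2.2 i) (hG.2.2 i)⟩
        · have h := nrm_cd (hF.1 v) (hG.1 v)
          refine le_of_eq_of_le ?_ h
          push_cast
          congr 1
          ring
        · have h := (nrm_le (hF.2.1 v) (hG.2.1 v)).trans (cd_ge (k + 1) (sq2 p.2 q.2))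
          have e : (F (v, 1) : ℂ) + (G (v, 1) : ℂ) * Complex.I -
              (((F (v, 0) : ℂ) + (G (v, 0) : ℂ) * Complex.I) +
                ((F (v, 2) : ℂ) + (G (v, 2) : ℂ) * Complex.I)) / 2 =
              (-1 / 2 : ℝ) • (((F (v, 0) + F (v, 2) - 2 * F (v, 1) : ℤ) : ℂ) +
                ((G (v, 0) + G (v, 2) - 2 * G (v, 1) : ℤ) : ℂ) * Complex.I) := by
            rw [Complex.real_smul]
            push_cast
            ring
          show ‖(F (v, 1) : ℂ) + (G (v, 1) : ℂ) * Complex.I -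
              (((F (v, 0) : ℂ) + (G (v, 0) : ℂ) * Complex.I) +
                ((F (v, 2) : ℂ) + (G (v, 2) : ℂ) * Complex.I)) / 2‖ ≤
            ((cd (k + 1) (sq2 p.2 q.2) : ℕ) : ℝ)
          rw [e, norm_smul]
          have e2 : ‖(-1 / 2 : ℝ)‖ = 1 / 2 := by norm_num
          rw [e2]
          have p2 : (0 : ℝ) < 2 ^ k := by positivity
          have e3 : (2 : ℝ) ^ (k + 1) = 2 ^ k * 2 := pow_succ _ _
          rw [e3] at h
          have h5 : (2 : ℝ) ^ k * ‖((F (v, 0) + F (v, 2) - 2 * F (v, 1) : ℤ) : ℂ) +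
                ((G (v, 0) + G (v, 2) - 2 * G (v, 1) : ℤ) : ℂ) * Complex.I‖ ≤
              2 ^ k * (2 * (cd (k + 1) (sq2 p.2 q.2) : ℝ)) := by linarith
          have h6 := le_of_mul_le_mul_left h5 p2
          linarith

/-! ### the lists of the machine -/

theorem df4_eq (D x y : ℕ) (l : List DC) (a : List DF) :
    df4 D x y l a = (l.map (df3 D x y)).reverse ++ a := by
  induction l generalizing a with
  | nil => rfl
  | cons d l ih =>
    show df4 D x y l (df3 D x y d :: a) = _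
    rw [ih, List.map_cons, List.reverse_cons, List.append_assoc]
    rfl

theorem CC_len (D : ℕ) : (CC D).ds.length = D := by
  induction D with
  | zero => rfl
  | succ D ih => rw [CC_ds, List.length_append, List.length_map, ih]; rfl

theorem df_len (D x y : ℕ) : (df4 D x y (CC D).ds []).length = D := by
  rw [df4_eq, List.length_append, List.length_reverse, List.length_map, CC_len]
  rfl

theorem sV_tz {D : ℕ} (hD : D ≤ 4) {F : Vt D → ℤ} (hF : ∀ v, |F v| ≤ 2 ^ 60) :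
    sV D (fun v => (tz D F v).natAbs) < B1 := by
  have h1 : ∀ v, (tz D F v).natAbs ≤ 3 ^ D * (2 ^ D * 2 ^ 60) := fun v => by
    have h := tz_bd hF v
    have h2 : (((tz D F v).natAbs : ℕ) : ℤ) ≤ ((3 ^ D * (2 ^ D * 2 ^ 60) : ℕ) : ℤ) := by
      rw [Int.natCast_natAbs]
      push_cast
      exact h
    exact_mod_cast h2
  refine (sV_le h1).trans_lt ?_
  rw [B1_eq]
  interval_cases D <;> norm_num

/-- bound of the control values -/
theorem nb_ok {D : ℕ} (hD : D ≤ 4) {x y : Z} {F G : Vt D → ℤ} (hx : zv x = pkZ D F)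
    (hy : zv y = pkZ D G) (hF : ∀ v, |F v| ≤ 2 ^ 60) (hG : ∀ v, |G v| ≤ 2 ^ 60) (v : Vt D) :
    ‖(F v : ℂ) + (G v : ℂ) * Complex.I‖ ≤ nb3 D (abT (CC D) x) (abT (CC D) y) := by
  have h1 : sd (abT (CC D) x) = sV D (fun v => (tz D F v).natAbs) := by
    rw [abT_ok hD hx hF]
    exact sd_of (q3_mod _ _) (sV_tz hD hF)
  have h2 : sd (abT (CC D) y) = sV D (fun v => (tz D G v).natAbs) := by
    rw [abT_ok hD hy hG]
    exact sd_of (q3_mod _ _) (sV_tz hD hG)
  show _ ≤ ((cd D (sq2 (sd (abT (CC D) x)) (sd (abT (CC D) y))) : ℕ) : ℝ)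
  rw [h1, h2]
  exact nrm_cd (val_le D F v) (val_le D G v)

/-- the masked sums -/
structure MK (D : ℕ) (f : Vt D → ℕ) (d : DC) (p : ℕ × ℕ) : Prop where
  c : q3 D f &&& d.tc ≡ p.1 [MOD B1]
  b : q3 D f &&& d.tb ≡ p.2 [MOD B1]
  lc : p.1 ≤ sV D f
  lb : p.2 ≤ sV D f
  tc : d.tc < 2 ^ ww D
  tb : d.tb < 2 ^ ww D

theorem MK.lift {D : ℕ} {f : Vt (D + 1) → ℕ} (hf : ∀ v, f v < 2 ^ 144) {d : DC} {p q r : ℕ × ℕ}
    (h0 : MK D (fun u => f (u, 0)) d p) (h1 : MK D (fun u => f (u, 1)) d q)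
    (h2 : MK D (fun u => f (u, 2)) d r) :
    MK (D + 1) f (scD (Wn D) d) (p.1 + q.1 + r.1, p.2 + q.2 + r.2) := by
  have hV : ∀ i : Fin 3, q3 D (fun u => f (u, i)) < 2 ^ ww D := fun i =>
    q3_lt3 fun v => hf (v, i)
  have W1 : Wn D = 2 ^ ww D := rfl
  refine ⟨?_, ?_, ?_, ?_, ?_, ?_⟩
  · show q3 (D + 1) f &&& (f3 (Wn D) * d.tc) ≡ _ [MOD B1]
    rw [q3_bl3, bl3_const, W1, bl3_land hV fun _ => h0.tc, ← W1]
    exact (bl3_mod D _).trans ((h0.c.add h1.c).add h2.c)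
  · show q3 (D + 1) f &&& (f3 (Wn D) * d.tb) ≡ _ [MOD B1]
    rw [q3_bl3, bl3_const, W1, bl3_land hV fun _ => h0.tb, ← W1]
    exact (bl3_mod D _).trans ((h0.b.add h1.b).add h2.b)
  · exact add_le_add (add_le_add h0.lc h1.lc) h2.lc
  · exact add_le_add (add_le_add h0.lb h1.lb) h2.lb
  · show f3 (Wn D) * d.tc < 2 ^ ww (D + 1)
    rw [bl3_const, W1, ww_succ]
    exact bl3_lt fun _ => h0.tc
  · show f3 (Wn D) * d.tb < 2 ^ ww (D + 1)
    rw [bl3_const, W1, ww_succ]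
    exact bl3_lt fun _ => h0.tb

theorem MK.lifts {D : ℕ} {f : Vt (D + 1) → ℕ} (hf : ∀ v, f v < 2 ^ 144) {l : List DC}
    {L0 L1 L2 : List (ℕ × ℕ)} (h0 : List.Forall₂ (MK D (fun u => f (u, 0))) l L0)
    (h1 : List.Forall₂ (MK D (fun u => f (u, 1))) l L1)
    (h2 : List.Forall₂ (MK D (fun u => f (u, 2))) l L2) :
    List.Forall₂ (MK (D + 1) f) (l.map (scD (Wn D))) (ad3 L0 L1 L2) := by
  induction l generalizing L0 L1 L2 with
  | nil =>
    cases h0
    exact List.Forall₂.nil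
  | cons d l ih =>
    cases h0 with
    | cons a0 b0 =>
      cases h1 with
      | cons a1 b1 =>
        cases h2 with
        | cons a2 b2 => exact List.Forall₂.cons (MK.lift hf a0 a1 a2) (ih b0 b1 b2)

theorem MK.new {D : ℕ} {f : Vt (D + 1) → ℕ} (hf : ∀ v, f v < 2 ^ 144) :
    MK (D + 1) f (nwD (ww D) (Wn D) (CC D).o5 (CC D).o3)
      (sV D (fun u => f (u, 1)), sV D (fun u => f (u, 2))) := by
  have W1 : Wn D = 2 ^ ww D := rfl
  have hV : ∀ i : Fin 3, q3 D (fun u => f (u, i)) < 2 ^ ww D := fun i =>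
    q3_lt3 fun v => hf (v, i)
  have ht : B1 * (CC D).o3 = q3 D (fun _ => 2 ^ 144 - 1) := by rw [cst_o3, B1_eq]
  have htl : B1 * (CC D).o3 < 2 ^ ww D := by
    rw [ht]
    exact q3_lt3 fun _ => by norm_num
  have hm : ∀ i : Fin 3, q3 D (fun u => f (u, i)) &&& (B1 * (CC D).o3) =
      q3 D (fun u => f (u, i)) := fun i => by
    rw [ht, q3_land (fun v => hf (v, i)) fun _ => by norm_num]
    exact congrArg (q3 D) (funext fun v => land_mask (hf (v, i)))
  have z0 : (0 : ℕ) < 2 ^ ww D := by positivity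
  have f3l : ∀ a c e : ℕ, a < 2 ^ ww D → c < 2 ^ ww D → e < 2 ^ ww D →
      ∀ i, (![a, c, e] : Fin 3 → ℕ) i < 2 ^ ww D := by
    intro a c e ha hc he i
    fin_cases i
    · exact ha
    · exact hc
    · exact he
  have e1 : Wn D * (B1 * (CC D).o3) = bl3 (2 ^ ww D) ![0, B1 * (CC D).o3, 0] := by
    show _ = 0 + Wn D * (B1 * (CC D).o3 + Wn D * 0)
    ring
  have e2 : Wn D * Wn D * (B1 * (CC D).o3) = bl3 (2 ^ ww D) ![0, 0, B1 * (CC D).o3] := by
    show _ = 0 + Wn D * (0 + Wn D * (B1 * (CC D).o3))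
    ring
  refine ⟨?_, ?_, ?_, ?_, ?_, ?_⟩
  · show q3 (D + 1) f &&& (Wn D * (B1 * (CC D).o3)) ≡ _ [MOD B1]
    rw [q3_bl3, e1, W1, bl3_land hV (f3l _ _ _ z0 htl z0)]
    refine (bl3_mod D _).trans ?_
    show (q3 D (fun u => f (u, 0)) &&& 0) + (q3 D (fun u => f (u, 1)) &&& (B1 * (CC D).o3)) +
      (q3 D (fun u => f (u, 2)) &&& 0) ≡ _ [MOD B1]
    rw [hm, Nat.and_zero, Nat.and_zero, zero_add, add_zero]
    exact q3_mod D _
  · show q3 (D + 1) f &&& (Wn D * Wn D * (B1 * (CC D).o3)) ≡ _ [MOD B1]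
    rw [q3_bl3, e2, W1, bl3_land hV (f3l _ _ _ z0 z0 htl)]
    refine (bl3_mod D _).trans ?_
    show (q3 D (fun u => f (u, 0)) &&& 0) + (q3 D (fun u => f (u, 1)) &&& 0) +
      (q3 D (fun u => f (u, 2)) &&& (B1 * (CC D).o3)) ≡ _ [MOD B1]
    rw [hm, Nat.and_zero, Nat.and_zero, zero_add, zero_add]
    exact q3_mod D _
  · show sV D (fun u => f (u, 1)) ≤
      sV D (fun u => f (u, 0)) + sV D (fun u => f (u, 1)) + sV D (fun u => f (u, 2))
    omega
  · show sV D (fun u => f (u, 2)) ≤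
      sV D (fun u => f (u, 0)) + sV D (fun u => f (u, 1)) + sV D (fun u => f (u, 2))
    omega
  · show Wn D * (B1 * (CC D).o3) < _
    rw [e1, ww_succ]
    exact bl3_lt (f3l _ _ _ z0 htl z0)
  · show Wn D * Wn D * (B1 * (CC D).o3) < _
    rw [e2, ww_succ]
    exact bl3_lt (f3l _ _ _ z0 z0 htl)

/-- all directions, outermost first -/
theorem MK.all {D : ℕ} {f : Vt D → ℕ} (hf : ∀ v, f v < 2 ^ 144) :
    List.Forall₂ (MK D f) (CC D).ds.reverse (lst D f) := by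
  induction D with
  | zero => exact List.Forall₂.nil
  | succ D ih =>
    rw [CC_ds, List.reverse_append, ← List.map_reverse]
    exact List.Forall₂.cons (MK.new hf) (MK.lifts hf (ih fun v => hf (v, 0))
      (ih fun v => hf (v, 1)) (ih fun v => hf (v, 2)))

theorem mk_dfl {D : ℕ} (hD : 1 ≤ D) {f g : Vt D → ℕ} (hf : sV D f < B1) (hg : sV D g < B1)
    {l : List DC} {L M : List (ℕ × ℕ)} (h : List.Forall₂ (MK D f) l L)
    (h' : List.Forall₂ (MK D g) l M) :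
    l.map (df3 D (q3 D f) (q3 D g)) = dfl (D - 1) L M := by
  induction l generalizing L M with
  | nil =>
    cases h
    cases h'
    rfl
  | cons d l ih =>
    cases h with
    | cons a0 b0 =>
      cases h' with
      | cons a1 b1 =>
        rename_i p L q M
        show df3 D (q3 D f) (q3 D g) d :: l.map (df3 D (q3 D f) (q3 D g)) =
          ⟨cd (D - 1) (sq2 p.1 q.1), cd (D - 1 + 1) (sq2 p.2 q.2)⟩ :: dfl (D - 1) L M
        rw [ih b0 b1]
        congr 1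
        show (⟨cd (D - 1) (sq2 (sd (q3 D f &&& d.tc)) (sd (q3 D g &&& d.tc))),
          cd D (sq2 (sd (q3 D f &&& d.tb)) (sd (q3 D g &&& d.tb)))⟩ : DF) = _
        rw [sd_of a0.c (a0.lc.trans_lt hf), sd_of a0.b (a0.lb.trans_lt hf),
          sd_of a1.c (a1.lc.trans_lt hg), sd_of a1.b (a1.lb.trans_lt hg), Nat.sub_add_cancel hD]

theorem tz_lt {D : ℕ} (hD : D ≤ 4) {F : Vt D → ℤ} (hF : ∀ v, |F v| ≤ 2 ^ 60) (v : Vt D) :
    (tz D F v).natAbs < 2 ^ 144 := by
  have h := (tz_bd hF v).trans_lt (hb4 hD)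
  have h2 : (((tz D F v).natAbs : ℕ) : ℤ) < ((2 ^ 144 : ℕ) : ℤ) := by
    rw [Int.natCast_natAbs]
    push_cast
    exact h.trans (by norm_num)
  exact_mod_cast h2

/-- THE LIST OF THE MACHINE -/
theorem df4_dfl {D : ℕ} (h1 : 1 ≤ D) (hD : D ≤ 4) {x y : Z} {F G : Vt D → ℤ}
    (hx : zv x = pkZ D F) (hy : zv y = pkZ D G) (hF : ∀ v, |F v| ≤ 2 ^ 60)
    (hG : ∀ v, |G v| ≤ 2 ^ 60) : df4 D (abT (CC D) x) (abT (CC D) y) (CC D).ds [] =
      dfl (D - 1) (lst D (fun v => (tz D F v).natAbs)) (lst D (fun v => (tz D G v).natAbs)) := by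
  rw [df4_eq, List.append_nil, ← List.map_reverse, abT_ok hD hx hF, abT_ok hD hy hG]
  exact mk_dfl h1 (sV_tz hD hF) (sV_tz hD hG) (MK.all (tz_lt hD hF)) (MK.all (tz_lt hD hG))

/-- bounds of the differences, outermost direction first -/
theorem df_ok {D : ℕ} (hD : D ≤ 4) {x y : Z} {F G : Vt D → ℤ} (hx : zv x = pkZ D F)
    (hy : zv y = pkZ D G) (hF : ∀ v, |F v| ≤ 2 ^ 60) (hG : ∀ v, |G v| ≤ 2 ^ 60) :
    DL D (fun v => (F v : ℂ) + (G v : ℂ) * Complex.I)
      ((df4 D (abT (CC D) x) (abT (CC D) y) (CC D).ds []).map Pool.Agent.Helper90.KMT.rl) := by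
  cases D with
  | zero => trivial
  | succ D =>
    rw [df4_dfl (Nat.succ_le_succ (Nat.zero_le D)) hD hx hy hF hG]
    exact DL_of (DI.of_tz (D + 1) F) (DI.of_tz (D + 1) G)

/-! ### constant directions -/

theorem tz_zero (D : ℕ) (v : Vt D) : tz D (fun _ => 0) v = 0 := by
  rw [← td_tz]
  have h := td_mul D 0 (fun u => 2 ^ mi D u * (0 : ℤ)) v
  rw [zero_mul] at h
  refine Eq.trans ?_ h
  exact congrArg (fun w => td D w v) (funext fun u => by ring)

theorem sV_zero (D : ℕ) : sV D (fun _ => 0) = 0 := by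
  have h := sV_le (D := D) (f := fun _ => 0) (M := 0) fun _ => le_rfl
  omega

theorem sV_tz0 {D : ℕ} {F : Vt D → ℤ} (h : ∀ v, F v = 0) :
    sV D (fun v => (tz D F v).natAbs) = 0 := by
  have e : F = fun _ => 0 := funext h
  rw [e]
  have e2 : (fun v : Vt D => (tz D (fun _ => 0) v).natAbs) = fun _ => 0 := by
    funext v
    rw [tz_zero]
    rfl
  rw [e2, sV_zero]

/-- the sums vanish in the directions `false` -/
def ZI : List Bool → List (ℕ × ℕ) → Prop
  | [], [] => True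
  | b :: l, p :: L => (b = false → p.1 = 0 ∧ p.2 = 0) ∧ ZI l L
  | [], _ :: _ => False
  | _ :: _, [] => False

theorem zi_ad3 : ∀ {l : List Bool} {L M N : List (ℕ × ℕ)}, ZI l L → ZI l M → ZI l N →
    ZI l (ad3 L M N)
  | [], [], [], [], _, _, _ => trivial
  | [], _ :: _, _, _, h, _, _ => h.elim
  | [], [], _ :: _, _, _, h, _ => h.elim
  | [], [], [], _ :: _, _, _, h => h.elim
  | _ :: _, [], _, _, h, _, _ => h.elim
  | _ :: _, _ :: _, [], _, _, h, _ => h.elim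
  | _ :: _, _ :: _, _ :: _, [], _, _, h => h.elim
  | b :: l, x :: L, y :: M, z :: N, h0, h1, h2 => by
    refine ⟨fun hb => ?_, zi_ad3 h0.2 h1.2 h2.2⟩
    obtain ⟨a1, a2⟩ := h0.1 hb
    obtain ⟨b1, b2⟩ := h1.1 hb
    obtain ⟨c1, c2⟩ := h2.1 hb
    show x.1 + y.1 + z.1 = 0 ∧ x.2 + y.2 + z.2 = 0
    omega

theorem ZI.of {D : ℕ} {l : List Bool} {F : Vt D → ℤ} (h : FSh D l F) :
    ZI l (lst D (fun v => (tz D F v).natAbs)) := by
  induction D generalizing l with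
  | zero =>
    cases l with
    | nil => trivial
    | cons b l => exact h.elim
  | succ D ih =>
    cases l with
    | nil => exact h.elim
    | cons b l =>
      have s := fun i => FSh.slice h i
      refine ⟨fun hb => ?_, zi_ad3 ?_ ?_ ?_⟩
      · subst hb
        have e1 := h.1
        constructor
        · exact sV_tz0 (F := fun u => F (u, 2) - F (u, 0)) fun v => by rw [e1 v 2]; ring
        · exact sV_tz0 (F := fun u => F (u, 0) + F (u, 2) - 2 * F (u, 1)) fun v => by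
            rw [e1 v 2, e1 v 1]; ring
      · exact ih (F := fun u => 2 * F (u, 1)) ((s 1).map fun x => 2 * x)
      · exact ih (F := fun u => F (u, 2) - F (u, 0)) ((s 2).map2 (s 0) fun x y => x - y)
      · exact ih (F := fun u => F (u, 0) + F (u, 2) - 2 * F (u, 1))
          (((s 0).map2 (s 2) fun x y => x + y).map2 (s 1) fun x y => x - 2 * y)

theorem zs_dfl : ∀ {l : List Bool} {k : ℕ} {L M : List (ℕ × ℕ)}, ZI l L → ZI l M →
    ZS l (dfl k L M)
  | [], _, [], [], _, _ => trivial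
  | [], _, _ :: _, _, h, _ => h.elim
  | [], _, [], _ :: _, _, h => h.elim
  | _ :: _, _, [], _, h, _ => h.elim
  | _ :: _, _, _ :: _, [], _, h => h.elim
  | b :: l, k, x :: L, y :: M, h0, h1 => by
    refine ⟨fun hb => ?_, zs_dfl h0.2 h1.2⟩
    obtain ⟨a1, a2⟩ := h0.1 hb
    obtain ⟨b1, b2⟩ := h1.1 hb
    show cd k (sq2 x.1 y.1) = 0 ∧ cd (k + 1) (sq2 x.2 y.2) = 0
    rw [a1, a2, b1, b2, sq2_zero, cd_zero, cd_zero]
    exact ⟨rfl, rfl⟩

/-- constant directions -/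
theorem df_zs {D : ℕ} (hD : D ≤ 4) {x y : Z} {F G : Vt D → ℤ} (hx : zv x = pkZ D F)
    (hy : zv y = pkZ D G) (hF : ∀ v, |F v| ≤ 2 ^ 60) (hG : ∀ v, |G v| ≤ 2 ^ 60) {l : List Bool}
    (hl : FSh D l (fun v => (F v, G v))) :
    ZS l (df4 D (abT (CC D) x) (abT (CC D) y) (CC D).ds []) := by
  cases D with
  | zero =>
    cases l with
    | nil => trivial
    | cons b l => exact hl.elim
  | succ D =>
    rw [df4_dfl (Nat.succ_le_succ (Nat.zero_le D)) hD hx hy hF hG]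
    exact zs_dfl (ZI.of (hl.map Prod.fst)) (ZI.of (hl.map Prod.snd))

end Pool.Agent.Helper86.CK
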