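import Pool.Agent.Helper86.CK.KC
import Pool.Agent.Helper86.CK.K3
import Pool.Agent.Helper86.CK.K4
import Pool.Agent.Helper86.CK.K5
import Pool.Agent.Helper21.CT.KTN

/-!
Packed machine for the classes with tails (MP_c75db0): scalar functions, packed numbers with their
control values.
-/

set_option autoImplicit false
set_option exponentiation.threshold 4000
noncomputable section
namespace Pool.Agent.Helper86.CK

open Pool.Agent.Helper86.C75 (Z)
open Pool.Agent.Helper86.CX hiding nb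
open Pool.Agent.Helper86.CT (Alg DF Tst Up Mo)
open Pool.Agent.Helper90.C75 (Vt mulT avg wtT)
open Pool.Agent.Helper90.KMO (zv cz zv_add zv_sub zv_mul zv_opp UU UU_pos)
open Pool.Agent.Helper90.KMT (DL AOK LF eD eD_nonneg rl mulT_add_left mulT_add_right mulT_smul_left
  mulT_smul_right TLW)
open Pool.Agent.Helper17.KPT (FSh or2 mulZ cnt)
open Pool.Agent.Helper21.KTE (ZS SHL DZ fal)

/-! ### packed numbers of control values -/

/-- real and imaginary parts of the control values, at most `2 ^ 60` -/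
structure PR (D : ℕ) (I : Vt D → ℤ × ℤ) (x y : Z) : Prop where
  x : zv x = pkZ D (fun v => (I v).1)
  y : zv y = pkZ D (fun v => (I v).2)
  a : ∀ v, |(I v).1| ≤ 2 ^ 60
  b : ∀ v, |(I v).2| ≤ 2 ^ 60

/-- control values `I`, shape, packed numbers; `k`: a constant -/
structure PA (D : ℕ) where
  I : Vt D → ℤ × ℤ
  sh : List Bool
  re : Z
  im : Z
  ok : Bool
  k : Bool
  hs : FSh D sh I
  h : ok = true → PR D I re im
  hk : k = true → ∃ c : ℤ × ℤ, ∀ v, I v = c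

theorem orL_or2 : ∀ l l' : List Bool, orL l l' = or2 l l'
  | [], _ => rfl
  | _ :: _, [] => rfl
  | x :: l, y :: l' => by
    rw [orL_cons, or1_eq, orL_or2 l l']
    rfl

theorem pkZ_sub (D : ℕ) (F G : Vt D → ℤ) : pkZ D (fun v => F v - G v) = pkZ D F - pkZ D G := by
  unfold pkZ
  rw [← z3_sub]
  congr 1
  funext v
  ring

theorem pkZ_neg (D : ℕ) (F : Vt D → ℤ) : pkZ D (fun v => -F v) = -pkZ D F := by
  unfold pkZ
  rw [← z3_neg]
  congr 1
  funext v
  ring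

theorem pkZ_const (D : ℕ) (c : ℤ) : pkZ D (fun _ => c) = ((CC D).od : ℤ) * c := by
  unfold pkZ
  have e : (fun v : Vt D => 2 ^ mi D v * c) = fun v => c * ((2 ^ mi D v : ℕ) : ℤ) := by
    funext v
    push_cast
    ring
  rw [e, z3_mul, z3_cast, CC_od]
  ring

theorem tw60 {a b : ℤ} (ha : |a| ≤ 2 ^ 60) (hb : |b| ≤ 2 ^ 60) :
    |a + b| ≤ 2 ^ 100 ∧ |a - b| ≤ 2 ^ 100 := by
  have h1 := abs_le.mp ha
  have h2 := abs_le.mp hb
  constructor <;> rw [abs_le] <;> constructor <;> norm_num at * <;> linarith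

section
variable {D : ℕ}

theorem add_hs (X Y : PA D) : FSh D (orL X.sh Y.sh) (fun v => X.I v + Y.I v) := by
  rw [orL_or2]
  exact Pool.Agent.Helper21.KTE.FSh.map2' X.hs Y.hs (fun a b => a + b)
theorem sub_hs (X Y : PA D) : FSh D (orL X.sh Y.sh) (fun v => X.I v - Y.I v) := by
  rw [orL_or2]
  exact Pool.Agent.Helper21.KTE.FSh.map2' X.hs Y.hs (fun a b => a - b)

/-- four conditions -/
theorem and4 {a b c d : Bool} (h : andB (andB a b) (andB c d) = true) :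
    a = true ∧ b = true ∧ c = true ∧ d = true := by
  rw [andB_iff', andB_iff', andB_iff'] at h
  exact ⟨h.1.1, h.1.2, h.2.1, h.2.2⟩

theorem add_hk (X Y : PA D) (h : andB X.k Y.k = true) : ∃ c : ℤ × ℤ, ∀ v, X.I v + Y.I v = c := by
  rw [andB_iff'] at h
  obtain ⟨a, ha⟩ := X.hk h.1
  obtain ⟨b, hb⟩ := Y.hk h.2
  exact ⟨a + b, fun v => by rw [ha, hb]⟩
theorem sub_hk (X Y : PA D) (h : andB X.k Y.k = true) : ∃ c : ℤ × ℤ, ∀ v, X.I v - Y.I v = c := by
  rw [andB_iff'] at h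
  obtain ⟨a, ha⟩ := X.hk h.1
  obtain ⟨b, hb⟩ := Y.hk h.2
  exact ⟨a - b, fun v => by rw [ha, hb]⟩

theorem add_h {C : LC} (hC : C = CC D ∧ D ≤ 4) (X Y : PA D)
    (h : andB (andB X.ok Y.ok) (andB (sm C (Z.add X.re Y.re)) (sm C (Z.add X.im Y.im))) = true) :
    PR D (fun v => X.I v + Y.I v) (Z.add X.re Y.re) (Z.add X.im Y.im) := by
  obtain ⟨rfl, hD⟩ := hC
  obtain ⟨h1, h2, h3, h4⟩ := and4 h
  have a := X.h h1
  have b := Y.h h2
  have e1 : zv (Z.add X.re Y.re) = pkZ D (fun v => (X.I v + Y.I v).1) := by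
    rw [zv_add, a.x, b.x, ← pkZ_add]
    rfl
  have e2 : zv (Z.add X.im Y.im) = pkZ D (fun v => (X.I v + Y.I v).2) := by
    rw [zv_add, a.y, b.y, ← pkZ_add]
    rfl
  exact ⟨e1, e2, sm_ok hD e1 (fun v => (tw60 (a.a v) (b.a v)).1) h3,
    sm_ok hD e2 (fun v => (tw60 (a.b v) (b.b v)).1) h4⟩

theorem sub_h {C : LC} (hC : C = CC D ∧ D ≤ 4) (X Y : PA D)
    (h : andB (andB X.ok Y.ok) (andB (sm C (Z.sub X.re Y.re)) (sm C (Z.sub X.im Y.im))) = true) :
    PR D (fun v => X.I v - Y.I v) (Z.sub X.re Y.re) (Z.sub X.im Y.im) := by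
  obtain ⟨rfl, hD⟩ := hC
  obtain ⟨h1, h2, h3, h4⟩ := and4 h
  have a := X.h h1
  have b := Y.h h2
  have e1 : zv (Z.sub X.re Y.re) = pkZ D (fun v => (X.I v - Y.I v).1) := by
    rw [zv_sub, a.x, b.x, ← pkZ_sub]
    rfl
  have e2 : zv (Z.sub X.im Y.im) = pkZ D (fun v => (X.I v - Y.I v).2) := by
    rw [zv_sub, a.y, b.y, ← pkZ_sub]
    rfl
  exact ⟨e1, e2, sm_ok hD e1 (fun v => (tw60 (a.a v) (b.a v)).2) h3,
    sm_ok hD e2 (fun v => (tw60 (a.b v) (b.b v)).2) h4⟩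

def addK {C : LC} (hC : C = CC D ∧ D ≤ 4) (X Y : PA D) : PA D :=
  ⟨fun v => X.I v + Y.I v, orL X.sh Y.sh, Z.add X.re Y.re, Z.add X.im Y.im,
    andB (andB X.ok Y.ok) (andB (sm C (Z.add X.re Y.re)) (sm C (Z.add X.im Y.im))), andB X.k Y.k,
    add_hs X Y, add_h hC X Y, add_hk X Y⟩
def subK {C : LC} (hC : C = CC D ∧ D ≤ 4) (X Y : PA D) : PA D :=
  ⟨fun v => X.I v - Y.I v, orL X.sh Y.sh, Z.sub X.re Y.re, Z.sub X.im Y.im,
    andB (andB X.ok Y.ok) (andB (sm C (Z.sub X.re Y.re)) (sm C (Z.sub X.im Y.im))), andB X.k Y.k,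
    sub_hs X Y, sub_h hC X Y, sub_hk X Y⟩

theorem cj_hs (X : PA D) : FSh D X.sh (fun v => ((X.I v).1, -(X.I v).2)) :=
  X.hs.map fun a => (a.1, -a.2)
theorem cj_h (X : PA D) (h : X.ok = true) : PR D (fun v => ((X.I v).1, -(X.I v).2)) X.re
    (Z.opp X.im) := by
  have a := X.h h
  refine ⟨a.x, ?_, a.a, fun v => ?_⟩
  · rw [zv_opp, a.y, ← pkZ_neg]
  · show |-(X.I v).2| ≤ 2 ^ 60
    rw [abs_neg]
    exact a.b v
theorem cj_hk (X : PA D) (h : X.k = true) : ∃ c : ℤ × ℤ, ∀ v, ((X.I v).1, -(X.I v).2) = c := by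
  obtain ⟨a, ha⟩ := X.hk h
  exact ⟨(a.1, -a.2), fun v => by rw [ha]⟩
def cjK (X : PA D) : PA D :=
  ⟨fun v => ((X.I v).1, -(X.I v).2), X.sh, X.re, Z.opp X.im, X.ok, X.k, cj_hs X, cj_h X, cj_hk X⟩

/-- the real number of a product of control values -/
def mZ (D : ℕ) (F G : Vt D → ℤ) (v : Vt D) : ℤ :=
  mulZ (fun a b : ℤ => a * b) D (List.replicate D true) F G v
/-- the value of a product -/
def gmul (D : ℕ) (I J : Vt D → ℤ × ℤ) (v : Vt D) : ℤ × ℤ :=
  ((mZ D (fun u => (I u).1) (fun u => (J u).1) v +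
      mZ D (fun u => -(I u).2) (fun u => (J u).2) v) / 2 ^ (48 + 2 * D),
    (mZ D (fun u => (I u).1) (fun u => (J u).2) v +
      mZ D (fun u => (I u).2) (fun u => (J u).1) v) / 2 ^ (48 + 2 * D))

theorem mZ_zero (D : ℕ) (v : Vt D) : mZ D (fun _ => 0) (fun _ => 0) v = 0 := by
  induction D with
  | zero => rfl
  | succ D ih =>
    obtain ⟨u, i⟩ := v
    by_cases hi : i = 1
    · subst hi
      show (4 : ℤ) • mZ D (fun _ => 0) (fun _ => 0) u - mZ D (fun _ => 0 - 0) (fun _ => 0 - 0) u = 0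
      simp only [sub_zero, ih, smul_zero]
    · have e : mZ (D + 1) (fun _ => 0) (fun _ => 0) (u, i) =
          (4 : ℤ) • mZ D (fun _ => 0) (fun _ => 0) u := if_neg hi
      rw [e, ih, smul_zero]

theorem mZ_sh {D : ℕ} {l : List Bool} {F G : Vt D → ℤ} (hF : FSh D l F) (hG : FSh D l G) :
    FSh D l (mZ D F G) := by
  induction D generalizing l with
  | zero => cases l with
    | nil => trivial
    | cons b l => exact hF.elim
  | succ D ih =>
    cases l with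
    | nil => exact hF.elim
    | cons b l =>
      have s1 : (fun u => mZ (D + 1) F G (u, 1)) = fun u =>
          (4 : ℤ) • mZ D (fun u => F (u, 1)) (fun u => G (u, 1)) u -
            mZ D (fun u => F (u, 2) - F (u, 0)) (fun u => G (u, 2) - G (u, 0)) u := rfl
      have s2 : ∀ i : Fin 3, i ≠ 1 → (fun u => mZ (D + 1) F G (u, i)) = fun u =>
          (4 : ℤ) • mZ D (fun u => F (u, i)) (fun u => G (u, i)) u := fun i hi =>
        funext fun u => if_neg hi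
      have sl : ∀ i : Fin 3, FSh D l (fun u => mZ (D + 1) F G (u, i)) := by
        intro i
        by_cases hi : i = 1
        · subst hi
          rw [s1]
          exact (ih (hF.slice 1) (hG.slice 1)).map2
            (ih ((hF.slice 2).map2 (hF.slice 0) (fun a b => a - b))
              ((hG.slice 2).map2 (hG.slice 0) (fun a b => a - b)))
            (fun x y => (4 : ℤ) • x - y)
        · rw [s2 i hi]
          exact (ih (hF.slice i) (hG.slice i)).map (fun x => (4 : ℤ) • x)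
      cases b with
      | true => exact sl
      | false =>
        refine ⟨fun u i => ?_, sl 0⟩
        have e1 : ∀ i, (fun u => F (u, i)) = fun u => F (u, 0) := fun i => funext fun u => hF.1 u i
        have e2 : ∀ i, (fun u => G (u, i)) = fun u => G (u, 0) := fun i => funext fun u => hG.1 u i
        have z0 : mZ (D + 1) F G (u, 0) = (4 : ℤ) • mZ D (fun u => F (u, 0)) (fun u => G (u, 0)) u :=
          congrFun (s2 0 (by decide)) u
        by_cases hi : i = 1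
        · subst hi
          have h1 : mZ (D + 1) F G (u, 1) = (4 : ℤ) • mZ D (fun u => F (u, 1)) (fun u => G (u, 1)) u -
            mZ D (fun u => F (u, 2) - F (u, 0)) (fun u => G (u, 2) - G (u, 0)) u := rfl
          have e3 : (fun u => F (u, 2) - F (u, 0)) = fun _ => 0 := by
            funext u; rw [hF.1 u 2, sub_self]
          have e4 : (fun u => G (u, 2) - G (u, 0)) = fun _ => 0 := by
            funext u; rw [hG.1 u 2, sub_self]
          rw [h1, z0, e1 1, e2 1, e3, e4, mZ_zero, sub_zero]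
        · have h1 : mZ (D + 1) F G (u, i) = (4 : ℤ) • mZ D (fun u => F (u, i)) (fun u => G (u, i)) u :=
            if_neg hi
          rw [h1, z0, e1 i, e2 i]

theorem gmul_sh {l : List Bool} {I J : Vt D → ℤ × ℤ} (hI : FSh D l I) (hJ : FSh D l J) :
    FSh D l (gmul D I J) := by
  have i1 := hI.map (fun a => a.1)
  have i2 := hI.map (fun a => a.2)
  have i3 := hI.map (fun a => -a.2)
  have j1 := hJ.map (fun a => a.1)
  have j2 := hJ.map (fun a => a.2)
  have a := (mZ_sh i1 j1).map2 (mZ_sh i3 j2) (fun x y => (x + y) / 2 ^ (48 + 2 * D))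
  have b := (mZ_sh i1 j2).map2 (mZ_sh i2 j1) (fun x y => (x + y) / 2 ^ (48 + 2 * D))
  exact a.map2 b (fun x y => (x, y))

theorem mul_hs (X Y : PA D) : FSh D (orL X.sh Y.sh) (gmul D X.I Y.I) := by
  rw [orL_or2]
  exact gmul_sh (Pool.Agent.Helper21.KTE.FSh.orl X.hs Y.hs.len)
    (Pool.Agent.Helper21.KTE.FSh.orr Y.hs X.hs.len)

/-! ### constants -/

theorem mZ_zl (D : ℕ) (G : Vt D → ℤ) (v : Vt D) : mZ D (fun _ => 0) G v = 0 := by
  induction D with
  | zero => exact zero_mul _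
  | succ D ih =>
    obtain ⟨u, i⟩ := v
    by_cases hi : i = 1
    · subst hi
      have e : mZ (D + 1) (fun _ => 0) G (u, 1) = (4 : ℤ) • mZ D (fun _ => 0) (fun u => G (u, 1)) u -
        mZ D (fun _ => 0 - 0) (fun u => G (u, 2) - G (u, 0)) u := rfl
      rw [e]
      simp only [sub_zero, ih, smul_zero]
    · have e : mZ (D + 1) (fun _ => 0) G (u, i) =
          (4 : ℤ) • mZ D (fun _ => 0) (fun u => G (u, i)) u := if_neg hi
      rw [e, ih, smul_zero]

theorem mZ_cl (D : ℕ) (c : ℤ) (G : Vt D → ℤ) (v : Vt D) : mZ D (fun _ => c) G v = 4 ^ D * (c * G v) := by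
  induction D with
  | zero => exact (one_mul _).symm
  | succ D ih =>
    obtain ⟨u, i⟩ := v
    by_cases hi : i = 1
    · subst hi
      have e : mZ (D + 1) (fun _ => c) G (u, 1) = (4 : ℤ) • mZ D (fun _ => c) (fun u => G (u, 1)) u -
        mZ D (fun _ => c - c) (fun u => G (u, 2) - G (u, 0)) u := rfl
      rw [e]
      simp only [sub_self, mZ_zl, ih, sub_zero, smul_eq_mul]
      ring
    · have e : mZ (D + 1) (fun _ => c) G (u, i) =
          (4 : ℤ) • mZ D (fun _ => c) (fun u => G (u, i)) u := if_neg hi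
      rw [e, ih, smul_eq_mul]
      ring

theorem mZ_comm (F G : Vt D → ℤ) (v : Vt D) : mZ D F G v = mZ D G F v := by
  unfold mZ
  rw [← rdZ_cv, ← rdZ_cv]
  congr 1
  funext w
  exact cv_comm D F G w

theorem mZ_cr (D : ℕ) (c : ℤ) (G : Vt D → ℤ) (v : Vt D) : mZ D G (fun _ => c) v = 4 ^ D * (c * G v) := by
  rw [mZ_comm, mZ_cl]

theorem div4 (D : ℕ) (x y : ℤ) : (4 ^ D * x + 4 ^ D * y) / 2 ^ (48 + 2 * D) = (x + y) / 2 ^ 48 := by
  have e : (2 : ℤ) ^ (48 + 2 * D) = 4 ^ D * 2 ^ 48 := by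
    rw [pow_add, pow_mul, mul_comm]
    norm_num
  rw [← mul_add, e, Int.mul_ediv_mul_of_pos _ _ (by positivity)]

/-- the product of a constant `c` and a function -/
def gco (c : ℤ × ℤ) (b : ℤ × ℤ) : ℤ × ℤ :=
  ((c.1 * b.1 - c.2 * b.2) / 2 ^ 48, (c.1 * b.2 + c.2 * b.1) / 2 ^ 48)

theorem gmul_cl {I : Vt D → ℤ × ℤ} {c : ℤ × ℤ} (h : ∀ v, I v = c) (J : Vt D → ℤ × ℤ) (v : Vt D) :
    gmul D I J v = gco c (J v) := by
  have e : I = fun _ => c := funext h
  subst e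
  unfold gmul gco
  simp only [mZ_cl, div4]
  congr 2
  ring

theorem gmul_cr {J : Vt D → ℤ × ℤ} {c : ℤ × ℤ} (h : ∀ v, J v = c) (I : Vt D → ℤ × ℤ) (v : Vt D) :
    gmul D I J v = gco c (I v) := by
  have e : J = fun _ => c := funext h
  subst e
  unfold gmul gco
  simp only [mZ_cr, div4]
  congr 2
  · ring
  · ring

theorem pkZ_mulc (D : ℕ) (c : ℤ) (F : Vt D → ℤ) : pkZ D (fun v => c * F v) = c * pkZ D F := pkZ_mul D c F

theorem p120 {a b : ℤ} (ha : |a| ≤ 2 ^ 60) (hb : |b| ≤ 2 ^ 60) : |a * b| ≤ 2 ^ 120 := by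
  rw [abs_mul]
  calc |a| * |b| ≤ 2 ^ 60 * 2 ^ 60 := mul_le_mul ha hb (abs_nonneg _) (by positivity)
    _ = 2 ^ 120 := by norm_num

theorem p125 {a b c d : ℤ} (ha : |a| ≤ 2 ^ 60) (hb : |b| ≤ 2 ^ 60) (hc : |c| ≤ 2 ^ 60)
    (hd : |d| ≤ 2 ^ 60) : |a * b - c * d| ≤ 2 ^ 125 ∧ |a * b + c * d| ≤ 2 ^ 125 ∧
      |(a * b - c * d) / 2 ^ 48| ≤ 2 ^ 100 ∧ |(a * b + c * d) / 2 ^ 48| ≤ 2 ^ 100 := by
  have h1 := abs_le.mp (p120 ha hb)
  have h2 := abs_le.mp (p120 hc hd)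
  have p : (0 : ℤ) < 2 ^ 48 := by positivity
  have e : (2 : ℤ) ^ 120 + 2 ^ 120 ≤ 2 ^ 125 := by norm_num
  have e1 : (2 : ℤ) ^ 120 + 2 ^ 120 < 2 ^ 100 * 2 ^ 48 := by norm_num
  have k1 : |a * b - c * d| ≤ 2 ^ 120 + 2 ^ 120 := by
    rw [abs_le]; constructor <;> linarith [h1.1, h1.2, h2.1, h2.2]
  have k2 : |a * b + c * d| ≤ 2 ^ 120 + 2 ^ 120 := by
    rw [abs_le]; constructor <;> linarith [h1.1, h1.2, h2.1, h2.2]
  have key : ∀ {x : ℤ}, |x| ≤ 2 ^ 120 + 2 ^ 120 → |x / 2 ^ 48| ≤ 2 ^ 100 := by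
    intro x hx
    have h := abs_le.mp hx
    rw [abs_le]
    constructor
    · rw [Int.le_ediv_iff_mul_le p]
      linarith [h.1]
    · have : x / 2 ^ 48 < 2 ^ 100 := by
        rw [Int.ediv_lt_iff_lt_mul p]
        linarith [h.2]
      exact this.le
  exact ⟨k1.trans e, k2.trans e, key k1, key k2⟩

/-- packed product with a constant -/
theorem mc_h (hD : D ≤ 4) {I J : Vt D → ℤ × ℤ} {c : ℤ × ℤ} (hI : ∀ v, I v = c) {x y x' y' : Z}
    (a : PR D I x y) (b : PR D J x' y') (v0 : Vt D) :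
    (zv (mc (CC D) (Z.sub (Z.mul (lowZ x) x') (Z.mul (lowZ y) y'))) =
        pkZ D (fun v => (gco c (J v)).1) ∧ ∀ v, |(gco c (J v)).1| ≤ 2 ^ 100) ∧
      zv (mc (CC D) (Z.add (Z.mul (lowZ x) y') (Z.mul (lowZ y) x'))) =
        pkZ D (fun v => (gco c (J v)).2) ∧ ∀ v, |(gco c (J v)).2| ≤ 2 ^ 100 := by
  have c1 : |c.1| ≤ 2 ^ 60 := by rw [← hI v0]; exact a.a v0
  have c2 : |c.2| ≤ 2 ^ 60 := by rw [← hI v0]; exact a.b v0
  have l1 : zv (lowZ x) = c.1 := by
    refine low_ok (D := D) c1 ?_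
    rw [a.x, ← pkZ_const]
    congr 1
    funext v
    rw [hI]
  have l2 : zv (lowZ y) = c.2 := by
    refine low_ok (D := D) c2 ?_
    rw [a.y, ← pkZ_const]
    congr 1
    funext v
    rw [hI]
  refine ⟨⟨?_, fun v => (p125 c1 (b.a v) c2 (b.b v)).2.2.1⟩, ?_,
    fun v => (p125 c1 (b.b v) c2 (b.a v)).2.2.2⟩
  · refine mc_ok hD (fun v => (p125 c1 (b.a v) c2 (b.b v)).1) ?_
    rw [zv_sub, zv_mul, zv_mul, l1, l2, b.x, b.y, ← pkZ_mulc, ← pkZ_mulc, ← pkZ_sub]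
  · refine mc_ok hD (fun v => (p125 c1 (b.b v) c2 (b.a v)).2.1) ?_
    rw [zv_add, zv_mul, zv_mul, l1, l2, b.x, b.y, ← pkZ_mulc, ← pkZ_mulc, ← pkZ_add]

/-! ### the product -/

/-- real and imaginary part -/
def mulR (C : LC) (X Y : PA D) : Z :=
  Bool.rec (motive := fun _ => Z)
    (Bool.rec (motive := fun _ => Z) (rd C (Z.sub (Z.mul X.re Y.re) (Z.mul X.im Y.im)))
      (mc C (Z.sub (Z.mul (lowZ Y.re) X.re) (Z.mul (lowZ Y.im) X.im))) Y.k)
    (mc C (Z.sub (Z.mul (lowZ X.re) Y.re) (Z.mul (lowZ X.im) Y.im))) X.k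
def mulI (C : LC) (X Y : PA D) : Z :=
  Bool.rec (motive := fun _ => Z)
    (Bool.rec (motive := fun _ => Z) (rd C (Z.add (Z.mul X.re Y.im) (Z.mul X.im Y.re)))
      (mc C (Z.add (Z.mul (lowZ Y.re) X.im) (Z.mul (lowZ Y.im) X.re))) Y.k)
    (mc C (Z.add (Z.mul (lowZ X.re) Y.im) (Z.mul (lowZ X.im) Y.re))) X.k

theorem vt0 : (D : ℕ) → Nonempty (Vt D)
  | 0 => ⟨()⟩
  | D + 1 => let ⟨v⟩ := vt0 D; ⟨(v, 0)⟩

theorem mul_h {C : LC} (hC : C = CC D ∧ D ≤ 4) (X Y : PA D)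
    (h : andB (andB X.ok Y.ok) (andB (sm C (mulR C X Y)) (sm C (mulI C X Y))) = true) :
    PR D (gmul D X.I Y.I) (mulR C X Y) (mulI C X Y) := by
  obtain ⟨rfl, hD⟩ := hC
  obtain ⟨h1, h2, h3, h4⟩ := and4 h
  have a := X.h h1
  have b := Y.h h2
  obtain ⟨v0⟩ := vt0 D
  have key : (zv (mulR (CC D) X Y) = pkZ D (fun v => (gmul D X.I Y.I v).1) ∧
      ∀ v, |(gmul D X.I Y.I v).1| ≤ 2 ^ 100) ∧
      zv (mulI (CC D) X Y) = pkZ D (fun v => (gmul D X.I Y.I v).2) ∧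
      ∀ v, |(gmul D X.I Y.I v).2| ≤ 2 ^ 100 := by
    unfold mulR mulI
    cases hX : X.k with
    | true =>
      obtain ⟨c, hc⟩ := X.hk hX
      have e : gmul D X.I Y.I = fun v => gco c (Y.I v) := funext fun v => gmul_cl hc Y.I v
      rw [e]
      exact mc_h hD hc a b v0
    | false =>
      cases hY : Y.k with
      | true =>
        obtain ⟨c, hc⟩ := Y.hk hY
        have e : gmul D X.I Y.I = fun v => gco c (X.I v) := funext fun v => gmul_cr hc X.I v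
        rw [e]
        exact mc_h hD hc b a v0
      | false =>
        have e1 : zv (Z.sub (Z.mul X.re Y.re) (Z.mul X.im Y.im)) =
            pkZ D (fun v => (X.I v).1) * pkZ D (fun v => (Y.I v).1) +
            pkZ D (fun v => -(X.I v).2) * pkZ D (fun v => (Y.I v).2) := by
          rw [zv_sub, zv_mul, zv_mul, a.x, a.y, b.x, b.y, pkZ_neg]
          ring
        have e2 : zv (Z.add (Z.mul X.re Y.im) (Z.mul X.im Y.re)) =
            pkZ D (fun v => (X.I v).1) * pkZ D (fun v => (Y.I v).2) +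
            pkZ D (fun v => (X.I v).2) * pkZ D (fun v => (Y.I v).1) := by
          rw [zv_add, zv_mul, zv_mul, a.x, a.y, b.x, b.y]
        have n2 : ∀ v, |-(X.I v).2| ≤ 2 ^ 60 := fun v => by rw [abs_neg]; exact a.b v
        exact ⟨rd_ok hD a.a b.a n2 b.b e1, rd_ok hD a.a b.b a.b b.a e2⟩
  exact ⟨key.1.1, key.2.1, sm_ok hD key.1.1 key.1.2 h3, sm_ok hD key.2.1 key.2.2 h4⟩

theorem mul_hk (X Y : PA D) (h : andB X.k Y.k = true) : ∃ c : ℤ × ℤ, ∀ v, gmul D X.I Y.I v = c := by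
  rw [andB_iff'] at h
  obtain ⟨a, ha⟩ := X.hk h.1
  obtain ⟨b, hb⟩ := Y.hk h.2
  exact ⟨gco a b, fun v => by rw [gmul_cl ha, hb]⟩

def mulK {C : LC} (hC : C = CC D ∧ D ≤ 4) (X Y : PA D) : PA D :=
  ⟨gmul D X.I Y.I, orL X.sh Y.sh, mulR C X Y, mulI C X Y,
    andB (andB X.ok Y.ok) (andB (sm C (mulR C X Y)) (sm C (mulI C X Y))), andB X.k Y.k, mul_hs X Y,
    mul_h hC X Y, mul_hk X Y⟩

theorem q4_hs (X : PA D) : FSh D X.sh (fun v => ((X.I v).1 / 4, (X.I v).2 / 4)) :=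
  X.hs.map fun a => (a.1 / 4, a.2 / 4)
theorem fls_h {P : Prop} (h : false = true) : P := absurd h (by decide)
def q4K (X : PA D) : PA D :=
  ⟨fun v => ((X.I v).1 / 4, (X.I v).2 / 4), X.sh, X.re, X.im, false, false, q4_hs X, fls_h, fls_h⟩

theorem falL_eq : ∀ n : ℕ, falL n = fal n
  | 0 => rfl
  | n + 1 => by
    show false :: falL n = false :: fal n
    rw [falL_eq n]
theorem truL_eq : ∀ n : ℕ, truL n = List.replicate n true
  | 0 => rfl
  | n + 1 => by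
    show true :: truL n = true :: List.replicate n true
    rw [truL_eq n]

theorem cs_hs (D : ℕ) (c : Cx) : FSh D (falL D) (fun _ : Vt D => (zv c.re, zv c.im)) := by
  rw [falL_eq]
  exact Pool.Agent.Helper21.KTE.FSh_const _ D
theorem cs_h {C : LC} (hC : C = CC D ∧ D ≤ 4) (c : Cx) (h : c60 c = true) :
    PR D (fun _ => (zv c.re, zv c.im)) (Z.mul (Z.p C.od) c.re) (Z.mul (Z.p C.od) c.im) := by
  obtain ⟨rfl, hD⟩ := hC
  unfold c60 at h
  rw [andB_iff'] at h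
  refine ⟨?_, ?_, fun _ => b60_ok h.1, fun _ => b60_ok h.2⟩
  · rw [zv_mul, pkZ_const]; rfl
  · rw [zv_mul, pkZ_const]; rfl
theorem cs_hk (D : ℕ) (c : Cx) (_ : true = true) : ∃ a : ℤ × ℤ, ∀ _v : Vt D, (zv c.re, zv c.im) = a :=
  ⟨_, fun _ => rfl⟩
def csK {C : LC} (hC : C = CC D ∧ D ≤ 4) (c : Cx) : PA D :=
  ⟨fun _ => (zv c.re, zv c.im), falL D, Z.mul (Z.p C.od) c.re, Z.mul (Z.p C.od) c.im, c60 c, true,
    cs_hs D c, cs_h hC c, cs_hk D c⟩

/-! ### bounds -/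

/-- the complex control values -/
def cI (I : Vt D → ℤ × ℤ) (v : Vt D) : ℂ := ((I v).1 : ℂ) + ((I v).2 : ℂ) * Complex.I

theorem ex_bd {D : ℕ} (F : Vt D → ℂ) : ∃ n : ℕ, ∀ v, ‖F v‖ ≤ n := by
  classical
  obtain ⟨n, hn⟩ := exists_nat_ge (∑ v : Vt D, ‖F v‖)
  exact ⟨n, fun v => (Finset.single_le_sum (f := fun v => ‖F v‖) (fun _ _ => norm_nonneg _)
    (Finset.mem_univ v)).trans hn⟩

def gnb (I : Vt D → ℤ × ℤ) : ℕ := Classical.choose (ex_bd (cI I))
theorem gnb_ok (I : Vt D → ℤ × ℤ) (v : Vt D) : ‖cI I v‖ ≤ gnb I := Classical.choose_spec (ex_bd (cI I)) v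

/-- bounds of the differences, zero in the constant directions -/
theorem ex_df {D : ℕ} {l : List Bool} {F : Vt D → ℂ} (h : FSh D l F) :
    ∃ L : List DF, L.length = D ∧ DL D F (L.map rl) ∧ ZS l L := by
  induction D generalizing l with
  | zero => cases l with
    | nil => exact ⟨[], rfl, trivial, trivial⟩
    | cons b l => exact h.elim
  | succ D ih => cases l with
    | nil => exact h.elim
    | cons b l =>
      obtain ⟨L0, a0, b0, c0⟩ := ih (h.slice 0)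
      obtain ⟨L1, a1, b1, c1⟩ := ih (h.slice 1)
      obtain ⟨L2, a2, b2, c2⟩ := ih (h.slice 2)
      obtain ⟨d, hd⟩ := ex_bd (fun v : Vt D => F (v, 2) - F (v, 0))
      obtain ⟨f, hf⟩ := ex_bd (fun v : Vt D => F (v, 1) - (F (v, 0) + F (v, 2)) / 2)
      have l01 : (Pool.Agent.Helper86.CT.mxL L0 L1).length = D :=
        Pool.Agent.Helper90.KMT.mxL_len a0 a1
      have key : ∀ i : Fin 3, DL D (fun v => F (v, i))
          ((Pool.Agent.Helper86.CT.mxL (Pool.Agent.Helper86.CT.mxL L0 L1) L2).map rl) := by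
        intro i
        have m0 := Pool.Agent.Helper90.KMT.mxL_l (l := L0) (l' := L1) (a0.trans a1.symm)
        have m1 := Pool.Agent.Helper90.KMT.mxL_r (l := L0) (l' := L1) (a0.trans a1.symm)
        have m2 := Pool.Agent.Helper90.KMT.mxL_l
          (l := Pool.Agent.Helper86.CT.mxL L0 L1) (l' := L2) (l01.trans a2.symm)
        have m3 := Pool.Agent.Helper90.KMT.mxL_r
          (l := Pool.Agent.Helper86.CT.mxL L0 L1) (l' := L2) (l01.trans a2.symm)
        fin_cases i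
        · exact Pool.Agent.Helper90.KMT.DL_mono (Pool.Agent.Helper90.KMT.forall2_trans m0 m2) b0
        · exact Pool.Agent.Helper90.KMT.DL_mono (Pool.Agent.Helper90.KMT.forall2_trans m1 m2) b1
        · exact Pool.Agent.Helper90.KMT.DL_mono m3 b2
      have zs : ZS l (Pool.Agent.Helper86.CT.mxL (Pool.Agent.Helper86.CT.mxL L0 L1) L2) :=
        (c0.mx c1).mx c2
      have ln : (Pool.Agent.Helper86.CT.mxL (Pool.Agent.Helper86.CT.mxL L0 L1) L2).length = D :=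
        Pool.Agent.Helper90.KMT.mxL_len l01 a2
      cases b with
      | true =>
        refine ⟨⟨d, f⟩ :: Pool.Agent.Helper86.CT.mxL (Pool.Agent.Helper86.CT.mxL L0 L1) L2, ?_,
          ⟨hd, hf, key⟩, fun h => absurd h (by decide), zs⟩
        rw [List.length_cons, ln]
      | false =>
        refine ⟨⟨0, 0⟩ :: Pool.Agent.Helper86.CT.mxL (Pool.Agent.Helper86.CT.mxL L0 L1) L2, ?_,
          ⟨fun v => ?_, fun v => ?_, key⟩, fun _ => ⟨rfl, rfl⟩, zs⟩
        · rw [List.length_cons, ln]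
        · rw [h.1 v 2, sub_self, norm_zero]
          exact Nat.cast_nonneg _
        · rw [h.1 v 1, h.1 v 2]
          have : F (v, 0) - (F (v, 0) + F (v, 0)) / 2 = 0 := by ring
          rw [this, norm_zero]
          exact Nat.cast_nonneg _

theorem ex_dfK (X : PA D) : ∃ L : List DF, L.length = D ∧ DL D (cI X.I) (L.map rl) ∧ ZS X.sh L :=
  ex_df (X.hs.map fun a => (a.1 : ℂ) + (a.2 : ℂ) * Complex.I)
def gdf (X : PA D) : List DF := Classical.choose (ex_dfK X)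
theorem gdf_ok (X : PA D) : (gdf X).length = D ∧ DL D (cI X.I) ((gdf X).map rl) ∧ ZS X.sh (gdf X) :=
  Classical.choose_spec (ex_dfK X)

def nbK (C : LC) (X : PA D) : ℕ :=
  Bool.rec (motive := fun _ => ℕ) (gnb X.I) (nb3 C.D (abT C X.re) (abT C X.im)) X.ok
def dfK (C : LC) (X : PA D) : List DF :=
  Bool.rec (motive := fun _ => List DF) (gdf X) (df4 C.D (abT C X.re) (abT C X.im) C.ds []) X.ok

theorem nbK_ok {C : LC} (hC : C = CC D ∧ D ≤ 4) (X : PA D) (v : Vt D) : ‖cI X.I v‖ ≤ nbK C X := by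
  obtain ⟨rfl, hD⟩ := hC
  unfold nbK
  cases h : X.ok with
  | false => exact gnb_ok X.I v
  | true =>
    have a := X.h h
    rw [CC_D]
    exact nb_ok hD a.x a.y a.a a.b v

theorem dfK_ok {C : LC} (hC : C = CC D ∧ D ≤ 4) (X : PA D) :
    (dfK C X).length = D ∧ DL D (cI X.I) ((dfK C X).map rl) ∧ ZS X.sh (dfK C X) := by
  obtain ⟨rfl, hD⟩ := hC
  unfold dfK
  cases h : X.ok with
  | false => exact gdf_ok X
  | true =>
    have a := X.h h
    rw [CC_D]
    exact ⟨df_len _ _ _, df_ok hD a.x a.y a.a a.b, df_zs hD a.x a.y a.a a.b X.hs⟩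

/-! ### the inverse -/

def midK (C : LC) (X : PA D) : Cx := ⟨mid C (ms C.ds) X.re, mid C (ms C.ds) X.im⟩
def nwt {C : LC} (hC : C = CC D ∧ D ≤ 4) (n : Nat) (X Y : PA D) : PA D :=
  Nat.rec (motive := fun _ => PA D → PA D) (fun Y => Y)
    (fun _ ih Y => ih (mulK hC Y (subK hC (csK hC ⟨Z.p (nat_lit 562949953421312), Z.p (nat_lit 0)⟩) (mulK hC X Y)))) n Y
def invK {C : LC} (hC : C = CC D ∧ D ≤ 4) (X : PA D) : PA D :=
  nwt hC (nat_lit 7) X (csK hC (cdiv one1 (midK C X)))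

def AK {C : LC} (hC : C = CC D ∧ D ≤ 4) : Alg (PA D) :=
  ⟨addK hC, subK hC, mulK hC, q4K, cjK, csK hC, invK hC, nbK C, dfK C⟩

/-! ### the laws -/

/-- leaves -/
def lcK (X : PA D) (v : Vt D) : Cx := zC2 (X.I v)
def lfK (X : PA D) (v : Vt D) : ℂ := cz (lcK X v)
/-- the shape of a packed function -/
def SaK (X : PA D) (l : List Bool) : Prop := X.sh = l

theorem lfK_eq (X : PA D) (v : Vt D) : lfK X v = cI X.I v := by
  unfold lfK lcK zC2 cz cI
  rw [zv_zC, zv_zC]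
  apply Complex.ext <;> simp

theorem lfK_fun (X : PA D) : lfK X = cI X.I := funext (lfK_eq X)

theorem SHLK {C : LC} (hC : C = CC D ∧ D ≤ 4) : SHL D SaK (AK hC) := by
  have len : ∀ X : PA D, X.sh.length = D := fun X => X.hs.len
  have add : ∀ {x y : PA D} {l l'}, SaK x l → SaK y l' → SaK (addK hC x y) (or2 l l') := by
    intro x y l l' h h'
    show orL x.sh y.sh = _
    rw [orL_or2, show x.sh = l from h, show y.sh = l' from h']
  have sub : ∀ {x y : PA D} {l l'}, SaK x l → SaK y l' → SaK (subK hC x y) (or2 l l') := by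
    intro x y l l' h h'
    show orL x.sh y.sh = _
    rw [orL_or2, show x.sh = l from h, show y.sh = l' from h']
  have mul : ∀ {x y : PA D} {l l'}, SaK x l → SaK y l' → SaK (mulK hC x y) (or2 l l') := by
    intro x y l l' h h'
    show orL x.sh y.sh = _
    rw [orL_or2, show x.sh = l from h, show y.sh = l' from h']
  have cs : ∀ c, SaK (csK hC c) (fal D) := fun c => falL_eq D
  have stp : ∀ (X Y : PA D), Y.sh = fal D ∨ Y.sh = X.sh →
      (mulK hC Y (subK hC (csK hC ⟨Z.p 562949953421312, Z.p 0⟩) (mulK hC X Y))).sh = X.sh := by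
    intro X Y hY
    have h1 : SaK (mulK hC Y (subK hC (csK hC ⟨Z.p 562949953421312, Z.p 0⟩) (mulK hC X Y)))
      (or2 Y.sh (or2 (fal D) (or2 X.sh Y.sh))) := mul rfl (sub (cs _) (mul rfl rfl))
    have h2 : (mulK hC Y (subK hC (csK hC ⟨Z.p 562949953421312, Z.p 0⟩) (mulK hC X Y))).sh =
      (or2 Y.sh (or2 (fal D) (or2 X.sh Y.sh))) := h1
    rw [h2, Pool.Agent.Helper21.KTE.or2_fal D _ (Pool.Agent.Helper21.KTE.or2_len (len X) (len Y))]
    rcases hY with h | h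
    · rw [h, Pool.Agent.Helper21.KTE.or2_fal' D _ (len X),
        Pool.Agent.Helper21.KTE.or2_fal D _ (len X)]
    · rw [h, Pool.Agent.Helper17.KPT.or2_self, Pool.Agent.Helper17.KPT.or2_self]
  have nw : ∀ (n : ℕ) (X Y : PA D), Y.sh = X.sh → (nwt hC n X Y).sh = X.sh := by
    intro n
    induction n with
    | zero => intro X Y h; exact h
    | succ n ih =>
      intro X Y h
      exact ih X _ (stp X Y (Or.inr h))
  refine ⟨?_, add, sub, mul, fun h => h, fun h => h, cs, ?_⟩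
  · intro x l h
    rw [← show x.sh = l from h]
    exact len x
  · intro x l h
    have h1 : (invK hC x).sh = x.sh := by
      show (nwt hC 6 x (mulK hC _ (subK hC (csK hC ⟨Z.p 562949953421312, Z.p 0⟩) (mulK hC x _)))).sh = _
      exact nw 6 x _ (stp x _ (Or.inl (falL_eq D)))
    exact h1.trans h

theorem DZK {C : LC} (hC : C = CC D ∧ D ≤ 4) : DZ SaK (AK hC) := by
  intro x l h
  rw [← show x.sh = l from h]
  exact (dfK_ok hC x).2.2

/-- the product of control values -/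
theorem mZ_mulT (F G : Vt D → ℤ) (v : Vt D) :
    ((mZ D F G v : ℤ) : ℂ) = 4 ^ D * mulT D (fun u => (F u : ℂ)) (fun u => (G u : ℂ)) v := by
  induction D with
  | zero => simp [mZ, mulZ, mulT]
  | succ D ih =>
    obtain ⟨u, i⟩ := v
    by_cases hi : i = 1
    · subst hi
      have e : mZ (D + 1) F G (u, 1) = (4 : ℤ) • mZ D (fun u => F (u, 1)) (fun u => G (u, 1)) u -
            mZ D (fun u => F (u, 2) - F (u, 0)) (fun u => G (u, 2) - G (u, 0)) u := rfl
      rw [e, zsmul_eq_mul, Int.cast_sub, Int.cast_mul, ih, ih]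
      simp only [mulT, if_true]
      push_cast
      ring
    · have e : mZ (D + 1) F G (u, i) = (4 : ℤ) • mZ D (fun u => F (u, i)) (fun u => G (u, i)) u :=
        if_neg hi
      rw [e, zsmul_eq_mul, Int.cast_mul, ih]
      simp only [mulT, hi, if_false]
      push_cast
      ring

theorem mulT_cI (I J : Vt D → ℤ × ℤ) (v : Vt D) : 4 ^ D * mulT D (cI I) (cI J) v =
    ((mZ D (fun u => (I u).1) (fun u => (J u).1) v +
      mZ D (fun u => -(I u).2) (fun u => (J u).2) v : ℤ) : ℂ) +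
    ((mZ D (fun u => (I u).1) (fun u => (J u).2) v +
      mZ D (fun u => (I u).2) (fun u => (J u).1) v : ℤ) : ℂ) * Complex.I := by
  have e1 : cI I = fun u => ((I u).1 : ℂ) + Complex.I * ((I u).2 : ℂ) := by
    funext u; unfold cI; ring
  have e2 : cI J = fun u => ((J u).1 : ℂ) + Complex.I * ((J u).2 : ℂ) := by
    funext u; unfold cI; ring
  have e3 : (fun u => (((-(I u).2 : ℤ)) : ℂ)) = fun u => (-1 : ℂ) * ((I u).2 : ℂ) := by
    funext u; push_cast; ring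
  rw [Int.cast_add, Int.cast_add, mZ_mulT, mZ_mulT, mZ_mulT, mZ_mulT, e1, e2, e3]
  rw [mulT_add_left, mulT_add_right, mulT_add_right, mulT_smul_left, mulT_smul_left, mulT_smul_right,
    mulT_smul_right, mulT_smul_left]
  linear_combination (4 ^ D * mulT D (fun v => ((I v).2 : ℂ)) (fun v => ((J v).2 : ℂ)) v) *
    Complex.I_mul_I

/-- rounding of a product -/
theorem gmul_ok (I J : Vt D → ℤ × ℤ) (v : Vt D) :
    ‖cI (gmul D I J) v - mulT D (cI I) (cI J) v / UU‖ ≤ 3 / 2 := by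
  set A : ℤ := mZ D (fun u => (I u).1) (fun u => (J u).1) v +
      mZ D (fun u => -(I u).2) (fun u => (J u).2) v with hA
  set B : ℤ := mZ D (fun u => (I u).1) (fun u => (J u).2) v +
      mZ D (fun u => (I u).2) (fun u => (J u).1) v with hB
  have h := mulT_cI I J v
  rw [← hA, ← hB] at h
  have hU : (UU : ℂ) = 2 ^ 48 := by unfold UU; norm_num
  have h4 : (4 : ℂ) ^ D ≠ 0 := pow_ne_zero _ (by norm_num)
  have e : mulT D (cI I) (cI J) v / UU = ((A : ℂ) + (B : ℂ) * Complex.I) / 2 ^ (48 + 2 * D) := by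
    rw [← h, hU, pow_add, pow_mul]
    have : (2 : ℂ) ^ 2 = 4 := by norm_num
    rw [this]
    field_simp
  have key : ∀ x : ℤ, |((x / 2 ^ (48 + 2 * D) : ℤ) : ℝ) - (x : ℝ) / 2 ^ (48 + 2 * D)| ≤ 1 := by
    intro x
    have hp : (0 : ℤ) < 2 ^ (48 + 2 * D) := by positivity
    have hp' : (0 : ℝ) < 2 ^ (48 + 2 * D) := by positivity
    have h1 := Int.emod_nonneg x hp.ne'
    have h2 := Int.emod_lt_of_pos x hp
    have h3 := Int.mul_ediv_add_emod x (2 ^ (48 + 2 * D))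
    have h3' : (2 : ℝ) ^ (48 + 2 * D) * ((x / 2 ^ (48 + 2 * D) : ℤ) : ℝ) +
        ((x % 2 ^ (48 + 2 * D) : ℤ) : ℝ) = x := by exact_mod_cast h3
    have h1' : (0 : ℝ) ≤ ((x % 2 ^ (48 + 2 * D) : ℤ) : ℝ) := by exact_mod_cast h1
    have h2' : ((x % 2 ^ (48 + 2 * D) : ℤ) : ℝ) < 2 ^ (48 + 2 * D) := by exact_mod_cast h2
    rw [← h3']
    have e : ((x / 2 ^ (48 + 2 * D) : ℤ) : ℝ) - (2 ^ (48 + 2 * D) *
        ((x / 2 ^ (48 + 2 * D) : ℤ) : ℝ) + ((x % 2 ^ (48 + 2 * D) : ℤ) : ℝ)) / 2 ^ (48 + 2 * D) =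
        -(((x % 2 ^ (48 + 2 * D) : ℤ) : ℝ) / 2 ^ (48 + 2 * D)) := by
      field_simp
      ring
    rw [e, abs_neg, abs_of_nonneg (by positivity), div_le_one hp']
    exact h2'.le
  have hr := key A
  have hi := key B
  have e2 : cI (gmul D I J) v - mulT D (cI I) (cI J) v / UU =
      ((((A / 2 ^ (48 + 2 * D) : ℤ) : ℝ) - (A : ℝ) / 2 ^ (48 + 2 * D) : ℝ) : ℂ) +
      ((((B / 2 ^ (48 + 2 * D) : ℤ) : ℝ) - (B : ℝ) / 2 ^ (48 + 2 * D) : ℝ) : ℂ) * Complex.I := by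
    rw [e]
    unfold cI gmul
    rw [← hA, ← hB]
    push_cast
    ring
  rw [e2]
  generalize ((A / 2 ^ (48 + 2 * D) : ℤ) : ℝ) - (A : ℝ) / 2 ^ (48 + 2 * D) = x at *
  generalize ((B / 2 ^ (48 + 2 * D) : ℤ) : ℝ) - (B : ℝ) / 2 ^ (48 + 2 * D) = y at *
  have hx := abs_le.mp hr
  have hy := abs_le.mp hi
  have hn : ‖(x : ℂ) + (y : ℂ) * Complex.I‖ ^ 2 = x ^ 2 + y ^ 2 := by
    rw [← Complex.normSq_eq_norm_sq, Complex.normSq_add_mul_I]
  have h0 := norm_nonneg ((x : ℂ) + (y : ℂ) * Complex.I)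
  nlinarith

theorem eD_ge (D : ℕ) : 3 / 2 ≤ eD D := by
  cases D with
  | zero => exact le_rfl
  | succ D =>
    have := eD_nonneg D
    simp only [eD]
    linarith

theorem AOKK {C : LC} (hC : C = CC D ∧ D ≤ 4) : AOK D lfK (AK hC) := by
  refine ⟨⟨fun x y v => ?_, fun x y v => ?_, fun x v => ?_, fun x v => ?_, fun x y v => ?_⟩,
    fun c v => ?_, fun x v => ?_, fun x => (dfK_ok hC x).1, fun x => ?_⟩
  · rw [lfK_eq, lfK_eq, lfK_eq]
    show (((x.I v).1 + (y.I v).1 : ℤ) : ℂ) + (((x.I v).2 + (y.I v).2 : ℤ) : ℂ) * Complex.I = _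
    unfold cI
    push_cast
    ring
  · rw [lfK_eq, lfK_eq, lfK_eq]
    show (((x.I v).1 - (y.I v).1 : ℤ) : ℂ) + (((x.I v).2 - (y.I v).2 : ℤ) : ℂ) * Complex.I = _
    unfold cI
    push_cast
    ring
  · rw [lfK_eq, lfK_eq]
    show ((x.I v).1 : ℂ) + ((-(x.I v).2 : ℤ) : ℂ) * Complex.I = star (((x.I v).1 : ℂ) +
      ((x.I v).2 : ℂ) * Complex.I)
    apply Complex.ext <;> simp
  · rw [lfK_eq, lfK_eq]
    have key : ∀ n : ℤ, |((n / 4 : ℤ) : ℝ) - (n : ℝ) / 4| ≤ 1 := by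
      intro n
      have h1 := Int.emod_nonneg n (show (4 : ℤ) ≠ 0 by norm_num)
      have h2 := Int.emod_lt_of_pos n (show (0 : ℤ) < 4 by norm_num)
      have h3 := Int.mul_ediv_add_emod n 4
      have h3' : (4 : ℝ) * ((n / 4 : ℤ) : ℝ) + ((n % 4 : ℤ) : ℝ) = n := by exact_mod_cast h3
      have h1' : (0 : ℝ) ≤ ((n % 4 : ℤ) : ℝ) := by exact_mod_cast h1
      have h2' : ((n % 4 : ℤ) : ℝ) < 4 := by exact_mod_cast h2
      rw [abs_le]
      constructor <;> linarith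
    have h1 := key (x.I v).1
    have h2 := key (x.I v).2
    have e : cI (q4K x).I v - cI x.I v / 4 =
        ((((x.I v).1 / 4 : ℤ) : ℝ) - ((x.I v).1 : ℝ) / 4 : ℝ) +
        (((((x.I v).2 / 4 : ℤ) : ℝ) - ((x.I v).2 : ℝ) / 4 : ℝ) : ℂ) * Complex.I := by
      show (((x.I v).1 / 4 : ℤ) : ℂ) + (((x.I v).2 / 4 : ℤ) : ℂ) * Complex.I -
        (((x.I v).1 : ℂ) + ((x.I v).2 : ℂ) * Complex.I) / 4 = _
      push_cast
      ring
    show ‖cI (q4K x).I v - cI x.I v / 4‖ ≤ 3 / 2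
    rw [e]
    generalize (((x.I v).1 / 4 : ℤ) : ℝ) - ((x.I v).1 : ℝ) / 4 = a at *
    generalize (((x.I v).2 / 4 : ℤ) : ℝ) - ((x.I v).2 : ℝ) / 4 = b at *
    have hx := abs_le.mp h1
    have hy := abs_le.mp h2
    have hn : ‖(a : ℂ) + (b : ℂ) * Complex.I‖ ^ 2 = a ^ 2 + b ^ 2 := by
      rw [← Complex.normSq_eq_norm_sq, Complex.normSq_add_mul_I]
    have h0 := norm_nonneg ((a : ℂ) + (b : ℂ) * Complex.I)
    nlinarith
  · rw [lfK_fun x, lfK_fun y, lfK_eq]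
    exact (gmul_ok x.I y.I v).trans (eD_ge D)
  · rw [lfK_eq]
    show ((zv c.re : ℤ) : ℂ) + ((zv c.im : ℤ) : ℂ) * Complex.I = cz c
    unfold cz
    apply Complex.ext <;> simp
  · rw [lfK_eq]
    exact nbK_ok hC x v
  · rw [lfK_fun]
    exact (dfK_ok hC x).2.1

/-! ### the test of the imaginary parts -/

/-- `m ≤ Im x - Im u` -/
def tsK (C : LC) (m : Nat) (X U : PA D) : Bool :=
  andB X.ok (andB U.ok (andB (Nat.ble m (nat_lit 1152921504606846976))
    (ts1 C (Nat.sub (ofs (Nat.mul HB C.o3) (Z.sub X.im U.im)) (Nat.mul m C.od)))))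

theorem TLWK {C : LC} (hC : C = CC D ∧ D ≤ 4) : TLW D lfK (⟨tsK C⟩ : Tst (PA D)) := by
  obtain ⟨rfl, hD⟩ := hC
  intro m X U h _ v
  have h' : andB X.ok (andB U.ok (andB (Nat.ble m (nat_lit 1152921504606846976))
    (ts1 (CC D) (Nat.sub (ofs (Nat.mul HB (CC D).o3) (Z.sub X.im U.im)) (Nat.mul m (CC D).od))))) =
      true := h
  rw [andB_iff', andB_iff', andB_iff'] at h'
  obtain ⟨h1, h2, h3, h4⟩ := h'
  have a := X.h h1
  have b := U.h h2
  have hm : m ≤ 2 ^ 60 := Nat.le_of_ble_eq_true h3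
  have e : zv (Z.sub X.im U.im) = pkZ D (fun v => (X.I v).2 - (U.I v).2) := by
    rw [zv_sub, a.y, b.y, pkZ_sub]
  have hJ : ∀ v, |(X.I v).2 - (U.I v).2| ≤ 2 ^ 62 := fun v => by
    have h1 := abs_le.mp (a.b v)
    have h2 := abs_le.mp (b.b v)
    rw [abs_le]
    constructor <;> norm_num at * <;> linarith
  have h5 := ts_ok hD e hJ hm h4 v
  have h6 : ((m : ℤ) : ℝ) ≤ (((X.I v).2 - (U.I v).2 : ℤ) : ℝ) := by exact_mod_cast h5
  rw [lfK_eq, lfK_eq]
  unfold cI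
  push_cast at h6
  simpa using h6

end

end Pool.Agent.Helper86.CK
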