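import Pool.Agent.Helper86.CK.K5

/-!
Packed machine (MP_c75db0), row K6: spreading and extraction.
-/

set_option autoImplicit false
set_option exponentiation.threshold 4000
noncomputable section
namespace Pool.Agent.Helper86.CK

open Pool.Agent.Helper86.C75 (Z)
open Pool.Agent.Helper86.CX
open Pool.Agent.Helper86.CT
open Pool.Agent.Helper90.C75 (Vt)
open Pool.Agent.Helper90.KMO (zv cz)

/-- modulus of a block of `3 ^ D` slots of 2432 bits -/
def Yn (D : ℕ) : ℕ := 2 ^ (2432 * 3 ^ D)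
/-- `Σ_v f(v) 2 ^ (2432 e(v))`, `e` in base three -/
def p3 : (D : ℕ) → (Vt D → ℕ) → ℕ
  | 0, f => f ()
  | D + 1, f => p3 D (fun u => f (u, 0)) + Yn D * (p3 D (fun u => f (u, 1)) +
      Yn D * p3 D (fun u => f (u, 2)))
def y3 : (D : ℕ) → (Vt D → ℤ) → ℤ
  | 0, f => f ()
  | D + 1, f => y3 D (fun u => f (u, 0)) + Yn D * (y3 D (fun u => f (u, 1)) +
      Yn D * y3 D (fun u => f (u, 2)))

/-- the constants -/
def SC : ℕ → SL
  | 0 => S0c
  | D + 1 => nxS1 (SC D)
def SpC : ℕ → Sp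
  | 0 => Sp0
  | D + 1 => nxSp (CC D) (SpC D)
def SoC : ℕ → So
  | 0 => So0
  | D + 1 => nxSo (SC D) (SoC D)
def KC (D : ℕ) : KK := ⟨CC D, SC D, SpC D, (SoC D).f 0⟩

theorem KC1 : KC 1 = ⟨C1, S1c, Sp1, So1.f 0⟩ := rfl
theorem KC2 : KC 2 = ⟨C2, S2c, Sp2, So2.f 0⟩ := rfl
theorem KC3 : KC 3 = ⟨C3, S3c, Sp3, So3.f 0⟩ := rfl
theorem KC4 : KC 4 = ⟨C4, S4c, Sp4, So4.f 0⟩ := rfl

/-! ### tools -/

theorem Yn_pos (D : ℕ) : 0 < Yn D := by unfold Yn; positivity
theorem Yn_succ (D : ℕ) : Yn (D + 1) = Yn D * Yn D * Yn D := by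
  unfold Yn
  rw [← pow_add, ← pow_add]
  congr 1
  rw [pow_succ]
  ring

theorem p3_succ (D : ℕ) (f : Vt (D + 1) → ℕ) : p3 (D + 1) f = p3 D (fun u => f (u, 0)) +
    Yn D * (p3 D (fun u => f (u, 1)) + Yn D * p3 D (fun u => f (u, 2))) := rfl
theorem y3_succ (D : ℕ) (f : Vt (D + 1) → ℤ) : y3 (D + 1) f = y3 D (fun u => f (u, 0)) +
    Yn D * (y3 D (fun u => f (u, 1)) + Yn D * y3 D (fun u => f (u, 2))) := rfl

theorem y3_cast (D : ℕ) (f : Vt D → ℕ) : y3 D (fun v => (f v : ℤ)) = p3 D f := by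
  induction D with
  | zero => rfl
  | succ D ih => rw [y3_succ, p3_succ, ih, ih, ih]; push_cast; ring

theorem y3_add (D : ℕ) (f g : Vt D → ℤ) : y3 D (fun v => f v + g v) = y3 D f + y3 D g := by
  induction D with
  | zero => rfl
  | succ D ih => rw [y3_succ, y3_succ, y3_succ, ih, ih, ih]; ring

theorem y3_sub (D : ℕ) (f g : Vt D → ℤ) : y3 D (fun v => f v - g v) = y3 D f - y3 D g := by
  induction D with
  | zero => rfl
  | succ D ih => rw [y3_succ, y3_succ, y3_succ, ih, ih, ih]; ring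

theorem y3_mul (D : ℕ) (c : ℤ) (f : Vt D → ℤ) : y3 D (fun v => c * f v) = c * y3 D f := by
  induction D with
  | zero => rfl
  | succ D ih => rw [y3_succ, y3_succ, ih, ih, ih]; ring

theorem p3_add (D : ℕ) (f g : Vt D → ℕ) : p3 D (fun v => f v + g v) = p3 D f + p3 D g := by
  induction D with
  | zero => rfl
  | succ D ih => rw [p3_succ, p3_succ, p3_succ, ih, ih, ih]; ring

theorem p3_mul (D : ℕ) (c : ℕ) (f : Vt D → ℕ) : p3 D (fun v => c * f v) = c * p3 D f := by
  induction D with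
  | zero => rfl
  | succ D ih => rw [p3_succ, p3_succ, ih, ih, ih]; ring

theorem p3_lt {D : ℕ} {f : Vt D → ℕ} (h : ∀ v, f v < 2 ^ 2432) : p3 D f < Yn D := by
  induction D with
  | zero => exact h ()
  | succ D ih =>
    have h0 := ih fun u => h (u, 0)
    have h1 := ih fun u => h (u, 1)
    have h2 := ih fun u => h (u, 2)
    have hY := Yn_pos D
    rw [p3_succ, Yn_succ]
    generalize p3 D (fun u => f (u, 0)) = a at *
    generalize p3 D (fun u => f (u, 1)) = b at *
    generalize p3 D (fun u => f (u, 2)) = c at *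
    generalize Yn D = Y at *
    have a1 : b + Y * c < Y * Y := by nlinarith
    nlinarith

theorem SC_W (D : ℕ) : (SC D).W = Yn D := by
  induction D with
  | zero => rfl
  | succ D ih =>
    show (SC D).W * (SC D).W * (SC D).W = _
    rw [ih, Yn_succ]

theorem SC_on (D : ℕ) : (SC D).on = p3 D (fun _ => 1) := by
  induction D with
  | zero => rfl
  | succ D ih =>
    show (1 + (SC D).W * (1 + (SC D).W)) * (SC D).on = _
    rw [p3_succ, ← ih, SC_W]
    ring

/-- `n` in all slots -/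
theorem cst_on (D n : ℕ) : n * (SC D).on = p3 D (fun _ => n) := by
  rw [SC_on, ← p3_mul]
  simp

/-- the spreading -/
theorem sp_ok (D : ℕ) (U m s acc : ℕ) : (SpC D).f U m s acc = acc * Yn D +
    p3 D (fun v => (U >>> (s + pb D v + (m + mi D v))) &&& (B1 >>> (m + mi D v))) := by
  induction D generalizing m s acc with
  | zero =>
    show (acc <<< 2432) + ((U >>> (s + m)) &&& (B1 >>> m)) = acc * 2 ^ (2432 * 3 ^ 0) +
      ((U >>> (s + 0 + (m + 0))) &&& (B1 >>> (m + 0)))
    rw [Nat.shiftLeft_eq, pow_zero, mul_one, add_zero, add_zero]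
  | succ D ih =>
    show (SpC D).f U m s ((SpC D).f U (m + 1) (s + (CC D).w) ((SpC D).f U m (s + 2 * (CC D).w) acc)) = _
    rw [ih, ih, ih, p3_succ, Yn_succ, CC_w]
    have e0 : (fun v : Vt D => (U >>> (s + pb (D + 1) (v, 0) + (m + mi (D + 1) (v, 0)))) &&&
        (B1 >>> (m + mi (D + 1) (v, 0)))) =
        fun v => (U >>> (s + pb D v + (m + mi D v))) &&& (B1 >>> (m + mi D v)) := by
      funext v
      have h1 : pb (D + 1) (v, 0) = pb D v := by
        show pb D v + 0 * ww D = _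
        rw [zero_mul, add_zero]
      have h2 : mi (D + 1) (v, 0) = mi D v := rfl
      rw [h1, h2]
    have e1 : (fun v : Vt D => (U >>> (s + pb (D + 1) (v, 1) + (m + mi (D + 1) (v, 1)))) &&&
        (B1 >>> (m + mi (D + 1) (v, 1)))) =
        fun v => (U >>> (s + ww D + pb D v + (m + 1 + mi D v))) &&& (B1 >>> (m + 1 + mi D v)) := by
      funext v
      have h1 : s + pb (D + 1) (v, 1) = s + ww D + pb D v := by
        show s + (pb D v + 1 * ww D) = _
        ring
      have h2 : m + mi (D + 1) (v, 1) = m + 1 + mi D v := by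
        show m + (mi D v + 1) = _
        ring
      rw [h1, h2]
    have e2 : (fun v : Vt D => (U >>> (s + pb (D + 1) (v, 2) + (m + mi (D + 1) (v, 2)))) &&&
        (B1 >>> (m + mi (D + 1) (v, 2)))) =
        fun v => (U >>> (s + 2 * ww D + pb D v + (m + mi D v))) &&& (B1 >>> (m + mi D v)) := by
      funext v
      have h1 : s + pb (D + 1) (v, 2) = s + 2 * ww D + pb D v := by
        show s + (pb D v + 2 * ww D) = _
        ring
      have h2 : mi (D + 1) (v, 2) = mi D v := rfl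
      rw [h1, h2]
    rw [e0, e1, e2]
    ring

theorem so_ok (D m : ℕ) : (SoC D).f m = p3 D (fun v => HB >>> (m + mi D v)) := by
  induction D generalizing m with
  | zero => rfl
  | succ D ih =>
    show (SoC D).f m + (SC D).W * ((SoC D).f (m + 1) + (SC D).W * (SoC D).f m) = _
    rw [ih, ih, p3_succ, SC_W]
    have e1 : (fun u : Vt D => HB >>> (m + mi (D + 1) (u, 1))) =
        fun u => HB >>> (m + 1 + mi D u) := by
      funext u
      have h2 : m + mi (D + 1) (u, 1) = m + 1 + mi D u := by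
        show m + (mi D u + 1) = _
        ring
      rw [h2]
    rw [e1]
    rfl

/-- THE SPREAD NUMBER -/
theorem spz_ok {D r : ℕ} (hD : D ≤ 4) {z : Z} {J : Vt D → ℤ} (hz : zv z = pkZ D J)
    (hJ : ∀ v, |J v| ≤ 2 ^ 60) (hr : r ≤ 2 ^ 62) :
    spz (KC D) r z = p3 D (fun v => (J v + 2 ^ 100 - r).toNat) := by
  have h1 : spz (KC D) r z = (SpC D).f (ofs (Nat.mul HB (CC D).o3) z) 0 0 0 +
      (1267650600228229401496703205376 - r) * (SC D).on - (SoC D).f 0 := rfl
  have hdig : ∀ v : Vt D, ((ofs (Nat.mul HB (CC D).o3) z) >>> (0 + pb D v + (0 + mi D v))) &&&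
      (B1 >>> (0 + mi D v)) = (2 ^ (143 - mi D v) + J v).toNat ∧ 0 ≤ 2 ^ (143 - mi D v) + J v := by
    intro v
    rw [zero_add, zero_add]
    exact dg_val ((mi_le D v).trans (by omega)) (hJ v) (ofs_dig (by omega) hJ hz v)
  have e2 : (fun v : Vt D => ((ofs (Nat.mul HB (CC D).o3) z) >>> (0 + pb D v + (0 + mi D v))) &&&
      (B1 >>> (0 + mi D v))) = fun v => (2 ^ (143 - mi D v) + J v).toNat :=
    funext fun v => (hdig v).1
  have e3 : (fun v : Vt D => HB >>> (0 + mi D v)) = fun v => 2 ^ (143 - mi D v) := by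
    funext v
    rw [zero_add]
    exact HB_shr (by have := mi_le D v; omega)
  rw [h1, sp_ok, so_ok, e2, e3, zero_mul, zero_add, cst_on, ← p3_add]
  have e4 : (fun v : Vt D => (2 ^ (143 - mi D v) + J v).toNat +
      (1267650600228229401496703205376 - r)) =
      fun v => (J v + 2 ^ 100 - r).toNat + 2 ^ (143 - mi D v) := by
    funext v
    have h0 := (hdig v).2
    have hb := abs_le.mp (hJ v)
    have hr' : (r : ℤ) ≤ 2 ^ 62 := by exact_mod_cast hr
    have hc : (2 : ℤ) ^ 60 + 2 ^ 62 ≤ 2 ^ 100 := by norm_num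
    have hn : (0 : ℤ) ≤ J v + 2 ^ 100 - r := by linarith [hb.1]
    have hr2 : r ≤ 1267650600228229401496703205376 := hr.trans (by norm_num)
    zify
    rw [Nat.cast_sub hr2, Int.toNat_of_nonneg h0, Int.toNat_of_nonneg hn]
    push_cast
    ring
  rw [e4, p3_add, Nat.add_sub_cancel]

/-- the position of a slot in bits -/
def ps : (D : ℕ) → Vt D → ℕ
  | 0, _ => 0
  | D + 1, v => ps D v.1 + (v.2 : ℕ) * (2432 * 3 ^ D)

theorem ps_eq (D : ℕ) (v : Vt D) : ∃ e < 3 ^ D, ps D v = 2432 * e := by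
  induction D with
  | zero => exact ⟨0, by norm_num, rfl⟩
  | succ D ih =>
    obtain ⟨u, i⟩ := v
    obtain ⟨e, h1, h2⟩ := ih u
    refine ⟨e + (i : ℕ) * 3 ^ D, ?_, ?_⟩
    · have hi : (i : ℕ) ≤ 2 := by have := i.2; omega
      have := Nat.mul_le_mul_right (3 ^ D) hi
      rw [pow_succ]
      omega
    · show ps D u + (i : ℕ) * (2432 * 3 ^ D) = _
      rw [h2]
      ring

def shA (n : ℕ) (s : ℕ) : List ℕ :=
  Nat.rec (motive := fun _ => Nat → List Nat) (fun _ => []) (fun _ ih s => s :: ih (Nat.add s (nat_lit 2432))) n s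

theorem shA_mem {n e : ℕ} (h : e < n) (s : ℕ) : s + 2432 * e ∈ shA n s := by
  induction n generalizing e s with
  | zero => omega
  | succ n ih =>
    have hh : shA (n + 1) s = s :: shA n (s + 2432) := rfl
    rw [hh]
    cases e with
    | zero => exact List.mem_cons_self
    | succ e =>
      have := ih (e := e) (by omega) (s + 2432)
      rw [show s + 2432 * (e + 1) = s + 2432 + 2432 * e by ring]
      exact List.mem_cons_of_mem _ this

/-- the list of the positions contains all positions -/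
theorem ps_mem (D : ℕ) (v : Vt D) : ps D v ∈ shs (3 ^ D) := by
  obtain ⟨e, h1, h2⟩ := ps_eq D v
  have h3 := shA_mem h1 0
  rw [zero_add] at h3
  rw [h2]
  exact h3

theorem p3_slot' {D : ℕ} {f : Vt D → ℕ} (hf : ∀ v, f v < 2 ^ 2432) (x : ℕ) (v : Vt D) :
    ((p3 D f + Yn D * x) >>> ps D v) % 2 ^ 2432 = f v := by
  induction D generalizing x with
  | zero =>
    show ((f () + 2 ^ 2432 * x) >>> 0) % 2 ^ 2432 = f ()
    rw [Nat.shiftRight_zero, Nat.add_mul_mod_self_left, Nat.mod_eq_of_lt (hf ())]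
  | succ D ih =>
    obtain ⟨u, i⟩ := v
    have sh : ∀ a y : ℕ, a < Yn D → (a + Yn D * y) >>> (2432 * 3 ^ D) = y := by
      intro a y ha
      rw [Nat.shiftRight_eq_div_pow]
      show (a + Yn D * y) / Yn D = y
      rw [Nat.add_mul_div_left _ _ (Yn_pos D), Nat.div_eq_of_lt ha, zero_add]
    have h0 := p3_lt fun u => hf (u, 0)
    have h1 := p3_lt fun u => hf (u, 1)
    have e : p3 (D + 1) f + Yn (D + 1) * x = p3 D (fun u => f (u, 0)) + Yn D *
        (p3 D (fun u => f (u, 1)) + Yn D * (p3 D (fun u => f (u, 2)) + Yn D * x)) := by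
      rw [p3_succ, Yn_succ]
      ring
    rw [e]
    fin_cases i
    · show ((p3 D (fun u => f (u, 0)) + Yn D * _) >>> (ps D u + 0 * (2432 * 3 ^ D))) % 2 ^ 2432 =
        f (u, 0)
      rw [zero_mul, add_zero]
      exact ih (fun u => hf (u, 0)) _ u
    · show ((p3 D (fun u => f (u, 0)) + Yn D * _) >>> (ps D u + 1 * (2432 * 3 ^ D))) % 2 ^ 2432 =
        f (u, 1)
      rw [one_mul, Nat.add_comm (ps D u), Nat.shiftRight_add, sh _ _ h0]
      exact ih (fun u => hf (u, 1)) _ u
    · show ((p3 D (fun u => f (u, 0)) + Yn D * _) >>> (ps D u + 2 * (2432 * 3 ^ D))) % 2 ^ 2432 =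
        f (u, 2)
      rw [Nat.two_mul (2432 * 3 ^ D), Nat.add_comm (ps D u), Nat.shiftRight_add,
        Nat.shiftRight_add, sh _ _ h0, sh _ _ h1]
      exact ih (fun u => hf (u, 2)) _ u

/-- a slot -/
theorem p3_slot {D : ℕ} {f : Vt D → ℕ} (hf : ∀ v, f v < 2 ^ 2432) (v : Vt D) :
    (p3 D f >>> ps D v) % 2 ^ 2432 = f v := by
  have h := p3_slot' hf 0 v
  rw [mul_zero, add_zero] at h
  exact h

end Pool.Agent.Helper86.CK
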