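import Pool.Agent.Helper86.CK.K7A

/-!
Packed machine (MP_c75db0), row K7: the nine products with a tree of packed matrices.
-/

set_option autoImplicit false
set_option exponentiation.threshold 4000
noncomputable section
namespace Pool.Agent.Helper86.CK

open Pool.Agent.Helper86.C75 (Z)
open Pool.Agent.Helper86.CX
open Pool.Agent.Helper86.CT hiding K1 K2 K3 K4 y3
open Pool.Agent.Helper90.C75 (Vt)
open Pool.Agent.Helper90.KMO (zv cz)
open Pool.Agent.Helper17.KPT (lf3 sh3 ct ct_bi ct_un lz l1 l2 l3 l4 s1 s2 s3 s4)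
open Pool.Agent.Helper90.K9 (pk pz pk_zero pk_succ pz_succ pk_cast pk_congr pz_congr pk_add pz_add
  pz_sub pk_smul pz_smul pk_nest pz_nest pk_lt land_split land_pk)

/-- the nine numbers of a leaf -/
def c9P (x : P9) : Fin 9 → ℕ := ![x.a, x.b, x.c, x.d, x.e, x.f, x.g, x.h, x.i]
def c9B (P : PB) : Fin 9 → ℕ := ![P.a, P.b, P.c, P.d, P.e, P.f, P.g, P.h, P.i]

/-- nine packed numbers with leaves `g` (modulo `2 ^ 2304`) -/
structure PBR (D : ℕ) (P : PB) (g : Vt D → P9) : Prop where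
  ex : ∃ J : Fin 9 → Vt D → ℤ, (∀ k v, |J k v| ≤ 2 ^ 63) ∧
    (∀ k v, J k v ≡ c9P (g v) k [ZMOD 2 ^ 2304]) ∧
    ∀ k, c9B P k = p3 D (fun v => (J k v + 2 ^ 100).toNat)
  o : P.o = 2 ^ 100 * (SC D).on

/-- the tree of all leaves -/
def fl1 (g : Vt 1 → P9) : N3 P9 := N3.q (g ((), 0)) (g ((), 1)) (g ((), 2))
def fl2 (g : Vt 2 → P9) : N3 (N3 P9) :=
  N3.q (fl1 fun u => g (u, 0)) (fl1 fun u => g (u, 1)) (fl1 fun u => g (u, 2))
def fl3 (g : Vt 3 → P9) : N3 (N3 (N3 P9)) :=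
  N3.q (fl2 fun u => g (u, 0)) (fl2 fun u => g (u, 1)) (fl2 fun u => g (u, 2))
def fl4 (g : Vt 4 → P9) : N3 (N3 (N3 (N3 P9))) :=
  N3.q (fl3 fun u => g (u, 0)) (fl3 fun u => g (u, 1)) (fl3 fun u => g (u, 2))

/-! ### values of the products -/

def cV (V : VR) : Fin 9 → ℕ := ![V.a, V.b, V.c, V.d, V.e, V.f, V.g, V.h, V.i]

/-- value of nine products -/
def nv0 (J : Fin 9 → Vt 0 → ℤ) (V : VR) (u : Vt 0) : ℤ := ∑ k, J k u * (md (cV V k) : ℤ)

def nvS {D : ℕ} {β : Type} (sb : β → β → β) (nv : (Fin 9 → Vt D → ℤ) → β → Vt D → ℤ)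
    (J : Fin 9 → Vt (D + 1) → ℤ) (V : N3 β) (v : Vt (D + 1)) : ℤ :=
  match V with
  | .k V => nv (fun k u => J k (u, v.2)) V v.1
  | .q Va Vc Vb => if v.2 = 0 then 4 * nv (fun k u => J k (u, 0)) Va v.1
      else if v.2 = 1 then 4 * nv (fun k u => J k (u, 1)) Vc v.1 -
        nv (fun k u => J k (u, 2) - J k (u, 0)) (sb Vb Va) v.1
      else 4 * nv (fun k u => J k (u, 2)) Vb v.1

/-- laws of a level -/
structure LvL (D : ℕ) {α β γ : Type} (l : γ → Vt D → ℕ) (fl : (Vt D → P9) → α) (B : Bil α β γ)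
    (nv : (Fin 9 → Vt D → ℤ) → β → Vt D → ℤ) : Prop where
  mu : ∀ {J : Fin 9 → Vt D → ℤ} {g : Vt D → P9} (V : β), (∀ k u, J k u ≡ c9P (g u) k [ZMOD 2 ^ 2304]) →
    ∀ u, nv J V u ≡ l (B.mu (fl g) V) u [ZMOD 2 ^ 2304]
  sa : ∀ g g' : Vt D → P9, B.sa (fl g) (fl g') = fl (fun u => psub (g u) (g' u))
  sg : ∀ x y u, (l (B.sg x y) u : ℤ) ≡ l x u - l y u [ZMOD 2 ^ 2304]
  m4 : ∀ x u, l (B.m4 x) u = 4 * l x u
  bd : ∀ {J : Fin 9 → Vt D → ℤ} {β' : ℤ} (V : β), 0 ≤ β' → (∀ k u, |J k u| ≤ β') →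
    ∀ u, |nv J V u| ≤ 6 ^ D * (9 * 2 ^ 2304 * β')

theorem MM_eq : MM = 2 ^ 2304 := by decide +kernel

theorem NG_eq : NG = 2 ^ 2304 - 1 := by decide +kernel

theorem md_lt (x : ℕ) : md x < 2 ^ 2304 := by
  show x % MM < _
  rw [MM_eq]
  exact Nat.mod_lt _ (by positivity)

theorem md_cong (x : ℕ) : (md x : ℤ) ≡ x [ZMOD 2 ^ 2304] := by
  show ((x % MM : ℕ) : ℤ) ≡ x [ZMOD 2 ^ 2304]
  rw [MM_eq, Int.natCast_mod]
  push_cast
  exact Int.mod_modEq _ _

theorem NG_cong (x y : ℕ) : ((x + NG * y : ℕ) : ℤ) ≡ x - y [ZMOD 2 ^ 2304] := by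
  have h : ((NG : ℕ) : ℤ) = 2 ^ 2304 - 1 := by
    rw [NG_eq, Nat.cast_sub (Nat.one_le_two_pow)]
    push_cast
  rw [Nat.cast_add, Nat.cast_mul, h, Int.modEq_iff_dvd]
  exact ⟨-(y : ℤ), by ring⟩

theorem psub_cong (x y : P9) (k : Fin 9) : (c9P (psub x y) k : ℤ) ≡ c9P x k - c9P y k [ZMOD 2 ^ 2304] := by
  fin_cases k <;> exact NG_cong _ _

theorem sum9 {M : Type} [AddCommMonoid M] (f : Fin 9 → M) : ∑ k, f k =
    f 0 + f 1 + f 2 + f 3 + f 4 + f 5 + f 6 + f 7 + f 8 := by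
  simp only [Fin.sum_univ_succ, Fin.sum_univ_zero]
  simp only [add_zero, ← add_assoc]
  rfl

theorem dot_eq (P : P9) (V : VR) : dot P V = md (∑ k, c9P P k * cV V k) := by
  rw [sum9]
  rfl

theorem lv0 : LvL 0 (lz : ℕ → Vt 0 → ℕ) (fun g => g ()) B0 nv0 where
  mu := by
    intro J g V h u
    show nv0 J V u ≡ ((dot (g ()) V : ℕ) : ℤ) [ZMOD 2 ^ 2304]
    rw [dot_eq]
    refine Int.ModEq.trans ?_ (md_cong _).symm
    rw [Nat.cast_sum]
    unfold nv0
    refine Int.ModEq.sum fun k _ => ?_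
    rw [Nat.cast_mul]
    exact (h k u).mul (md_cong _)
  sa := fun _ _ => rfl
  sg := by
    intro x y u
    show ((md (x + NG * y) : ℕ) : ℤ) ≡ x - y [ZMOD 2 ^ 2304]
    exact (md_cong _).trans (NG_cong x y)
  m4 := fun _ _ => rfl
  bd := by
    intro J β' V hβ hJ u
    rw [pow_zero, one_mul]
    unfold nv0
    refine (Finset.abs_sum_le_sum_abs _ _).trans ?_
    have h : ∀ k ∈ Finset.univ, |J k u * (md (cV V k) : ℤ)| ≤ 2 ^ 2304 * β' := by
      intro k _
      rw [abs_mul, abs_of_nonneg (Int.natCast_nonneg (md (cV V k))), mul_comm]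
      have h1 : ((md (cV V k) : ℕ) : ℤ) ≤ 2 ^ 2304 := by exact_mod_cast (md_lt _).le
      exact mul_le_mul h1 (hJ k u) (abs_nonneg _) (by positivity)
    refine (Finset.sum_le_sum h).trans ?_
    rw [Finset.sum_const, Finset.card_univ, Fintype.card_fin, nsmul_eq_mul]
    apply le_of_eq
    push_cast
    ring

theorem LvL.step {D : ℕ} {α β γ : Type} {l : γ → Vt D → ℕ} {fl : (Vt D → P9) → α} {B : Bil α β γ}
    {nv : (Fin 9 → Vt D → ℤ) → β → Vt D → ℤ} (h : LvL D l fl B nv) :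
    LvL (D + 1) (lf3 l) (fun g => N3.q (fl fun u => g (u, 0)) (fl fun u => g (u, 1)) (fl fun u => g (u, 2)))
      (nxB B) (nvS B.sb nv) where
  mu := by
    intro J g V hJ v
    obtain ⟨u, i⟩ := v
    have hi : ∀ i, ∀ k u, J k (u, i) ≡ c9P (g (u, i)) k [ZMOD 2 ^ 2304] := fun i k u => hJ k (u, i)
    cases V with
    | k V =>
      have h0 := h.mu (J := fun k u => J k (u, i)) (g := fun u => g (u, i)) V (hi i) u
      have e : lf3 l ((nxB B).mu (N3.q (fl fun u => g (u, 0)) (fl fun u => g (u, 1))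
          (fl fun u => g (u, 2))) (N3.k V)) (u, i) = l (B.mu (fl fun u => g (u, i)) V) u := by
        fin_cases i <;> rfl
      rw [e]
      exact h0
    | q Va Vc Vb =>
      have four : ∀ {x : ℤ} {y : ℕ}, x ≡ y [ZMOD 2 ^ 2304] → 4 * x ≡ ((4 * y : ℕ) : ℤ) [ZMOD 2 ^ 2304] := by
        intro x y h
        rw [Nat.cast_mul]
        exact h.mul_left 4
      fin_cases i
      · show 4 * nv (fun k u => J k (u, 0)) Va u ≡
          ((l (B.m4 (B.mu (fl fun u => g (u, 0)) Va)) u : ℕ) : ℤ) [ZMOD 2 ^ 2304]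
        rw [h.m4]
        exact four (h.mu Va (hi 0) u)
      · show 4 * nv (fun k u => J k (u, 1)) Vc u -
            nv (fun k u => J k (u, 2) - J k (u, 0)) (B.sb Vb Va) u ≡
          ((l (B.sg (B.m4 (B.mu (fl fun u => g (u, 1)) Vc))
            (B.mu (B.sa (fl fun u => g (u, 2)) (fl fun u => g (u, 0))) (B.sb Vb Va))) u : ℕ) : ℤ)
            [ZMOD 2 ^ 2304]
        refine Int.ModEq.trans ?_ (h.sg _ _ u).symm
        rw [h.m4, h.sa]
        refine (four (h.mu Vc (hi 1) u)).sub (h.mu _ (fun k u => ?_) u)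
        exact ((hi 2 k u).sub (hi 0 k u)).trans (psub_cong _ _ k).symm
      · show 4 * nv (fun k u => J k (u, 2)) Vb u ≡
          ((l (B.m4 (B.mu (fl fun u => g (u, 2)) Vb)) u : ℕ) : ℤ) [ZMOD 2 ^ 2304]
        rw [h.m4]
        exact four (h.mu Vb (hi 2) u)
  sa := by
    intro g g'
    show N3.q (B.sa (fl fun u => g (u, 0)) (fl fun u => g' (u, 0)))
      (B.sa (fl fun u => g (u, 1)) (fl fun u => g' (u, 1)))
      (B.sa (fl fun u => g (u, 2)) (fl fun u => g' (u, 2))) = _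
    rw [h.sa, h.sa, h.sa]
  sg := by
    intro x y v
    show ((l (ct (bi B.sg x y) v.2) v.1 : ℕ) : ℤ) ≡ l (ct x v.2) v.1 - l (ct y v.2) v.1 [ZMOD 2 ^ 2304]
    rw [ct_bi]
    exact h.sg _ _ _
  m4 := by
    intro x v
    show l (ct (un B.m4 x) v.2) v.1 = 4 * l (ct x v.2) v.1
    rw [ct_un]
    exact h.m4 _ _
  bd := by
    intro J β' V hβ hJ v
    obtain ⟨u, i⟩ := v
    have hi : ∀ i, ∀ k u, |J k (u, i)| ≤ β' := fun i k u => hJ k (u, i)
    have hd : ∀ k u, |J k (u, 2) - J k (u, 0)| ≤ 2 * β' := fun k u =>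
      (abs_sub _ _).trans (by have := hJ k (u, 2); have := hJ k (u, 0); linarith)
    have hb0 : 0 ≤ 6 ^ D * (9 * 2 ^ 2304 * β') := by positivity
    have e6 : (6 : ℤ) ^ (D + 1) * (9 * 2 ^ 2304 * β') = 6 * (6 ^ D * (9 * 2 ^ 2304 * β')) := by
      rw [pow_succ]; ring
    have e2 : (6 : ℤ) ^ D * (9 * 2 ^ 2304 * (2 * β')) = 2 * (6 ^ D * (9 * 2 ^ 2304 * β')) := by ring
    rw [e6]
    cases V with
    | k V =>
      have h0 := h.bd (J := fun k u => J k (u, i)) V hβ (hi i) u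
      show |nv (fun k u => J k (u, i)) V u| ≤ _
      linarith
    | q Va Vc Vb =>
      have f4 : ∀ {x : ℤ}, |x| ≤ 6 ^ D * (9 * 2 ^ 2304 * β') →
          |4 * x| ≤ 4 * (6 ^ D * (9 * 2 ^ 2304 * β')) := by
        intro x hx
        rw [abs_mul, abs_of_nonneg (by norm_num : (0 : ℤ) ≤ 4)]
        exact mul_le_mul_of_nonneg_left hx (by norm_num)
      fin_cases i
      · show |4 * nv (fun k u => J k (u, 0)) Va u| ≤ _
        have := f4 (h.bd Va hβ (hi 0) u)
        linarith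
      · show |4 * nv (fun k u => J k (u, 1)) Vc u -
            nv (fun k u => J k (u, 2) - J k (u, 0)) (B.sb Vb Va) u| ≤ _
        have h1 := f4 (h.bd Vc hβ (hi 1) u)
        have h2 := h.bd (J := fun k u => J k (u, 2) - J k (u, 0)) (B.sb Vb Va)
          (by linarith : 0 ≤ 2 * β') hd u
        rw [e2] at h2
        exact (abs_sub _ _).trans (by linarith)
      · show |4 * nv (fun k u => J k (u, 2)) Vb u| ≤ _
        have := f4 (h.bd Vb hβ (hi 2) u)
        linarith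

/-! ### the kernel function on blocks -/

/-- some index -/
def Vt.default' : (D : ℕ) → Vt D
  | 0 => ()
  | D + 1 => (Vt.default' D, 0)

/-- digits of a block -/
def bl (D : ℕ) (act : ℕ → Bool) (J : ℕ → Vt D → ℤ) (i : ℕ) : ℕ :=
  if act i = true then p3 D (fun v => (J i v + 2 ^ 100).toNat) else 0
def bo (D : ℕ) (act : ℕ → Bool) (i : ℕ) : ℕ :=
  if act i = true then p3 D (fun _ => 2 ^ 100) else 0

/-- `n` blocks, the active ones contain nine packed numbers -/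
structure PBN (D n : ℕ) (P : PB) (act : ℕ → Bool) (J : Fin 9 → ℕ → Vt D → ℤ) : Prop where
  c : ∀ k, c9B P k = pk (Yn D) n (bl D act (J k))
  o : P.o = pk (Yn D) n (bo D act)

/-- `Σ Y ^ i` -/
def one (D n : ℕ) : ℕ := pk (Yn D) n (fun _ => 1)

structure MuN {v : Type} (D : ℕ) (M : Mu v) (nv : (Fin 9 → Vt D → ℤ) → v → Vt D → ℤ) : Prop where
  ex : ∀ {n : ℕ} {P : PB} {act : ℕ → Bool} {J : Fin 9 → ℕ → Vt D → ℤ} {β : ℤ} (V : v),
    PBN D n P act J → 0 ≤ β → β * 2 ^ D ≤ 2 ^ 99 → (∀ k i u, |J k i u| ≤ β) →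
    ((M.f (mpS (one D n) (SC D).ds) P V).p : ℤ) - (M.f (mpS (one D n) (SC D).ds) P V).n =
      pz (Yn D) n (fun i => if act i = true then y3 D (nv (fun k => J k i) V) else 0)

theorem toNat_off {x β : ℤ} (h : |x| ≤ β) (hβ : β ≤ 2 ^ 99) :
    (((x + 2 ^ 100).toNat : ℕ) : ℤ) = x + 2 ^ 100 ∧ (x + 2 ^ 100).toNat < 2 ^ 2432 := by
  have h1 := abs_le.mp (h.trans hβ)
  have e : (2 : ℤ) ^ 100 = 2 * 2 ^ 99 := by norm_num
  have h0 : (0 : ℤ) ≤ x + 2 ^ 100 := by
    have : (0 : ℤ) < 2 ^ 99 := by positivity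
    linarith
  refine ⟨Int.toNat_of_nonneg h0, ?_⟩
  have h2 : (((x + 2 ^ 100).toNat : ℕ) : ℤ) < ((2 ^ 101 : ℕ) : ℤ) := by
    rw [Int.toNat_of_nonneg h0]
    have : ((2 ^ 101 : ℕ) : ℤ) = 4 * 2 ^ 99 := by norm_num
    rw [this, e]
    have : (0 : ℤ) < 2 ^ 99 := by positivity
    linarith
  have h3 : (x + 2 ^ 100).toNat < 2 ^ 101 := by exact_mod_cast h2
  exact h3.trans_le (Nat.pow_le_pow_right (by norm_num) (by norm_num))

theorem sum_sub_mul (a b : Fin 9 → ℤ) (o : ℤ) :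
    (∑ k, a k * b k) - o * ∑ k, b k = ∑ k, (a k - o) * b k := by
  rw [Finset.mul_sum, ← Finset.sum_sub_distrib]
  exact Finset.sum_congr rfl fun k _ => by ring

theorem mu0_p (P : PB) (V : VR) : ((mu0 P V).p : ℤ) = ∑ k, (c9B P k : ℤ) * (md (cV V k) : ℤ) := by
  rw [sum9]
  show ((P.a * md V.a + P.b * md V.b + P.c * md V.c + P.d * md V.d + P.e * md V.e + P.f * md V.f +
    P.g * md V.g + P.h * md V.h + P.i * md V.i : ℕ) : ℤ) = _
  push_cast
  rfl

theorem mu0_n (P : PB) (V : VR) : ((mu0 P V).n : ℤ) = (P.o : ℤ) * ∑ k, (md (cV V k) : ℤ) := by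
  rw [sum9]
  show ((P.o * (md V.a + md V.b + md V.c + md V.d + md V.e + md V.f + md V.g + md V.h + md V.i) : ℕ)
    : ℤ) = _
  push_cast
  rfl

theorem pz_sumk (b : ℤ) (n : ℕ) (f : Fin 9 → ℕ → ℤ) :
    ∑ k, pz b n (f k) = pz b n (fun i => ∑ k, f k i) := by
  rw [sum9, pz_add, pz_add, pz_add, pz_add, pz_add, pz_add, pz_add, pz_add]
  exact pz_congr _ _ _ _ fun i _ => (sum9 fun k => f k i).symm

theorem mun0 : MuN 0 Mu0 nv0 where
  ex := by
    intro n P act J β V hP hβ hβ' hJ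
    show ((mu0 P V).p : ℤ) - (mu0 P V).n = _
    have hb99 : β ≤ 2 ^ 99 := by rw [pow_zero, mul_one] at hβ'; exact hβ'
    rw [mu0_p, mu0_n, sum_sub_mul]
    have h1 : ∀ k, ((c9B P k : ℤ) - (P.o : ℤ)) * (md (cV V k) : ℤ) =
        pz (Yn 0) n (fun i => if act i = true then J k i () * (md (cV V k) : ℤ) else 0) := by
      intro k
      rw [hP.c k, hP.o, pk_cast, pk_cast, pz_sub, mul_comm, pz_smul]
      refine pz_congr _ _ _ _ fun i _ => ?_
      unfold bl bo
      by_cases h : act i = true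
      · rw [if_pos h, if_pos h, if_pos h]
        show (md (cV V k) : ℤ) * ((((J k i () + 2 ^ 100).toNat : ℕ) : ℤ) - ((2 ^ 100 : ℕ) : ℤ)) = _
        rw [(toNat_off (hJ k i ()) hb99).1]
        push_cast
        ring
      · rw [if_neg h, if_neg h, if_neg h]
        push_cast
        ring
    rw [Finset.sum_congr rfl fun k _ => h1 k, pz_sumk]
    refine pz_congr _ _ _ _ fun i _ => ?_
    by_cases h : act i = true
    · simp only [if_pos h]
      rfl
    · simp only [if_neg h, Finset.sum_const_zero]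

/-! #### the step -/

/-- the index of the outer direction -/
def fi (m : ℕ) : Fin 3 := ⟨m % 3, Nat.mod_lt _ (by norm_num)⟩

theorem c9_lnP (m : ℕ) (P : PB) (k : Fin 9) : c9B (lnP m P) k = c9B P k &&& m := by
  fin_cases k <;> rfl
theorem c9_dfP (d : SD) (P : PB) (k : Fin 9) : c9B (dfP d P) k = dfp d P.o (c9B P k) := by
  fin_cases k <;> rfl

/-- digits with one index selected -/
def ai (act : ℕ → Bool) (j m : ℕ) : Bool := act (m / 3) && decide (m % 3 = j)

theorem ai_eq {act : ℕ → Bool} {j i r : ℕ} (hr : r < 3) : ai act j (3 * i + r) = (act i && decide (r = j)) := by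
  unfold ai
  have h1 : (3 * i + r) / 3 = i := by omega
  have h2 : (3 * i + r) % 3 = r := by omega
  rw [h1, h2]

theorem bl_lt {D : ℕ} {act : ℕ → Bool} {J : ℕ → Vt D → ℤ} {β : ℤ} (hβ : β ≤ 2 ^ 99)
    (hJ : ∀ i u, |J i u| ≤ β) (i : ℕ) : bl D act J i < 2 ^ (2432 * 3 ^ D) := by
  unfold bl
  split_ifs
  · exact p3_lt fun v => (toNat_off (hJ i v) hβ).2
  · positivity

theorem bo_lt {D : ℕ} {act : ℕ → Bool} (i : ℕ) : bo D act i < 2 ^ (2432 * 3 ^ D) := by
  unfold bo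
  split_ifs
  · exact p3_lt fun v => Nat.pow_lt_pow_right (by norm_num) (by norm_num)
  · positivity

theorem bl_succ (D : ℕ) (act : ℕ → Bool) (J : ℕ → Vt (D + 1) → ℤ) (i : ℕ) :
    bl (D + 1) act J i = bl D act (fun i u => J i (u, 0)) i + Yn D *
      (bl D act (fun i u => J i (u, 1)) i + Yn D * bl D act (fun i u => J i (u, 2)) i) := by
  unfold bl
  by_cases h : act i = true
  · rw [if_pos h, if_pos h, if_pos h, if_pos h]; rfl
  · rw [if_neg h, if_neg h, if_neg h, if_neg h, Nat.mul_zero, Nat.add_zero, Nat.mul_zero]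

theorem bo_succ (D : ℕ) (act : ℕ → Bool) (i : ℕ) :
    bo (D + 1) act i = bo D act i + Yn D * (bo D act i + Yn D * bo D act i) := by
  unfold bo
  by_cases h : act i = true
  · rw [if_pos h, if_pos h]; rfl
  · rw [if_neg h, if_neg h, Nat.mul_zero, Nat.add_zero, Nat.mul_zero]

/-- a function on the blocks with one index -/
theorem flat_eq {A : Type} [Zero A] (act : ℕ → Bool) (X : ℕ → A) (i j : ℕ) (hj : j < 3) :
    (if ai act j (3 * i + j) = true then X ((3 * i + j) / 3) else 0) =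
      if act i = true then X i else 0 := by
  rw [ai_eq hj]
  have h1 : (3 * i + j) / 3 = i := by omega
  rw [h1]
  by_cases h2 : act i = true
  · rw [if_pos h2, if_pos (by rw [h2, decide_eq_true rfl]; rfl)]
  · rw [if_neg h2, if_neg (by rw [Bool.and_eq_true]; exact fun h3 => h2 h3.1)]

theorem flat_ne {A : Type} [Zero A] (act : ℕ → Bool) (X : ℕ → A) {r j : ℕ} (h : r ≠ j) (i : ℕ)
    (hr : r < 3) : (if ai act j (3 * i + r) = true then X ((3 * i + r) / 3) else 0) = 0 := by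
  rw [ai_eq hr, if_neg (by rw [Bool.and_eq_true, decide_eq_true_eq]; exact fun h3 => h h3.2)]

section flat
variable (Y n : ℕ) (act : ℕ → Bool) (X : ℕ → ℕ)

theorem flat0 : pk Y (3 * n) (fun m => if ai act 0 m = true then X (m / 3) else 0) =
    pk (Y ^ 3) n (fun i => if act i = true then X i else 0) := by
  rw [flatN]
  refine pk_congr _ _ _ _ fun i _ => ?_
  have h0 := flat_eq act X i 0 (by norm_num)
  have h1 := flat_ne act X (show 1 ≠ 0 by norm_num) i (by norm_num)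
  have h2 := flat_ne act X (show 2 ≠ 0 by norm_num) i (by norm_num)
  rw [Nat.add_zero] at h0
  rw [h0, h1, h2, Nat.mul_zero, Nat.add_zero, Nat.mul_zero, Nat.add_zero]

theorem flat1 : pk Y (3 * n) (fun m => if ai act 1 m = true then X (m / 3) else 0) =
    Y * pk (Y ^ 3) n (fun i => if act i = true then X i else 0) := by
  rw [flatN, pk_smul]
  refine pk_congr _ _ _ _ fun i _ => ?_
  have h0 := flat_ne act X (show 0 ≠ 1 by norm_num) i (by norm_num)
  have h1 := flat_eq act X i 1 (by norm_num)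
  have h2 := flat_ne act X (show 2 ≠ 1 by norm_num) i (by norm_num)
  rw [Nat.add_zero] at h0
  rw [h0, h1, h2, Nat.mul_zero, Nat.add_zero, Nat.zero_add]

theorem flat2 : pk Y (3 * n) (fun m => if ai act 2 m = true then X (m / 3) else 0) =
    Y * (Y * pk (Y ^ 3) n (fun i => if act i = true then X i else 0)) := by
  rw [flatN, pk_smul, pk_smul]
  refine pk_congr _ _ _ _ fun i _ => ?_
  have h0 := flat_ne act X (show 0 ≠ 2 by norm_num) i (by norm_num)
  have h1 := flat_ne act X (show 1 ≠ 2 by norm_num) i (by norm_num)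
  have h2 := flat_eq act X i 2 (by norm_num)
  rw [Nat.add_zero] at h0
  rw [h0, h1, h2, Nat.zero_add, Nat.zero_add]

end flat

section flatz
variable (Y : ℤ) (n : ℕ) (act : ℕ → Bool) (X : ℕ → ℤ)

theorem flatz0 : pz Y (3 * n) (fun m => if ai act 0 m = true then X (m / 3) else 0) =
    pz (Y ^ 3) n (fun i => if act i = true then X i else 0) := by
  rw [flatZ]
  refine pz_congr _ _ _ _ fun i _ => ?_
  have h0 := flat_eq act X i 0 (by norm_num)
  have h1 := flat_ne act X (show 1 ≠ 0 by norm_num) i (by norm_num)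
  have h2 := flat_ne act X (show 2 ≠ 0 by norm_num) i (by norm_num)
  rw [Nat.add_zero] at h0
  rw [h0, h1, h2, mul_zero, add_zero, mul_zero, add_zero]

theorem flatz1 : pz Y (3 * n) (fun m => if ai act 1 m = true then X (m / 3) else 0) =
    Y * pz (Y ^ 3) n (fun i => if act i = true then X i else 0) := by
  rw [flatZ, pz_smul]
  refine pz_congr _ _ _ _ fun i _ => ?_
  have h0 := flat_ne act X (show 0 ≠ 1 by norm_num) i (by norm_num)
  have h1 := flat_eq act X i 1 (by norm_num)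
  have h2 := flat_ne act X (show 2 ≠ 1 by norm_num) i (by norm_num)
  rw [Nat.add_zero] at h0
  rw [h0, h1, h2, mul_zero, add_zero, zero_add]

theorem flatz2 : pz Y (3 * n) (fun m => if ai act 2 m = true then X (m / 3) else 0) =
    Y * (Y * pz (Y ^ 3) n (fun i => if act i = true then X i else 0)) := by
  rw [flatZ, pz_smul, pz_smul]
  refine pz_congr _ _ _ _ fun i _ => ?_
  have h0 := flat_ne act X (show 0 ≠ 2 by norm_num) i (by norm_num)
  have h1 := flat_ne act X (show 1 ≠ 2 by norm_num) i (by norm_num)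
  have h2 := flat_eq act X i 2 (by norm_num)
  rw [Nat.add_zero] at h0
  rw [h0, h1, h2, zero_add, zero_add]

end flatz

theorem one_three (D n : ℕ) : one (D + 1) n * f3 (Yn D) = one D (3 * n) := by
  unfold one
  rw [flatN, Yn_pow, Nat.mul_comm, pk_smul]
  refine pk_congr _ _ _ _ fun _ _ => ?_
  show (1 + Yn D * (1 + Yn D)) * 1 = _
  ring

theorem Yn_def (D : ℕ) : Yn D = 2 ^ (2432 * 3 ^ D) := rfl

theorem bl_sel_a {D n : ℕ} {act : ℕ → Bool} {K : ℕ → Vt (D + 1) → ℤ} {β : ℤ}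
    (hβ : β ≤ 2 ^ 99) (hK : ∀ i u, |K i u| ≤ β) :
    pk (Yn (D + 1)) n (bl (D + 1) act K) &&& (one (D + 1) n * (Yn D - 1)) =
      pk (Yn (D + 1)) n (bl D act (fun i u => K i (u, 0))) := by
  have h := selA (w := 2432 * 3 ^ D) (n := n) (x := bl D act (fun i u => K i (u, 0)))
    (y := bl D act (fun i u => K i (u, 1))) (z := bl D act (fun i u => K i (u, 2)))
    (fun i _ => bl_lt hβ (fun i u => hK i (u, 0)) i)
    (fun i _ => bl_lt hβ (fun i u => hK i (u, 1)) i) (fun i _ => bl_lt hβ (fun i u => hK i (u, 2)) i)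
  rw [← Yn_def, ← Yn_pow] at h
  rw [pk_congr _ _ _ _ (fun i _ => bl_succ D act K i)]
  exact h

theorem bl_sel_c {D n : ℕ} {act : ℕ → Bool} {K : ℕ → Vt (D + 1) → ℤ} {β : ℤ}
    (hβ : β ≤ 2 ^ 99) (hK : ∀ i u, |K i u| ≤ β) :
    pk (Yn (D + 1)) n (bl (D + 1) act K) &&& (one (D + 1) n * (Yn D * (Yn D - 1))) =
      Yn D * pk (Yn (D + 1)) n (bl D act (fun i u => K i (u, 1))) := by
  have h := selC (w := 2432 * 3 ^ D) (n := n) (x := bl D act (fun i u => K i (u, 0)))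
    (y := bl D act (fun i u => K i (u, 1))) (z := bl D act (fun i u => K i (u, 2)))
    (fun i _ => bl_lt hβ (fun i u => hK i (u, 0)) i)
    (fun i _ => bl_lt hβ (fun i u => hK i (u, 1)) i) (fun i _ => bl_lt hβ (fun i u => hK i (u, 2)) i)
  rw [← Yn_def, ← Yn_pow] at h
  rw [pk_congr _ _ _ _ (fun i _ => bl_succ D act K i)]
  exact h

theorem bl_sel_b {D n : ℕ} {act : ℕ → Bool} {K : ℕ → Vt (D + 1) → ℤ} {β : ℤ}
    (hβ : β ≤ 2 ^ 99) (hK : ∀ i u, |K i u| ≤ β) :
    pk (Yn (D + 1)) n (bl (D + 1) act K) &&& (one (D + 1) n * ((Yn D * Yn D) * (Yn D - 1))) =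
      Yn D * (Yn D * pk (Yn (D + 1)) n (bl D act (fun i u => K i (u, 2)))) := by
  have h := selB (w := 2432 * 3 ^ D) (n := n) (x := bl D act (fun i u => K i (u, 0)))
    (y := bl D act (fun i u => K i (u, 1))) (z := bl D act (fun i u => K i (u, 2)))
    (fun i _ => bl_lt hβ (fun i u => hK i (u, 0)) i)
    (fun i _ => bl_lt hβ (fun i u => hK i (u, 1)) i) (fun i _ => bl_lt hβ (fun i u => hK i (u, 2)) i)
  rw [← Yn_def, ← Yn_pow] at h
  rw [pk_congr _ _ _ _ (fun i _ => bl_succ D act K i)]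
  exact h

theorem bo_sel_a {D n : ℕ} {act : ℕ → Bool} :
    pk (Yn (D + 1)) n (bo (D + 1) act) &&& (one (D + 1) n * (Yn D - 1)) =
      pk (Yn (D + 1)) n (bo D act) := by
  have h := selA (w := 2432 * 3 ^ D) (n := n) (x := bo D act) (y := bo D act) (z := bo D act)
    (fun i _ => bo_lt i) (fun i _ => bo_lt i) (fun i _ => bo_lt i)
  rw [← Yn_def, ← Yn_pow] at h
  rw [pk_congr _ _ _ _ (fun i _ => bo_succ D act i)]
  exact h

theorem bo_sel_c {D n : ℕ} {act : ℕ → Bool} :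
    pk (Yn (D + 1)) n (bo (D + 1) act) &&& (one (D + 1) n * (Yn D * (Yn D - 1))) =
      Yn D * pk (Yn (D + 1)) n (bo D act) := by
  have h := selC (w := 2432 * 3 ^ D) (n := n) (x := bo D act) (y := bo D act) (z := bo D act)
    (fun i _ => bo_lt i) (fun i _ => bo_lt i) (fun i _ => bo_lt i)
  rw [← Yn_def, ← Yn_pow] at h
  rw [pk_congr _ _ _ _ (fun i _ => bo_succ D act i)]
  exact h

theorem bo_sel_b {D n : ℕ} {act : ℕ → Bool} :
    pk (Yn (D + 1)) n (bo (D + 1) act) &&& (one (D + 1) n * ((Yn D * Yn D) * (Yn D - 1))) =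
      Yn D * (Yn D * pk (Yn (D + 1)) n (bo D act)) := by
  have h := selB (w := 2432 * 3 ^ D) (n := n) (x := bo D act) (y := bo D act) (z := bo D act)
    (fun i _ => bo_lt i) (fun i _ => bo_lt i) (fun i _ => bo_lt i)
  rw [← Yn_def, ← Yn_pow] at h
  rw [pk_congr _ _ _ _ (fun i _ => bo_succ D act i)]
  exact h

theorem lnP_a {D n : ℕ} {P : PB} {act : ℕ → Bool} {J : Fin 9 → ℕ → Vt (D + 1) → ℤ} {β : ℤ}
    (hP : PBN (D + 1) n P act J) (hβ : β ≤ 2 ^ 99) (hJ : ∀ k i u, |J k i u| ≤ β) :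
    PBN D (3 * n) (lnP (one (D + 1) n * (Yn D - 1)) P) (ai act 0)
      (fun k m u => J k (m / 3) (u, 0)) where
  c := by
    intro k
    rw [c9_lnP, hP.c k, bl_sel_a hβ (hJ k), Yn_pow]
    exact (flat0 (Yn D) n act (fun i => p3 D (fun v => (J k i (v, 0) + 2 ^ 100).toNat))).symm
  o := by
    show P.o &&& _ = _
    rw [hP.o, bo_sel_a, Yn_pow]
    exact (flat0 (Yn D) n act (fun _ => p3 D (fun _ => 2 ^ 100))).symm

theorem lnP_c {D n : ℕ} {P : PB} {act : ℕ → Bool} {J : Fin 9 → ℕ → Vt (D + 1) → ℤ} {β : ℤ}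
    (hP : PBN (D + 1) n P act J) (hβ : β ≤ 2 ^ 99) (hJ : ∀ k i u, |J k i u| ≤ β) :
    PBN D (3 * n) (lnP (one (D + 1) n * (Yn D * (Yn D - 1))) P) (ai act 1)
      (fun k m u => J k (m / 3) (u, 1)) where
  c := by
    intro k
    rw [c9_lnP, hP.c k, bl_sel_c hβ (hJ k), Yn_pow]
    exact (flat1 (Yn D) n act (fun i => p3 D (fun v => (J k i (v, 1) + 2 ^ 100).toNat))).symm
  o := by
    show P.o &&& _ = _
    rw [hP.o, bo_sel_c, Yn_pow]
    exact (flat1 (Yn D) n act (fun _ => p3 D (fun _ => 2 ^ 100))).symm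

theorem lnP_b {D n : ℕ} {P : PB} {act : ℕ → Bool} {J : Fin 9 → ℕ → Vt (D + 1) → ℤ} {β : ℤ}
    (hP : PBN (D + 1) n P act J) (hβ : β ≤ 2 ^ 99) (hJ : ∀ k i u, |J k i u| ≤ β) :
    PBN D (3 * n) (lnP (one (D + 1) n * ((Yn D * Yn D) * (Yn D - 1))) P) (ai act 2)
      (fun k m u => J k (m / 3) (u, 2)) where
  c := by
    intro k
    rw [c9_lnP, hP.c k, bl_sel_b hβ (hJ k), Yn_pow]
    exact (flat2 (Yn D) n act (fun i => p3 D (fun v => (J k i (v, 2) + 2 ^ 100).toNat))).symm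
  o := by
    show P.o &&& _ = _
    rw [hP.o, bo_sel_b, Yn_pow]
    exact (flat2 (Yn D) n act (fun _ => p3 D (fun _ => 2 ^ 100))).symm

/-- the difference `b - a` in the middle blocks -/
theorem bl_diff {D n : ℕ} {act : ℕ → Bool} {K : ℕ → Vt (D + 1) → ℤ} {β : ℤ} (hβ : β * 2 ≤ 2 ^ 99)
    (hK : ∀ i u, |K i u| ≤ β) :
    pk (Yn (D + 1)) n (bl D act (fun i u => K i (u, 2))) + pk (Yn (D + 1)) n (bo D act) -
      pk (Yn (D + 1)) n (bl D act (fun i u => K i (u, 0))) =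
      pk (Yn (D + 1)) n (bl D act (fun i u => K i (u, 2) - K i (u, 0))) := by
  have hβ0 : 0 ≤ β := (abs_nonneg _).trans (hK 0 (Vt.default' (D + 1)))
  have h : pk (Yn (D + 1)) n (bl D act (fun i u => K i (u, 2))) + pk (Yn (D + 1)) n (bo D act) =
      pk (Yn (D + 1)) n (bl D act (fun i u => K i (u, 2) - K i (u, 0))) +
      pk (Yn (D + 1)) n (bl D act (fun i u => K i (u, 0))) := by
    rw [pk_add, pk_add]
    refine pk_congr _ _ _ _ fun i _ => ?_
    unfold bl bo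
    by_cases h : act i = true
    · rw [if_pos h, if_pos h, if_pos h, if_pos h, ← p3_add, ← p3_add]
      congr 1
      funext v
      have h2 := (toNat_off (hK i (v, 2)) (by linarith)).1
      have h0 := (toNat_off (hK i (v, 0)) (by linarith)).1
      have h3 := (toNat_off (x := K i (v, 2) - K i (v, 0)) (β := β * 2)
        ((abs_sub _ _).trans (by have := hK i (v, 2); have := hK i (v, 0); linarith)) hβ).1
      zify
      rw [h2, h0, h3]
      ring
    · rw [if_neg h, if_neg h, if_neg h, if_neg h]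
  rw [h, Nat.add_sub_cancel]

theorem shr_mul (Y x : ℕ) (hY : 0 < Y) {w : ℕ} (hw : Y = 2 ^ w) : (Y * (Y * x)) >>> w = Y * x := by
  rw [Nat.shiftRight_eq_div_pow, ← hw, Nat.mul_div_cancel_left _ hY]

theorem dfP_ok {D n w : ℕ} {P : PB} {act : ℕ → Bool} {J : Fin 9 → ℕ → Vt (D + 1) → ℤ} {β : ℤ}
    (hw : w = 2432 * 3 ^ D) (hP : PBN (D + 1) n P act J) (hβ : β * 2 ≤ 2 ^ 99)
    (hJ : ∀ k i u, |J k i u| ≤ β) :
    PBN D (3 * n) (dfP ⟨w, one (D + 1) n * (Yn D - 1), one (D + 1) n * (Yn D * (Yn D - 1)),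
      one (D + 1) n * ((Yn D * Yn D) * (Yn D - 1))⟩ P) (ai act 1)
      (fun k m u => J k (m / 3) (u, 2) - J k (m / 3) (u, 0)) := by
  have hβ0 : 0 ≤ β := (abs_nonneg _).trans (hJ 0 0 (Vt.default' (D + 1)))
  have hβ' : β ≤ 2 ^ 99 := by linarith
  constructor
  · intro k
    rw [c9_dfP]
    show ((c9B P k &&& (one (D + 1) n * ((Yn D * Yn D) * (Yn D - 1)))) >>> w +
      (P.o &&& (one (D + 1) n * (Yn D * (Yn D - 1))))) -
      (c9B P k &&& (one (D + 1) n * (Yn D - 1))) <<< w = _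
    rw [hP.c k, hP.o, bl_sel_a hβ' (hJ k), bl_sel_b hβ' (hJ k), bo_sel_c,
      shr_mul (Yn D) _ (Yn_pos D) (by rw [hw]; rfl), Nat.shiftLeft_eq,
      show (2 : ℕ) ^ w = Yn D by rw [hw]; rfl, Nat.mul_comm _ (Yn D), ← Nat.mul_add, ← Nat.mul_sub,
      bl_diff hβ (hJ k), Yn_pow]
    exact (flat1 (Yn D) n act (fun i => p3 D (fun v =>
      (J k i (v, 2) - J k i (v, 0) + 2 ^ 100).toNat))).symm
  · show P.o &&& (one (D + 1) n * (Yn D * (Yn D - 1))) = _
    rw [hP.o, bo_sel_c, Yn_pow]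
    exact (flat1 (Yn D) n act (fun _ => p3 D (fun _ => 2 ^ 100))).symm

theorem bl_slot (D : ℕ) (act : ℕ → Bool) (K : ℕ → Vt (D + 1) → ℤ) {m i : ℕ} {j : Fin 3}
    (e : m / 3 = i) (f : fi m = j) :
    bl D (fun m => act (m / 3)) (fun m u => K (m / 3) (u, fi m)) m =
      bl D act (fun i u => K i (u, j)) i := by
  show (if act (m / 3) = true then p3 D (fun v => (K (m / 3) (v, fi m) + 2 ^ 100).toNat) else 0) = _
  rw [e, f]
  rfl

theorem bo_slot (D : ℕ) (act : ℕ → Bool) {m i : ℕ} (e : m / 3 = i) :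
    bo D (fun m => act (m / 3)) m = bo D act i := by
  show (if act (m / 3) = true then p3 D (fun _ => 2 ^ 100) else 0) = _
  rw [e]
  rfl

/-- all blocks -/
theorem PBN.all {D n : ℕ} {P : PB} {act : ℕ → Bool} {J : Fin 9 → ℕ → Vt (D + 1) → ℤ}
    (hP : PBN (D + 1) n P act J) :
    PBN D (3 * n) P (fun m => act (m / 3)) (fun k m u => J k (m / 3) (u, fi m)) := by
  have e0 : ∀ i, 3 * i / 3 = i := fun i => by omega
  have e1 : ∀ i, (3 * i + 1) / 3 = i := fun i => by omega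
  have e2 : ∀ i, (3 * i + 2) / 3 = i := fun i => by omega
  have f0 : ∀ i, fi (3 * i) = 0 := fun i => Fin.ext (by show 3 * i % 3 = 0; omega)
  have f1 : ∀ i, fi (3 * i + 1) = 1 := fun i => Fin.ext (by show (3 * i + 1) % 3 = 1; omega)
  have f2 : ∀ i, fi (3 * i + 2) = 2 := fun i => Fin.ext (by show (3 * i + 2) % 3 = 2; omega)
  constructor
  · intro k
    rw [hP.c k, flatN, Yn_pow]
    refine pk_congr _ _ _ _ fun i _ => ?_
    rw [bl_succ]
    show _ = bl D (fun m => act (m / 3)) (fun m u => J k (m / 3) (u, fi m)) (3 * i) + Yn D *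
      (bl D (fun m => act (m / 3)) (fun m u => J k (m / 3) (u, fi m)) (3 * i + 1) + Yn D *
        bl D (fun m => act (m / 3)) (fun m u => J k (m / 3) (u, fi m)) (3 * i + 2))
    rw [bl_slot D act (J k) (e0 i) (f0 i), bl_slot D act (J k) (e1 i) (f1 i),
      bl_slot D act (J k) (e2 i) (f2 i)]
  · rw [hP.o, flatN, Yn_pow]
    refine pk_congr _ _ _ _ fun i _ => ?_
    rw [bo_succ, bo_slot D act (e0 i), bo_slot D act (e1 i), bo_slot D act (e2 i)]

/-- THE STEP -/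
theorem MuN.step {D : ℕ} {v : Type} {M : Mu v} {nv : (Fin 9 → Vt D → ℤ) → v → Vt D → ℤ}
    (h : MuN D M nv) : MuN (D + 1) (nxMu M) (nvS M.s nv) where
  ex := by
    intro n P act J β V hP hβ0 hβ hJ
    have hds : mpS (one (D + 1) n) (SC (D + 1)).ds =
        (⟨(SC D).w, one (D + 1) n * (Yn D - 1), one (D + 1) n * (Yn D * (Yn D - 1)),
          one (D + 1) n * ((Yn D * Yn D) * (Yn D - 1))⟩ : SD) :: mpS (one D (3 * n)) (SC D).ds := by
      rw [← one_three, ← mpS_mpS, ← SC_W]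
      rfl
    rw [hds]
    have hpow : β * 2 ^ (D + 1) = (2 * β) * 2 ^ D := by rw [pow_succ]; ring
    have h2D : (1 : ℤ) ≤ 2 ^ D := one_le_pow₀ (by norm_num)
    have hβD : β * 2 ^ D ≤ 2 ^ 99 := by
      have : β * 2 ^ D ≤ (2 * β) * 2 ^ D := by nlinarith
      linarith
    have hβ2 : β * 2 ≤ 2 ^ 99 := by
      have : (2 * β) * 1 ≤ (2 * β) * 2 ^ D := mul_le_mul_of_nonneg_left h2D (by linarith)
      linarith
    have hβ1 : β ≤ 2 ^ 99 := by linarith
    cases V with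
    | k V =>
      show ((M.f (mpS (one D (3 * n)) (SC D).ds) P V).p : ℤ) -
        (M.f (mpS (one D (3 * n)) (SC D).ds) P V).n = _
      rw [h.ex V hP.all hβ0 hβD (fun k i u => hJ _ _ _), flatZ]
      have eY : ((Yn (D + 1) : ℕ) : ℤ) = ((Yn D : ℕ) : ℤ) ^ 3 := by rw [Yn_pow, Nat.cast_pow]
      rw [eY]
      refine pz_congr _ _ _ _ fun i _ => ?_
      have e0 : 3 * i / 3 = i := by omega
      have e1 : (3 * i + 1) / 3 = i := by omega
      have e2 : (3 * i + 2) / 3 = i := by omega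
      have f0 : fi (3 * i) = 0 := Fin.ext (by show 3 * i % 3 = 0; omega)
      have f1 : fi (3 * i + 1) = 1 := Fin.ext (by show (3 * i + 1) % 3 = 1; omega)
      have f2 : fi (3 * i + 2) = 2 := Fin.ext (by show (3 * i + 2) % 3 = 2; omega)
      rw [e0, e1, e2, f0, f1, f2]
      by_cases ha : act i = true
      · simp only [if_pos ha]
        rfl
      · simp only [if_neg ha]
        ring
    | q Va Vc Vb =>
      have hdJ : ∀ k i u, |(fun (k : Fin 9) (m : ℕ) (u : Vt D) => J k (m / 3) (u, 2) - J k (m / 3) (u, 0))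
          k i u| ≤ 2 * β := fun k i u =>
        (abs_sub _ _).trans (by have := hJ k (i / 3) (u, 2); have := hJ k (i / 3) (u, 0); linarith)
      have ha := h.ex Va (lnP_a hP hβ1 hJ) hβ0 hβD (fun k i u => hJ _ _ _)
      have hc := h.ex Vc (lnP_c hP hβ1 hJ) hβ0 hβD (fun k i u => hJ _ _ _)
      have hb := h.ex Vb (lnP_b hP hβ1 hJ) hβ0 hβD (fun k i u => hJ _ _ _)
      have hd := h.ex (M.s Vb Va) (dfP_ok (SC_w D) hP hβ2 hJ) (by linarith : 0 ≤ 2 * β)
        (by linarith) hdJ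
      have eY : ((Yn (D + 1) : ℕ) : ℤ) = ((Yn D : ℕ) : ℤ) ^ 3 := by rw [Yn_pow, Nat.cast_pow]
      have ga := flatz0 (Yn D) n act (fun i => y3 D (nv (fun k u => J k i (u, 0)) Va))
      have gc := flatz1 (Yn D) n act (fun i => y3 D (nv (fun k u => J k i (u, 1)) Vc))
      have gb := flatz2 (Yn D) n act (fun i => y3 D (nv (fun k u => J k i (u, 2)) Vb))
      have gd := flatz1 (Yn D) n act
        (fun i => y3 D (nv (fun k u => J k i (u, 2) - J k i (u, 0)) (M.s Vb Va)))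
      have ha' := ha.trans ga
      have hc' := hc.trans gc
      have hb' := hb.trans gb
      have hd' := hd.trans gd
      clear ha hc hb hd ga gc gb gd
      show ((cmb (M.f (mpS (one D (3 * n)) (SC D).ds) (lnP (one (D + 1) n * (Yn D - 1)) P) Va)
        (M.f (mpS (one D (3 * n)) (SC D).ds) (lnP (one (D + 1) n * (Yn D * (Yn D - 1))) P) Vc)
        (M.f (mpS (one D (3 * n)) (SC D).ds) (lnP (one (D + 1) n * ((Yn D * Yn D) * (Yn D - 1))) P) Vb)
        (M.f (mpS (one D (3 * n)) (SC D).ds) (dfP ⟨(SC D).w, one (D + 1) n * (Yn D - 1),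
          one (D + 1) n * (Yn D * (Yn D - 1)), one (D + 1) n * ((Yn D * Yn D) * (Yn D - 1))⟩ P)
          (M.s Vb Va))).p : ℤ) -
        (cmb (M.f (mpS (one D (3 * n)) (SC D).ds) (lnP (one (D + 1) n * (Yn D - 1)) P) Va)
        (M.f (mpS (one D (3 * n)) (SC D).ds) (lnP (one (D + 1) n * (Yn D * (Yn D - 1))) P) Vc)
        (M.f (mpS (one D (3 * n)) (SC D).ds) (lnP (one (D + 1) n * ((Yn D * Yn D) * (Yn D - 1))) P) Vb)
        (M.f (mpS (one D (3 * n)) (SC D).ds) (dfP ⟨(SC D).w, one (D + 1) n * (Yn D - 1),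
          one (D + 1) n * (Yn D * (Yn D - 1)), one (D + 1) n * ((Yn D * Yn D) * (Yn D - 1))⟩ P)
          (M.s Vb Va))).n = _
      generalize M.f (mpS (one D (3 * n)) (SC D).ds) (lnP (one (D + 1) n * (Yn D - 1)) P) Va = A at *
      generalize M.f (mpS (one D (3 * n)) (SC D).ds) (lnP (one (D + 1) n * (Yn D * (Yn D - 1))) P) Vc =
        C at *
      generalize M.f (mpS (one D (3 * n)) (SC D).ds)
        (lnP (one (D + 1) n * ((Yn D * Yn D) * (Yn D - 1))) P) Vb = B at *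
      generalize M.f (mpS (one D (3 * n)) (SC D).ds) (dfP ⟨(SC D).w, one (D + 1) n * (Yn D - 1),
          one (D + 1) n * (Yn D * (Yn D - 1)), one (D + 1) n * ((Yn D * Yn D) * (Yn D - 1))⟩ P)
          (M.s Vb Va) = E at *
      show ((4 * (A.p + C.p + B.p) + E.n : ℕ) : ℤ) - ((4 * (A.n + C.n + B.n) + E.p : ℕ) : ℤ) = _
      have e : ((4 * (A.p + C.p + B.p) + E.n : ℕ) : ℤ) - ((4 * (A.n + C.n + B.n) + E.p : ℕ) : ℤ) =
          4 * (((A.p : ℤ) - A.n) + ((C.p : ℤ) - C.n) + ((B.p : ℤ) - B.n)) - ((E.p : ℤ) - E.n) := by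
        push_cast; ring
      rw [e, ha', hc', hb', hd', eY, pz_smul, pz_smul, pz_smul, pz_smul, pz_add, pz_add, pz_smul, pz_sub]
      refine pz_congr _ _ _ _ fun i _ => ?_
      by_cases hi : act i = true
      · simp only [if_pos hi]
        rw [y3_succ]
        have q0 : (fun u => nvS M.s nv (fun k => J k i) (N3.q Va Vc Vb) (u, (0 : Fin 3))) =
            fun u => 4 * nv (fun k u => J k i (u, 0)) Va u := rfl
        have q1 : (fun u => nvS M.s nv (fun k => J k i) (N3.q Va Vc Vb) (u, (1 : Fin 3))) =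
            fun u => 4 * nv (fun k u => J k i (u, 1)) Vc u -
              nv (fun k u => J k i (u, 2) - J k i (u, 0)) (M.s Vb Va) u := rfl
        have q2 : (fun u => nvS M.s nv (fun k => J k i) (N3.q Va Vc Vb) (u, (2 : Fin 3))) =
            fun u => 4 * nv (fun k u => J k i (u, 2)) Vb u := rfl
        rw [q0, q1, q2, y3_mul, y3_sub, y3_mul, y3_mul]
        ring
      · simp only [if_neg hi]
        ring

/-! ### the four levels -/

/-- THE PRODUCT (Boolean kernel function `mu0` reduces the entries of `V` modulo `2 ^ 2304` first, so no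
condition on `V`): difference of two numbers, digits at most `2 ^ 2390`, congruent to the leaves of the
product of KerT -/
structure MuL {v : Type} (D : ℕ) (M : Mu v)
    (pr : (Vt D → P9) → v → Vt D → ℕ) : Prop where
  ex : ∀ {P : PB} {g : Vt D → P9} (V : v), PBR D P g →
    ∃ N : Vt D → ℤ, ((M.f (SC D).ds P V).p : ℤ) - (M.f (SC D).ds P V).n = y3 D N ∧
      (∀ u, |N u| ≤ 2 ^ 2390) ∧ ∀ u, N u ≡ pr g V u [ZMOD 2 ^ 2304]

theorem one_one (D : ℕ) : one D 1 = 1 := by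
  show 1 + Yn D * 0 = 1
  rw [Nat.mul_zero]

theorem mul_fin {D : ℕ} {α v γ : Type} {M : Mu v} {nv : (Fin 9 → Vt D → ℤ) → v → Vt D → ℤ}
    {l : γ → Vt D → ℕ} {fl : (Vt D → P9) → α} {B : Bil α v γ}
    (hM : MuN D M nv) (hL : LvL D l fl B nv) (hD : D ≤ 4) : MuL D M (fun g V => l (B.mu (fl g) V)) where
  ex := by
    intro P g V hP
    obtain ⟨J, hJ, hg, hc⟩ := hP.ex
    have hN : PBN D 1 P (fun _ => true) (fun k _ => J k) := by
      constructor
      · intro k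
        rw [hc k]
        show _ = p3 D (fun v => (J k v + 2 ^ 100).toNat) + Yn D * 0
        rw [Nat.mul_zero, Nat.add_zero]
      · rw [hP.o, cst_on]
        show _ = p3 D (fun _ => 2 ^ 100) + Yn D * 0
        rw [Nat.mul_zero, Nat.add_zero]
    have hpow : (2 : ℤ) ^ 63 * 2 ^ D ≤ 2 ^ 99 := by
      rw [← pow_add]
      exact pow_le_pow_right₀ (by norm_num) (by omega)
    have h := hM.ex V hN (by positivity) hpow (fun k _ u => hJ k u)
    rw [one_one, mpS_one] at h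
    refine ⟨nv J V, h.trans ?_, ?_, hL.mu V hg⟩
    · show y3 D (nv J V) + ((Yn D : ℕ) : ℤ) * 0 = _
      rw [mul_zero, add_zero]
    · intro u
      refine (hL.bd V (by positivity) hJ u).trans ?_
      have h6 : (6 : ℤ) ^ D ≤ 2 ^ 11 :=
        (pow_le_pow_right₀ (by norm_num) hD).trans (by norm_num)
      calc (6 : ℤ) ^ D * (9 * 2 ^ 2304 * 2 ^ 63) ≤ 2 ^ 11 * (2 ^ 4 * 2 ^ 2304 * 2 ^ 63) := by
            refine mul_le_mul h6 ?_ (by positivity) (by positivity)
            refine mul_le_mul_of_nonneg_right ?_ (by positivity)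
            exact mul_le_mul_of_nonneg_right (by norm_num) (by positivity)
        _ = 2 ^ 2382 := by
            rw [← pow_add, ← pow_add, ← pow_add]
        _ ≤ 2 ^ 2390 := pow_le_pow_right₀ (by norm_num) (by norm_num)

theorem Mu1_ok : MuL 1 Mu1 (fun g V => l1 (Pool.Agent.Helper86.CT.B1.mu (fl1 g) V)) :=
  mul_fin (fl := fl1) (B := Pool.Agent.Helper86.CT.B1) mun0.step lv0.step (by norm_num)
theorem Mu2_ok : MuL 2 Mu2 (fun g V => l2 (Pool.Agent.Helper86.CT.B2.mu (fl2 g) V)) :=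
  mul_fin (fl := fl2) (B := Pool.Agent.Helper86.CT.B2) mun0.step.step lv0.step.step (by norm_num)
theorem Mu3_ok : MuL 3 Mu3 (fun g V => l3 (Pool.Agent.Helper86.CT.B3.mu (fl3 g) V)) :=
  mul_fin (fl := fl3) (B := Pool.Agent.Helper86.CT.B3) mun0.step.step.step lv0.step.step.step (by norm_num)
theorem Mu4_ok : MuL 4 Mu4 (fun g V => l4 (Pool.Agent.Helper86.CT.B4.mu (fl4 g) V)) :=
  mul_fin (fl := fl4) (B := Pool.Agent.Helper86.CT.B4) mun0.step.step.step.step
    lv0.step.step.step.step (by norm_num)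

end Pool.Agent.Helper86.CK
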