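import Pool.Agent.Helper86.CK.K6
import Pool.Agent.Helper90.CX.K9M

/-!
Packed machine (MP_c75db0), rows K7 and K8, common part: blocks of slots, masks, regrouping.
-/

set_option autoImplicit false
set_option exponentiation.threshold 4000
noncomputable section
namespace Pool.Agent.Helper86.CK

open Pool.Agent.Helper86.C75 (Z)
open Pool.Agent.Helper86.CX
open Pool.Agent.Helper86.CT hiding K1 K2 K3 K4 y3
open Pool.Agent.Helper90.C75 (Vt)
open Pool.Agent.Helper90.K9 (pk pz pk_zero pk_succ pz_succ pk_cast pk_congr pz_congr pk_add pz_add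
  pz_sub pk_smul pz_smul pk_nest pz_nest pk_lt land_split land_pk)

/-! ### blocks -/

theorem Yn_pow (d : ℕ) : Yn (d + 1) = Yn d ^ 3 := by
  unfold Yn
  rw [← pow_mul]
  congr 1
  rw [pow_succ]; ring
theorem three_lt {Y a b c : ℕ} (ha : a < Y) (hb : b < Y) (hc : c < Y) :
    a + Y * (b + Y * c) < Y ^ 3 := by
  have h1 : b + Y * c < Y * Y := by
    have := Nat.mul_le_mul_left Y (Nat.succ_le_of_lt hc)
    rw [Nat.mul_succ] at this
    omega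
  have h2 := Nat.mul_le_mul_left Y (Nat.succ_le_of_lt h1)
  rw [Nat.mul_succ] at h2
  have e : Y ^ 3 = Y * (Y * Y) := by ring
  omega

theorem SC_w (D : ℕ) : (SC D).w = 2432 * 3 ^ D := by
  induction D with
  | zero => rfl
  | succ D ih =>
    show 3 * (SC D).w = _
    rw [ih, pow_succ]; ring

theorem mpS_mpS (F G : ℕ) : ∀ l : List SD, mpS F (mpS G l) = mpS (F * G) l
  | [] => rfl
  | d :: l => by
    show (⟨d.s, F * (G * d.a), F * (G * d.c), F * (G * d.b)⟩ : SD) :: mpS F (mpS G l) =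
      ⟨d.s, (F * G) * d.a, (F * G) * d.c, (F * G) * d.b⟩ :: mpS (F * G) l
    rw [mpS_mpS F G l, Nat.mul_assoc, Nat.mul_assoc, Nat.mul_assoc]

theorem mpS_one : ∀ l : List SD, mpS 1 l = l
  | [] => rfl
  | d :: l => by
    show (⟨d.s, 1 * d.a, 1 * d.c, 1 * d.b⟩ : SD) :: mpS 1 l = d :: l
    rw [mpS_one l, Nat.one_mul, Nat.one_mul, Nat.one_mul]

/-- regrouping three blocks -/
theorem flatN (Y n : ℕ) (f : ℕ → ℕ) : pk Y (3 * n) f =
    pk (Y ^ 3) n (fun i => f (3 * i) + Y * (f (3 * i + 1) + Y * f (3 * i + 2))) := by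
  rw [pk_nest]
  refine pk_congr _ _ _ _ fun i _ => ?_
  show f (3 * i + 0) + Y * (f (3 * i + (0 + 1)) + Y * (f (3 * i + (0 + 1 + 1)) + Y * 0)) = _
  rw [Nat.mul_zero]
  rfl

theorem flatZ (Y : ℤ) (n : ℕ) (f : ℕ → ℤ) : pz Y (3 * n) f =
    pz (Y ^ 3) n (fun i => f (3 * i) + Y * (f (3 * i + 1) + Y * f (3 * i + 2))) := by
  rw [pz_nest]
  refine pz_congr _ _ _ _ fun i _ => ?_
  show f (3 * i) + Y * (f (3 * i + 1) + Y * (f (3 * i + 2) + Y * 0)) = _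
  rw [mul_zero, add_zero]

/-! ### selecting blocks -/

section sel
variable {w n : ℕ} {x y z : ℕ → ℕ}

theorem pow3 (w : ℕ) : ((2 : ℕ) ^ w) ^ 3 = 2 ^ (w * 3) := (pow_mul 2 w 3).symm

theorem full_lt (w : ℕ) : (2 : ℕ) ^ w - 1 < 2 ^ w := Nat.sub_lt (by positivity) one_pos

theorem land3 {a b c p q r : ℕ} (ha : a < 2 ^ w) (hb : b < 2 ^ w) (hp : p < 2 ^ w) (hq : q < 2 ^ w) :
    (a + 2 ^ w * (b + 2 ^ w * c)) &&& (p + 2 ^ w * (q + 2 ^ w * r)) =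
      (a &&& p) + 2 ^ w * ((b &&& q) + 2 ^ w * (c &&& r)) := by
  rw [land_split w _ _ _ _ ha hp, land_split w _ _ _ _ hb hq]

theorem selP (hx : ∀ i < n, x i < 2 ^ w) (hy : ∀ i < n, y i < 2 ^ w) (hz : ∀ i < n, z i < 2 ^ w)
    {p q r : ℕ} (hp : p < 2 ^ w) (hq : q < 2 ^ w) (hr : r < 2 ^ w) :
    pk ((2 ^ w) ^ 3) n (fun i => x i + 2 ^ w * (y i + 2 ^ w * z i)) &&&
      pk ((2 ^ w) ^ 3) n (fun _ => p + 2 ^ w * (q + 2 ^ w * r)) =
      pk ((2 ^ w) ^ 3) n (fun i => (x i &&& p) + 2 ^ w * ((y i &&& q) + 2 ^ w * (z i &&& r))) := by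
  have h := land_pk (e := w * 3) n (fun i => x i + 2 ^ w * (y i + 2 ^ w * z i))
    (fun _ => p + 2 ^ w * (q + 2 ^ w * r)) 0
    (fun i hi => by rw [← pow3]; exact three_lt (hx i hi) (hy i hi) (hz i hi))
    (fun i _ => by rw [← pow3]; exact three_lt hp hq hr)
  rw [Nat.mul_zero, Nat.add_zero, ← pow3] at h
  rw [h]
  exact pk_congr _ _ _ _ fun i hi => land3 (hx i hi) (hy i hi) hp hq

theorem land_full {a : ℕ} (ha : a < 2 ^ w) : a &&& (2 ^ w - 1) = a := by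
  rw [Nat.and_two_pow_sub_one_eq_mod, Nat.mod_eq_of_lt ha]

theorem selA (hx : ∀ i < n, x i < 2 ^ w) (hy : ∀ i < n, y i < 2 ^ w) (hz : ∀ i < n, z i < 2 ^ w) :
    pk ((2 ^ w) ^ 3) n (fun i => x i + 2 ^ w * (y i + 2 ^ w * z i)) &&&
      (pk ((2 ^ w) ^ 3) n (fun _ => 1) * (2 ^ w - 1)) = pk ((2 ^ w) ^ 3) n x := by
  have e : pk ((2 ^ w) ^ 3) n (fun _ => 1) * (2 ^ w - 1) =
      pk ((2 ^ w) ^ 3) n (fun _ => (2 ^ w - 1) + 2 ^ w * (0 + 2 ^ w * 0)) := by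
    rw [Nat.mul_comm, pk_smul]
    exact pk_congr _ _ _ _ fun _ _ => by ring
  rw [e, selP hx hy hz (full_lt w) (by positivity) (by positivity)]
  refine pk_congr _ _ _ _ fun i hi => ?_
  rw [land_full (hx i hi), Nat.and_zero, Nat.and_zero, Nat.mul_zero, Nat.add_zero, Nat.mul_zero,
    Nat.add_zero]

theorem selC (hx : ∀ i < n, x i < 2 ^ w) (hy : ∀ i < n, y i < 2 ^ w) (hz : ∀ i < n, z i < 2 ^ w) :
    pk ((2 ^ w) ^ 3) n (fun i => x i + 2 ^ w * (y i + 2 ^ w * z i)) &&&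
      (pk ((2 ^ w) ^ 3) n (fun _ => 1) * (2 ^ w * (2 ^ w - 1))) = 2 ^ w * pk ((2 ^ w) ^ 3) n y := by
  have e : pk ((2 ^ w) ^ 3) n (fun _ => 1) * (2 ^ w * (2 ^ w - 1)) =
      pk ((2 ^ w) ^ 3) n (fun _ => 0 + 2 ^ w * ((2 ^ w - 1) + 2 ^ w * 0)) := by
    rw [Nat.mul_comm, pk_smul]
    exact pk_congr _ _ _ _ fun _ _ => by ring
  rw [e, selP hx hy hz (by positivity) (full_lt w) (by positivity), pk_smul]
  refine pk_congr _ _ _ _ fun i hi => ?_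
  rw [land_full (hy i hi), Nat.and_zero, Nat.and_zero, Nat.mul_zero, Nat.add_zero, Nat.zero_add]

theorem selB (hx : ∀ i < n, x i < 2 ^ w) (hy : ∀ i < n, y i < 2 ^ w) (hz : ∀ i < n, z i < 2 ^ w) :
    pk ((2 ^ w) ^ 3) n (fun i => x i + 2 ^ w * (y i + 2 ^ w * z i)) &&&
      (pk ((2 ^ w) ^ 3) n (fun _ => 1) * ((2 ^ w * 2 ^ w) * (2 ^ w - 1))) =
      2 ^ w * (2 ^ w * pk ((2 ^ w) ^ 3) n z) := by
  have e : pk ((2 ^ w) ^ 3) n (fun _ => 1) * ((2 ^ w * 2 ^ w) * (2 ^ w - 1)) =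
      pk ((2 ^ w) ^ 3) n (fun _ => 0 + 2 ^ w * (0 + 2 ^ w * (2 ^ w - 1))) := by
    rw [Nat.mul_comm, pk_smul]
    exact pk_congr _ _ _ _ fun _ _ => by ring
  rw [e, selP hx hy hz (by positivity) (by positivity) (full_lt w), pk_smul, pk_smul]
  refine pk_congr _ _ _ _ fun i hi => ?_
  rw [land_full (hz i hi), Nat.and_zero, Nat.and_zero, Nat.zero_add, Nat.zero_add]

end sel

end Pool.Agent.Helper86.CK
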