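import Pool.Agent.Helper86.CK.K7

/-!
Packed machine (MP_c75db0), row K8: multipliers times forms.
-/

set_option autoImplicit false
set_option exponentiation.threshold 4000
noncomputable section
namespace Pool.Agent.Helper86.CK

open Pool.Agent.Helper86.C75 (Z)
open Pool.Agent.Helper86.CX
open Pool.Agent.Helper86.CT hiding K1 K2 K3 K4 y3
open Pool.Agent.Helper90.C75 (Vt)
open Pool.Agent.Helper17.KPT (lf3 lz l1 l2 l3 l4)
open Pool.Agent.Helper90.K9 (pk pz pk_zero pk_succ pz_succ pk_cast pk_congr pz_congr pk_add pz_add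
  pz_sub pk_smul pz_smul pk_nest pz_nest pk_lt land_split land_pk)

/-- THE MULTIPLIER TIMES THE FORM: difference of two numbers, congruent to the leaves of KerT
(`lk0 = u32 L (32 l) * mkK0 (kf T k)`, `mkK0 K` is congruent to `c9 - enc K`) -/
structure LkL {β : Type} (D : ℕ) (E : Ek β) (O : ℕ) (L : LK β (Vt D → ℕ)) : Prop where
  ex : ∀ (k l : ℕ) (T S : β), ∃ N : Vt D → ℤ,
    (lkp (SC D) O E l S : ℤ) - lkn (SC D) E k l T S = y3 D N ∧ (∀ u, |N u| ≤ 2 ^ 2200) ∧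
      ∀ u, N u ≡ L.lk k l T S u [ZMOD 2 ^ 2304]

/-! ### the multiplier of the digits -/

/-- `2` for each index `0` or `2` -/
def e3 : (D : ℕ) → Vt D → ℕ
  | 0, _ => 1
  | D + 1, v => e3 D v.1 * (if v.2 = 1 then 1 else 2)

theorem e3_le : ∀ (D : ℕ) (v : Vt D), e3 D v ≤ 2 ^ D
  | 0, _ => le_rfl
  | D + 1, v => by
    show e3 D v.1 * (if v.2 = 1 then 1 else 2) ≤ 2 ^ (D + 1)
    rw [pow_succ]
    refine Nat.mul_le_mul (e3_le D v.1) ?_
    split_ifs <;> norm_num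

theorem hds_eq (D n : ℕ) : mpS (one (D + 1) n) (SC (D + 1)).ds =
    (⟨(SC D).w, one (D + 1) n * (Yn D - 1), one (D + 1) n * (Yn D * (Yn D - 1)),
      one (D + 1) n * ((Yn D * Yn D) * (Yn D - 1))⟩ : SD) :: mpS (one D (3 * n)) (SC D).ds := by
  rw [← one_three, ← mpS_mpS, ← SC_W]
  rfl

theorem ends_cons (d : SD) (l : List SD) (U : ℕ) :
    ends (d :: l) U = ends l (U + (U &&& (d.a + d.b))) := rfl

/-- regrouping the blocks -/
theorem regroup (D n : ℕ) (F : ℕ → Vt (D + 1) → ℕ) :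
    pk (Yn (D + 1)) n (fun i => p3 (D + 1) (F i)) =
      pk (Yn D) (3 * n) (fun m => p3 D (fun u => F (m / 3) (u, fi m))) := by
  have e0 : ∀ i, 3 * i / 3 = i := fun i => by omega
  have e1 : ∀ i, (3 * i + 1) / 3 = i := fun i => by omega
  have e2 : ∀ i, (3 * i + 2) / 3 = i := fun i => by omega
  have f0 : ∀ i, fi (3 * i) = 0 := fun i => Fin.ext (by show 3 * i % 3 = 0; omega)
  have f1 : ∀ i, fi (3 * i + 1) = 1 := fun i => Fin.ext (by show (3 * i + 1) % 3 = 1; omega)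
  have f2 : ∀ i, fi (3 * i + 2) = 2 := fun i => Fin.ext (by show (3 * i + 2) % 3 = 2; omega)
  rw [flatN, Yn_pow]
  refine pk_congr _ _ _ _ fun i _ => ?_
  rw [e0, e1, e2, f0, f1, f2, p3_succ]

theorem ends_ok (D : ℕ) : ∀ (n : ℕ) (F : ℕ → Vt D → ℕ), (∀ i u, F i u * 2 ^ D < 2 ^ 2432) →
    ends (mpS (one D n) (SC D).ds) (pk (Yn D) n (fun i => p3 D (F i))) =
      pk (Yn D) n (fun i => p3 D (fun u => e3 D u * F i u)) := by
  induction D with
  | zero =>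
    intro n F _
    show pk (Yn 0) n (fun i => F i ()) = pk (Yn 0) n (fun i => 1 * F i ())
    simp only [Nat.one_mul]
  | succ D ih =>
    intro n F hF
    have hF1 : ∀ i v, F i v < 2 ^ 2432 := fun i v =>
      lt_of_le_of_lt (Nat.le_mul_of_pos_right _ (by positivity)) (hF i v)
    have hY : ∀ i (j : Fin 3), p3 D (fun u => F i (u, j)) < 2 ^ (2432 * 3 ^ D) := fun i j =>
      p3_lt fun v => hF1 i (v, j)
    have hsel : pk (Yn (D + 1)) n (fun i => p3 (D + 1) (F i)) &&&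
        (one (D + 1) n * (Yn D - 1) + one (D + 1) n * ((Yn D * Yn D) * (Yn D - 1))) =
        pk (Yn (D + 1)) n (fun i => p3 D (fun u => F i (u, 0)) + Yn D * (0 + Yn D *
          p3 D (fun u => F i (u, 2)))) := by
      have e : one (D + 1) n * (Yn D - 1) + one (D + 1) n * ((Yn D * Yn D) * (Yn D - 1)) =
          pk ((2 ^ (2432 * 3 ^ D)) ^ 3) n (fun _ => (2 ^ (2432 * 3 ^ D) - 1) + 2 ^ (2432 * 3 ^ D) *
            (0 + 2 ^ (2432 * 3 ^ D) * (2 ^ (2432 * 3 ^ D) - 1))) := by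
        rw [← Nat.mul_add, Nat.mul_comm]
        unfold one
        rw [pk_smul, Yn_pow]
        refine pk_congr _ _ _ _ fun _ _ => ?_
        show _ = (Yn D - 1) + Yn D * (0 + Yn D * (Yn D - 1))
        ring
      rw [e, Yn_pow]
      have h := selP (w := 2432 * 3 ^ D) (n := n) (x := fun i => p3 D (fun u => F i (u, 0)))
        (y := fun i => p3 D (fun u => F i (u, 1))) (z := fun i => p3 D (fun u => F i (u, 2)))
        (fun i _ => hY i 0) (fun i _ => hY i 1) (fun i _ => hY i 2) (full_lt (2432 * 3 ^ D))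
        (q := 0) (by positivity) (full_lt (2432 * 3 ^ D))
      refine h.trans (pk_congr _ _ _ _ fun i _ => ?_)
      rw [land_full (hY i 0), land_full (hY i 2), Nat.and_zero]
      rfl
    rw [hds_eq, ends_cons]
    show ends _ (_ + (_ &&& (one (D + 1) n * (Yn D - 1) +
      one (D + 1) n * ((Yn D * Yn D) * (Yn D - 1))))) = _
    rw [hsel, pk_add]
    have e1 : pk (Yn (D + 1)) n (fun i => p3 (D + 1) (F i) + (p3 D (fun u => F i (u, 0)) +
        Yn D * (0 + Yn D * p3 D (fun u => F i (u, 2))))) =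
        pk (Yn (D + 1)) n (fun i => p3 (D + 1) (fun v => (if v.2 = 1 then 1 else 2) * F i v)) := by
      refine pk_congr _ _ _ _ fun i _ => ?_
      rw [p3_succ, p3_succ]
      have h0 : p3 D (fun u => (if ((u, (0 : Fin 3)) : Vt (D + 1)).2 = 1 then 1 else 2) *
          F i (u, 0)) = 2 * p3 D (fun u => F i (u, 0)) := by
        rw [← p3_mul]; rfl
      have h1 : p3 D (fun u => (if ((u, (1 : Fin 3)) : Vt (D + 1)).2 = 1 then 1 else 2) *
          F i (u, 1)) = 1 * p3 D (fun u => F i (u, 1)) := by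
        rw [← p3_mul]; rfl
      have h2 : p3 D (fun u => (if ((u, (2 : Fin 3)) : Vt (D + 1)).2 = 1 then 1 else 2) *
          F i (u, 2)) = 2 * p3 D (fun u => F i (u, 2)) := by
        rw [← p3_mul]; rfl
      rw [h0, h1, h2]
      ring
    rw [e1, regroup]
    rw [ih (3 * n) (fun m u => (if ((u, fi m) : Vt (D + 1)).2 = 1 then 1 else 2) *
      F (m / 3) (u, fi m)) ?_]
    · rw [regroup]
      refine pk_congr _ _ _ _ fun m _ => ?_
      congr 1
      funext u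
      show e3 D u * ((if fi m = 1 then 1 else 2) * F (m / 3) (u, fi m)) =
        (e3 D u * (if fi m = 1 then 1 else 2)) * F (m / 3) (u, fi m)
      rw [Nat.mul_assoc]
    · intro m u
      have h := hF (m / 3) (u, fi m)
      have h2 : (if ((u, fi m) : Vt (D + 1)).2 = 1 then 1 else 2) ≤ 2 := by
        split_ifs <;> norm_num
      calc (if ((u, fi m) : Vt (D + 1)).2 = 1 then 1 else 2) * F (m / 3) (u, fi m) * 2 ^ D
          ≤ 2 * F (m / 3) (u, fi m) * 2 ^ D :=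
            Nat.mul_le_mul_right _ (Nat.mul_le_mul_right _ h2)
        _ = F (m / 3) (u, fi m) * 2 ^ (D + 1) := by rw [pow_succ]; ring
        _ < 2 ^ 2432 := h

/-! ### the levels -/

/-- coefficients of the product of two multi-affine functions -/
def cvS {D : ℕ} {β : Type} (cv : (ℕ → ℕ) → (ℕ → ℕ) → β → β → Vt D → ℕ)
    (f g : ℕ → ℕ) (T S : Pr β) (v : Vt (D + 1)) : ℕ :=
  if v.2 = 0 then cv f g T.a S.a v.1
  else if v.2 = 1 then cv f g T.a S.b v.1 + cv f g T.b S.a v.1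
  else cv f g T.b S.b v.1

structure EkL {β : Type} (D : ℕ) (E : Ek β) (O : ℕ)
    (cv : (ℕ → ℕ) → (ℕ → ℕ) → β → β → Vt D → ℕ) : Prop where
  mul : ∀ (f g : ℕ → ℕ) (T S : β), E.e f T * E.e g S = p3 D (cv f g T S)
  bd : ∀ {f g : ℕ → ℕ} {a b : ℕ} (T S : β), (∀ x, f x ≤ a) → (∀ x, g x ≤ b) →
    ∀ u, cv f g T S u ≤ 2 ^ D * (a * b)
  one : ∀ T : β, E.e (fun _ => 1) T = O

theorem ekl0 : EkL 0 Ek0 1 (fun f g T S _ => f T * g S) where
  mul := fun _ _ _ _ => rfl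
  bd := fun T S hf hg _ => by
    rw [pow_zero, Nat.one_mul]
    exact Nat.mul_le_mul (hf T) (hg S)
  one := fun _ => rfl

theorem EkL.step {β : Type} {D : ℕ} {E : Ek β} {O : ℕ}
    {cv : (ℕ → ℕ) → (ℕ → ℕ) → β → β → Vt D → ℕ} (h : EkL D E O cv) :
    EkL (D + 1) (nxEk (SC D) E) (nxO1 (SC D) O) (cvS cv) where
  mul := by
    intro f g T S
    show (E.e f T.a + E.e f T.b <<< (SC D).w) * (E.e g S.a + E.e g S.b <<< (SC D).w) = _
    rw [Nat.shiftLeft_eq, Nat.shiftLeft_eq, SC_w, p3_succ]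
    have e : (2 : ℕ) ^ (2432 * 3 ^ D) = Yn D := rfl
    have h0 : p3 D (fun u => cvS cv f g T S (u, 0)) = E.e f T.a * E.e g S.a := (h.mul f g T.a S.a).symm
    have h1 : p3 D (fun u => cvS cv f g T S (u, 1)) = E.e f T.a * E.e g S.b + E.e f T.b * E.e g S.a := by
      rw [h.mul, h.mul, ← p3_add]
      rfl
    have h2 : p3 D (fun u => cvS cv f g T S (u, 2)) = E.e f T.b * E.e g S.b := (h.mul f g T.b S.b).symm
    rw [h0, h1, h2, e]
    ring
  bd := by
    intro f g a b T S hf hg v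
    have hx : ∀ T S, ∀ u, cv f g T S u ≤ 2 ^ D * (a * b) := fun T S => h.bd T S hf hg
    have hp : 2 ^ (D + 1) * (a * b) = 2 ^ D * (a * b) + 2 ^ D * (a * b) := by rw [pow_succ]; ring
    unfold cvS
    rw [hp]
    split_ifs
    · exact (hx _ _ _).trans (Nat.le_add_right _ _)
    · exact Nat.add_le_add (hx _ _ _) (hx _ _ _)
    · exact (hx _ _ _).trans (Nat.le_add_right _ _)
  one := by
    intro T
    show E.e (fun _ => 1) T.a + E.e (fun _ => 1) T.b <<< (SC D).w = ((SC D).W + 1) * O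
    rw [h.one, h.one, Nat.shiftLeft_eq, SC_w, SC_W]
    show O + O * Yn D = _
    ring

theorem modEq_of_eq {n a b : ℤ} (h : a = b) : a ≡ b [ZMOD n] := by rw [h]

/-- the laws of the level for the trees of KerT -/
structure LkV {β γ : Type} (D : ℕ) (l : γ → Vt D → ℕ) (A : Ad γ) (L : LK β γ)
    (cv : (ℕ → ℕ) → (ℕ → ℕ) → β → β → Vt D → ℕ) : Prop where
  ad : ∀ x y u, (l (A.ad x y) u : ℤ) ≡ l x u + l y u [ZMOD 2 ^ 2304]
  lk : ∀ (k m : ℕ) (T S : β) (u : Vt D), (l (L.lk k m T S) u : ℤ) ≡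
    e3 D u * (c9 * cv (fun _ => 1) (fun x => u32 x (32 * m)) T S u -
      cv (fun x => enc (kf x k)) (fun x => u32 x (32 * m)) T S u) [ZMOD 2 ^ 2304]

theorem c9_eq : c9 = 2 ^ 31 + 2 ^ 31 * 2 ^ 256 +
    2 ^ 31 * (2 ^ 256) ^ 2 + 2 ^ 31 * (2 ^ 256) ^ 3 + 2 ^ 31 * (2 ^ 256) ^ 4 +
    2 ^ 31 * (2 ^ 256) ^ 5 + 2 ^ 31 * (2 ^ 256) ^ 6 + 2 ^ 31 * (2 ^ 256) ^ 7 +
    2 ^ 31 * (2 ^ 256) ^ 8 := by decide +kernel

theorem u32_lt' (N k : ℕ) : u32 N k < 2 ^ 32 := Nat.mod_lt _ (by norm_num)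

theorem enc_eq (K : ℕ) : enc K = Nat.add (Nat.add (Nat.add (Nat.add (Nat.add (Nat.add (Nat.add
      (Nat.add (Nat.mod K 4294967296) (Nat.mul (2 ^ 256) (u32 K 32)))
      (Nat.mul ((2 ^ 256) ^ 2) (u32 K 64))) (Nat.mul ((2 ^ 256) ^ 3) (u32 K 96)))
      (Nat.mul ((2 ^ 256) ^ 4) (u32 K 128))) (Nat.mul ((2 ^ 256) ^ 5) (u32 K 160)))
      (Nat.mul ((2 ^ 256) ^ 6) (u32 K 192))) (Nat.mul ((2 ^ 256) ^ 7) (u32 K 224)))
      (Nat.mul ((2 ^ 256) ^ 8) (u32 K 256)) := by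
  show K % 4294967296 + (u32 K 32) <<< 256 + (u32 K 64) <<< 512 + (u32 K 96) <<< 768 +
    (u32 K 128) <<< 1024 + (u32 K 160) <<< 1280 + (u32 K 192) <<< 1536 + (u32 K 224) <<< 1792 +
    (u32 K 256) <<< 2048 = K % 4294967296 + 2 ^ 256 * u32 K 32 + (2 ^ 256) ^ 2 * u32 K 64 +
    (2 ^ 256) ^ 3 * u32 K 96 + (2 ^ 256) ^ 4 * u32 K 128 + (2 ^ 256) ^ 5 * u32 K 160 +
    (2 ^ 256) ^ 6 * u32 K 192 + (2 ^ 256) ^ 7 * u32 K 224 + (2 ^ 256) ^ 8 * u32 K 256
  simp only [Nat.shiftLeft_eq]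
  rw [← pow_mul, ← pow_mul, ← pow_mul, ← pow_mul, ← pow_mul, ← pow_mul, ← pow_mul]
  ring

theorem enc_lt (K : ℕ) : enc K ≤ 2 ^ 2080 := by
  rw [enc_eq]
  have h0 : K % 4294967296 < 2 ^ 32 := Nat.mod_lt _ (by norm_num)
  have h1 := u32_lt' K 32
  have h2 := u32_lt' K 64
  have h3 := u32_lt' K 96
  have h4 := u32_lt' K 128
  have h5 := u32_lt' K 160
  have h6 := u32_lt' K 192
  have h7 := u32_lt' K 224
  have h8 := u32_lt' K 256
  show K % 4294967296 + 2 ^ 256 * u32 K 32 + (2 ^ 256) ^ 2 * u32 K 64 +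
    (2 ^ 256) ^ 3 * u32 K 96 + (2 ^ 256) ^ 4 * u32 K 128 + (2 ^ 256) ^ 5 * u32 K 160 +
    (2 ^ 256) ^ 6 * u32 K 192 + (2 ^ 256) ^ 7 * u32 K 224 + (2 ^ 256) ^ 8 * u32 K 256 ≤ 2 ^ 2080
  generalize K % 4294967296 = a0 at *
  generalize u32 K 32 = a1 at *
  generalize u32 K 64 = a2 at *
  generalize u32 K 96 = a3 at *
  generalize u32 K 128 = a4 at *
  generalize u32 K 160 = a5 at *
  generalize u32 K 192 = a6 at *
  generalize u32 K 224 = a7 at *
  generalize u32 K 256 = a8 at *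
  norm_num at *
  omega

theorem mkK0_enc (K : ℕ) : mkK0 K = 2 ^ 2304 + c9 - enc K := by
  rw [enc_eq, c9_eq]
  rfl

theorem c9_le : c9 ≤ 2 ^ 2080 := by decide +kernel
theorem enc_le' (K : ℕ) : enc K ≤ 2 ^ 2304 + c9 := by
  have h := enc_lt K
  have : (2 : ℕ) ^ 2080 ≤ 2 ^ 2304 := Nat.pow_le_pow_right (by norm_num) (by norm_num)
  omega

theorem mkK0_cong (K : ℕ) : (mkK0 K : ℤ) ≡ c9 - enc K [ZMOD 2 ^ 2304] := by
  rw [mkK0_enc, Nat.cast_sub (enc_le' K), Nat.cast_add]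
  have e : ((2 ^ 2304 : ℕ) : ℤ) = 2 ^ 2304 := by push_cast
  rw [e]
  have h : (2 : ℤ) ^ 2304 + c9 - enc K = (c9 - enc K) + 2 ^ 2304 := by ring
  rw [h]
  exact Int.add_emod_right _ _

theorem lkv0 : LkV 0 (lz : ℕ → Vt 0 → ℕ) D0 L0 (fun f g T S _ => f T * g S) where
  ad := by
    intro x y u
    show ((md (x + y) : ℕ) : ℤ) ≡ x + y [ZMOD 2 ^ 2304]
    refine (md_cong _).trans ?_
    rw [Nat.cast_add]
  lk := by
    intro k m T S u
    show ((u32 S (32 * m) * mkK0 (kf T k) : ℕ) : ℤ) ≡ ((1 : ℕ) : ℤ) *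
      (c9 * ((1 * u32 S (32 * m) : ℕ) : ℤ) - ((enc (kf T k) * u32 S (32 * m) : ℕ) : ℤ)) [ZMOD 2 ^ 2304]
    push_cast
    refine ((mkK0_cong (kf T k)).mul_left _).trans ?_
    have e : (1 : ℤ) * (c9 * (1 * (u32 S (32 * m) : ℤ)) - enc (kf T k) * (u32 S (32 * m) : ℤ)) =
      (u32 S (32 * m) : ℤ) * (c9 - enc (kf T k)) := by ring
    rw [e]

theorem LkV.step {β γ : Type} {D : ℕ} {l : γ → Vt D → ℕ} {A : Ad γ} {L : LK β γ}
    {cv : (ℕ → ℕ) → (ℕ → ℕ) → β → β → Vt D → ℕ} (h : LkV D l A L cv) :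
    LkV (D + 1) (lf3 l) (nxD A) (nxL A L) (cvS cv) where
  ad := by
    intro x y v
    obtain ⟨u, i⟩ := v
    cases x <;> cases y <;> fin_cases i <;> exact h.ad _ _ u
  lk := by
    intro k m T S v
    obtain ⟨u, i⟩ := v
    have hk := h.lk k m
    fin_cases i
    · show (l (A.ad (L.lk k m T.a S.a) (L.lk k m T.a S.a)) u : ℤ) ≡ ((e3 D u * 2 : ℕ) : ℤ) *
        (c9 * cv (fun _ => 1) (fun x => u32 x (32 * m)) T.a S.a u -
          cv (fun x => enc (kf x k)) (fun x => u32 x (32 * m)) T.a S.a u) [ZMOD 2 ^ 2304]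
      refine (h.ad _ _ u).trans (((hk _ _ u).add (hk _ _ u)).trans ?_)
      rw [Nat.cast_mul]
      refine modEq_of_eq ?_
      push_cast
      ring
    · show (l (A.ad (L.lk k m T.b S.a) (L.lk k m T.a S.b)) u : ℤ) ≡ ((e3 D u * 1 : ℕ) : ℤ) *
        (c9 * ((cv (fun _ => 1) (fun x => u32 x (32 * m)) T.a S.b u +
            cv (fun _ => 1) (fun x => u32 x (32 * m)) T.b S.a u : ℕ) : ℤ) -
          ((cv (fun x => enc (kf x k)) (fun x => u32 x (32 * m)) T.a S.b u +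
            cv (fun x => enc (kf x k)) (fun x => u32 x (32 * m)) T.b S.a u : ℕ) : ℤ)) [ZMOD 2 ^ 2304]
      refine (h.ad _ _ u).trans (((hk _ _ u).add (hk _ _ u)).trans ?_)
      refine modEq_of_eq ?_
      push_cast
      ring
    · show (l (A.ad (L.lk k m T.b S.b) (L.lk k m T.b S.b)) u : ℤ) ≡ ((e3 D u * 2 : ℕ) : ℤ) *
        (c9 * cv (fun _ => 1) (fun x => u32 x (32 * m)) T.b S.b u -
          cv (fun x => enc (kf x k)) (fun x => u32 x (32 * m)) T.b S.b u) [ZMOD 2 ^ 2304]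
      refine (h.ad _ _ u).trans (((hk _ _ u).add (hk _ _ u)).trans ?_)
      refine modEq_of_eq ?_
      push_cast
      ring

/-! ### the result -/

theorem lk_fin {β γ : Type} {D : ℕ} {E : Ek β} {O : ℕ} {l : γ → Vt D → ℕ} {A : Ad γ} {L : LK β γ}
    {cv : (ℕ → ℕ) → (ℕ → ℕ) → β → β → Vt D → ℕ} (hE : EkL D E O cv) (hL : LkV D l A L cv)
    (hD : D ≤ 4) : LkL D E O ⟨fun k m T S => l (L.lk k m T S)⟩ where
  ex := by
    intro k m T S
    have h4 : (2 : ℕ) ^ D ≤ 2 ^ 4 := Nat.pow_le_pow_right (by norm_num) hD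
    have hg : ∀ x, u32 x (32 * m) ≤ 2 ^ 32 := fun x => (u32_lt' x _).le
    have b1 : ∀ u, cv (fun _ => 1) (fun x => u32 x (32 * m)) T S u ≤ 2 ^ 36 := fun u =>
      (hE.bd (a := 1) T S (fun _ => le_rfl) hg u).trans (by
        calc 2 ^ D * (1 * 2 ^ 32) ≤ 2 ^ 4 * (1 * 2 ^ 32) := Nat.mul_le_mul_right _ h4
          _ = 2 ^ 36 := by norm_num)
    have b2 : ∀ u, cv (fun x => enc (kf x k)) (fun x => u32 x (32 * m)) T S u ≤ 2 ^ 2116 := fun u =>
      (hE.bd (a := 2 ^ 2080) T S (fun _ => enc_lt _) hg u).trans (by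
        calc 2 ^ D * (2 ^ 2080 * 2 ^ 32) ≤ 2 ^ 4 * (2 ^ 2080 * 2 ^ 32) := Nat.mul_le_mul_right _ h4
          _ = 2 ^ 2116 := by rw [← pow_add, ← pow_add])
    have hed : ∀ F : Vt D → ℕ, (∀ u, F u ≤ 2 ^ 2116) → ends (SC D).ds (p3 D F) =
        p3 D (fun u => e3 D u * F u) := by
      intro F hF
      have h := ends_ok D 1 (fun _ => F) (fun _ u => by
        calc F u * 2 ^ D ≤ 2 ^ 2116 * 2 ^ 4 := Nat.mul_le_mul (hF u) h4
          _ = 2 ^ 2120 := by rw [← pow_add]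
          _ < 2 ^ 2432 := Nat.pow_lt_pow_right (by norm_num) (by norm_num))
      rw [one_one, mpS_one] at h
      have e1 : ∀ G : Vt D → ℕ, pk (Yn D) 1 (fun _ => p3 D G) = p3 D G := fun G => by
        show p3 D G + Yn D * 0 = _
        rw [Nat.mul_zero, Nat.add_zero]
      rwa [e1, e1] at h
    refine ⟨fun u => e3 D u * (c9 * cv (fun _ => 1) (fun x => u32 x (32 * m)) T S u -
      cv (fun x => enc (kf x k)) (fun x => u32 x (32 * m)) T S u), ?_, ?_,
      fun u => (hL.lk k m T S u).symm⟩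
    · have hp : lkp (SC D) O E m S = c9 * p3 D (fun u => e3 D u *
          cv (fun _ => 1) (fun x => u32 x (32 * m)) T S u) := by
        show c9 * ends (SC D).ds (O * E.e (fun x => u32 x (32 * m)) S) = _
        rw [← hE.one T, hE.mul, hed _ fun u => (b1 u).trans
          (Nat.pow_le_pow_right (by norm_num) (by norm_num))]
      have hn : lkn (SC D) E k m T S = p3 D (fun u => e3 D u *
          cv (fun x => enc (kf x k)) (fun x => u32 x (32 * m)) T S u) := by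
        show ends (SC D).ds (E.e (fun x => enc (kf x k)) T * E.e (fun x => u32 x (32 * m)) S) = _
        rw [hE.mul, hed _ b2]
      rw [hp, hn, Nat.cast_mul, ← y3_cast, ← y3_cast, ← y3_mul, ← y3_sub]
      congr 1
      funext u
      push_cast
      ring
    · intro u
      have he : e3 D u ≤ 2 ^ 4 := (e3_le D u).trans h4
      have hc := c9_le
      have p1 : e3 D u * (c9 * cv (fun _ => 1) (fun x => u32 x (32 * m)) T S u) ≤ 2 ^ 2120 := by
        calc _ ≤ 2 ^ 4 * (2 ^ 2080 * 2 ^ 36) := Nat.mul_le_mul he (Nat.mul_le_mul hc (b1 u))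
          _ = 2 ^ 2120 := by rw [← pow_add, ← pow_add]
      have p2 : e3 D u * cv (fun x => enc (kf x k)) (fun x => u32 x (32 * m)) T S u ≤ 2 ^ 2120 := by
        calc _ ≤ 2 ^ 4 * 2 ^ 2116 := Nat.mul_le_mul he (b2 u)
          _ = 2 ^ 2120 := by rw [← pow_add]
      have q1 : ((e3 D u * (c9 * cv (fun _ => 1) (fun x => u32 x (32 * m)) T S u) : ℕ) : ℤ) ≤
          2 ^ 2120 := by exact_mod_cast p1
      have q2 : ((e3 D u * cv (fun x => enc (kf x k)) (fun x => u32 x (32 * m)) T S u : ℕ) : ℤ) ≤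
          2 ^ 2120 := by exact_mod_cast p2
      have z1 : (0 : ℤ) ≤ ((e3 D u * (c9 * cv (fun _ => 1) (fun x => u32 x (32 * m)) T S u) : ℕ) : ℤ) :=
        Int.natCast_nonneg _
      have z2 : (0 : ℤ) ≤ ((e3 D u * cv (fun x => enc (kf x k)) (fun x => u32 x (32 * m)) T S u : ℕ) :
        ℤ) := Int.natCast_nonneg _
      have hle : (2 : ℤ) ^ 2120 ≤ 2 ^ 2200 := pow_le_pow_right₀ (by norm_num) (by norm_num)
      have e : (e3 D u : ℤ) * (c9 * cv (fun _ => 1) (fun x => u32 x (32 * m)) T S u -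
          cv (fun x => enc (kf x k)) (fun x => u32 x (32 * m)) T S u) =
          ((e3 D u * (c9 * cv (fun _ => 1) (fun x => u32 x (32 * m)) T S u) : ℕ) : ℤ) -
          ((e3 D u * cv (fun x => enc (kf x k)) (fun x => u32 x (32 * m)) T S u : ℕ) : ℤ) := by
        push_cast; ring
      show |(e3 D u : ℤ) * (c9 * cv (fun _ => 1) (fun x => u32 x (32 * m)) T S u -
          cv (fun x => enc (kf x k)) (fun x => u32 x (32 * m)) T S u)| ≤ 2 ^ 2200
      rw [e, abs_le]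
      constructor <;> linarith

theorem Lk1_ok : LkL 1 Ek1 O1 ⟨fun k l T S => l1 (L1.lk k l T S)⟩ :=
  lk_fin ekl0.step lkv0.step (by norm_num)
theorem Lk2_ok : LkL 2 Ek2 O2 ⟨fun k l T S => l2 (L2.lk k l T S)⟩ :=
  lk_fin ekl0.step.step lkv0.step.step (by norm_num)
theorem Lk3_ok : LkL 3 Ek3 O3 ⟨fun k l T S => l3 (L3.lk k l T S)⟩ :=
  lk_fin ekl0.step.step.step lkv0.step.step.step (by norm_num)
theorem Lk4_ok : LkL 4 Ek4 O4 ⟨fun k l T S => l4 (L4.lk k l T S)⟩ :=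
  lk_fin ekl0.step.step.step.step lkv0.step.step.step.step (by norm_num)

end Pool.Agent.Helper86.CK
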