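import Pool.Agent.Helper86.CK.K6

/-!
Packed machine (MP_c75db0), row K9: the test at all slots, reference vectors.
-/

set_option autoImplicit false
set_option exponentiation.threshold 4000
noncomputable section
namespace Pool.Agent.Helper86.CK

open Pool.Agent.Helper86.C75 (Z)
open Pool.Agent.Helper86.CX
open Pool.Agent.Helper86.CT hiding K1 K2 K3 K4 y3
open Pool.Agent.Helper90.C75 (Vt)
open Pool.Agent.Helper90.KMO (zv)

/-! ### tools -/

theorem k9_Y (D : ℕ) : 0 < Yn D := by unfold Yn; positivity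

theorem k9_cast (D : ℕ) (f : Vt D → ℕ) : y3 D (fun v => (f v : ℤ)) = p3 D f := by
  induction D with
  | zero => rfl
  | succ D ih =>
    show y3 D (fun u => (f (u, 0) : ℤ)) + Yn D * (y3 D (fun u => (f (u, 1) : ℤ)) + Yn D *
      y3 D (fun u => (f (u, 2) : ℤ))) = ((p3 D (fun u => f (u, 0)) + Yn D *
      (p3 D (fun u => f (u, 1)) + Yn D * p3 D (fun u => f (u, 2))) : ℕ) : ℤ)
    rw [ih, ih, ih]
    push_cast
    ring

theorem k9_add (D : ℕ) (f g : Vt D → ℤ) : y3 D (fun v => f v + g v) = y3 D f + y3 D g := by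
  induction D with
  | zero => rfl
  | succ D ih =>
    show y3 D (fun u => f (u, 0) + g (u, 0)) + Yn D * (y3 D (fun u => f (u, 1) + g (u, 1)) +
      Yn D * y3 D (fun u => f (u, 2) + g (u, 2))) = (y3 D (fun u => f (u, 0)) + Yn D *
      (y3 D (fun u => f (u, 1)) + Yn D * y3 D (fun u => f (u, 2)))) + (y3 D (fun u => g (u, 0)) +
      Yn D * (y3 D (fun u => g (u, 1)) + Yn D * y3 D (fun u => g (u, 2))))
    rw [ih, ih, ih]
    ring

theorem k9_mul (D : ℕ) (c : ℤ) (f : Vt D → ℤ) : y3 D (fun v => c * f v) = c * y3 D f := by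
  induction D with
  | zero => rfl
  | succ D ih =>
    show y3 D (fun u => c * f (u, 0)) + Yn D * (y3 D (fun u => c * f (u, 1)) +
      Yn D * y3 D (fun u => c * f (u, 2))) = c * (y3 D (fun u => f (u, 0)) + Yn D *
      (y3 D (fun u => f (u, 1)) + Yn D * y3 D (fun u => f (u, 2))))
    rw [ih, ih, ih]
    ring

theorem k9_cst (D n : ℕ) : y3 D (fun _ => (n : ℤ)) = (n : ℤ) * (SC D).on := by
  have e := k9_mul D (n : ℤ) (fun _ => ((1 : ℕ) : ℤ))
  rw [k9_cast] at e
  rw [SC_on, ← e]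
  congr 1
  funext v
  push_cast
  rw [mul_one]

theorem k9_andB {x y : Bool} (h : andB x y = true) : x = true ∧ y = true := by
  cases x <;> cases y <;> simp_all [andB]

theorem H24_eq : H24 = 2 ^ 2431 := rfl
theorem H24_two : H24 + H24 = 2 ^ 2432 := by rw [H24_eq]; norm_num
theorem H24_dvd : (2 : ℤ) ^ 2304 ∣ (H24 : ℤ) := by
  rw [H24_eq]
  have e : ((2 ^ 2431 : ℕ) : ℤ) = 2 ^ 2431 := by norm_num
  rw [e]
  exact pow_dvd_pow 2 (by norm_num)

/-! ### the test -/

/-- leaves `g`, `p - n`, digits at most `b` -/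
def RG (D : ℕ) (g : Vt D → ℕ) (p n b : ℕ) : Prop :=
  b ≤ H24 → ∃ N : Vt D → ℤ, (p : ℤ) - n = y3 D N ∧ ∀ u, |N u| ≤ b ∧ N u ≡ g u [ZMOD 2 ^ 2304]

theorem RG.mul {D : ℕ} {g : Vt D → ℕ} {p n b : ℕ} (h : RG D g p n b) {c : ℕ}
    (hc : c * b ≤ H24) : ∃ N : Vt D → ℤ, (c : ℤ) * ((p : ℤ) - n) = y3 D N ∧
      ∀ u, |N u| ≤ c * b ∧ N u ≡ c * g u [ZMOD 2 ^ 2304] := by
  rcases Nat.eq_zero_or_pos c with rfl | hp
  · refine ⟨fun _ => 0 * 0, ?_, fun u => ⟨?_, ?_⟩⟩
    · rw [k9_mul]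
      simp
    · simp
    · simp
  · obtain ⟨N, h1, h2⟩ := h ((Nat.le_mul_of_pos_left b hp).trans hc)
    refine ⟨fun v => c * N v, ?_, fun u => ⟨?_, (h2 u).2.mul_left _⟩⟩
    · rw [k9_mul, h1]
    · rw [abs_mul, Nat.abs_cast]
      exact mul_le_mul_of_nonneg_left (h2 u).1 (Nat.cast_nonneg c)

theorem psL_mem {T : ℕ} {l : List ℕ} (h : psL l T = true) {s : ℕ} (hs : s ∈ l) :
    psd (Nat.land (Nat.shiftRight T s) NG) = true := by
  induction l with
  | nil => cases hs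
  | cons k l ih =>
    have h' := k9_andB (x := psd (Nat.land (Nat.shiftRight T k) NG)) (y := psL l T) h
    rcases List.mem_cons.mp hs with rfl | hs
    · exact h'.1
    · exact ih h'.2 hs

/-- THE TEST (careful: `b ≤ H24` follows from the test only if the factor `u`, `v ca`, `v cb` is not
zero; a zero factor kills the term) -/
theorem ps_ok {D : ℕ} {gx gy gz : Vt D → ℕ} {xp xn xb yp yn yb zp zn zb : ℕ}
    (hx : RG D gx xp xn xb) (hy : RG D gy yp yn yb) (hz : RG D gz zp zn zb) {u v w ca cb : ℕ}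
    (h : psB (SC D) (shs (3 ^ D)) u v (md w) ca cb xp xn xb yp yn yb zp zn zb = true) (q : Vt D) :
    ps0 u v w ca cb (gx q) (gy q) (gz q) = true := by
  obtain ⟨h1, h2⟩ := k9_andB (x := Nat.ble (u * xb + v * (ca * yb + cb * zb) + md w + 1) H24)
    (y := psL (shs (3 ^ D)) ((H24 + md w) * (SC D).on + u * xp + v * (ca * yp + cb * zp) -
      (u * xn + v * (ca * yn + cb * zn)))) h
  have h3 : u * xb + v * (ca * yb + cb * zb) + md w + 1 ≤ H24 := Nat.le_of_ble_eq_true h1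
  have e3 : u * xb + v * (ca * yb + cb * zb) = u * xb + (v * ca * yb + v * cb * zb) := by ring
  obtain ⟨N1, a1, b1⟩ := hx.mul (c := u) (by omega)
  obtain ⟨N2, a2, b2⟩ := hy.mul (c := v * ca) (by omega)
  obtain ⟨N3, a3, b3⟩ := hz.mul (c := v * cb) (by omega)
  have h4 := H24_two
  have h5 := H24_dvd
  generalize hH : H24 = H at *
  generalize hw : md w = w' at *
  -- the digits
  have hd : ∀ q, 0 ≤ (((H + w' : ℕ) : ℤ) + (N1 q + (N2 q + N3 q))) ∧
      (((H + w' : ℕ) : ℤ) + (N1 q + (N2 q + N3 q))) < 2 ^ 2432 := by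
    intro q
    have c1 := abs_le.mp (b1 q).1
    have c2 := abs_le.mp (b2 q).1
    have c3 := abs_le.mp (b3 q).1
    have h6 : ((u * xb + (v * ca * yb + v * cb * zb) + w' + 1 : ℕ) : ℤ) ≤ (H : ℤ) := by
      rw [← e3]
      exact_mod_cast h3
    have h7 : (H : ℤ) + H = 2 ^ 2432 := by exact_mod_cast h4
    rw [← h7]
    push_cast at h6 c2 c3 ⊢
    have hw0 : (0 : ℤ) ≤ w' := Nat.cast_nonneg w'
    constructor
    · linarith [c1.1, c2.1, c3.1]
    · linarith [c1.2, c2.2, c3.2]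
  have hT : (H + w') * (SC D).on + u * xp + v * (ca * yp + cb * zp) -
      (u * xn + v * (ca * yn + cb * zn)) =
      p3 D (fun q => (((H + w' : ℕ) : ℤ) + (N1 q + (N2 q + N3 q))).toNat) := by
    have e : ((p3 D (fun q => (((H + w' : ℕ) : ℤ) + (N1 q + (N2 q + N3 q))).toNat) : ℕ) : ℤ) =
        ((H + w') * (SC D).on + u * xp + v * (ca * yp + cb * zp) : ℕ) -
          ((u * xn + v * (ca * yn + cb * zn) : ℕ) : ℤ) := by
      rw [← k9_cast]
      have e1 : (fun q => (((((H + w' : ℕ) : ℤ) + (N1 q + (N2 q + N3 q))).toNat : ℕ) : ℤ)) =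
          fun q => ((H + w' : ℕ) : ℤ) + (N1 q + (N2 q + N3 q)) :=
        funext fun q => Int.toNat_of_nonneg (hd q).1
      rw [e1, k9_add, k9_add, k9_add, k9_cst, ← a1, ← a2, ← a3]
      push_cast
      ring
    omega
  rw [hT] at h2
  have hm := psL_mem h2 (ps_mem D q)
  have hlt : ∀ q, (((H + w' : ℕ) : ℤ) + (N1 q + (N2 q + N3 q))).toNat < 2 ^ 2432 := by
    intro q
    have h8 := (hd q).2
    have h9 := Int.toNat_of_nonneg (hd q).1
    rw [← h9] at h8
    exact_mod_cast h8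
  have hs := p3_slot hlt q
  have hland : ∀ T s : ℕ, Nat.land (Nat.shiftRight T s) NG = (T >>> s) % 2 ^ 2432 % 2 ^ 2304 := by
    intro T s
    show (T >>> s) &&& NG = _
    rw [Pool.Agent.Helper17.PAK.NG_eq, Nat.and_two_pow_sub_one_eq_mod, Nat.mod_mod_of_dvd]
    exact pow_dvd_pow 2 (by norm_num)
  rw [hland, hs] at hm
  have hmod : (((H + w' : ℕ) : ℤ) + (N1 q + (N2 q + N3 q))).toNat % 2 ^ 2304 =
      md (u * gx q + v * (ca * gy q + cb * gz q) + w) := by
    show _ = (u * gx q + v * (ca * gy q + cb * gz q) + w) % MM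
    rw [Pool.Agent.Helper17.PAK.MM_eq]
    have hh : (((((H + w' : ℕ) : ℤ) + (N1 q + (N2 q + N3 q))).toNat : ℕ) : ℤ) ≡
        ((u * gx q + v * (ca * gy q + cb * gz q) + w : ℕ) : ℤ) [ZMOD ((2 ^ 2304 : ℕ) : ℤ)] := by
      rw [Int.toNat_of_nonneg (hd q).1]
      have hH0 : (H : ℤ) ≡ 0 [ZMOD ((2 ^ 2304 : ℕ) : ℤ)] := by
        push_cast
        exact (Int.modEq_zero_iff_dvd).mpr h5
      have hw1 : (w' : ℤ) ≡ w [ZMOD ((2 ^ 2304 : ℕ) : ℤ)] := by
        rw [← hw, Int.natCast_modEq_iff]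
        show w % MM ≡ w [MOD 2 ^ 2304]
        rw [Pool.Agent.Helper17.PAK.MM_eq]
        exact Nat.mod_modEq _ _
      have g1 : N1 q ≡ u * gx q [ZMOD ((2 ^ 2304 : ℕ) : ℤ)] := by push_cast; exact (b1 q).2
      have g2 : N2 q ≡ ((v * ca : ℕ) : ℤ) * gy q [ZMOD ((2 ^ 2304 : ℕ) : ℤ)] := by
        have := (b2 q).2
        push_cast at this ⊢
        exact this
      have g3 : N3 q ≡ ((v * cb : ℕ) : ℤ) * gz q [ZMOD ((2 ^ 2304 : ℕ) : ℤ)] := by
        have := (b3 q).2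
        push_cast at this ⊢
        exact this
      have g4 := (hH0.add hw1).add (g1.add (g2.add g3))
      have e5 : ((H : ℤ) + w') + (N1 q + (N2 q + N3 q)) =
          ((H + w' : ℕ) : ℤ) + (N1 q + (N2 q + N3 q)) := by push_cast; ring
      have e6 : (0 + (w : ℤ)) + (u * gx q + (((v * ca : ℕ) : ℤ) * gy q + ((v * cb : ℕ) : ℤ) * gz q)) =
          ((u * gx q + v * (ca * gy q + cb * gz q) + w : ℕ) : ℤ) := by push_cast; ring
      rw [e5, e6] at g4
      exact g4
    exact (Int.natCast_modEq_iff.mp hh)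
  rw [hmod] at hm
  exact hm

/-! ### extraction of the entries -/

/-- extraction of the entries; `zC` is the canonical form of row K5 -/
theorem exB_ok {D : ℕ} {J : Vt D → ℤ} {r : ℕ} (hr : r ≤ 2 ^ 62) (hJ : ∀ v, |J v| ≤ 2 ^ 60) (v : Vt D) :
    exB (ps D v) r (p3 D (fun v => (J v + 2 ^ 100 - r).toNat)) =
      (match J v with
        | .ofNat n => Z.p n
        | .negSucc n => Z.m (n + 1)) := by
  have hr' : (r : ℤ) ≤ 2 ^ 62 := by exact_mod_cast hr
  have hb : ∀ v : Vt D, 0 ≤ J v + 2 ^ 100 - r ∧ J v + 2 ^ 100 - r < 2 ^ 2432 := by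
    intro v
    have h := abs_le.mp (hJ v)
    have h1 : (2 : ℤ) ^ 60 + 2 ^ 62 ≤ 2 ^ 100 := by norm_num
    have h2 : (2 : ℤ) ^ 60 + 2 ^ 100 < 2 ^ 2432 := by
      calc (2 : ℤ) ^ 60 + 2 ^ 100 < 2 ^ 101 := by norm_num
        _ ≤ 2 ^ 2432 := pow_le_pow_right₀ (by norm_num) (by norm_num)
    have h3 : (0 : ℤ) ≤ r := Nat.cast_nonneg r
    constructor <;> linarith [h.1, h.2]
  have hlt : ∀ v : Vt D, (J v + 2 ^ 100 - r).toNat < 2 ^ 2432 := by
    intro v
    have h8 := (hb v).2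
    rw [← Int.toNat_of_nonneg (hb v).1] at h8
    exact_mod_cast h8
  have hs := p3_slot hlt v
  have e : exB (ps D v) r (p3 D (fun v => (J v + 2 ^ 100 - r).toNat)) =
      toz (2 ^ 100) ((J v + 2 ^ 100 - r).toNat + r) := by
    show toz 1267650600228229401496703205376 ((p3 D (fun v => (J v + 2 ^ 100 - r).toNat) >>> ps D v) %
      2 ^ 2432 + r) = _
    rw [hs]
    norm_num
  rw [e]
  have hn := Int.toNat_of_nonneg (hb v).1
  generalize hm : (J v + 2 ^ 100 - r).toNat = m at *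
  have hJm : J v = (m : ℤ) + r - 2 ^ 100 := by linarith
  unfold toz
  cases hc : Nat.ble (2 ^ 100) (m + r) with
  | true =>
    have h' : 2 ^ 100 ≤ m + r := Nat.le_of_ble_eq_true hc
    have e2 : J v = Int.ofNat (m + r - 2 ^ 100) := by
      rw [hJm, Int.ofNat_eq_natCast]
      omega
    rw [e2]
    rfl
  | false =>
    have h' : m + r < 2 ^ 100 := by
      by_contra hcc
      rw [Nat.ble_eq_true_of_le (not_lt.mp hcc)] at hc
      cases hc
    have e2 : J v = Int.negSucc (2 ^ 100 - (m + r) - 1) := by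
      rw [hJm, Int.negSucc_eq]
      omega
    rw [e2]
    show Z.m (2 ^ 100 - (m + r)) = Z.m (2 ^ 100 - (m + r) - 1 + 1)
    congr 1
    omega

theorem svL_mem {f : P9 → Bool} {r s t : ℕ} {P : PB} {l : List ℕ} (h : svL f r s t P l = true) {k : ℕ}
    (hk : k ∈ l) : f (exZ r s t k P) = true := by
  induction l with
  | nil => cases hk
  | cons j l ih =>
    have h' := k9_andB (x := f (exZ r s t j P)) (y := svL f r s t P l) h
    rcases List.mem_cons.mp hk with rfl | hk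
    · exact h'.1
    · exact ih h'.2 hk

end Pool.Agent.Helper86.CK
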