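import Pool.Agent.Helper86.CK.KD
import Pool.Agent.Helper21.CT.KTN

/-!
Packed machine (MP_c75db0), common library: blocks of bits, packed digits.
-/

set_option autoImplicit false
set_option exponentiation.threshold 4000
noncomputable section
namespace Pool.Agent.Helper86.CK

open Pool.Agent.Helper86.C75 (Z)
open Pool.Agent.Helper86.CX
open Pool.Agent.Helper86.CT
open Pool.Agent.Helper90.C75 (Vt)
open Pool.Agent.Helper90.KMO (zv cz)
open Pool.Agent.Helper17.KPT (FSh or2 mulZ)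

/-! ### blocks of bits -/

theorem land2 {w a b : ℕ} (ha : a < 2 ^ w) (hb : b < 2 ^ w) (x y : ℕ) :
    (a + 2 ^ w * x) &&& (b + 2 ^ w * y) = (a &&& b) + 2 ^ w * (x &&& y) := by
  apply Nat.eq_of_testBit_eq
  intro i
  have hab : (a &&& b) < 2 ^ w := Nat.lt_of_le_of_lt Nat.and_le_left ha
  rw [Nat.testBit_and, Nat.add_comm a, Nat.add_comm b, Nat.add_comm (a &&& b),
    Nat.testBit_two_pow_mul_add _ ha, Nat.testBit_two_pow_mul_add _ hb,
    Nat.testBit_two_pow_mul_add _ hab]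
  split <;> simp

theorem shr2 {w k a g : ℕ} (hk : k ≤ w) (ha : a < 2 ^ w) (hg : g < 2 ^ (w - k)) (x y : ℕ) :
    ((a + 2 ^ w * x) >>> k) &&& (g + 2 ^ w * y) =
      ((a >>> k) &&& g) + 2 ^ w * ((x >>> k) &&& y) := by
  have hw : 2 ^ w = 2 ^ (w - k) * 2 ^ k := by rw [← pow_add]; congr 1; omega
  have h1 : (a + 2 ^ w * x) >>> k = (a >>> k) + 2 ^ (w - k) * x := by
    rw [Nat.shiftRight_eq_div_pow, Nat.shiftRight_eq_div_pow, hw,
      show 2 ^ (w - k) * 2 ^ k * x = 2 ^ k * (2 ^ (w - k) * x) by ring,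
      Nat.add_mul_div_left _ _ (by positivity)]
  have h2 : a >>> k < 2 ^ (w - k) := by
    rw [Nat.shiftRight_eq_div_pow, Nat.div_lt_iff_lt_mul (by positivity), ← hw]
    exact ha
  have h3 : g + 2 ^ w * y = g + 2 ^ (w - k) * (2 ^ k * y) := by rw [hw]; ring
  rw [h1, h3, land2 h2 hg]
  have h4 : x &&& (2 ^ k * y) = 2 ^ k * ((x >>> k) &&& y) := by
    apply Nat.eq_of_testBit_eq
    intro i
    rw [Nat.testBit_and, Nat.testBit_two_pow_mul, Nat.testBit_two_pow_mul, Nat.testBit_and,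
      Nat.testBit_shiftRight]
    by_cases hi : k ≤ i
    · rw [Nat.add_sub_cancel' hi]
      simp [hi]
    · simp [hi]
  rw [h4, hw]
  ring

/-- low block -/
theorem land_low {w a : ℕ} (ha : a < 2 ^ w) (x : ℕ) : (a + 2 ^ w * x) &&& (2 ^ w - 1) = a := by
  rw [Nat.and_two_pow_sub_one_eq_mod, Nat.add_mul_mod_self_left, Nat.mod_eq_of_lt ha]

theorem land_mask {w a : ℕ} (ha : a < 2 ^ w) : a &&& (2 ^ w - 1) = a := by
  rw [Nat.and_two_pow_sub_one_eq_mod, Nat.mod_eq_of_lt ha]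

/-! ### constants -/

/-- number of bits, modulus of a block -/
def ww (D : ℕ) : ℕ := 144 * 5 ^ D
def Wn (D : ℕ) : ℕ := 2 ^ ww D

theorem ww_succ (D : ℕ) : ww (D + 1) = 5 * ww D := by unfold ww; rw [pow_succ]; ring
theorem Wn_succ (D : ℕ) : Wn (D + 1) = Wn D ^ 5 := by
  unfold Wn; rw [ww_succ, mul_comm, pow_mul]
theorem Wn_pos (D : ℕ) : 0 < Wn D := by unfold Wn; positivity
theorem Wn_zero : Wn 0 = 2 ^ 144 := rfl

/-- the constants of depth `D` -/
def CC : ℕ → LC
  | 0 => C0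
  | D + 1 => nxC (CC D)

theorem CC1 : CC 1 = C1 := rfl
theorem CC2 : CC 2 = C2 := rfl
theorem CC3 : CC 3 = C3 := rfl
theorem CC4 : CC 4 = C4 := rfl

theorem B1_eq : B1 = 2 ^ 144 - 1 := by decide
theorem HB_eq : HB = 2 ^ 143 := by decide

theorem CC_w (D : ℕ) : (CC D).w = ww D := by
  induction D with
  | zero => rfl
  | succ D ih =>
    show 5 * (CC D).w = _
    rw [ih, ww_succ]

theorem CC_W (D : ℕ) : (CC D).W = Wn D := by
  induction D with
  | zero => show B1 + 1 = _; rw [B1_eq]; rfl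
  | succ D ih =>
    show (CC D).W * (CC D).W * ((CC D).W * (CC D).W) * (CC D).W = _
    rw [ih, Wn_succ]
    ring

theorem CC_sr (D : ℕ) : (CC D).sr = 48 + 2 * D := by
  induction D with
  | zero => rfl
  | succ D ih =>
    show (CC D).sr + 2 = _
    rw [ih]
    ring

theorem CC_D (D : ℕ) : (CC D).D = D := by
  induction D with
  | zero => rfl
  | succ D ih =>
    show (CC D).D + 1 = _
    rw [ih]

/-! ### packed digits -/

/-- `Σ_v f(v) B^e(v)` -/
def q3 : (D : ℕ) → (Vt D → ℕ) → ℕ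
  | 0, f => f ()
  | D + 1, f => q3 D (fun u => f (u, 0)) + Wn D * (q3 D (fun u => f (u, 1)) +
      Wn D * q3 D (fun u => f (u, 2)))
def z3 : (D : ℕ) → (Vt D → ℤ) → ℤ
  | 0, f => f ()
  | D + 1, f => z3 D (fun u => f (u, 0)) + Wn D * (z3 D (fun u => f (u, 1)) +
      Wn D * z3 D (fun u => f (u, 2)))
/-- number of middle indices -/
def mi : (D : ℕ) → Vt D → ℕ
  | 0, _ => 0
  | D + 1, v => mi D v.1 + if v.2 = 1 then 1 else 0
/-- the packed number of the integers `F` -/
def pkZ (D : ℕ) (F : Vt D → ℤ) : ℤ := z3 D (fun v => 2 ^ mi D v * F v)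

theorem q3_succ (D : ℕ) (f : Vt (D + 1) → ℕ) : q3 (D + 1) f = q3 D (fun u => f (u, 0)) +
    Wn D * (q3 D (fun u => f (u, 1)) + Wn D * q3 D (fun u => f (u, 2))) := rfl
theorem z3_succ (D : ℕ) (f : Vt (D + 1) → ℤ) : z3 (D + 1) f = z3 D (fun u => f (u, 0)) +
    Wn D * (z3 D (fun u => f (u, 1)) + Wn D * z3 D (fun u => f (u, 2))) := rfl

theorem mi_le (D : ℕ) (v : Vt D) : mi D v ≤ D := by
  induction D with
  | zero => exact le_rfl
  | succ D ih =>
    show mi D v.1 + _ ≤ _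
    have := ih v.1
    split <;> omega

theorem z3_cast (D : ℕ) (f : Vt D → ℕ) : z3 D (fun v => (f v : ℤ)) = q3 D f := by
  induction D with
  | zero => rfl
  | succ D ih => rw [z3_succ, q3_succ, ih, ih, ih]; push_cast; ring

theorem z3_add (D : ℕ) (f g : Vt D → ℤ) : z3 D (fun v => f v + g v) = z3 D f + z3 D g := by
  induction D with
  | zero => rfl
  | succ D ih => rw [z3_succ, z3_succ, z3_succ, ih, ih, ih]; ring

theorem z3_sub (D : ℕ) (f g : Vt D → ℤ) : z3 D (fun v => f v - g v) = z3 D f - z3 D g := by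
  induction D with
  | zero => rfl
  | succ D ih => rw [z3_succ, z3_succ, z3_succ, ih, ih, ih]; ring

theorem z3_neg (D : ℕ) (f : Vt D → ℤ) : z3 D (fun v => -f v) = -z3 D f := by
  induction D with
  | zero => rfl
  | succ D ih => rw [z3_succ, z3_succ, ih, ih, ih]; ring

theorem z3_mul (D : ℕ) (c : ℤ) (f : Vt D → ℤ) : z3 D (fun v => c * f v) = c * z3 D f := by
  induction D with
  | zero => rfl
  | succ D ih => rw [z3_succ, z3_succ, ih, ih, ih]; ring

theorem q3_add (D : ℕ) (f g : Vt D → ℕ) : q3 D (fun v => f v + g v) = q3 D f + q3 D g := by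
  induction D with
  | zero => rfl
  | succ D ih => rw [q3_succ, q3_succ, q3_succ, ih, ih, ih]; ring

theorem q3_mul (D : ℕ) (c : ℕ) (f : Vt D → ℕ) : q3 D (fun v => c * f v) = c * q3 D f := by
  induction D with
  | zero => rfl
  | succ D ih => rw [q3_succ, q3_succ, ih, ih, ih]; ring

theorem q3_mono {D : ℕ} {f g : Vt D → ℕ} (h : ∀ v, f v ≤ g v) : q3 D f ≤ q3 D g := by
  induction D with
  | zero => exact h ()
  | succ D ih =>
    rw [q3_succ, q3_succ]
    exact add_le_add (ih fun u => h (u, 0)) (Nat.mul_le_mul_left _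
      (add_le_add (ih fun u => h (u, 1)) (Nat.mul_le_mul_left _ (ih fun u => h (u, 2)))))

theorem q3_sub {D : ℕ} {f g : Vt D → ℕ} (h : ∀ v, g v ≤ f v) :
    q3 D (fun v => f v - g v) = q3 D f - q3 D g := by
  have e : q3 D (fun v => f v - g v) + q3 D g = q3 D f := by
    rw [← q3_add]
    congr 1
    funext v
    have := h v
    omega
  omega

theorem q3_lt3 {D : ℕ} {f : Vt D → ℕ} (h : ∀ v, f v < 2 ^ 144) : q3 D f < Wn D := by
  induction D with
  | zero => exact h ()
  | succ D ih =>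
    have h0 := ih fun u => h (u, 0)
    have h1 := ih fun u => h (u, 1)
    have h2 := ih fun u => h (u, 2)
    have hW := Wn_pos D
    rw [q3_succ]
    have a1 : q3 D (fun u => f (u, 1)) + Wn D * q3 D (fun u => f (u, 2)) < Wn D ^ 2 := by
      nlinarith
    have a2 : q3 D (fun u => f (u, 0)) + Wn D * (q3 D (fun u => f (u, 1)) +
        Wn D * q3 D (fun u => f (u, 2))) < Wn D ^ 3 := by
      nlinarith
    refine a2.trans_le ?_
    rw [Wn_succ]
    exact Nat.pow_le_pow_right hW (by norm_num)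

/-- the digits are bounded by `2 ^ (144 - k)` -/
theorem q3_ltk {D k : ℕ} (hk : k ≤ 144) {f : Vt D → ℕ} (h : ∀ v, f v < 2 ^ (144 - k)) :
    q3 D f < 2 ^ (ww D - k) := by
  have hw : k ≤ ww D := by unfold ww; nlinarith [Nat.one_le_pow D 5 (by norm_num)]
  have e : q3 D (fun v => 2 ^ k * f v) < Wn D := by
    refine q3_lt3 fun v => ?_
    calc 2 ^ k * f v < 2 ^ k * 2 ^ (144 - k) := Nat.mul_lt_mul_of_pos_left (h v) (by positivity)
      _ = 2 ^ 144 := by rw [← pow_add]; congr 1; omega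
  rw [q3_mul] at e
  have e2 : Wn D = 2 ^ k * 2 ^ (ww D - k) := by
    unfold Wn; rw [← pow_add]; congr 1; omega
  rw [e2] at e
  exact Nat.lt_of_mul_lt_mul_left e

theorem q3_land {D : ℕ} {f g : Vt D → ℕ} (hf : ∀ v, f v < 2 ^ 144) (hg : ∀ v, g v < 2 ^ 144) :
    q3 D f &&& q3 D g = q3 D (fun v => f v &&& g v) := by
  induction D with
  | zero => rfl
  | succ D ih =>
    rw [q3_succ, q3_succ, q3_succ]
    unfold Wn
    rw [land2 (q3_lt3 fun u => hf (u, 0)) (q3_lt3 fun u => hg (u, 0)),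
      land2 (q3_lt3 fun u => hf (u, 1)) (q3_lt3 fun u => hg (u, 1)),
      ih (fun u => hf (u, 0)) (fun u => hg (u, 0)), ih (fun u => hf (u, 1)) (fun u => hg (u, 1)),
      ih (fun u => hf (u, 2)) (fun u => hg (u, 2))]

theorem q3_shr {D k : ℕ} (hk : k ≤ 144) {f g : Vt D → ℕ} (hf : ∀ v, f v < 2 ^ 144)
    (hg : ∀ v, g v < 2 ^ (144 - k)) :
    (q3 D f >>> k) &&& q3 D g = q3 D (fun v => (f v >>> k) &&& g v) := by
  have hw : ∀ D, k ≤ ww D := fun D => by
    unfold ww; nlinarith [Nat.one_le_pow D 5 (by norm_num)]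
  induction D with
  | zero => rfl
  | succ D ih =>
    rw [q3_succ, q3_succ, q3_succ]
    unfold Wn
    rw [shr2 (hw D) (q3_lt3 fun u => hf (u, 0)) (q3_ltk hk fun u => hg (u, 0)),
      shr2 (hw D) (q3_lt3 fun u => hf (u, 1)) (q3_ltk hk fun u => hg (u, 1)),
      ih (fun u => hf (u, 0)) (fun u => hg (u, 0)), ih (fun u => hf (u, 1)) (fun u => hg (u, 1)),
      ih (fun u => hf (u, 2)) (fun u => hg (u, 2))]

/-- uniqueness of digits -/
theorem q3_inj {D : ℕ} {f g : Vt D → ℕ} (hf : ∀ v, f v < 2 ^ 144) (hg : ∀ v, g v < 2 ^ 144)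
    (h : q3 D f = q3 D g) : ∀ v, f v = g v := by
  induction D with
  | zero => exact fun v => h
  | succ D ih =>
    rw [q3_succ, q3_succ] at h
    have hf0 := q3_lt3 fun u => hf (u, 0)
    have hg0 := q3_lt3 fun u => hg (u, 0)
    have hf1 := q3_lt3 fun u => hf (u, 1)
    have hg1 := q3_lt3 fun u => hg (u, 1)
    have hW := Wn_pos D
    have e0 : q3 D (fun u => f (u, 0)) = q3 D (fun u => g (u, 0)) := by
      have := congrArg (· % Wn D) h
      simpa [Nat.add_mul_mod_self_left, Nat.mod_eq_of_lt, hf0, hg0] using this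
    rw [e0] at h
    have h' := Nat.eq_of_mul_eq_mul_left hW (Nat.add_left_cancel h)
    have e1 : q3 D (fun u => f (u, 1)) = q3 D (fun u => g (u, 1)) := by
      have := congrArg (· % Wn D) h'
      simpa [Nat.add_mul_mod_self_left, Nat.mod_eq_of_lt, hf1, hg1] using this
    rw [e1] at h'
    have e2 := Nat.eq_of_mul_eq_mul_left hW (Nat.add_left_cancel h')
    rintro ⟨u, i⟩
    fin_cases i
    · exact ih (fun u => hf (u, 0)) (fun u => hg (u, 0)) e0 u
    · exact ih (fun u => hf (u, 1)) (fun u => hg (u, 1)) e1 u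
    · exact ih (fun u => hf (u, 2)) (fun u => hg (u, 2)) e2 u

/-- uniqueness of balanced digits -/
theorem z3_inj {D : ℕ} {f g : Vt D → ℤ} (hf : ∀ v, |f v| < 2 ^ 143) (hg : ∀ v, |g v| < 2 ^ 143)
    (h : z3 D f = z3 D g) : ∀ v, f v = g v := by
  have key : ∀ {f : Vt D → ℤ}, (∀ v, |f v| < 2 ^ 143) → ∀ v,
      (((f v + 2 ^ 143).toNat : ℕ) : ℤ) = f v + 2 ^ 143 ∧ (f v + 2 ^ 143).toNat < 2 ^ 144 := by
    intro f hf v
    have := abs_lt.mp (hf v)
    constructor
    · exact Int.toNat_of_nonneg (by linarith)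
    · zify
      rw [Int.toNat_of_nonneg (by linarith)]
      have e : (2 : ℤ) ^ 144 = 2 ^ 143 + 2 ^ 143 := by norm_num
      rw [e]
      linarith
  have e : q3 D (fun v => (f v + 2 ^ 143).toNat) = q3 D (fun v => (g v + 2 ^ 143).toNat) := by
    zify
    rw [← z3_cast, ← z3_cast]
    simp only [(key hf _).1, (key hg _).1]
    rw [z3_add, z3_add, h]
  intro v
  have := q3_inj (fun v => (key hf v).2) (fun v => (key hg v).2) e v
  have h1 := (key hf v).1
  have h2 := (key hg v).1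
  rw [this] at h1
  linarith

/-! ### the constants as packed digits -/

theorem CC_o3 (D : ℕ) : (CC D).o3 = q3 D (fun _ => 1) := by
  induction D with
  | zero => rfl
  | succ D ih =>
    show (1 + (CC D).W * (1 + (CC D).W)) * (CC D).o3 = _
    rw [q3_succ, ← ih, CC_W]
    ring

theorem CC_od (D : ℕ) : (CC D).od = q3 D (fun v => 2 ^ mi D v) := by
  induction D with
  | zero => rfl
  | succ D ih =>
    show (1 + (CC D).W * (2 + (CC D).W)) * (CC D).od = _
    have e0 : (fun u : Vt D => 2 ^ mi (D + 1) (u, (0 : Fin 3))) = fun u => 2 ^ mi D u := rfl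
    have e1 : (fun u : Vt D => 2 ^ mi (D + 1) (u, (1 : Fin 3))) = fun u => 2 * 2 ^ mi D u := by
      funext u
      show 2 ^ (mi D u + 1) = _
      rw [pow_succ]; ring
    have e2 : (fun u : Vt D => 2 ^ mi (D + 1) (u, (2 : Fin 3))) = fun u => 2 ^ mi D u := rfl
    rw [q3_succ, e0, e1, e2, q3_mul, ← ih, CC_W]
    ring

/-- `n` in all slots -/
theorem cst_o3 (D n : ℕ) : n * (CC D).o3 = q3 D (fun _ => n) := by
  rw [CC_o3, ← q3_mul]
  simp

/-- `n 2 ^ m` in all slots -/
theorem cst_od (D n : ℕ) : n * (CC D).od = q3 D (fun v => n * 2 ^ mi D v) := by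
  rw [CC_od, ← q3_mul]

theorem zv_toz (n v : ℕ) : zv (toz n v) = (v : ℤ) - n := by
  unfold toz
  cases h : Nat.ble n v with
  | true =>
    have := Nat.le_of_ble_eq_true h
    show ((v - n : ℕ) : ℤ) = _
    push_cast [this]
    ring
  | false =>
    have h' : v < n := by
      by_contra hc
      rw [Nat.ble_eq_true_of_le (not_lt.mp hc)] at h
      cases h
    show -((n - v : ℕ) : ℤ) = _
    push_cast [h'.le]
    ring

theorem ofs_eq {n : ℕ} {z : Z} (h : -(n : ℤ) ≤ zv z) : (ofs n z : ℤ) = n + zv z := by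
  cases z with
  | p x => exact Nat.cast_add n x
  | m x =>
    have h' : x ≤ n := by
      have : -(n : ℤ) ≤ -(x : ℤ) := h
      omega
    show ((n - x : ℕ) : ℤ) = n + -(x : ℤ)
    push_cast [h']
    ring

/-- the offset digits of a packed number -/
theorem ofs_q3 {D n : ℕ} {z : Z} {F : Vt D → ℤ} (hz : zv z = z3 D F) (hF : ∀ v, |F v| ≤ n) :
    ofs (n * (CC D).o3) z = q3 D (fun v => (n + F v).toNat) := by
  have e : ∀ v, (((n + F v).toNat : ℕ) : ℤ) = n + F v := fun v =>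
    Int.toNat_of_nonneg (by have := abs_le.mp (hF v); linarith)
  have hs : (q3 D (fun v => (n + F v).toNat) : ℤ) = (n * (CC D).o3 : ℕ) + zv z := by
    rw [← z3_cast]
    simp only [e]
    rw [z3_add, hz, cst_o3, ← z3_cast]
  zify
  rw [ofs_eq, hs]
  have := Int.natCast_nonneg (q3 D (fun v => (n + F v).toNat))
  linarith

end Pool.Agent.Helper86.CK
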