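import Pool.Agent.Helper86.CK.K2

/-!
Packed machine for the classes with tails (MP_c75db0): product with a constant. No reduction is
necessary: the digits of a constant times a function fit into a slot.
-/

set_option autoImplicit false
set_option exponentiation.threshold 4000
noncomputable section
namespace Pool.Agent.Helper86.CK

open Pool.Agent.Helper86.C75 (Z)
open Pool.Agent.Helper86.CX
open Pool.Agent.Helper90.C75 (Vt)
open Pool.Agent.Helper90.KMO (zv zv_mul zv_p zv_m)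
open Pool.Agent.Helper17.KPT (mulZ)

/-- the constant of a constant function -/
def lowZ (z : Z) : Z :=
  Z.rec (motive := fun _ => Z) (fun n => Z.p (Nat.land n B1)) (fun n => Z.m (Nat.land n B1)) z
/-- the mask `2 ^ 96 - 2 ^ m` -/
def mkC (C : LC) : Nat :=
  Nat.sub (Nat.mul (nat_lit 79228162514264337593543950335) C.o3) (Nat.sub C.od C.o3)
def fl48 (C : LC) (U : Nat) : Z :=
  toz (Nat.mul (nat_lit 39614081257132168796771975168) C.o3) (Nat.land (Nat.shiftRight U (nat_lit 48)) (mkC C))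
/-- the digits divided by `2 ^ 48` -/
def mc (C : LC) (z : Z) : Z := fl48 C (ofs (Nat.mul HB C.o3) z)

theorem land_hi {n m : ℕ} (hn : n < 2 ^ 96) (hm : m ≤ 96) :
    n &&& (2 ^ 96 - 2 ^ m) = 2 ^ m * (n / 2 ^ m) := by
  have e : 2 ^ 96 - 2 ^ m = (2 ^ (96 - m) - 1) <<< m := by
    rw [Nat.shiftLeft_eq, Nat.sub_mul, ← pow_add, one_mul]
    congr 2
    omega
  have e2 : 2 ^ m * (n / 2 ^ m) = (n >>> m) <<< m := by
    rw [Nat.shiftLeft_eq, Nat.shiftRight_eq_div_pow, mul_comm]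
  rw [e, e2]
  have h1 : n >>> m = (n >>> m) &&& (2 ^ (96 - m) - 1) := by
    rw [land_mask]
    rw [Nat.shiftRight_eq_div_pow, Nat.div_lt_iff_lt_mul (by positivity), ← pow_add]
    convert hn using 2
    omega
  conv_rhs => rw [h1]
  apply Nat.eq_of_testBit_eq
  intro i
  simp only [Nat.testBit_and, Nat.testBit_shiftLeft, Nat.testBit_shiftRight]
  by_cases hi : m ≤ i
  · have : m + (i - m) = i := by omega
    simp [hi, this]
  · simp [hi]

theorem c143 : (2 : ℤ) ^ 130 ≤ 2 ^ 142 ∧ (2 : ℤ) ^ 142 ≤ 2 ^ 143 ∧ (2 : ℤ) ^ 143 + 2 ^ 142 < 2 ^ 144 := by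
  norm_num

theorem dig_pos {x : ℤ} (h : |x| ≤ 2 ^ 130) : 0 ≤ (2 : ℤ) ^ 143 + x ∧ (2 : ℤ) ^ 143 + x < 2 ^ 144 := by
  obtain ⟨c1, c2, c3⟩ := c143
  have h1 := abs_le.mp h
  constructor <;> linarith [h1.1, h1.2]

theorem dig48 {m : ℕ} (hm : m ≤ 4) {w : ℤ} (hw : |2 ^ m * w| ≤ 2 ^ 130) :
    (((((2 : ℤ) ^ 143 + 2 ^ m * w).toNat >>> 48) &&& (2 ^ 96 - 2 ^ m) : ℕ) : ℤ) =
      2 ^ 95 + 2 ^ m * (w / 2 ^ 48) := by
  obtain ⟨h0, h1⟩ := dig_pos hw
  have hn : ((2 : ℤ) ^ 143 + 2 ^ m * w).toNat >>> 48 < 2 ^ 96 := by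
    rw [Nat.shiftRight_eq_div_pow, Nat.div_lt_iff_lt_mul (by positivity), ← pow_add]
    have : (((2 : ℤ) ^ 143 + 2 ^ m * w).toNat : ℤ) < ((2 ^ (96 + 48) : ℕ) : ℤ) := by
      rw [Int.toNat_of_nonneg h0, Nat.cast_pow]
      exact h1
    exact_mod_cast this
  rw [land_hi hn (by omega), Nat.shiftRight_eq_div_pow, Nat.cast_mul, Int.natCast_div,
    Int.natCast_div, Int.toNat_of_nonneg h0, Nat.cast_pow, Nat.cast_pow, Nat.cast_ofNat]
  have e1 : (2 : ℤ) ^ 143 = 2 ^ (95 - m) * 2 ^ m * 2 ^ 48 := by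
    rw [← pow_add, ← pow_add]
    congr 1
    omega
  have e2 : (2 : ℤ) ^ 95 = 2 ^ (95 - m) * 2 ^ m := by
    rw [← pow_add]
    congr 1
    omega
  rw [e1, e2]
  have p1 : (0 : ℤ) < 2 ^ m := by positivity
  have p2 : (0 : ℤ) ≤ 2 ^ 48 := by positivity
  have e3 : (2 ^ (95 - m) * 2 ^ m * 2 ^ 48 + 2 ^ m * w) / 2 ^ 48 / 2 ^ m =
      2 ^ (95 - m) + w / (2 : ℤ) ^ 48 := by
    rw [Int.ediv_ediv_of_nonneg p2]
    have e4 : (2 : ℤ) ^ (95 - m) * 2 ^ m * 2 ^ 48 + 2 ^ m * w =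
        2 ^ m * (w + 2 ^ (95 - m) * 2 ^ 48) := by ring
    rw [e4, mul_comm ((2 : ℤ) ^ 48), Int.mul_ediv_mul_of_pos _ _ p1,
      Int.add_mul_ediv_right _ _ (by positivity), add_comm]
  rw [e3]
  ring

theorem mkC_eq {D : ℕ} (hD : D ≤ 4) : mkC (CC D) = q3 D (fun v => 2 ^ 96 - 2 ^ mi D v) := by
  have hb : ∀ v : Vt D, 2 ^ mi D v ≤ 2 ^ 4 := fun v =>
    Nat.pow_le_pow_right (by norm_num) ((mi_le D v).trans hD)
  show 79228162514264337593543950335 * (CC D).o3 - ((CC D).od - (CC D).o3) = _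
  rw [cst_o3, CC_od, CC_o3, ← q3_sub fun v => Nat.one_le_two_pow, ← q3_sub]
  · congr 1
    funext v
    have h1 : 1 ≤ 2 ^ mi D v := Nat.one_le_two_pow
    have h2 := hb v
    norm_num at h2 ⊢
    omega
  · intro v
    have h2 := hb v
    norm_num at h2 ⊢
    omega

theorem mc_ok {D : ℕ} (hD : D ≤ 4) {z : Z} {G : Vt D → ℤ} (hG : ∀ v, |G v| ≤ 2 ^ 125)
    (hz : zv z = pkZ D G) : zv (mc (CC D) z) = pkZ D (fun v => G v / 2 ^ 48) := by
  have hF : ∀ v, |2 ^ mi D v * G v| ≤ 2 ^ 130 := by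
    intro v
    have h1 := mi_le D v
    have h2 : (2 : ℤ) ^ mi D v ≤ 2 ^ 4 := pow_le_pow_right₀ (by norm_num) (h1.trans hD)
    rw [abs_mul, abs_of_nonneg (by positivity)]
    calc (2 : ℤ) ^ mi D v * |G v| ≤ 2 ^ 4 * 2 ^ 125 :=
          mul_le_mul h2 (hG v) (abs_nonneg _) (by positivity)
      _ ≤ 2 ^ 130 := by norm_num
  have ho : ofs (2 ^ 143 * (CC D).o3) z = q3 D (fun v => ((2 : ℤ) ^ 143 + 2 ^ mi D v * G v).toNat) := by
    have h1 : ∀ v, |2 ^ mi D v * G v| ≤ ((2 ^ 143 : ℕ) : ℤ) := fun v => by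
      rw [Nat.cast_pow]
      exact (hF v).trans (c143.1.trans c143.2.1)
    have h2 := ofs_q3 (n := 2 ^ 143) hz h1
    rw [Nat.cast_pow, Nat.cast_ofNat] at h2
    exact h2
  have hd : ∀ v, ((2 : ℤ) ^ 143 + 2 ^ mi D v * G v).toNat < 2 ^ 144 := by
    intro v
    obtain ⟨h0, h1⟩ := dig_pos (hF v)
    have : (((2 : ℤ) ^ 143 + 2 ^ mi D v * G v).toNat : ℤ) < ((2 ^ 144 : ℕ) : ℤ) := by
      rw [Int.toNat_of_nonneg h0, Nat.cast_pow]
      exact h1
    exact_mod_cast this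
  have e1 : mc (CC D) z = toz (39614081257132168796771975168 * (CC D).o3)
    ((ofs (HB * (CC D).o3) z >>> 48) &&& mkC (CC D)) := rfl
  have hg : ∀ v : Vt D, 2 ^ 96 - 2 ^ mi D v < 2 ^ (144 - 48) := fun v =>
    Nat.sub_lt (by positivity) (by positivity)
  rw [e1, zv_toz, HB_eq, ho, mkC_eq hD, q3_shr (by norm_num) hd hg, cst_o3, ← z3_cast, ← z3_cast,
    ← z3_sub]
  unfold pkZ
  congr 1
  funext v
  rw [dig48 ((mi_le D v).trans hD) (hF v)]
  have : ((39614081257132168796771975168 : ℕ) : ℤ) = 2 ^ 95 := by norm_num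
  rw [this]
  ring

theorem od_mod (D : ℕ) : (CC D).od % 2 ^ 144 = 1 := by
  induction D with
  | zero =>
    have e : (CC 0).od = 1 := rfl
    rw [e]
    exact Nat.mod_eq_of_lt (Nat.one_lt_two_pow (by norm_num))
  | succ D ih =>
    have e : (CC (D + 1)).od = (CC D).od + 2 ^ 144 * (2 ^ (ww D - 144) * ((2 + Wn D) * (CC D).od)) := by
      have hw : 144 ≤ ww D := by unfold ww; nlinarith [Nat.one_le_pow D 5 (by norm_num)]
      have e1 : Wn D = 2 ^ 144 * 2 ^ (ww D - 144) := by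
        unfold Wn; rw [← pow_add, Nat.add_sub_cancel' hw]
      have e2 : (CC (D + 1)).od = (1 + (CC D).W * (2 + (CC D).W)) * (CC D).od := rfl
      rw [e2, CC_W, ← mul_assoc (2 ^ 144), ← e1]
      ring
    rw [e, Nat.add_mul_mod_self_left]
    exact ih

/-- the constant -/
theorem low_ok {D : ℕ} {z : Z} {c : ℤ} (hc : |c| ≤ 2 ^ 60) (hz : zv z = ((CC D).od : ℤ) * c) :
    zv (lowZ z) = c := by
  have key : ∀ n : ℕ, (n : ℤ) = ((CC D).od : ℤ) * |c| → ((n &&& B1 : ℕ) : ℤ) = |c| := by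
    intro n hn
    rw [B1_eq, Nat.and_two_pow_sub_one_eq_mod]
    have h1 : n = (CC D).od * c.natAbs := by
      zify
      exact hn
    have h2 : c.natAbs < 2 ^ 144 := by
      have h3 : (c.natAbs : ℤ) ≤ ((2 ^ 60 : ℕ) : ℤ) := by
        rw [Int.natCast_natAbs, Nat.cast_pow]; exact hc
      have h4 : c.natAbs ≤ 2 ^ 60 := by exact_mod_cast h3
      exact h4.trans_lt (Nat.pow_lt_pow_right (by norm_num) (by norm_num))
    rw [h1, Nat.mul_mod, od_mod, one_mul, Nat.mod_mod, Nat.mod_eq_of_lt h2, Int.natCast_natAbs]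
  have ho : (0 : ℤ) < (CC D).od := by
    have h := od_mod D
    have : 0 < (CC D).od := by
      rcases Nat.eq_zero_or_pos (CC D).od with h0 | h0
      · rw [h0] at h; norm_num at h
      · exact h0
    exact_mod_cast this
  cases z with
  | p n =>
    have h1 : (n : ℤ) = ((CC D).od : ℤ) * c := hz
    have h0 : 0 ≤ c := by
      by_contra h
      have : ((CC D).od : ℤ) * c < 0 := mul_neg_of_pos_of_neg ho (by omega)
      have : (0 : ℤ) ≤ n := Int.natCast_nonneg n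
      omega
    show (((n &&& B1) : ℕ) : ℤ) = c
    rw [key n (by rw [abs_of_nonneg h0]; exact h1), abs_of_nonneg h0]
  | m n =>
    have h1 : -(n : ℤ) = ((CC D).od : ℤ) * c := hz
    have h0 : c ≤ 0 := by
      by_contra h
      have : 0 < ((CC D).od : ℤ) * c := mul_pos ho (by omega)
      have : (0 : ℤ) ≤ n := Int.natCast_nonneg n
      omega
    show -(((n &&& B1) : ℕ) : ℤ) = c
    rw [key n (by rw [abs_of_nonpos h0]; linarith), abs_of_nonpos h0, neg_neg]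

end Pool.Agent.Helper86.CK
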