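import Pool.Agent.Helper86.CT.KerT

/-!
Packed machine for the classes with tails (MP_c75db0), kernel side: all control values of a function
of `D` variables in one number. Slots of 144 bits, the digit of a control value `I` is `2 ^ m I`,
`m` the number of its middle indices; a product is a product of numbers followed by a reduction of
the indices `0, .., 4`. Only arithmetic here, no proofs.
-/

set_option autoImplicit false
noncomputable section
namespace Pool.Agent.Helper86.CK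

open Pool.Agent.Helper86.C75 (Z)
open Pool.Agent.Helper86.CX
open Pool.Agent.Helper86.CT

/-! ### constants -/

/-- a direction: shifts `s, 2 s, 3 s`, masks of the indices `0, 2, 4`, constant of the reduction,
masks of the indices `0, 1, 2` with all other indices at most two, constant of the differences -/
structure DC where
  s : Nat
  s2 : Nat
  s3 : Nat
  m0 : Nat
  m2 : Nat
  m4 : Nat
  c : Nat
  ta : Nat
  tc : Nat
  tb : Nat
  k : Nat

/-- constants of a depth: number of bits, `2 ^ w`, ones at all indices, ones at the indices at most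
two, `2 ^ m` at the indices at most two, shift of the products, depth, directions (innermost first) -/
structure LC where
  w : Nat
  W : Nat
  o5 : Nat
  o3 : Nat
  od : Nat
  sr : Nat
  D : Nat
  ds : List DC

/-- `2 ^ 144 - 1`, `2 ^ 143` -/
def B1 : Nat := (nat_lit 22300745198530623141535718272648361505980415)
def HB : Nat := (nat_lit 11150372599265311570767859136324180752990208)

def C0 : LC := ⟨(nat_lit 144), Nat.add B1 (nat_lit 1), (nat_lit 1), (nat_lit 1), (nat_lit 1), (nat_lit 48), (nat_lit 0), []⟩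

def f5 (W : Nat) : Nat :=
  Nat.add (nat_lit 1) (Nat.mul W (Nat.add (nat_lit 1) (Nat.mul W (Nat.add (nat_lit 1) (Nat.mul W (Nat.add (nat_lit 1) W))))))
def f3 (W : Nat) : Nat := Nat.add (nat_lit 1) (Nat.mul W (Nat.add (nat_lit 1) W))
def fd (W : Nat) : Nat := Nat.add (nat_lit 1) (Nat.mul W (Nat.add (nat_lit 2) W))

/-- an old direction, one level higher -/
def scD (W : Nat) (d : DC) : DC :=
  ⟨d.s, d.s2, d.s3, Nat.mul (f5 W) d.m0, Nat.mul (f5 W) d.m2, Nat.mul (f5 W) d.m4, Nat.mul (f5 W) d.c,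
    Nat.mul (f3 W) d.ta, Nat.mul (f3 W) d.tc, Nat.mul (f3 W) d.tb, Nat.mul (f3 W) d.k⟩
/-- the new direction -/
def nwD (w W o5 o3 : Nat) : DC :=
  ⟨w, Nat.mul (nat_lit 2) w, Nat.mul (nat_lit 3) w, Nat.sub W (nat_lit 1), Nat.mul (Nat.mul W W) (Nat.sub W (nat_lit 1)),
    Nat.mul (Nat.mul (Nat.mul W W) (Nat.mul W W)) (Nat.sub W (nat_lit 1)),
    Nat.mul (Nat.mul HB o5) (Nat.sub (Nat.add (Nat.mul (Nat.mul (Nat.mul W W) W) (Nat.add W (nat_lit 1))) (Nat.mul (nat_lit 2) W))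
      (Nat.mul (nat_lit 3) (Nat.add (Nat.mul W W) (nat_lit 1)))),
    Nat.mul B1 o3, Nat.mul W (Nat.mul B1 o3), Nat.mul (Nat.mul W W) (Nat.mul B1 o3), Nat.mul W (Nat.mul HB o3)⟩
def mpD (f : DC → DC) (x : DC) (l : List DC) : List DC :=
  List.rec (motive := fun _ => List DC) [x] (fun d _ ih => f d :: ih) l
def nxC (C : LC) : LC :=
  ⟨Nat.mul (nat_lit 5) C.w, Nat.mul (Nat.mul (Nat.mul C.W C.W) (Nat.mul C.W C.W)) C.W, Nat.mul (f5 C.W) C.o5,
    Nat.mul (f3 C.W) C.o3, Nat.mul (fd C.W) C.od, Nat.add C.sr (nat_lit 2), Nat.add C.D (nat_lit 1),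
    mpD (scD C.W) (nwD C.w C.W C.o5 C.o3) C.ds⟩
def C1 : LC := nxC C0
def C2 : LC := nxC C1
def C3 : LC := nxC C2
def C4 : LC := nxC C3

/-! ### numbers -/

def stg1 (d : DC) (a b e : Nat) : Nat :=
  Nat.sub (Nat.add (Nat.add (Nat.mul (nat_lit 4) (Nat.add a (Nat.shiftRight e d.s2))) (Nat.shiftRight b d.s)) d.c)
    (Nat.add (Nat.shiftLeft a d.s) (Nat.shiftRight e d.s3))
/-- reduction of one index, all digits plus `2 ^ 143` -/
def stg (d : DC) (U : Nat) : Nat := stg1 d (Nat.land U d.m0) (Nat.land U d.m2) (Nat.land U d.m4)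
def stgs (l : List DC) : Nat → Nat :=
  List.rec (motive := fun _ => Nat → Nat) (fun U => U) (fun d _ ih U => ih (stg d U)) l

/-- digits with index `1` times `2` -/
def dbls (l : List DC) : Nat → Nat :=
  List.rec (motive := fun _ => Nat → Nat) (fun U => U) (fun d _ ih U => ih (Nat.add U (Nat.land U d.tc))) l

/-- `v - n` -/
def toz (n v : Nat) : Z :=
  Bool.rec (motive := fun _ => Z) (Z.m (Nat.sub n v)) (Z.p (Nat.sub v n)) (Nat.ble n v)
/-- `n + z` -/
def ofs (n : Nat) (z : Z) : Nat := Z.rec (motive := fun _ => Nat) (fun x => Nat.add n x) (fun x => Nat.sub n x) z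

/-- division by `2 ^ sr`, doubling, offset removed -/
def fin (C : LC) (U : Nat) : Z :=
  toz (Nat.mul (Nat.shiftRight HB C.sr) C.od)
    (dbls C.ds (Nat.land (Nat.shiftRight U C.sr) (Nat.mul (Nat.shiftRight B1 C.sr) C.o3)))
def rd1 (C : LC) (U : Nat) : Z := fin C (stgs C.ds U)
/-- reduction of a product -/
def rd (C : LC) (z : Z) : Z :=
  Z.rec (motive := fun _ => Z)
    (fun n => Bool.rec (motive := fun _ => Z) (rd1 C (Nat.add (Nat.mul HB C.o5) n)) (Z.p (nat_lit 0)) (Nat.beq n (nat_lit 0)))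
    (fun n => rd1 C (Nat.sub (Nat.mul HB C.o5) n)) z

def sm1 (C : LC) (V : Nat) : Bool :=
  Nat.beq V (Nat.add (Nat.land V (Nat.sub (Nat.mul (nat_lit 2305843009213693952) C.od) C.o3)) C.W)
/-- all digits `I` are between `- 2 ^ 60` and `2 ^ 60` -/
def sm (C : LC) (z : Z) : Bool := sm1 C (ofs (Nat.add (Nat.mul (nat_lit 1152921504606846976) C.od) C.W) z)

/-! ### sizes -/

def tr1 (d : DC) (a c b : Nat) : Nat :=
  Nat.sub (Nat.add (Nat.add (Nat.add (Nat.add (Nat.shiftRight c d.s) (Nat.shiftRight b d.s)) (Nat.shiftLeft a d.s2)) b) d.k)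
    (Nat.shiftLeft (Nat.add a c) d.s)
/-- `(a, 2c, b)` to `(2c, b - a, a + b - 2c)` -/
def tr (d : DC) (U : Nat) : Nat := tr1 d (Nat.land U d.ta) (Nat.land U d.tc) (Nat.land U d.tb)
def trs (l : List DC) : Nat → Nat :=
  List.rec (motive := fun _ => Nat → Nat) (fun U => U) (fun d _ ih U => ih (tr d U)) l

def ab3 (O V t p : Nat) : Nat := Nat.sub (Nat.add p O) (Nat.add (Nat.sub V p) t)
def ab2 (O V t : Nat) : Nat := ab3 O V (Nat.shiftLeft t (nat_lit 144)) (Nat.land V (Nat.sub (Nat.shiftLeft t (nat_lit 144)) t))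
/-- absolute values of the digits of `V` minus `2 ^ 143` -/
def ab1 (C : LC) (V : Nat) : Nat := ab2 (Nat.mul HB C.o3) V (Nat.land (Nat.shiftRight V (nat_lit 143)) C.o3)
def abT (C : LC) (z : Z) : Nat := ab1 C (trs C.ds (ofs (Nat.mul HB C.o3) z))

/-- sum of the digits -/
def sd (V : Nat) : Nat := Nat.mod V B1
/-- division by `2 ^ D`, rounded up -/
def cd (D S : Nat) : Nat := Nat.shiftRight (Nat.add S (Nat.sub (Nat.pow (nat_lit 2) D) (nat_lit 1))) D
/-- at least the modulus -/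
def nc (a b : Nat) : Nat := Nat.div (Nat.add (Nat.add (Nat.add a b) (mx a b)) (nat_lit 1)) (nat_lit 2)
/-- a Newton step from above -/
def sq3 (c n : Nat) : Nat := Nat.sub c (Nat.div (Nat.sub c (Nat.add (Nat.div n c) (nat_lit 1))) (nat_lit 2))
def sq2 (a b : Nat) : Nat := sq3 (nc a b) (Nat.add (Nat.mul a a) (Nat.mul b b))

def nb3 (D x y : Nat) : Nat := cd D (sq2 (sd x) (sd y))
def df3 (D x y : Nat) (d : DC) : DF :=
  ⟨cd (Nat.sub D (nat_lit 1)) (sq2 (sd (Nat.land x d.tc)) (sd (Nat.land y d.tc))),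
    cd D (sq2 (sd (Nat.land x d.tb)) (sd (Nat.land y d.tb)))⟩
/-- outermost direction first -/
def df4 (D x y : Nat) (l : List DC) (a : List DF) : List DF :=
  List.rec (motive := fun _ => List DF → List DF) (fun a => a) (fun d _ ih a => ih (df3 D x y d :: a)) l a

/-- the value at the middle of the cell: all indices `1` -/
def mid (C : LC) (s : Nat) (z : Z) : Z :=
  toz (Nat.shiftRight HB C.D) (Nat.land (Nat.shiftRight (ofs (Nat.mul HB C.o3) z) (Nat.add s C.D)) (Nat.shiftRight B1 C.D))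
def ms (l : List DC) : Nat := List.rec (motive := fun _ => Nat) (nat_lit 0) (fun d _ ih => Nat.add d.s ih) l

/-- all digits minus `2 ^ 143` are nonnegative -/
def ts1 (C : LC) (V : Nat) : Bool := Nat.beq (Nat.land (Nat.shiftRight V (nat_lit 143)) C.o3) C.o3

/-- at most `2 ^ 60` in absolute value -/
def b60 (z : Z) : Bool := Nat.ble (ab z) (nat_lit 1152921504606846976)
def c60 (c : Cx) : Bool := andB (b60 c.re) (b60 c.im)

def or1 (x y : Bool) : Bool := Bool.rec (motive := fun _ => Bool) y true x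
def orL (l : List Bool) : List Bool → List Bool :=
  List.rec (motive := fun _ => List Bool → List Bool) (fun _ => [])
    (fun x _ ih l' => List.rec (motive := fun _ => List Bool) [] (fun y t _ => or1 x y :: ih t) l') l
def falL (n : Nat) : List Bool := Nat.rec (motive := fun _ => List Bool) [] (fun _ ih => false :: ih) n
def truL (n : Nat) : List Bool := Nat.rec (motive := fun _ => List Bool) [] (fun _ ih => true :: ih) n

/-! ### trees to packed numbers -/

/-- shape, all leaves at most `2 ^ 60`, real and imaginary numbers -/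
structure Pk (α : Type) where
  sh : α → List Bool
  ok : α → Bool
  re : α → Z
  im : α → Z
def Pk0 : Pk Cx := ⟨fun _ => [], c60, fun x => x.re, fun x => x.im⟩
def pkN {α : Type} (W : Nat) (f : α → Z) (x : N3 α) : Z :=
  N3.rec (motive := fun _ => Z) (fun x => Z.mul (Z.p (fd W)) (f x))
    (fun a c b => Z.add (f a) (Z.mul (Z.p W) (Z.add (Z.mul (Z.p (nat_lit 2)) (f c)) (Z.mul (Z.p W) (f b))))) x
/-- the shape in the directions below: of the first child -/
def nxPk {α : Type} (C : LC) (P : Pk α) : Pk (N3 α) :=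
  ⟨fun x => N3.rec (motive := fun _ => List Bool) (fun x => false :: P.sh x) (fun a c b => true :: orL (P.sh a) (orL (P.sh c) (P.sh b))) x,
    fun x => N3.rec (motive := fun _ => Bool) (fun x => P.ok x) (fun a c b => andB (P.ok a) (andB (P.ok c) (P.ok b))) x,
    pkN C.W P.re, pkN C.W P.im⟩
def Pk1 : Pk (N3 Cx) := nxPk C0 Pk0
def Pk2 : Pk (N3 (N3 Cx)) := nxPk C1 Pk1
def Pk3 : Pk (N3 (N3 (N3 Cx))) := nxPk C2 Pk2
def Pk4 : Pk (N3 (N3 (N3 (N3 Cx)))) := nxPk C3 Pk3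

/-! ### packed numbers to trees -/

/-- shape, `m`: number of middle indices, `s`: position, `U`, `V`: digits plus `2 ^ 143` -/
structure Tk (α : Type) where
  t : List Bool → Nat → Nat → Nat → Nat → α
def dg (m s U : Nat) : Z :=
  toz (Nat.shiftRight HB m) (Nat.land (Nat.shiftRight U (Nat.add s m)) (Nat.shiftRight B1 m))
def Tk0 : Tk Cx := ⟨fun _ m s U V => ⟨dg m s U, dg m s V⟩⟩
def nxTk {α : Type} (C : LC) (T : Tk α) : Tk (N3 α) :=
  ⟨fun l m s U V => List.rec (motive := fun _ => N3 α) (N3.k (T.t [] m s U V))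
    (fun b l _ => Bool.rec (motive := fun _ => N3 α) (N3.k (T.t l m s U V))
      (N3.q (T.t l m s U V) (T.t l (Nat.add m (nat_lit 1)) (Nat.add s C.w) U V) (T.t l m (Nat.add s (Nat.mul (nat_lit 2) C.w)) U V)) b) l⟩
def Tk1 : Tk (N3 Cx) := nxTk C0 Tk0
def Tk2 : Tk (N3 (N3 Cx)) := nxTk C1 Tk1
def Tk3 : Tk (N3 (N3 (N3 Cx))) := nxTk C2 Tk2
def Tk4 : Tk (N3 (N3 (N3 (N3 Cx)))) := nxTk C3 Tk3

/-! ### tables of vertices -/

/-- `Σ f(T_v) Z^v`, test of all vertices -/
structure Uk (β : Type) where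
  u : (Nat → Z) → β → Z
  b : (Nat → Bool) → β → Bool
def Uk0 : Uk Nat := ⟨fun f x => f x, fun f x => f x⟩
def nxUk {β : Type} (C : LC) (U : Uk β) : Uk (Pr β) :=
  ⟨fun f T => Z.add (U.u f T.a) (Z.mul (Z.p C.W) (U.u f T.b)), fun f T => andB (U.b f T.a) (U.b f T.b)⟩
def Uk1 : Uk (Pr Nat) := nxUk C0 Uk0
def Uk2 : Uk (Pr (Pr Nat)) := nxUk C1 Uk1
def Uk3 : Uk (Pr (Pr (Pr Nat))) := nxUk C2 Uk2
def Uk4 : Uk (Pr (Pr (Pr (Pr Nat)))) := nxUk C3 Uk3
/-- `2 ^ D Π (1 + Z_j)` -/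
def E0 : Nat := (nat_lit 1)
def nxE1 (C : LC) (E : Nat) : Nat := Nat.mul (Nat.mul (nat_lit 2) (Nat.add C.W (nat_lit 1))) E
def E1 : Nat := nxE1 C0 E0
def E2 : Nat := nxE1 C1 E1
def E3 : Nat := nxE1 C2 E2
def E4 : Nat := nxE1 C3 E3
/-- at most `2 ^ (60 - D)` in absolute value -/
def cD (C : LC) (c : Cx) : Bool :=
  andB (Nat.ble (ab c.re) (Nat.shiftRight (nat_lit 1152921504606846976) C.D)) (Nat.ble (ab c.im) (Nat.shiftRight (nat_lit 1152921504606846976) C.D))

/-! ### forms with all leaves: slots of 2432 bits, positions in base three -/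

/-- a direction: shift, masks of the indices `0, 1, 2` -/
structure SD where
  s : Nat
  a : Nat
  c : Nat
  b : Nat
/-- number of bits, `2 ^ bits`, ones, directions (outermost first) -/
structure SL where
  w : Nat
  W : Nat
  on : Nat
  ds : List SD
def BS : Nat := Nat.pow (nat_lit 2) (nat_lit 2432)
def S0c : SL := ⟨(nat_lit 2432), BS, (nat_lit 1), []⟩
def mpS (F : Nat) (l : List SD) : List SD :=
  List.rec (motive := fun _ => List SD) [] (fun d _ ih => ⟨d.s, Nat.mul F d.a, Nat.mul F d.c, Nat.mul F d.b⟩ :: ih) l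
def nxS1 (S : SL) : SL :=
  ⟨Nat.mul (nat_lit 3) S.w, Nat.mul (Nat.mul S.W S.W) S.W, Nat.mul (f3 S.W) S.on,
    ⟨S.w, Nat.sub S.W (nat_lit 1), Nat.mul S.W (Nat.sub S.W (nat_lit 1)), Nat.mul (Nat.mul S.W S.W) (Nat.sub S.W (nat_lit 1))⟩ :: mpS (f3 S.W) S.ds⟩
def S1c : SL := nxS1 S0c
def S2c : SL := nxS1 S1c
def S3c : SL := nxS1 S2c
def S4c : SL := nxS1 S3c

/-- spreading the digits: `acc 2 ^ (2432 3 ^ D) +` the digits, from the last slot to the first -/
structure Sp where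
  f : Nat → Nat → Nat → Nat → Nat
def sp0 (U m s acc : Nat) : Nat :=
  Nat.add (Nat.shiftLeft acc (nat_lit 2432)) (Nat.land (Nat.shiftRight U (Nat.add s m)) (Nat.shiftRight B1 m))
def Sp0 : Sp := ⟨sp0⟩
def nxSp (C : LC) (S : Sp) : Sp :=
  ⟨fun U m s acc => S.f U m s (S.f U (Nat.add m (nat_lit 1)) (Nat.add s C.w) (S.f U m (Nat.add s (Nat.mul (nat_lit 2) C.w)) acc))⟩
def Sp1 : Sp := nxSp C0 Sp0
def Sp2 : Sp := nxSp C1 Sp1
def Sp3 : Sp := nxSp C2 Sp2
def Sp4 : Sp := nxSp C3 Sp3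

/-- the spread offset `Σ (2 ^ 143 / 2 ^ m) 2 ^ (2432 e)` -/
structure So where
  f : Nat → Nat
def So0 : So := ⟨fun m => Nat.shiftRight HB m⟩
def nxSo (S : SL) (f : So) : So :=
  ⟨fun m => Nat.add (f.f m) (Nat.mul S.W (Nat.add (f.f (Nat.add m (nat_lit 1))) (Nat.mul S.W (f.f m))))⟩
def So1 : So := nxSo S0c So0
def So2 : So := nxSo S1c So1
def So3 : So := nxSo S2c So2
def So4 : So := nxSo S3c So3

/-- the constants of the spreading -/
structure KK where
  C : LC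
  S : SL
  sp : Sp
  so : Nat

/-- nine packed numbers, digits plus `2 ^ 100`, and `2 ^ 100` times the ones -/
structure PB where
  a : Nat
  b : Nat
  c : Nat
  d : Nat
  e : Nat
  f : Nat
  g : Nat
  h : Nat
  i : Nat
  o : Nat

/-- `Σ (I + 2 ^ 100 - r) 2 ^ (2432 e)` -/
def spz (M : KK) (r : Nat) (z : Z) : Nat :=
  Nat.sub (Nat.add (M.sp.f (ofs (Nat.mul HB M.C.o3) z) (nat_lit 0) (nat_lit 0) (nat_lit 0)) (Nat.mul (Nat.sub (nat_lit 1267650600228229401496703205376) r) M.S.on)) M.so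
def spB (M : KK) (r s t : Nat) (a b c xr xi yr yi wr wi : Z) : PB :=
  ⟨spz M r a, spz M s b, spz M t c, spz M (nat_lit 0) xr, spz M (nat_lit 0) xi, spz M (nat_lit 0) yr, spz M (nat_lit 0) yi,
    spz M (nat_lit 0) wr, spz M (nat_lit 0) wi, Nat.mul (nat_lit 1267650600228229401496703205376) M.S.on⟩

/-- a pair of numbers -/
structure PN where
  p : Nat
  n : Nat

/-- nine products -/
def mu1 (P : PB) (a b c d e f g h i : Nat) : PN :=
  ⟨Nat.add (Nat.add (Nat.add (Nat.add (Nat.add (Nat.add (Nat.add (Nat.add (Nat.mul P.a a) (Nat.mul P.b b)) (Nat.mul P.c c)) (Nat.mul P.d d)) (Nat.mul P.e e)) (Nat.mul P.f f)) (Nat.mul P.g g)) (Nat.mul P.h h)) (Nat.mul P.i i),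
    Nat.mul P.o (Nat.add (Nat.add (Nat.add (Nat.add (Nat.add (Nat.add (Nat.add (Nat.add a b) c) d) e) f) g) h) i)⟩
def mu0 (P : PB) (V : VR) : PN := mu1 P (md V.a) (md V.b) (md V.c) (md V.d) (md V.e) (md V.f) (md V.g) (md V.h) (md V.i)

/-- the slots of a mask -/
def lnP (m : Nat) (P : PB) : PB :=
  ⟨Nat.land P.a m, Nat.land P.b m, Nat.land P.c m, Nat.land P.d m, Nat.land P.e m, Nat.land P.f m, Nat.land P.g m, Nat.land P.h m, Nat.land P.i m, Nat.land P.o m⟩
/-- `b - a` in the middle slots, digits plus `2 ^ 100` -/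
def dfp (d : SD) (o x : Nat) : Nat :=
  Nat.sub (Nat.add (Nat.shiftRight (Nat.land x d.b) d.s) (Nat.land o d.c)) (Nat.shiftLeft (Nat.land x d.a) d.s)
def dfP (d : SD) (P : PB) : PB :=
  ⟨dfp d P.o P.a, dfp d P.o P.b, dfp d P.o P.c, dfp d P.o P.d, dfp d P.o P.e, dfp d P.o P.f, dfp d P.o P.g, dfp d P.o P.h, dfp d P.o P.i,
    Nat.land P.o d.c⟩
/-- `4 (a + c + b) - d` -/
def cmb (a c b d : PN) : PN :=
  ⟨Nat.add (Nat.mul (nat_lit 4) (Nat.add (Nat.add a.p c.p) b.p)) d.n, Nat.add (Nat.mul (nat_lit 4) (Nat.add (Nat.add a.n c.n) b.n)) d.p⟩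
structure Mu (v : Type) where
  f : List SD → PB → v → PN
  s : v → v → v
def Mu0 : Mu VR := ⟨fun _ P V => mu0 P V, vsub⟩
def muS {v : Type} (M : Mu v) (l : List SD) (d : SD) (P : PB) (V : N3 v) : PN :=
  N3.rec (motive := fun _ => PN) (fun V => M.f l P V)
    (fun Va Vc Vb => cmb (M.f l (lnP d.a P) Va) (M.f l (lnP d.c P) Vc) (M.f l (lnP d.b P) Vb) (M.f l (dfP d P) (M.s Vb Va))) V
def nxMu {v : Type} (M : Mu v) : Mu (N3 v) :=
  ⟨fun l P V => List.rec (motive := fun _ => PN) ⟨(nat_lit 0), (nat_lit 0)⟩ (fun d l _ => muS M l d P V) l, bi M.s⟩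
def Mu1 : Mu (N3 VR) := nxMu Mu0
def Mu2 : Mu (N3 (N3 VR)) := nxMu Mu1
def Mu3 : Mu (N3 (N3 (N3 VR))) := nxMu Mu2
def Mu4 : Mu (N3 (N3 (N3 (N3 VR)))) := nxMu Mu3

/-- `2 ^ 2431`, `2 ^ 2390`, `2 ^ 2200` -/
def H24 : Nat := Nat.pow (nat_lit 2) (nat_lit 2431)
def bN : Nat := Nat.pow (nat_lit 2) (nat_lit 2390)
def bK : Nat := Nat.pow (nat_lit 2) (nat_lit 2200)

/-! ### multi-affine multipliers times forms -/

/-- nine slots of 32 bits to slots of 256 bits -/
def enc (K : Nat) : Nat :=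
  Nat.add (Nat.add (Nat.add (Nat.add (Nat.add (Nat.add (Nat.add (Nat.add (Nat.mod K (nat_lit 4294967296)) (Nat.shiftLeft (u32 K (nat_lit 32)) (nat_lit 256))) (Nat.shiftLeft (u32 K (nat_lit 64)) (nat_lit 512))) (Nat.shiftLeft (u32 K (nat_lit 96)) (nat_lit 768))) (Nat.shiftLeft (u32 K (nat_lit 128)) (nat_lit 1024))) (Nat.shiftLeft (u32 K (nat_lit 160)) (nat_lit 1280))) (Nat.shiftLeft (u32 K (nat_lit 192)) (nat_lit 1536))) (Nat.shiftLeft (u32 K (nat_lit 224)) (nat_lit 1792))) (Nat.shiftLeft (u32 K (nat_lit 256)) (nat_lit 2048))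
/-- `2 ^ 31` in all nine slots -/
def c9 : Nat := Nat.mul (nat_lit 2147483648) (Nat.div (Nat.sub (Nat.pow (nat_lit 2) (nat_lit 2304)) (nat_lit 1)) (Nat.sub (Nat.pow (nat_lit 2) (nat_lit 256)) (nat_lit 1)))

/-- `Σ f(T_v) Z^v` -/
structure Ek (β : Type) where
  e : (Nat → Nat) → β → Nat
def Ek0 : Ek Nat := ⟨fun f x => f x⟩
def nxEk {β : Type} (S : SL) (E : Ek β) : Ek (Pr β) :=
  ⟨fun f T => Nat.add (E.e f T.a) (Nat.shiftLeft (E.e f T.b) S.w)⟩
def Ek1 : Ek (Pr Nat) := nxEk S0c Ek0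
def Ek2 : Ek (Pr (Pr Nat)) := nxEk S1c Ek1
def Ek3 : Ek (Pr (Pr (Pr Nat))) := nxEk S2c Ek2
def Ek4 : Ek (Pr (Pr (Pr (Pr Nat)))) := nxEk S3c Ek3
/-- `Π (1 + Z_j)` -/
def nxO1 (S : SL) (E : Nat) : Nat := Nat.mul (Nat.add S.W (nat_lit 1)) E
def O1 : Nat := nxO1 S0c (nat_lit 1)
def O2 : Nat := nxO1 S1c O1
def O3 : Nat := nxO1 S2c O2
def O4 : Nat := nxO1 S3c O3
/-- digits with index `0`, `2` times `2` -/
def ends (l : List SD) : Nat → Nat :=
  List.rec (motive := fun _ => Nat → Nat) (fun U => U)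
    (fun d _ ih U => ih (Nat.add U (Nat.land U (Nat.add d.a d.b)))) l
def lkp {β : Type} (S : SL) (O : Nat) (E : Ek β) (l : Nat) (L : β) : Nat :=
  Nat.mul c9 (ends S.ds (Nat.mul O (E.e (fun x => u32 x (Nat.mul (nat_lit 32) l)) L)))
def lkn {β : Type} (S : SL) (E : Ek β) (k l : Nat) (T L : β) : Nat :=
  ends S.ds (Nat.mul (E.e (fun x => enc (kf x k)) T) (E.e (fun x => u32 x (Nat.mul (nat_lit 32) l)) L))

/-! ### tests -/

/-- `psd` at all slots -/
def psL (l : List Nat) (T : Nat) : Bool :=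
  List.rec (motive := fun _ => Bool) true (fun s _ ih => andB (psd (Nat.land (Nat.shiftRight T s) NG)) ih) l
/-- `xb`, `yb`, `zb`: bounds of the digits -/
def psB (S : SL) (ls : List Nat) (u v w ca cb xp xn xb yp yn yb zp zn zb : Nat) : Bool :=
  andB (Nat.ble (Nat.add (Nat.add (Nat.add (Nat.mul u xb) (Nat.mul v (Nat.add (Nat.mul ca yb) (Nat.mul cb zb)))) w) (nat_lit 1)) H24)
    (psL ls (Nat.sub (Nat.add (Nat.add (Nat.mul (Nat.add H24 w) S.on) (Nat.mul u xp)) (Nat.mul v (Nat.add (Nat.mul ca yp) (Nat.mul cb zp))))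
      (Nat.add (Nat.mul u xn) (Nat.mul v (Nat.add (Nat.mul ca yn) (Nat.mul cb zn))))))
/-- `s, s + 2432, ..` -/
def shs (n : Nat) : List Nat :=
  Nat.rec (motive := fun _ => Nat → List Nat) (fun _ => []) (fun _ ih s => s :: ih (Nat.add s (nat_lit 2432))) n (nat_lit 0)

/-- the entry of a slot: digit minus `2 ^ 100` plus `r`, as an integer -/
def exB (s r U : Nat) : Z := toz (nat_lit 1267650600228229401496703205376) (Nat.add (Nat.mod (Nat.shiftRight U s) BS) r)
def exZ (r s t k : Nat) (P : PB) : P9 :=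
  zp0 r s t ⟨exB k r P.a, Z.p (nat_lit 0)⟩ ⟨exB k s P.b, Z.p (nat_lit 0)⟩ ⟨exB k t P.c, Z.p (nat_lit 0)⟩
    ⟨exB k (nat_lit 0) P.d, exB k (nat_lit 0) P.e⟩ ⟨exB k (nat_lit 0) P.f, exB k (nat_lit 0) P.g⟩ ⟨exB k (nat_lit 0) P.h, exB k (nat_lit 0) P.i⟩
def svL (f : P9 → Bool) (r s t : Nat) (P : PB) (l : List Nat) : Bool :=
  List.rec (motive := fun _ => Bool) true (fun k _ ih => andB (f (exZ r s t k P)) ih) l

end Pool.Agent.Helper86.CK
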