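import Pool.Agent.Helper86.CK.KA
import Pool.Agent.Helper86.CK.K7
import Pool.Agent.Helper86.CK.K8
import Pool.Agent.Helper86.CK.K9

/-!
Packed machine for the classes with tails (MP_c75db0): forms, matrices, the machines of depth 1 to 4
and their laws.
-/

set_option autoImplicit false
set_option exponentiation.threshold 4000
noncomputable section
namespace Pool.Agent.Helper86.CK

open Pool.Agent.Helper86.C75 (Z)
open Pool.Agent.Helper86.CX hiding nb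
open Pool.Agent.Helper86.CT (Alg DF Tst Up Mo N3 Pr Zp zp0 Bil LK Ps Mc Mq Qd F2 mkV msub m4 Sv)
open Pool.Agent.Helper90.C75 (Vt mulT avg wtT)
open Pool.Agent.Helper90.KMO (zv cz)
open Pool.Agent.Helper90.KMT (mf0 nmf UOK nlf lf0)
open Pool.Agent.Helper17.KPT
open Pool.Agent.Helper17.PAK (Rep)
open Pool.Agent.Helper21.KCE (toM_rep)
open Pool.Agent.Helper21.KTE (ZS SHL DZ fal SVK YLW QD RTL MX MZ)

/-! ### trees to packed functions -/

section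
variable {D : ℕ} {α : Type} {lC : α → Vt D → Cx}

theorem fr_hs {P : Pk α} (hP : PkL D lC P) (x : α) :
    FSh D (P.sh x) (fun v => (zv (lC x v).re, zv (lC x v).im)) :=
  (hP.sh x).map fun c => (zv c.re, zv c.im)
theorem fr_h {P : Pk α} (hP : PkL D lC P) (x : α) (h : P.ok x = true) :
    PR D (fun v => (zv (lC x v).re, zv (lC x v).im)) (P.re x) (P.im x) :=
  ⟨hP.re x, hP.im x, fun v => (hP.ok x h v).1, fun v => (hP.ok x h v).2⟩
/-- a tree as a packed function -/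
def frT {P : Pk α} (hP : PkL D lC P) (x : α) : PA D :=
  ⟨fun v => (zv (lC x v).re, zv (lC x v).im), P.sh x, P.re x, P.im x, P.ok x, false, fr_hs hP x,
    fr_h hP x, fls_h⟩

theorem lfK_fr {P : Pk α} (hP : PkL D lC P) (x : α) (v : Vt D) : lfK (frT hP x) v = cz (lC x v) := by
  rw [lfK_eq]
  unfold cI frT cz
  apply Complex.ext <;> simp

/-! ### packed functions to trees -/

def toT (C : LC) (T : Tk α) (g : PA D → α) (X : PA D) : α :=
  Bool.rec (motive := fun _ => α) (g X)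
    (T.t X.sh (nat_lit 0) (nat_lit 0) (ofs (Nat.mul HB C.o3) X.re) (ofs (Nat.mul HB C.o3) X.im)) X.ok

theorem toT_ok {Sa : α → List Bool → Prop} {T : Tk α} (hT : TkL D lC Sa T) {g : PA D → α}
    (hg : ∀ X : PA D, (∀ v, lC (g X) v = zC2 (X.I v)) ∧ Sa (g X) X.sh) (X : PA D) :
    (∀ v, lC (toT (CC D) T g X) v = lcK X v) ∧ Sa (toT (CC D) T g X) X.sh := by
  unfold toT
  cases h : X.ok with
  | false => exact hg X
  | true =>
    have a := X.h h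
    exact hT.t X.hs (fun v => ⟨a.a v, a.b v⟩) a.x a.y

/-! ### multi-affine functions -/

variable {β : Type} {mf : (ℕ → ℝ) → β → (ℕ → ℝ) → ℝ} {U : Uk β} {E : ℕ}

def gU (h : UkL D mf U E) : (ℕ → ℤ) → β → Vt D → ℤ := Classical.choose h.ex

theorem up_hs (h : UkL D mf U E) (f : Nat → Cx) (T : β) : FSh D (truL D)
    (fun v => (gU h (fun x => zv (f x).re) T v, gU h (fun x => zv (f x).im) T v)) := by
  rw [truL_eq]
  exact FSh.true_all D _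

theorem up_h {C : LC} (hC : C = CC D ∧ D ≤ 4) (h : UkL D mf U E) (f : Nat → Cx) (T : β)
    (hb : U.b (fun x => cD C (f x)) T = true) :
    PR D (fun v => (gU h (fun x => zv (f x).re) T v, gU h (fun x => zv (f x).im) T v))
      (Z.mul (Z.p E) (U.u (fun x => (f x).re) T)) (Z.mul (Z.p E) (U.u (fun x => (f x).im) T)) := by
  obtain ⟨rfl, hD⟩ := hC
  obtain ⟨a, b, -⟩ := Classical.choose_spec h.ex
  have key : ∀ x, cD (CC D) (f x) = true → |zv (f x).re| ≤ 2 ^ (60 - D) ∧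
      |zv (f x).im| ≤ 2 ^ (60 - D) := by
    intro x hx
    unfold cD at hx
    rw [andB_iff'] at hx
    have e : Nat.shiftRight 1152921504606846976 (CC D).D = 2 ^ (60 - D) := by
      rw [CC_D]
      show 1152921504606846976 >>> D = _
      rw [Nat.shiftRight_eq_div_pow, show (1152921504606846976 : ℕ) = 2 ^ 60 by norm_num,
        Nat.pow_div (by omega) (by norm_num)]
    have k : ∀ z : Z, Nat.ble (ab z) (Nat.shiftRight 1152921504606846976 (CC D).D) = true →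
        |zv z| ≤ 2 ^ (60 - D) := by
      intro z hz
      have h1 := Nat.le_of_ble_eq_true hz
      rw [e] at h1
      have h2 : |zv z| = ab z := by
        cases z with
        | p n => exact Nat.abs_cast n
        | m n =>
          show |(-(n : ℤ))| = n
          rw [abs_neg, Nat.abs_cast]
      rw [h2]
      exact_mod_cast h1
    exact ⟨k _ hx.1, k _ hx.2⟩
  exact ⟨a _ T, a _ T, b _ _ T hb fun x hx => (key x hx).1, b _ _ T hb fun x hx => (key x hx).2⟩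

def upK {C : LC} (hC : C = CC D ∧ D ≤ 4) (h : UkL D mf U E) (f : Nat → Cx) (T : β) : PA D :=
  ⟨fun v => (gU h (fun x => zv (f x).re) T v, gU h (fun x => zv (f x).im) T v), truL D,
    Z.mul (Z.p E) (U.u (fun x => (f x).re) T), Z.mul (Z.p E) (U.u (fun x => (f x).im) T),
    U.b (fun x => cD C (f x)) T, false, up_hs h f T, up_h hC h f T, fls_h⟩

theorem UOKK {C : LC} (hC : C = CC D ∧ D ≤ 4) (h : UkL D mf U E)
    (hl : ∀ (c : ℝ) (g : ℕ → ℝ) (T : β) (t : ℕ → ℝ), mf (fun x => c * g x) T t = c * mf g T t)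
    (h0 : ∀ (T : β) (t : ℕ → ℝ), mf (fun _ => 0) T t = 0) :
    UOK D lfK mf (⟨upK hC h⟩ : Up β (PA D)) := by
  refine ⟨fun f T t => ?_, hl, h0⟩
  obtain ⟨-, -, c⟩ := Classical.choose_spec h.ex
  have e : lfK (upK hC h f T) = fun v => ((gU h (fun x => zv (f x).re) T v : ℤ) : ℂ) +
      ((gU h (fun x => zv (f x).im) T v : ℤ) : ℂ) * Complex.I := by
    funext v
    rw [lfK_eq]
    rfl
  show avg (wtT D t) (lfK (upK hC h f T)) = _
  rw [e]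
  have e2 : avg (wtT D t) (fun v => ((gU h (fun x => zv (f x).re) T v : ℤ) : ℂ) +
      ((gU h (fun x => zv (f x).im) T v : ℤ) : ℂ) * Complex.I) =
      avg (wtT D t) (fun v => ((gU h (fun x => zv (f x).re) T v : ℤ) : ℂ)) +
      avg (wtT D t) (fun v => ((gU h (fun x => zv (f x).im) T v : ℤ) : ℂ)) * Complex.I := by
    unfold avg
    rw [Finset.sum_mul, ← Finset.sum_add_distrib]
    refine Finset.sum_congr rfl fun v _ => ?_
    ring
  have c1 := c (fun x => zv (f x).re) T t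
  have c2 := c (fun x => zv (f x).im) T t
  rw [e2]
  unfold gU
  rw [c1, c2]
  show _ = 2 ^ D * ((mf (fun x => ((zv (f x).re : ℤ) : ℝ)) T t : ℂ) +
    (mf (fun x => ((zv (f x).im : ℤ) : ℝ)) T t : ℂ) * Complex.I)
  ring

end

/-! ### forms -/

/-- both parts are at most `2 ^ 60` -/
def B60 {D : ℕ} (I : Vt D → ℤ × ℤ) : Prop := ∀ v, |(I v).1| ≤ 2 ^ 60 ∧ |(I v).2| ≤ 2 ^ 60
/-- the packed number with offset -/
def gp (D r : ℕ) (J : Vt D → ℤ) : ℕ := p3 D (fun v => (J v + 2 ^ 100 - r).toNat)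

/-- the leaves and the packed numbers of a form -/
structure PZS (D : ℕ) (g : Vt D → P9) (r s t : ℕ) (q : PB) (a b c x y w : Vt D → ℤ × ℤ) : Prop where
  hg : ∀ v, g v = zp0 r s t (zC2 (a v)) (zC2 (b v)) (zC2 (c v)) (zC2 (x v)) (zC2 (y v)) (zC2 (w v))
  ha : B60 a
  hb : B60 b
  hc : B60 c
  hx : B60 x
  hy : B60 y
  hw : B60 w
  hr : r ≤ 2 ^ 62
  hs : s ≤ 2 ^ 62
  ht : t ≤ 2 ^ 62
  hq : q = ⟨gp D r fun v => (a v).1, gp D s fun v => (b v).1, gp D t fun v => (c v).1,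
    gp D 0 fun v => (x v).1, gp D 0 fun v => (x v).2, gp D 0 fun v => (y v).1,
    gp D 0 fun v => (y v).2, gp D 0 fun v => (w v).1, gp D 0 fun v => (w v).2,
    2 ^ 100 * (SC D).on⟩

/-- a form: leaves, radii, packed numbers -/
structure PZ (D : ℕ) where
  g : Vt D → P9
  r : Nat
  s : Nat
  t : Nat
  ok : Bool
  q : PB
  h : ok = true → ∃ a b c x y w, PZS D g r s t q a b c x y w

section
variable {D : ℕ}

def zpO (r s t : Nat) (a b c x y w : PA D) : Bool :=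
  andB a.ok (andB b.ok (andB c.ok (andB x.ok (andB y.ok (andB w.ok
      (Nat.ble (Nat.add (Nat.add r s) t) (nat_lit 4611686018427387904)))))))

theorem PR.b60 {I : Vt D → ℤ × ℤ} {x y : Z} (h : PR D I x y) : B60 I := fun v => ⟨h.a v, h.b v⟩

theorem zp_h {M : KK} (hM : M = KC D ∧ D ≤ 4) (r s t : Nat) (a b c x y w : PA D)
    (h : zpO r s t a b c x y w = true) : ∃ a' b' c' x' y' w', PZS D
      (fun v => zp0 r s t (lcK a v) (lcK b v) (lcK c v) (lcK x v) (lcK y v) (lcK w v)) r s t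
      (spB M r s t a.re b.re c.re x.re x.im y.re y.im w.re w.im) a' b' c' x' y' w' := by
  obtain ⟨rfl, hD⟩ := hM
  unfold zpO at h
  simp only [andB_iff'] at h
  obtain ⟨h1, h2, h3, h4, h5, h6, h7⟩ := h
  have a' := a.h h1
  have b' := b.h h2
  have c' := c.h h3
  have x' := x.h h4
  have y' := y.h h5
  have w' := w.h h6
  have h8 : r + s + t ≤ 4611686018427387904 := Nat.le_of_ble_eq_true h7
  have e62 : (2 : ℕ) ^ 62 = 4611686018427387904 := by norm_num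
  have r' : r ≤ 2 ^ 62 := by rw [e62]; omega
  have s' : s ≤ 2 ^ 62 := by rw [e62]; omega
  have t' : t ≤ 2 ^ 62 := by rw [e62]; omega
  have z' : 0 ≤ 2 ^ 62 := Nat.zero_le _
  refine ⟨a.I, b.I, c.I, x.I, y.I, w.I, fun v => rfl, a'.b60, b'.b60, c'.b60, x'.b60, y'.b60, w'.b60,
    r', s', t', ?_⟩
  have k1 := spz_ok hD a'.x a'.a r'
  have k2 := spz_ok hD b'.x b'.a s'
  have k3 := spz_ok hD c'.x c'.a t'
  have k4 := spz_ok hD x'.x x'.a z'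
  have k5 := spz_ok hD x'.y x'.b z'
  have k6 := spz_ok hD y'.x y'.a z'
  have k7 := spz_ok hD y'.y y'.b z'
  have k8 := spz_ok hD w'.x w'.a z'
  have k9 := spz_ok hD w'.y w'.b z'
  show (⟨spz (KC D) r a.re, spz (KC D) s b.re, spz (KC D) t c.re, spz (KC D) 0 x.re,
    spz (KC D) 0 x.im, spz (KC D) 0 y.re, spz (KC D) 0 y.im, spz (KC D) 0 w.re,
    spz (KC D) 0 w.im, 1267650600228229401496703205376 * (SC D).on⟩ : PB) = _
  rw [k1, k2, k3, k4, k5, k6, k7, k8, k9]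
  have e : (1267650600228229401496703205376 : ℕ) = 2 ^ 100 := by norm_num
  rw [e]
  rfl

def zpK {M : KK} (hM : M = KC D ∧ D ≤ 4) (r s t : Nat) (a b c x y w : PA D) : PZ D :=
  ⟨fun v => zp0 r s t (lcK a v) (lcK b v) (lcK c v) (lcK x v) (lcK y v) (lcK w v), r, s, t,
    zpO r s t a b c x y w, spB M r s t a.re b.re c.re x.re x.im y.re y.im w.re w.im,
    zp_h hM r s t a b c x y w⟩

/-- shape of a form -/
def SpK (_ : PZ D) (l : List Bool) : Prop := l = List.replicate D true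

theorem ZLK {M : KK} (hM : M = KC D ∧ D ≤ 4) : ZL D lcK PZ.g SpK (⟨zpK hM⟩ : Zp (PA D) (PZ D)) :=
  ⟨fun _ _ _ _ _ _ _ _ _ _ => rfl, fun _ _ _ _ _ _ _ _ _ => rfl⟩

/-- congruences of the nine numbers -/
theorem PZS.pbr (hD : D ≤ 4) {g : Vt D → P9} {r s t : ℕ} {q : PB} {a b c x y w : Vt D → ℤ × ℤ}
    (h : PZS D g r s t q a b c x y w) : PBR D q g := by
  have hMM : ((MM : ℕ) : ℤ) = 2 ^ 2304 := by
    rw [show MM = 2 ^ 2304 from rfl]
    norm_cast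
  have key : ∀ (z : ℤ) (n : ℕ), z - n ≡ ((Nat.add (toM (zC z)) (Nat.mul NG n) : ℕ) : ℤ)
      [ZMOD 2 ^ 2304] := by
    intro z n
    have h1 := rep_eq (y := z - n) (Pool.Agent.Helper21.KCE.Rp.add (toM_rep (zC z))
      (Pool.Agent.Helper21.KCE.Rp.neg (Pool.Agent.Helper21.KCE.Rp.nat n))) (by rw [zv_zC]; ring)
    have h2 : ((Nat.add (toM (zC z)) (Nat.mul NG n) : ℕ) : ℤ) ≡ z - n [ZMOD ((MM : ℕ) : ℤ)] := h1
    rw [hMM] at h2
    exact h2.symm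
  have key0 : ∀ z : ℤ, z ≡ ((toM (zC z) : ℕ) : ℤ) [ZMOD 2 ^ 2304] := by
    intro z
    have h2 : ((toM (zC z) : ℕ) : ℤ) ≡ zv (zC z) [ZMOD ((MM : ℕ) : ℤ)] := toM_rep (zC z)
    rw [hMM, zv_zC] at h2
    exact h2.symm
  have bd : ∀ {x : ℤ} {n : ℕ}, |x| ≤ 2 ^ 60 → n ≤ 2 ^ 62 → |x - n| ≤ 2 ^ 63 := by
    intro x n hx hn
    have h1 := abs_le.mp hx
    have h2 : (n : ℤ) ≤ 2 ^ 62 := by exact_mod_cast hn
    have h3 : (0 : ℤ) ≤ n := Int.natCast_nonneg n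
    rw [abs_le]
    constructor <;> norm_num at * <;> linarith
  have bd0 : ∀ {x : ℤ}, |x| ≤ 2 ^ 60 → |x| ≤ 2 ^ 63 := fun hx => hx.trans (by norm_num)
  refine ⟨⟨![fun v => (a v).1 - r, fun v => (b v).1 - s, fun v => (c v).1 - t, fun v => (x v).1,
    fun v => (x v).2, fun v => (y v).1, fun v => (y v).2, fun v => (w v).1, fun v => (w v).2],
    ?_, ?_, ?_⟩, ?_⟩
  · intro k v
    fin_cases k
    · exact bd (h.ha v).1 h.hr
    · exact bd (h.hb v).1 h.hs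
    · exact bd (h.hc v).1 h.ht
    · exact bd0 (h.hx v).1
    · exact bd0 (h.hx v).2
    · exact bd0 (h.hy v).1
    · exact bd0 (h.hy v).2
    · exact bd0 (h.hw v).1
    · exact bd0 (h.hw v).2
  · intro k v
    rw [h.hg]
    fin_cases k
    · exact key _ _
    · exact key _ _
    · exact key _ _
    · exact key0 _
    · exact key0 _
    · exact key0 _
    · exact key0 _
    · exact key0 _
    · exact key0 _
  · have e : ∀ (J : Vt D → ℤ) (n : ℕ), gp D n J = p3 D (fun v => (J v - n + 2 ^ 100).toNat) := by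
      intro J n
      unfold gp
      congr 1
      funext v
      congr 1
      ring
    have e0 : ∀ (J : Vt D → ℤ), gp D 0 J = p3 D (fun v => (J v + 2 ^ 100).toNat) := by
      intro J
      unfold gp
      congr 1
      funext v
      congr 1
      push_cast
      ring
    intro k
    rw [h.hq]
    fin_cases k
    · exact e _ _
    · exact e _ _
    · exact e _ _
    · exact e0 _
    · exact e0 _
    · exact e0 _
    · exact e0 _
    · exact e0 _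
    · exact e0 _
  · rw [h.hq]

/-! ### tests of reference vectors -/

def svK (ls : List Nat) : Sv (PZ D) := ⟨fun f x => andB x.ok (svL f x.r x.s x.t x.q ls)⟩

theorem exB_zC {J : Vt D → ℤ} {r : ℕ} (hr : r ≤ 2 ^ 62) (hJ : ∀ v, |J v| ≤ 2 ^ 60) (v : Vt D) :
    exB (ps D v) r (gp D r J) = zC (J v) := exB_ok hr hJ v

theorem svK_ok {ls : List ℕ} (hl : ls = shs (3 ^ D)) : SVK D PZ.g (svK ls : Sv (PZ D)) := by
  intro f x h v
  have h' : andB x.ok (svL f x.r x.s x.t x.q ls) = true := h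
  rw [andB_iff'] at h'
  obtain ⟨a, b, c, xx, y, w, k⟩ := x.h h'.1
  have h1 := svL_mem h'.2 (k := ps D v) (by rw [hl]; exact ps_mem D v)
  have z' : 0 ≤ 2 ^ 62 := Nat.zero_le _
  have e : exZ x.r x.s x.t (ps D v) x.q = x.g v := by
    rw [k.hg]
    unfold exZ
    rw [k.hq]
    show zp0 _ _ _ ⟨exB (ps D v) x.r (gp D x.r fun v => (a v).1), _⟩
      ⟨exB (ps D v) x.s (gp D x.s fun v => (b v).1), _⟩
      ⟨exB (ps D v) x.t (gp D x.t fun v => (c v).1), _⟩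
      ⟨exB (ps D v) 0 (gp D 0 fun v => (xx v).1), exB (ps D v) 0 (gp D 0 fun v => (xx v).2)⟩
      ⟨exB (ps D v) 0 (gp D 0 fun v => (y v).1), exB (ps D v) 0 (gp D 0 fun v => (y v).2)⟩
      ⟨exB (ps D v) 0 (gp D 0 fun v => (w v).1), exB (ps D v) 0 (gp D 0 fun v => (w v).2)⟩ = _
    rw [exB_zC k.hr fun v => (k.ha v).1, exB_zC k.hs fun v => (k.hb v).1, exB_zC k.ht fun v => (k.hc v).1,
      exB_zC z' fun v => (k.hx v).1, exB_zC z' fun v => (k.hx v).2, exB_zC z' fun v => (k.hy v).1,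
      exB_zC z' fun v => (k.hy v).2, exB_zC z' fun v => (k.hw v).1, exB_zC z' fun v => (k.hw v).2]
    rfl
  rw [e] at h1
  exact h1

/-! ### packed products -/

/-- leaves, `p - n`, bound of the digits -/
structure GK (D : ℕ) where
  g : Vt D → ℕ
  p : Nat
  n : Nat
  b : Nat
  h : RG D g p n b

theorem BS_H : ¬ BS ≤ H24 := by
  have h1 : H24 < BS := Nat.pow_lt_pow_right (by norm_num) (by norm_num)
  omega

theorem rg_BS (g : Vt D → ℕ) (p n : ℕ) : RG D g p n BS := fun h => absurd h BS_H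

variable {v : Type}

theorem mu_h {S : SL} (hS : S = SC D ∧ D ≤ 4) {M : Mu v} {pr : (Vt D → P9) → v → Vt D → ℕ}
    (hM : MuL D M pr) (P : PZ D) (V : v) :
    RG D (pr P.g V) (M.f S.ds P.q V).p (M.f S.ds P.q V).n
      (Bool.rec (motive := fun _ => Nat) BS bN P.ok) := by
  obtain ⟨rfl, hD⟩ := hS
  cases h : P.ok with
  | false => exact rg_BS _ _ _
  | true =>
    intro _
    obtain ⟨a, b, c, x, y, w, k⟩ := P.h h
    obtain ⟨N, n1, n2, n3⟩ := hM.ex V (k.pbr hD)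
    exact ⟨N, n1, fun u => ⟨by
      have e : ((bN : ℕ) : ℤ) = 2 ^ 2390 := by
        rw [show bN = 2 ^ 2390 from rfl, Nat.cast_pow, Nat.cast_ofNat]
      show |N u| ≤ ((bN : ℕ) : ℤ)
      rw [e]
      exact n2 u, n3 u⟩⟩

def muK {S : SL} (hS : S = SC D ∧ D ≤ 4) {M : Mu v} {pr : (Vt D → P9) → v → Vt D → ℕ}
    (hM : MuL D M pr) (P : PZ D) (V : v) : GK D :=
  ⟨pr P.g V, (M.f S.ds P.q V).p, (M.f S.ds P.q V).n,
    Bool.rec (motive := fun _ => Nat) BS bN P.ok, mu_h hS hM P V⟩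

def bilK {S : SL} (hS : S = SC D ∧ D ≤ 4) {M : Mu v} {pr : (Vt D → P9) → v → Vt D → ℕ}
    (hM : MuL D M pr) : Bil (PZ D) v (GK D) :=
  ⟨fun x y => ⟨fun u => psub (x.g u) (y.g u), x.r, x.s, x.t, false, x.q, fls_h⟩, M.s, muK hS hM,
    fun x y => ⟨fun u => msub (x.g u) (y.g u), x.p, x.n, BS, rg_BS _ _ _⟩,
    fun x => ⟨fun u => m4 (x.g u), x.p, x.n, BS, rg_BS _ _ _⟩⟩

theorem lk_h {S : SL} (hS : S = SC D) {β : Type} {E : Ek β} {O : ℕ} {L : LK β (Vt D → ℕ)}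
    (hL : LkL D E O L) (k l : ℕ) (T R : β) :
    RG D (L.lk k l T R) (lkp S O E l R) (lkn S E k l T R) bK := by
  obtain rfl := hS
  intro _
  obtain ⟨N, n1, n2, n3⟩ := hL.ex k l T R
  exact ⟨N, n1, fun u => ⟨by
    have e : ((bK : ℕ) : ℤ) = 2 ^ 2200 := by
      rw [show bK = 2 ^ 2200 from rfl, Nat.cast_pow, Nat.cast_ofNat]
    show |N u| ≤ ((bK : ℕ) : ℤ)
    rw [e]
    exact n2 u, n3 u⟩⟩

def lkK {S : SL} (hS : S = SC D) {β : Type} {E : Ek β} {O : ℕ} {L : LK β (Vt D → ℕ)}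
    (hL : LkL D E O L) : LK β (GK D) :=
  ⟨fun k l T R => ⟨L.lk k l T R, lkp S O E l R, lkn S E k l T R, bK, lk_h hS hL k l T R⟩⟩

def psK (S : SL) (ls : List Nat) : Ps (GK D) :=
  ⟨fun u v w ca cb x y z => psB S ls u v (md w) ca cb x.p x.n x.b y.p y.n y.b z.p z.n z.b⟩

/-- no shapes for the products -/
def SgK (_ : GK D) (_ : List Bool) : Prop := True

end

/-! ### the machines -/

theorem hC1 : C1 = CC 1 ∧ 1 ≤ 4 := ⟨rfl, by norm_num⟩
theorem hC2 : C2 = CC 2 ∧ 2 ≤ 4 := ⟨rfl, by norm_num⟩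
theorem hC3 : C3 = CC 3 ∧ 3 ≤ 4 := ⟨rfl, by norm_num⟩
theorem hC4 : C4 = CC 4 ∧ 4 ≤ 4 := ⟨rfl, by norm_num⟩
theorem hS1 : S1c = SC 1 ∧ 1 ≤ 4 := ⟨rfl, by norm_num⟩
theorem hS2 : S2c = SC 2 ∧ 2 ≤ 4 := ⟨rfl, by norm_num⟩
theorem hS3 : S3c = SC 3 ∧ 3 ≤ 4 := ⟨rfl, by norm_num⟩
theorem hS4 : S4c = SC 4 ∧ 4 ≤ 4 := ⟨rfl, by norm_num⟩
def kk1 : KK := ⟨C1, S1c, Sp1, So1.f (nat_lit 0)⟩
def kk2 : KK := ⟨C2, S2c, Sp2, So2.f (nat_lit 0)⟩
def kk3 : KK := ⟨C3, S3c, Sp3, So3.f (nat_lit 0)⟩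
def kk4 : KK := ⟨C4, S4c, Sp4, So4.f (nat_lit 0)⟩
theorem hM1 : kk1 = KC 1 ∧ 1 ≤ 4 := ⟨rfl, by norm_num⟩
theorem hM2 : kk2 = KC 2 ∧ 2 ≤ 4 := ⟨rfl, by norm_num⟩
theorem hM3 : kk3 = KC 3 ∧ 3 ≤ 4 := ⟨rfl, by norm_num⟩
theorem hM4 : kk4 = KC 4 ∧ 4 ≤ 4 := ⟨rfl, by norm_num⟩

def K1 : Mc (PA 1) (Pr Nat) (PZ 1) (N3 VR) (GK 1) :=
  ⟨AK hC1, ⟨tsK C1⟩, ⟨upK hC1 Uk1_ok⟩, ⟨zpK hM1⟩, bilK hS1 Mu1_ok, lkK hS1.1 Lk1_ok,
    psK S1c (shs (nat_lit 3)), (nat_lit 2), (nat_lit 134217728)⟩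
def K2 : Mc (PA 2) (Pr (Pr Nat)) (PZ 2) (N3 (N3 VR)) (GK 2) :=
  ⟨AK hC2, ⟨tsK C2⟩, ⟨upK hC2 Uk2_ok⟩, ⟨zpK hM2⟩, bilK hS2 Mu2_ok, lkK hS2.1 Lk2_ok,
    psK S2c (shs (nat_lit 9)), (nat_lit 4), (nat_lit 67108864)⟩
def K3 : Mc (PA 3) (Pr (Pr (Pr Nat))) (PZ 3) (N3 (N3 (N3 VR))) (GK 3) :=
  ⟨AK hC3, ⟨tsK C3⟩, ⟨upK hC3 Uk3_ok⟩, ⟨zpK hM3⟩, bilK hS3 Mu3_ok, lkK hS3.1 Lk3_ok,
    psK S3c (shs (nat_lit 27)), (nat_lit 8), (nat_lit 33554432)⟩
def K4 : Mc (PA 4) (Pr (Pr (Pr (Pr Nat)))) (PZ 4) (N3 (N3 (N3 (N3 VR)))) (GK 4) :=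
  ⟨AK hC4, ⟨tsK C4⟩, ⟨upK hC4 Uk4_ok⟩, ⟨zpK hM4⟩, bilK hS4 Mu4_ok, lkK hS4.1 Lk4_ok,
    psK S4c (shs (nat_lit 81)), (nat_lit 16), (nat_lit 16777216)⟩
def S1 : Sv (PZ 1) := svK (shs (nat_lit 3))
def S2 : Sv (PZ 2) := svK (shs (nat_lit 9))
def S3 : Sv (PZ 3) := svK (shs (nat_lit 27))
def S4 : Sv (PZ 4) := svK (shs (nat_lit 81))

/-- trees as packed functions -/
def fr1 : N3 Cx → PA 1 := frT Pk1_ok
def fr2 : N3 (N3 Cx) → PA 2 := frT Pk2_ok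
def fr3 : N3 (N3 (N3 Cx)) → PA 3 := frT Pk3_ok
def fr4 : N3 (N3 (N3 (N3 Cx))) → PA 4 := frT Pk4_ok

/-- trees of packed functions which are too large -/
def gt1 (X : PA 1) : N3 Cx := Classical.choose (gh1 X.hs)
def gt2 (X : PA 2) : N3 (N3 Cx) := Classical.choose (gh2 X.hs)
def gt3 (X : PA 3) : N3 (N3 (N3 Cx)) := Classical.choose (gh3 X.hs)
def gt4 (X : PA 4) : N3 (N3 (N3 (N3 Cx))) := Classical.choose (gh4 X.hs)

section
variable {D : ℕ} {α a b v : Type} {C : LC}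
def moT (C : LC) (T : Tk α) (g : PA D → α) (X : PA D) : Mo α :=
  ⟨toT C T g X, (nat_lit 0), (nat_lit 0), []⟩
def qT (C : LC) (T : Tk α) (g : PA D → α) (X : Qd (PA D)) : Qd α :=
  ⟨moT C T g X.R.v, moT C T g X.A.v, moT C T g X.W.v, moT C T g X.T.v⟩
def mqK (hC : C = CC D ∧ D ≤ 4) (T : Tk α) (g : PA D → α) (F : F2 α α a) (G : F2 a a b)
    (B : Bil b b v) (H : v → v → v) : Mq (PA D) v :=
  ⟨AK hC, fun X Y => mkV F G B (qT C T g X) (qT C T g Y), H⟩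
end
def Q1k : Mq (PA 1) (N3 VR) :=
  mqK hC1 Tk1 gt1 Pool.Agent.Helper86.CT.F1 Pool.Agent.Helper86.CT.G1 Pool.Agent.Helper86.CT.B1q
    Pool.Agent.Helper86.CT.H1.f
def Q2k : Mq (PA 2) (N3 (N3 VR)) :=
  mqK hC2 Tk2 gt2 Pool.Agent.Helper86.CT.F2' Pool.Agent.Helper86.CT.G2 Pool.Agent.Helper86.CT.B2q
    Pool.Agent.Helper86.CT.H2.f
def Q3k : Mq (PA 3) (N3 (N3 (N3 VR))) :=
  mqK hC3 Tk3 gt3 Pool.Agent.Helper86.CT.F3 Pool.Agent.Helper86.CT.G3 Pool.Agent.Helper86.CT.B3q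
    Pool.Agent.Helper86.CT.H3.f
def Q4k : Mq (PA 4) (N3 (N3 (N3 (N3 VR)))) :=
  mqK hC4 Tk4 gt4 Pool.Agent.Helper86.CT.F4 Pool.Agent.Helper86.CT.G4 Pool.Agent.Helper86.CT.B4q
    Pool.Agent.Helper86.CT.H4.f

/-- the run data -/
def X1k (k0 k1 k2 : Mo (PA 1)) : Pool.Agent.Helper21.KRN.XM (PA 1) (N3 VR) :=
  ⟨Q1k, Pool.Agent.Helper21.KRN.cN1, Pool.Agent.Helper21.KRN.rC1, k0, k1, k2⟩
def X2k (k0 k1 k2 : Mo (PA 2)) : Pool.Agent.Helper21.KRN.XM (PA 2) (N3 (N3 VR)) :=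
  ⟨Q2k, Pool.Agent.Helper21.KRN.cN2, Pool.Agent.Helper21.KRN.rC2, k0, k1, k2⟩
def X3k (k0 k1 k2 : Mo (PA 3)) : Pool.Agent.Helper21.KRN.XM (PA 3) (N3 (N3 (N3 VR))) :=
  ⟨Q3k, Pool.Agent.Helper21.KRN.cN3, Pool.Agent.Helper21.KRN.rC3, k0, k1, k2⟩
def X4k (k0 k1 k2 : Mo (PA 4)) : Pool.Agent.Helper21.KRN.XM (PA 4) (N3 (N3 (N3 (N3 VR)))) :=
  ⟨Q4k, Pool.Agent.Helper21.KRN.cN4, Pool.Agent.Helper21.KRN.rC4, k0, k1, k2⟩

/-- the height -/
def y1k (a b : ℕ) : PA 1 := fr1 (Pool.Agent.Helper86.CT.y1 a b)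
def y2k (a b : ℕ) : PA 2 := fr2 (Pool.Agent.Helper86.CT.y2 a b)
def y3k (a b : ℕ) : PA 3 := fr3 (Pool.Agent.Helper86.CT.y3 a b)
def y4k (a b : ℕ) : PA 4 := fr4 (Pool.Agent.Helper86.CT.y4 a b)
/-- functions of one kappa -/
def qd1k (j : ℕ) (a c b : Cx) : PA 1 := fr1 (Pool.Agent.Helper21.KTE.qd1 j a c b)
def qd2k (j : ℕ) (a c b : Cx) : PA 2 := fr2 (Pool.Agent.Helper21.KTE.qd2 j a c b)
def qd3k (j : ℕ) (a c b : Cx) : PA 3 := fr3 (Pool.Agent.Helper21.KTE.qd3 j a c b)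
def qd4k (j : ℕ) (a c b : Cx) : PA 4 := fr4 (Pool.Agent.Helper21.KTE.qd4 j a c b)
/-- all control values are real -/
def rtK {D : ℕ} (X : PA D) : Bool :=
  andB X.ok (Z.rec (motive := fun _ => Bool) (fun n => Nat.beq n (nat_lit 0))
    (fun n => Nat.beq n (nat_lit 0)) X.im)

end Pool.Agent.Helper86.CK
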